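import Mathlib

/-! Chains of integer affine maps against an adversary: from the Maynard-Tao theorem for `k`
admissible linear forms (taken here as an explicit hypothesis `MaynardTao k`) to syndeticity. -/

namespace Pool.Agent.H361R2

open Finset

/-- the Maynard-Tao theorem for `k` admissible linear forms: two of them are simultaneously
prime infinitely often -/
def MaynardTao (k : ℕ) : Prop :=
  ∀ (A : Fin k → ℕ) (B : Fin k → ℤ), (∀ i, 0 < A i) →
    Function.Injective (fun i => (A i, B i)) →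
    (∀ p : ℕ, p.Prime → ∃ n : ℤ, ∀ i, ¬ (p : ℤ) ∣ A i * n + B i) →
    ∃ i j, i ≠ j ∧ {n : ℕ | (∃ p : ℕ, p.Prime ∧ (A i * n + B i : ℤ) = p) ∧
      (∃ q : ℕ, q.Prime ∧ (A j * n + B j : ℤ) = q)}.Infinite

/-- there are infinitely many primes `q` for which `a + q d` is a (positive) prime -/
def Good (a d : ℤ) : Prop :=
  {q : ℕ | q.Prime ∧ ∃ p : ℕ, p.Prime ∧ (a + q * d : ℤ) = p}.Infinite

theorem exists_coprime_shift {a d : ℤ} (h : IsCoprime a d) {N : ℕ} (hN : 0 < N) :
    ∃ u : ℕ, u < N ∧ ∀ p : ℕ, p.Prime → p ∣ N → ¬ (p : ℤ) ∣ a + d * u := by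
  classical
  set w : ℕ := ∏ p ∈ N.primeFactors.filter (fun p : ℕ => ¬ (p : ℤ) ∣ a), p with hw
  refine ⟨w % N, Nat.mod_lt _ hN, ?_⟩
  intro p hp hpN hdvd
  have hmod : (p : ℤ) ∣ a + d * w := by
    have h1 : ((w % N : ℕ) : ℤ) = w - N * (w / N : ℕ) := by
      have := Nat.mod_add_div w N
      have h2 : ((w % N : ℕ) : ℤ) + N * (w / N : ℕ) = w := by exact_mod_cast this
      linarith
    rw [h1] at hdvd
    have h3 : (p : ℤ) ∣ d * (N * (w / N : ℕ)) :=
      Dvd.dvd.mul_left (Dvd.dvd.mul_right (Int.natCast_dvd_natCast.2 hpN) _) _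
    have h4 := dvd_add hdvd h3
    have h5 : a + d * (w - N * (w / N : ℕ)) + d * (N * (w / N : ℕ)) = a + d * w := by ring
    rwa [h5] at h4
  by_cases hpa : (p : ℤ) ∣ a
  · have h1 : (p : ℤ) ∣ d * w := (dvd_add_right hpa).1 hmod
    have hpI : Prime (p : ℤ) := Nat.prime_iff_prime_int.1 hp
    rcases hpI.dvd_or_dvd h1 with h2 | h2
    · have h3 := h.isUnit_of_dvd' hpa h2
      exact hpI.not_isUnit h3
    · have h3 : p ∣ w := Int.natCast_dvd_natCast.1 h2
      rw [hw] at h3
      obtain ⟨r, hr, hpr⟩ := (hp.prime.dvd_finsetProd_iff _).1 h3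
      rw [mem_filter, Nat.mem_primeFactors] at hr
      have : p = r := (Nat.prime_dvd_prime_iff_eq hp hr.1.1).1 hpr
      subst this
      exact hr.2 hpa
  · have h1 : (p : ℤ) ∣ d * w := by
      apply Dvd.dvd.mul_left
      rw [Int.natCast_dvd_natCast, hw]
      apply Finset.dvd_prod_of_mem (fun p => p)
      rw [mem_filter, Nat.mem_primeFactors]
      exact ⟨⟨hp, hpN, hN.ne'⟩, hpa⟩
    exact hpa ((dvd_add_left h1).1 hmod)

/-- avoiding one residue class for each of few forms -/
theorem exists_avoid {m p : ℕ} (hp : p.Prime) (hmp : m < p) (A : ℕ → ℕ) (B : ℕ → ℤ)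
    (hA : ∀ i < m, ¬ p ∣ A i) : ∃ n : ℤ, ∀ i < m, ¬ (p : ℤ) ∣ A i * n + B i := by
  classical
  by_contra hcon
  push Not at hcon
  choose f hf1 hf2 using fun n : ℕ => hcon (n : ℤ)
  have hmaps : ∀ n ∈ range p, f n ∈ range m := fun n _ => mem_range.2 (hf1 n)
  have hcard : (range m).card < (range p).card := by simpa using hmp
  obtain ⟨x, hx, y, hy, hxy, hfe⟩ := exists_ne_map_eq_of_card_lt_of_maps_to hcard hmaps
  have h1 := hf2 x
  have h2 := hf2 y
  rw [hfe] at h1
  have h3 := dvd_sub h1 h2
  have h4 : (A (f y) * (x : ℤ) + B (f y)) - (A (f y) * (y : ℤ) + B (f y)) =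
      (A (f y) : ℤ) * ((x : ℤ) - y) := by ring
  rw [h4] at h3
  have hpI : Prime (p : ℤ) := Nat.prime_iff_prime_int.1 hp
  rcases hpI.dvd_or_dvd h3 with h5 | h5
  · exact hA _ (hf1 y) (Int.natCast_dvd_natCast.1 h5)
  · rw [mem_range] at hx hy
    have h6 : (x : ℤ) ≡ y [ZMOD p] := (Int.modEq_iff_dvd.2 (by
      have := (dvd_neg (a := (p : ℤ))).2 h5
      rwa [neg_sub] at this))
    have h7 : x ≡ y [MOD p] := (Int.natCast_modEq_iff).1 h6
    exact hxy (Nat.ModEq.eq_of_lt_of_lt h7 hx hy)

/-- the chain built against an adversary -/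
theorem chain_exists
    (H : ∀ F : Finset (ℤ × ℕ), ∃ a : ℤ, ∃ d : ℕ, 0 < d ∧ IsCoprime a (d : ℤ) ∧
      ∀ f ∈ F, 0 < f.2 → ¬ Good (a + d * f.1) (d * f.2)) (m : ℕ) :
    ∃ (A : ℕ → ℕ) (B : ℕ → ℤ), (∀ i ≤ m, 0 < A i) ∧ (∀ i j, i < j → j ≤ m → A i < A j) ∧
      (∀ i j, i < j → j ≤ m → ∃ (u : ℤ) (D : ℕ), 0 < D ∧ A j = D * A i ∧ B j = u + D * B i ∧
        ¬ Good u D) ∧
      ∀ p : ℕ, p.Prime → ∃ n : ℤ, ∀ i ≤ m, ¬ (p : ℤ) ∣ A i * n + B i := by
  classical
  induction m with
  | zero =>
    refine ⟨fun _ => 1, fun _ => 0, ?_, ?_, ?_, ?_⟩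
    · intro i _; exact Nat.one_pos
    · intro i j h1 h2; omega
    · intro i j h1 h2; omega
    · intro p hp
      refine ⟨1, ?_⟩
      intro i _ h
      simp only [Nat.cast_one, mul_one, add_zero] at h
      exact (Nat.prime_iff_prime_int.1 hp).not_isUnit (isUnit_of_dvd_one h)
  | succ m ih =>
    obtain ⟨A, B, hpos, hmono, hrel, hadm⟩ := ih
    -- relations of the top form to all the others, including itself
    have hrel' : ∀ i, i ≤ m → ∃ (u : ℤ) (D : ℕ), 0 < D ∧ A m = D * A i ∧ B m = u + D * B i := by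
      intro i hi
      rcases Nat.lt_or_ge i m with h | h
      · obtain ⟨u, D, h0, h1, h2, _⟩ := hrel i m h le_rfl
        exact ⟨u, D, h0, h1, h2⟩
      · have : i = m := le_antisymm hi h
        subst this
        exact ⟨0, 1, Nat.one_pos, by ring, by push_cast; ring⟩
    choose! U V hV hAV hBV using hrel'
    set D0 : ℕ := (m + 2).factorial * A m with hD0
    have hD0pos : 0 < D0 := Nat.mul_pos (Nat.factorial_pos _) (hpos m le_rfl)
    have hD0two : 2 ≤ D0 := by
      have h1 : 2 ≤ (m + 2).factorial := by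
        calc 2 ≤ m + 2 := by omega
          _ ≤ (m + 2).factorial := Nat.self_le_factorial _
      calc 2 = 2 * 1 := by ring
        _ ≤ (m + 2).factorial * A m := Nat.mul_le_mul h1 (hpos m le_rfl)
    set F : Finset (ℤ × ℕ) := ((range D0) ×ˢ (range (m + 1))).image
      (fun t => ((t.1 : ℤ) + D0 * U t.2, D0 * V t.2)) with hF
    obtain ⟨a, d, hd, hcop, hbad⟩ := H F
    obtain ⟨u0, hu0, hu0p⟩ := exists_coprime_shift hcop hD0pos
    -- new chain
    refine ⟨fun i => if i ≤ m then A i else d * D0 * A m,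
      fun i => if i ≤ m then B i else a + d * u0 + d * D0 * B m, ?_, ?_, ?_, ?_⟩
    · intro i _
      by_cases h : i ≤ m
      · simp only [h, if_true]; exact hpos i h
      · simp only [h, if_false]
        exact Nat.mul_pos (Nat.mul_pos hd hD0pos) (hpos m le_rfl)
    · intro i j hij hj
      have hi : i ≤ m := by omega
      by_cases h : j ≤ m
      · simp only [hi, h, if_true]; exact hmono i j hij h
      · simp only [hi, h, if_true, if_false]
        have h1 : A i ≤ A m := by
          rcases Nat.lt_or_ge i m with h' | h'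
          · exact (hmono i m h' le_rfl).le
          · have : i = m := le_antisymm hi h'
            rw [this]
        have h2 : A m < d * D0 * A m := by
          have h3 : 2 ≤ d * D0 := le_trans hD0two (Nat.le_mul_of_pos_left _ hd)
          have h4 := hpos m le_rfl
          nlinarith
        omega
    · intro i j hij hj
      have hi : i ≤ m := by omega
      by_cases h : j ≤ m
      · simp only [hi, h, if_true]; exact hrel i j hij h
      · simp only [hi, h, if_true, if_false]
        refine ⟨a + d * (u0 + D0 * U i), d * (D0 * V i), ?_, ?_, ?_, ?_⟩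
        · exact Nat.mul_pos hd (Nat.mul_pos hD0pos (hV i hi))
        · rw [hAV i hi]; ring
        · rw [hBV i hi]; push_cast; ring
        · have hmem : ((u0 : ℤ) + D0 * U i, D0 * V i) ∈ F := by
            rw [hF, mem_image]
            exact ⟨(u0, i), by simp [hu0]; omega, rfl⟩
          have h1 := hbad _ hmem (Nat.mul_pos hD0pos (hV i hi))
          simpa using h1
    · intro p hp
      have hpI : Prime (p : ℤ) := Nat.prime_iff_prime_int.1 hp
      by_cases hpD : p ∣ D0
      · obtain ⟨n, hn⟩ := hadm p hp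
        refine ⟨n, ?_⟩
        intro i hi
        by_cases h : i ≤ m
        · simp only [h, if_true]; exact hn i h
        · simp only [h, if_false]
          intro hdvd
          apply hu0p p hp hpD
          have h1 : (p : ℤ) ∣ ((d * D0 * A m : ℕ) : ℤ) * n := by
            apply Dvd.dvd.mul_right
            rw [Int.natCast_dvd_natCast]
            exact Dvd.dvd.mul_right (Dvd.dvd.mul_left hpD _) _
          have h2 : (p : ℤ) ∣ d * D0 * B m := by
            apply Dvd.dvd.mul_right
            exact Dvd.dvd.mul_left (Int.natCast_dvd_natCast.2 hpD) _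
          have h3 : ((d * D0 * A m : ℕ) : ℤ) * n + (a + d * u0 + d * D0 * B m) =
            (a + d * u0) + (((d * D0 * A m : ℕ) : ℤ) * n + d * D0 * B m) := by ring
          rw [h3] at hdvd
          exact (dvd_add_left (dvd_add h1 h2)).1 hdvd
      · have hpbig : m + 2 < p := by
          by_contra hle
          push Not at hle
          exact hpD (Dvd.dvd.mul_right ((hp.dvd_factorial).2 hle) _)
        have hpA : ¬ p ∣ A m := fun h => hpD (Dvd.dvd.mul_left h _)
        have hpAi : ∀ i ≤ m, ¬ p ∣ A i := by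
          intro i hi h
          apply hpA
          rw [hAV i hi]
          exact Dvd.dvd.mul_left h _
        by_cases hpd : p ∣ d
        · obtain ⟨n, hn⟩ := hadm p hp
          refine ⟨n, ?_⟩
          intro i hi
          by_cases h : i ≤ m
          · simp only [h, if_true]; exact hn i h
          · simp only [h, if_false]
            intro hdvd
            have hpa : (p : ℤ) ∣ a := by
              have h1 : (p : ℤ) ∣ (d : ℤ) := Int.natCast_dvd_natCast.2 hpd
              have h3 : ((d * D0 * A m : ℕ) : ℤ) * n + (a + d * u0 + d * D0 * B m) =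
                a + d * (u0 + D0 * A m * n + D0 * B m) := by push_cast; ring
              rw [h3] at hdvd
              exact (dvd_add_left (Dvd.dvd.mul_right h1 _)).1 hdvd
            exact hpI.not_isUnit (hcop.isUnit_of_dvd' hpa (Int.natCast_dvd_natCast.2 hpd))
        · have havoid := exists_avoid (m := m + 2) hp hpbig
            (fun i => if i ≤ m then A i else d * D0 * A m)
            (fun i => if i ≤ m then B i else a + d * u0 + d * D0 * B m) (by
              intro i hi
              by_cases h : i ≤ m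
              · simp only [h, if_true]; exact hpAi i h
              · simp only [h, if_false]
                intro hdvd
                rcases (hp.dvd_mul).1 hdvd with h1 | h1
                · rcases (hp.dvd_mul).1 h1 with h2 | h2
                  · exact hpd h2
                  · exact hpD h2
                · exact hpA h1)
          obtain ⟨n, hn⟩ := havoid
          exact ⟨n, fun i hi => hn i (by omega)⟩

/-- an infinite set of `n` at which both forms are prime gives a good pair -/
theorem good_of_forms {A A' : ℕ} {B B' u : ℤ} {D : ℕ} (hA : 0 < A)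
    (hAA : A' = D * A) (hBB : B' = u + D * B)
    (hinf : {n : ℕ | (∃ p : ℕ, p.Prime ∧ (A * n + B : ℤ) = p) ∧
      (∃ q : ℕ, q.Prime ∧ (A' * n + B' : ℤ) = q)}.Infinite) : Good u D := by
  have hinj : Set.InjOn (fun n : ℕ => (A * n + B : ℤ).toNat)
      {n : ℕ | (∃ p : ℕ, p.Prime ∧ (A * n + B : ℤ) = p) ∧
      (∃ q : ℕ, q.Prime ∧ (A' * n + B' : ℤ) = q)} := by
    rintro x ⟨⟨p, hp, hpx⟩, _⟩ y ⟨⟨q, hq, hqy⟩, _⟩ hxy
    simp only at hxy
    rw [hpx, hqy] at hxy
    simp only [Int.toNat_natCast] at hxy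
    rw [hxy, ← hqy] at hpx
    have h1 : (A : ℤ) * x = A * y := by linarith
    have h2 : (A : ℤ) ≠ 0 := by exact_mod_cast hA.ne'
    exact_mod_cast mul_left_cancel₀ h2 h1
  apply (hinf.image hinj).mono
  rintro q ⟨n, ⟨⟨p, hp, hpn⟩, ⟨r, hr, hrn⟩⟩, rfl⟩
  simp only [Set.mem_ofPred_eq]
  rw [hpn, Int.toNat_natCast]
  refine ⟨hp, r, hr, ?_⟩
  rw [← hrn, ← hpn, hAA, hBB]
  push_cast
  ring

/-- **Syndeticity**: from Maynard-Tao. -/
theorem syndetic (k : ℕ) (hk : MaynardTao k) :
    ∃ F : Finset (ℤ × ℕ), ∀ (a : ℤ) (d : ℕ), 0 < d → IsCoprime a (d : ℤ) →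
      ∃ f ∈ F, 0 < f.2 ∧ Good (a + d * f.1) (d * f.2) := by
  by_contra hcon
  push Not at hcon
  obtain ⟨A, B, hpos, hmono, hrel, hadm⟩ := chain_exists hcon k
  obtain ⟨i, j, hij, hinf⟩ := hk (fun i => A i) (fun i => B i)
    (fun i => hpos i (by omega)) (by
      intro x y hxy
      simp only [Prod.mk.injEq] at hxy
      by_contra hne
      have hne' : (x : ℕ) ≠ y := fun h => hne (Fin.ext h)
      rcases Nat.lt_or_gt_of_ne hne' with h | h
      · exact (hmono x y h (by omega)).ne hxy.1
      · exact (hmono y x h (by omega)).ne' hxy.1) (by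
      intro p hp
      obtain ⟨n, hn⟩ := hadm p hp
      exact ⟨n, fun i => hn i (by omega)⟩)
  have hij' : (i : ℕ) ≠ j := fun h => hij (Fin.ext h)
  rcases Nat.lt_or_gt_of_ne hij' with h | h
  · obtain ⟨u, D, _, h1, h2, h3⟩ := hrel i j h (by omega)
    exact h3 (good_of_forms (hpos i (by omega)) h1 h2 hinf)
  · obtain ⟨u, D, _, h1, h2, h3⟩ := hrel j i h (by omega)
    refine h3 (good_of_forms (hpos j (by omega)) h1 h2 (hinf.mono ?_))
    rintro n ⟨h4, h5⟩
    exact ⟨h5, h4⟩

end Pool.Agent.H361R2
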