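import Mathlib
import Pool.Agent.H410R2.Iface2
import Pool.Agent.H361R2.Chain

/-! From the quantitative Maynard-Tao theorem of TEAM-MT to the qualitative statement used in
`Chain.lean`. -/

namespace Pool.Agent.H361R2

open Finset

theorem exists_avoid' {m p : ℕ} (hp : p.Prime) (hmp : m < p) (A B : Fin m → ℤ)
    (hA : ∀ i, ¬ ((p : ℤ) ∣ A i ∧ (p : ℤ) ∣ B i)) : ∃ n : ℕ, ∀ i, ¬ (p : ℤ) ∣ A i * n + B i := by
  classical
  by_contra hcon
  push Not at hcon
  choose f hf using fun n : ℕ => hcon n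
  have hmaps : ∀ n ∈ range p, f n ∈ (univ : Finset (Fin m)) := fun n _ => mem_univ _
  have hcard : (univ : Finset (Fin m)).card < (range p).card := by simpa using hmp
  obtain ⟨x, hx, y, hy, hxy, hfe⟩ := exists_ne_map_eq_of_card_lt_of_maps_to hcard hmaps
  have h1 := hf x
  have h2 := hf y
  rw [hfe] at h1
  have h3 := dvd_sub h1 h2
  have h4 : (A (f y) * (x : ℤ) + B (f y)) - (A (f y) * (y : ℤ) + B (f y)) =
      (A (f y) : ℤ) * ((x : ℤ) - y) := by ring
  rw [h4] at h3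
  have hpI : Prime (p : ℤ) := Nat.prime_iff_prime_int.1 hp
  rcases hpI.dvd_or_dvd h3 with h5 | h5
  · exact hA (f y) ⟨h5, (dvd_add_right (Dvd.dvd.mul_right h5 _)).1 h2⟩
  · rw [mem_range] at hx hy
    have h6 : (x : ℤ) ≡ y [ZMOD p] := (Int.modEq_iff_dvd.2 (by
      have := (dvd_neg (a := (p : ℤ))).2 h5
      rwa [neg_sub] at this))
    have h7 : x ≡ y [MOD p] := (Int.natCast_modEq_iff).1 h6
    exact hxy (Nat.ModEq.eq_of_lt_of_lt h7 hx hy)

theorem isCoprime_of_forall_prime {a b : ℤ} (h : ∀ p : ℕ, p.Prime → ¬ ((p : ℤ) ∣ a ∧ (p : ℤ) ∣ b)) :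
    IsCoprime a b := by
  rw [Int.isCoprime_iff_gcd_eq_one]
  by_contra hne
  obtain ⟨p, hp, hpd⟩ := Nat.exists_prime_and_dvd hne
  apply h p hp
  have h1 : (p : ℤ) ∣ (Int.gcd a b : ℤ) := Int.natCast_dvd_natCast.2 hpd
  exact ⟨h1.trans (Int.gcd_dvd_left _ _), h1.trans (Int.gcd_dvd_right _ _)⟩

theorem bridge (k : ℕ) (hMT : Pool.Agent.H410R2.MaynardTao k) : MaynardTao k := by
  classical
  intro A B hA hinj hadm
  -- primitive forms
  have hprim : ∀ i, ∀ p : ℕ, p.Prime → ¬ ((p : ℤ) ∣ A i ∧ (p : ℤ) ∣ B i) := by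
    intro i p hp ⟨h1, h2⟩
    obtain ⟨n, hn⟩ := hadm p hp
    exact hn i (dvd_add (Dvd.dvd.mul_right h1 _) h2)
  have hcop : ∀ i, IsCoprime (A i : ℤ) (B i) := fun i => isCoprime_of_forall_prime (hprim i)
  -- the shift
  choose! ν hν using hadm
  set T : Finset ℕ := (range (k + 2)).filter Nat.Prime with hT
  have hpair : Set.Pairwise (T : Set ℕ) (Function.onFun Nat.Coprime (fun p : ℕ => p)) := by
    intro p hp q hq hpq
    have hp' : p.Prime := (mem_filter.1 hp).2
    have hq' : q.Prime := (mem_filter.1 hq).2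
    exact (Nat.coprime_primes hp' hq').2 hpq
  obtain ⟨N0, hN0⟩ := Nat.chineseRemainderOfFinset (fun p : ℕ => ((ν p - 1) % p).toNat)
    (fun p : ℕ => p) T (fun p hp => (mem_filter.1 hp).2.ne_zero) hpair
  set M : ℕ := ∑ i, (B i).natAbs + 1 with hM
  set N : ℕ := N0 + M * (k + 1).factorial with hN
  have hNM : M ≤ N := by
    have : 1 ≤ (k + 1).factorial := Nat.factorial_pos _
    nlinarith [Nat.zero_le N0]
  have hNp : ∀ p ∈ T, (p : ℤ) ∣ (N : ℤ) - (ν p - 1) := by
    intro p hp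
    have hpp : p.Prime := (mem_filter.1 hp).2
    have hple : p ≤ k + 1 := by
      have := mem_range.1 (mem_filter.1 hp).1
      omega
    have h1 := hN0 p hp
    have h2 : (p : ℤ) ∣ (((ν p - 1) % p).toNat : ℤ) - (N0 : ℤ) := Nat.modEq_iff_dvd.1 h1
    rw [Int.toNat_of_nonneg (Int.emod_nonneg _ (by exact_mod_cast hpp.ne_zero))] at h2
    have h3 : (p : ℤ) ∣ (ν p - 1) - (ν p - 1) % p := Int.dvd_self_sub_emod
    have h4 : (p : ℤ) ∣ (M : ℤ) * ((k + 1).factorial : ℤ) :=
      Dvd.dvd.mul_left (Int.natCast_dvd_natCast.2 ((hpp.dvd_factorial).2 hple)) _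
    have h5 := dvd_sub h4 (dvd_add h2 h3)
    have h6 : (M : ℤ) * ((k + 1).factorial : ℤ) -
        (((ν p - 1) % p - (N0 : ℤ)) + ((ν p - 1) - (ν p - 1) % p)) = (N : ℤ) - (ν p - 1) := by
      rw [hN]; push_cast; ring
    rwa [h6] at h5
  have hbpos : ∀ i, 1 ≤ (A i : ℤ) * N + B i := by
    intro i
    have h1 : (B i).natAbs ≤ ∑ i, (B i).natAbs :=
      Finset.single_le_sum (f := fun i => (B i).natAbs) (fun _ _ => Nat.zero_le _) (mem_univ i)
    have h2 : (1 : ℤ) ≤ A i := by exact_mod_cast hA i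
    have h3 : ((B i).natAbs : ℤ) + 1 ≤ N := by
      have : (B i).natAbs + 1 ≤ N := by omega
      exact_mod_cast this
    have h4 : -((B i).natAbs : ℤ) ≤ B i := by
      have := neg_abs_le (B i)
      rwa [Int.abs_eq_natAbs] at this
    nlinarith
  set b : Fin k → ℕ := fun i => ((A i : ℤ) * N + B i).toNat with hb
  have hbz : ∀ i, (b i : ℤ) = (A i : ℤ) * N + B i := by
    intro i
    rw [hb]
    exact Int.toNat_of_nonneg (by have := hbpos i; omega)
  have hb1 : ∀ i, 1 ≤ b i := by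
    intro i
    have := hbpos i
    rw [← hbz] at this
    exact_mod_cast this
  have hnp : ∀ i j, i ≠ j → A i * b j ≠ A j * b i := by
    intro i j hij heq
    have h1 : (A i : ℤ) * b j = (A j : ℤ) * b i := by exact_mod_cast heq
    rw [hbz, hbz] at h1
    have h2 : (A i : ℤ) * B j = A j * B i := by linarith
    have h3 : (A i : ℤ) ∣ A j := (hcop i).dvd_of_dvd_mul_right (Dvd.intro _ h2)
    have h4 : (A j : ℤ) ∣ A i := (hcop j).dvd_of_dvd_mul_right (Dvd.intro _ h2.symm)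
    have h5 : A i = A j := Nat.dvd_antisymm (Int.natCast_dvd_natCast.1 h3) (Int.natCast_dvd_natCast.1 h4)
    have h6 : B i = B j := by
      rw [h5] at h2
      have h7 : (A j : ℤ) ≠ 0 := by exact_mod_cast (hA j).ne'
      exact (mul_left_cancel₀ h7 h2).symm
    exact hij (hinj (by simp [h5, h6]))
  have hadm' : ∀ p : ℕ, p.Prime → ∃ n : ℕ, ¬ p ∣ n ∧ ∀ i, ¬ p ∣ A i * n + b i := by
    intro p hp
    by_cases hpk : p < k + 2
    · refine ⟨1, fun h => hp.one_lt.ne' (Nat.dvd_one.1 h), ?_⟩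
      intro i hdvd
      have hpT : p ∈ T := mem_filter.2 ⟨mem_range.2 hpk, hp⟩
      apply hν p hp i
      have h1 : (p : ℤ) ∣ (A i : ℤ) * 1 + b i := by exact_mod_cast hdvd
      rw [hbz] at h1
      have h2 : (p : ℤ) ∣ (A i : ℤ) * ((N : ℤ) - (ν p - 1)) := Dvd.dvd.mul_left (hNp p hpT) _
      have h3 := dvd_sub h1 h2
      have h4 : (A i : ℤ) * 1 + ((A i : ℤ) * N + B i) - (A i : ℤ) * ((N : ℤ) - (ν p - 1)) =
          (A i : ℤ) * ν p + B i := by ring
      rwa [h4] at h3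
    · push Not at hpk
      obtain ⟨n, hn⟩ := exists_avoid' (m := k + 1) hp (by omega)
        (Fin.cons 1 (fun i => (A i : ℤ))) (Fin.cons 0 (fun i => (b i : ℤ))) (by
          intro i
          refine Fin.cases ?_ (fun i => ?_) i
          · simp only [Fin.cons_zero]
            rintro ⟨h1, _⟩
            exact (Nat.prime_iff_prime_int.1 hp).not_isUnit (isUnit_of_dvd_one h1)
          · simp only [Fin.cons_succ]
            rintro ⟨h1, h2⟩
            apply hprim i p hp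
            refine ⟨h1, ?_⟩
            rw [hbz] at h2
            exact (dvd_add_right (Dvd.dvd.mul_right h1 _)).1 h2)
      refine ⟨n, ?_, ?_⟩
      · intro h
        have := hn 0
        simp only [Fin.cons_zero, one_mul, add_zero] at this
        exact this (Int.natCast_dvd_natCast.2 h)
      · intro i h
        have := hn i.succ
        simp only [Fin.cons_succ] at this
        exact this (by exact_mod_cast h)
  obtain ⟨δ, hδ0, hδ1, x₀, hx₀⟩ := hMT A b (fun i => hA i) hb1 hnp hadm'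
  -- infinitely many n
  have hinf : {n : ℕ | ∃ i j, i ≠ j ∧ (A i * n + b i).Prime ∧ (A j * n + b j).Prime}.Infinite := by
    intro hfin
    set S := hfin.toFinset with hS
    have htend : Filter.Tendsto (fun x : ℝ => x ^ (1 - δ / 2)) Filter.atTop Filter.atTop :=
      tendsto_rpow_atTop (by linarith)
    obtain ⟨x, hx1, hx2⟩ := ((htend.eventually_gt_atTop (S.card : ℝ)).and
      (Filter.eventually_ge_atTop x₀)).exists
    have h1 := hx₀ x hx2
    have h2 : (((Icc 1 ⌊x⌋₊).filter (fun n => (∀ p : ℕ, p.Prime → p ∣ n → x ^ δ < p) ∧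
      ∃ i j, i ≠ j ∧ (A i * n + b i).Prime ∧ (A j * n + b j).Prime)).card : ℝ) ≤ S.card := by
      rw [Nat.cast_le]
      apply Finset.card_le_card
      intro n hn
      rw [hS, Set.Finite.mem_toFinset]
      exact (mem_filter.1 hn).2.2
    have h3 : (S.card : ℝ) < S.card := by
      refine lt_of_lt_of_le hx1 (h1.trans ?_)
      convert h2
    exact lt_irrefl _ h3
  -- pigeonhole
  have hcover : {n : ℕ | ∃ i j, i ≠ j ∧ (A i * n + b i).Prime ∧ (A j * n + b j).Prime} ⊆
      ⋃ ij : Fin k × Fin k, {n : ℕ | ij.1 ≠ ij.2 ∧ (A ij.1 * n + b ij.1).Prime ∧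
        (A ij.2 * n + b ij.2).Prime} := by
    rintro n ⟨i, j, h1, h2, h3⟩
    exact Set.mem_iUnion.2 ⟨(i, j), h1, h2, h3⟩
  have : ∃ ij : Fin k × Fin k, {n : ℕ | ij.1 ≠ ij.2 ∧ (A ij.1 * n + b ij.1).Prime ∧
        (A ij.2 * n + b ij.2).Prime}.Infinite := by
    by_contra hcon
    push Not at hcon
    apply hinf
    apply Set.Finite.subset _ hcover
    exact Set.finite_iUnion (fun ij => by
      have := hcon ij
      exact this)
  obtain ⟨⟨i, j⟩, hij⟩ := this
  have hne : i ≠ j := by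
    obtain ⟨n, hn⟩ := hij.nonempty
    exact hn.1
  refine ⟨i, j, hne, ?_⟩
  have hinj' : Set.InjOn (fun n : ℕ => n + N) {n : ℕ | (i, j).1 ≠ (i, j).2 ∧
      (A (i, j).1 * n + b (i, j).1).Prime ∧ (A (i, j).2 * n + b (i, j).2).Prime} :=
    fun a _ b _ h => by simpa using h
  apply (hij.image hinj').mono
  rintro _ ⟨n, ⟨_, h2, h3⟩, rfl⟩
  simp only at h2 h3
  refine ⟨⟨_, h2, ?_⟩, ⟨_, h3, ?_⟩⟩
  · push_cast
    rw [hbz]; ring
  · push_cast
    rw [hbz]; ring

end Pool.Agent.H361R2
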