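import Mathlib
import Pool.Agent.H361R2.Chain

/-! Positive proportion of pairs from syndeticity. -/

namespace Pool.Agent.H361R2

open Finset

theorem finite_sol {a d c : ℤ} (hd : 0 < d) : {q : ℕ | (a + q * d : ℤ) = c}.Finite := by
  apply Set.Subsingleton.finite
  intro x hx y hy
  have hx' : (a + x * d : ℤ) = c := hx
  have hy' : (a + y * d : ℤ) = c := hy
  have h1 : (x : ℤ) * d = y * d := by linarith
  exact_mod_cast mul_right_cancel₀ hd.ne' h1

theorem good_gcd {a d : ℤ} (hd : 0 < d) (h : Good a d) : Int.gcd a d = 1 := by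
  by_contra hne
  obtain ⟨r, hr, hrd⟩ := Nat.exists_prime_and_dvd hne
  apply h
  apply (finite_sol (a := a) (c := (r : ℤ)) hd).subset
  rintro q ⟨_, p, hp, hpe⟩
  have h1 : (r : ℤ) ∣ (Int.gcd a d : ℤ) := Int.natCast_dvd_natCast.2 hrd
  have h2 : (r : ℤ) ∣ a + q * d :=
    dvd_add (h1.trans (Int.gcd_dvd_left _ _)) (Dvd.dvd.mul_left (h1.trans (Int.gcd_dvd_right _ _)) _)
  rw [hpe] at h2
  have h3 : r = p := (Nat.prime_dvd_prime_iff_eq hr hp).1 (Int.natCast_dvd_natCast.1 h2)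
  show (a + q * d : ℤ) = r
  rw [hpe, h3]

theorem good_parity {a d : ℤ} (hd : 0 < d) (h : Good a d) : 2 ∣ a * d := by
  by_contra hne
  have hnot : ¬ Even (a * d) := fun he => hne he.two_dvd
  rw [Int.even_mul, not_or] at hnot
  have ha : Odd a := Int.not_even_iff_odd.1 hnot.1
  have hdo : Odd d := Int.not_even_iff_odd.1 hnot.2
  apply h
  apply ((finite_sol (a := a) (c := 2) hd).union (Set.finite_singleton 2)).subset
  rintro q ⟨hq, p, hp, hpe⟩
  rcases hq.eq_two_or_odd' with h2 | h2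
  · right; exact h2
  · left
    have hqo : Odd (q : ℤ) := by exact_mod_cast h2
    have h3 : Even (a + q * d) := ha.add_odd (hqo.mul hdo)
    rw [hpe] at h3
    have h4 : Even p := by exact_mod_cast h3
    have h5 : p = 2 := (Nat.Prime.even_iff hp).1 h4
    show (a + q * d : ℤ) = 2
    rw [hpe, h5]; rfl

theorem sum_inv_sq (m : ℕ) (hm : 1 ≤ m) :
    ∑ p ∈ (Icc 1 (2 * m)).filter Nat.Prime, 1 / (p : ℝ) ^ 2 ≤ 1 / 2 - 1 / (4 * (m : ℝ)) := by
  induction m, hm using Nat.le_induction with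
  | base =>
    have : (Icc 1 (2 * 1)).filter Nat.Prime = {2} := by decide
    rw [this]
    norm_num
  | succ m hm ih =>
    have h1 : (Icc 1 (2 * (m + 1))).filter Nat.Prime ⊆
        insert (2 * m + 1) ((Icc 1 (2 * m)).filter Nat.Prime) := by
      intro p hp
      rw [mem_filter, mem_Icc] at hp
      rw [mem_insert, mem_filter, mem_Icc]
      rcases Nat.lt_or_ge (2 * m) p with h | h
      · left
        rcases hp.2.eq_two_or_odd' with h2 | h2
        · omega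
        · obtain ⟨s, hs⟩ := h2
          omega
      · right; exact ⟨⟨hp.1.1, h⟩, hp.2⟩
    have h2 : ∑ p ∈ (Icc 1 (2 * (m + 1))).filter Nat.Prime, 1 / (p : ℝ) ^ 2 ≤
        ∑ p ∈ insert (2 * m + 1) ((Icc 1 (2 * m)).filter Nat.Prime), 1 / (p : ℝ) ^ 2 :=
      Finset.sum_le_sum_of_subset_of_nonneg h1 (fun _ _ _ => by positivity)
    have h3 : (2 * m + 1) ∉ (Icc 1 (2 * m)).filter Nat.Prime := by
      rw [mem_filter, mem_Icc]; omega
    rw [Finset.sum_insert h3] at h2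
    have hm' : (1 : ℝ) ≤ m := by exact_mod_cast hm
    have h4 : 1 / ((2 * m + 1 : ℕ) : ℝ) ^ 2 ≤ 1 / (4 * m) - 1 / (4 * (m + 1 : ℕ)) := by
      push_cast
      have h5 : 1 / (4 * (m : ℝ)) - 1 / (4 * (m + 1)) = 1 / (4 * m * (m + 1)) := by
        field_simp
        ring
      rw [h5]
      apply one_div_le_one_div_of_le (by positivity)
      nlinarith
    linarith

theorem sum_inv_sq' (n : ℕ) : ∑ p ∈ (Icc 1 n).filter Nat.Prime, 1 / (p : ℝ) ^ 2 ≤ 1 / 2 := by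
  have h1 : (Icc 1 n).filter Nat.Prime ⊆ (Icc 1 (2 * (n + 1))).filter Nat.Prime := by
    intro p hp
    rw [mem_filter, mem_Icc] at hp ⊢
    exact ⟨⟨hp.1.1, by omega⟩, hp.2⟩
  have h2 := Finset.sum_le_sum_of_subset_of_nonneg (f := fun p : ℕ => 1 / (p : ℝ) ^ 2) h1
    (fun _ _ _ => by positivity)
  have h3 := sum_inv_sq (n + 1) (by omega)
  have h4 : (0 : ℝ) ≤ 1 / (4 * ((n + 1 : ℕ) : ℝ)) := by positivity
  linarith

/-- at least half of the pairs in a box are coprime -/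
theorem coprime_count (X Y : ℕ) :
    (X : ℝ) * Y / 2 ≤ (((Ioc 0 X ×ˢ Ioc 0 Y).filter (fun z => Nat.Coprime z.1 z.2)).card : ℝ) := by
  classical
  have h1 : (Ioc 0 X ×ˢ Ioc 0 Y).card =
      ((Ioc 0 X ×ˢ Ioc 0 Y).filter (fun z => Nat.Coprime z.1 z.2)).card +
      ((Ioc 0 X ×ˢ Ioc 0 Y).filter (fun z => ¬ Nat.Coprime z.1 z.2)).card :=
    (Finset.card_filter_add_card_filter_not _).symm
  have h2 : (Ioc 0 X ×ˢ Ioc 0 Y).filter (fun z => ¬ Nat.Coprime z.1 z.2) ⊆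
      ((Icc 1 Y).filter Nat.Prime).biUnion (fun p =>
        ((Ioc 0 X).filter (fun x => p ∣ x)) ×ˢ ((Ioc 0 Y).filter (fun x => p ∣ x))) := by
    intro z hz
    rw [mem_filter, mem_product] at hz
    obtain ⟨p, hp, hpd⟩ := Nat.exists_prime_and_dvd hz.2
    have h3 : p ∣ z.1 := hpd.trans (Nat.gcd_dvd_left _ _)
    have h4 : p ∣ z.2 := hpd.trans (Nat.gcd_dvd_right _ _)
    have h5 := mem_Ioc.1 hz.1.2
    rw [mem_biUnion]
    refine ⟨p, ?_, ?_⟩
    · rw [mem_filter, mem_Icc]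
      exact ⟨⟨hp.one_lt.le, (Nat.le_of_dvd h5.1 h4).trans h5.2⟩, hp⟩
    · rw [mem_product, mem_filter, mem_filter]
      exact ⟨⟨hz.1.1, h3⟩, ⟨hz.1.2, h4⟩⟩
  have h3 : (((Ioc 0 X ×ˢ Ioc 0 Y).filter (fun z => ¬ Nat.Coprime z.1 z.2)).card : ℝ) ≤
      X * Y / 2 := by
    calc (((Ioc 0 X ×ˢ Ioc 0 Y).filter (fun z => ¬ Nat.Coprime z.1 z.2)).card : ℝ)
        ≤ ((∑ p ∈ (Icc 1 Y).filter Nat.Prime, (X / p) * (Y / p) : ℕ) : ℝ) := by
          rw [Nat.cast_le]
          refine (card_le_card h2).trans (card_biUnion_le.trans (le_of_eq ?_))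
          apply Finset.sum_congr rfl
          intro p _
          rw [card_product, Nat.Ioc_filter_dvd_card_eq_div, Nat.Ioc_filter_dvd_card_eq_div]
      _ ≤ ∑ p ∈ (Icc 1 Y).filter Nat.Prime, (X * Y : ℝ) * (1 / (p : ℝ) ^ 2) := by
          push_cast
          apply Finset.sum_le_sum
          intro p hp
          have hp0 : (0 : ℝ) < p := by exact_mod_cast (mem_filter.1 hp).2.pos
          have h4 : ((X / p : ℕ) : ℝ) ≤ X / p := Nat.cast_div_le
          have h5 : ((Y / p : ℕ) : ℝ) ≤ Y / p := Nat.cast_div_le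
          calc ((X / p : ℕ) : ℝ) * ((Y / p : ℕ) : ℝ) ≤ (X / p) * (Y / p) :=
                mul_le_mul h4 h5 (by positivity) (by positivity)
            _ = _ := by field_simp
      _ = (X * Y : ℝ) * ∑ p ∈ (Icc 1 Y).filter Nat.Prime, 1 / (p : ℝ) ^ 2 := by
          rw [Finset.mul_sum]
      _ ≤ (X * Y : ℝ) * (1 / 2) := mul_le_mul_of_nonneg_left (sum_inv_sq' Y) (by positivity)
      _ = _ := by ring
  have h4 : ((Ioc 0 X ×ˢ Ioc 0 Y).card : ℝ) = X * Y := by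
    rw [card_product]
    simp
  rw [h1] at h4
  push_cast at h4
  linarith

theorem final_arith {X Y K N T : ℝ} (hK : 0 < K) (hN : 0 < N)
    (h : X / (2 * K) * (Y / (2 * K)) / 2 ≤ N * T) : 1 / (8 * K ^ 2 * N) * X * Y ≤ T := by
  have h1 : 1 / (8 * K ^ 2 * N) * X * Y = (X / (2 * K) * (Y / (2 * K)) / 2) / N := by
    field_simp
    ring
  rw [h1, div_le_iff₀ hN]
  linarith

theorem positive_proportion (k : ℕ) (hk : MaynardTao k) :
    ∃ c : ℝ, 0 < c ∧ ∃ Y₀ : ℕ, ∀ X Y : ℕ, Y₀ ≤ Y → Y ≤ X →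
      c * X * Y ≤ (Set.ncard {ad : ℤ × ℤ | |ad.1| ≤ X ∧ 1 ≤ ad.2 ∧ ad.2 ≤ Y ∧
        Int.gcd ad.1 ad.2 = 1 ∧ 2 ∣ ad.1 * ad.2 ∧ Good ad.1 ad.2} : ℝ) := by
  classical
  obtain ⟨F, hF⟩ := syndetic k hk
  -- F is nonempty
  obtain ⟨f0, hf0, _⟩ := hF 0 1 one_pos (isCoprime_one_right)
  set U : ℕ := ∑ f ∈ F, f.1.natAbs with hU
  set Dm : ℕ := ∑ f ∈ F, f.2 with hDm
  have hUf : ∀ f ∈ F, f.1.natAbs ≤ U := fun f hf =>
    Finset.single_le_sum (f := fun f : ℤ × ℕ => f.1.natAbs) (fun _ _ => Nat.zero_le _) hf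
  have hDf : ∀ f ∈ F, f.2 ≤ Dm := fun f hf =>
    Finset.single_le_sum (f := fun f : ℤ × ℕ => f.2) (fun _ _ => Nat.zero_le _) hf
  set K : ℕ := U + Dm + 1 with hK
  have hKpos : 0 < K := by omega
  have hFcard : 0 < F.card := Finset.card_pos.2 ⟨f0, hf0⟩
  refine ⟨1 / (8 * K ^ 2 * F.card), by positivity, K, ?_⟩
  intro X Y hY hYX
  set X1 := X / K with hX1
  set Y1 := Y / K with hY1
  have hYX1 : Y1 ≤ X1 := Nat.div_le_div_right hYX
  have hX1K : X1 * K ≤ X := Nat.div_mul_le_self X K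
  have hY1K : Y1 * K ≤ Y := Nat.div_mul_le_self Y K
  -- choose
  set S := (Ioc 0 X1 ×ˢ Ioc 0 Y1).filter (fun z => Nat.Coprime z.1 z.2) with hS
  have hchoice : ∀ z : ℕ × ℕ, ∃ f : ℤ × ℕ, z ∈ S → f ∈ F ∧ 0 < f.2 ∧
      Good ((z.1 : ℤ) + z.2 * f.1) (z.2 * f.2) := by
    intro z
    by_cases hz : z ∈ S
    · rw [hS, mem_filter, mem_product, mem_Ioc, mem_Ioc] at hz
      obtain ⟨f, hf1, hf2, hf3⟩ := hF z.1 z.2 hz.1.2.1 (Nat.isCoprime_iff_coprime.2 hz.2)
      exact ⟨f, fun _ => ⟨hf1, hf2, hf3⟩⟩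
    · exact ⟨f0, fun h => absurd h hz⟩
  choose f hf using hchoice
  set Φ : ℕ × ℕ → ℤ × ℤ := fun z => ((z.1 : ℤ) + z.2 * (f z).1, (z.2 : ℤ) * (f z).2) with hΦ
  have hfiber : S.card ≤ F.card * (S.image Φ).card := by
    apply Finset.card_le_mul_card_image
    intro b _
    refine Finset.card_le_card_of_injOn f ?_ ?_
    · intro z hz
      simp only [coe_filter, Set.mem_ofPred_eq] at hz
      exact (hf z hz.1).1
    · intro z hz w hw hzw
      simp only [coe_filter, Set.mem_ofPred_eq] at hz hw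
      have h1 : Φ z = Φ w := hz.2.trans hw.2.symm
      simp only [hΦ, Prod.mk.injEq] at h1
      rw [hzw] at h1
      have hpos : ((f w).2 : ℤ) ≠ 0 := by exact_mod_cast (hf w hw.1).2.1.ne'
      have h2 : (z.2 : ℤ) = w.2 := mul_right_cancel₀ hpos h1.2
      have h3 : (z.1 : ℤ) = w.1 := by
        have := h1.1
        rw [h2] at this
        linarith
      exact Prod.ext (by exact_mod_cast h3) (by exact_mod_cast h2)
  set T : Set (ℤ × ℤ) := {ad : ℤ × ℤ | |ad.1| ≤ X ∧ 1 ≤ ad.2 ∧ ad.2 ≤ Y ∧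
        Int.gcd ad.1 ad.2 = 1 ∧ 2 ∣ ad.1 * ad.2 ∧ Good ad.1 ad.2} with hT
  have hTfin : T.Finite := by
    apply ((Set.finite_Icc (-(X : ℤ)) X).prod (Set.finite_Icc (1 : ℤ) Y)).subset
    rintro ad ⟨h1, h2, h3, _⟩
    exact ⟨abs_le.1 h1, h2, h3⟩
  have hsub : ((S.image Φ : Finset (ℤ × ℤ)) : Set (ℤ × ℤ)) ⊆ T := by
    intro y hy
    rw [mem_coe, mem_image] at hy
    obtain ⟨z, hz, rfl⟩ := hy
    obtain ⟨h1, h2, h3⟩ := hf z hz
    have hz' := hz
    rw [hS, mem_filter, mem_product, mem_Ioc, mem_Ioc] at hz'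
    obtain ⟨⟨⟨hz1, hz2⟩, ⟨hz3, hz4⟩⟩, _⟩ := hz'
    have hd : (0 : ℤ) < (z.2 : ℤ) * (f z).2 := by positivity
    refine ⟨?_, ?_, ?_, ?_, ?_, ?_⟩
    · simp only [hΦ]
      have h4 : |(z.1 : ℤ) + z.2 * (f z).1| ≤ z.1 + z.2 * U := by
        refine (abs_add_le _ _).trans ?_
        rw [abs_mul, Nat.abs_cast, Nat.abs_cast, Int.abs_eq_natAbs]
        have : ((f z).1.natAbs : ℤ) ≤ U := by exact_mod_cast hUf _ h1
        nlinarith
      have h5 : z.1 + z.2 * U ≤ X := by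
        have : z.2 * U ≤ X1 * U := Nat.mul_le_mul_right U (hz4.trans hYX1)
        have h6 : X1 + X1 * U ≤ X1 * K := by
          rw [hK]; nlinarith [Nat.zero_le (X1 * Dm)]
        omega
      have h5' : ((z.1 : ℤ) + z.2 * U) ≤ X := by exact_mod_cast h5
      exact h4.trans h5'
    · exact hd
    · simp only [hΦ]
      have h5 : z.2 * (f z).2 ≤ Y := by
        have h6 : z.2 * (f z).2 ≤ Y1 * K := by
          apply Nat.mul_le_mul hz4
          have := hDf _ h1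
          omega
        omega
      exact_mod_cast h5
    · exact good_gcd hd h3
    · exact good_parity hd h3
    · exact h3
  have hcard : ((S.image Φ).card : ℝ) ≤ (Set.ncard T : ℝ) := by
    rw [Nat.cast_le, ← Set.ncard_coe_finset]
    exact Set.ncard_le_ncard hsub hTfin
  have hScount := coprime_count X1 Y1
  have hfiber' : (S.card : ℝ) ≤ F.card * (S.image Φ).card := by exact_mod_cast hfiber
  have hK0 : (0 : ℝ) < K := by exact_mod_cast hKpos
  have hF0 : (0 : ℝ) < F.card := by exact_mod_cast hFcard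
  have hX1' : (X : ℝ) / (2 * K) ≤ X1 := by
    have h1 : X < (X1 + 1) * K := by
      have := Nat.lt_div_mul_add (a := X) (b := K) hKpos
      rw [← hX1] at this
      nlinarith
    have h2 : 1 ≤ X1 := by
      rw [hX1]; exact Nat.div_pos (hY.trans hYX) hKpos
    have h3 : (X : ℝ) < (X1 + 1) * K := by exact_mod_cast h1
    have h4 : (1 : ℝ) ≤ X1 := by exact_mod_cast h2
    rw [div_le_iff₀ (by positivity)]
    nlinarith
  have hY1' : (Y : ℝ) / (2 * K) ≤ Y1 := by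
    have h1 : Y < (Y1 + 1) * K := by
      have := Nat.lt_div_mul_add (a := Y) (b := K) hKpos
      rw [← hY1] at this
      nlinarith
    have h2 : 1 ≤ Y1 := by
      rw [hY1]; exact Nat.div_pos hY hKpos
    have h3 : (Y : ℝ) < (Y1 + 1) * K := by exact_mod_cast h1
    have h4 : (1 : ℝ) ≤ Y1 := by exact_mod_cast h2
    rw [div_le_iff₀ (by positivity)]
    nlinarith
  have hprod : (X : ℝ) / (2 * K) * (Y / (2 * K)) ≤ X1 * Y1 :=
    mul_le_mul hX1' hY1' (by positivity) (by positivity)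
  have hfinal : (X : ℝ) / (2 * K) * (Y / (2 * K)) / 2 ≤ F.card * (Set.ncard T : ℝ) := by
    calc (X : ℝ) / (2 * K) * (Y / (2 * K)) / 2 ≤ X1 * Y1 / 2 := by linarith
      _ ≤ S.card := hScount
      _ ≤ F.card * (S.image Φ).card := hfiber'
      _ ≤ F.card * (Set.ncard T : ℝ) := mul_le_mul_of_nonneg_left hcard hF0.le
  exact final_arith hK0 hF0 hfinal

end Pool.Agent.H361R2
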