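import Mathlib
import Pool.Agent.H361R2.Density

/-! Positive proportion of `m`-tuples of linear forms from a Maynard-Tao theorem for `m` primes. -/

namespace Pool.Agent.H361R2

open Finset

/-- among `k` distinct admissible linear forms, some `m` are simultaneously prime infinitely often -/
def MTm (m k : ℕ) : Prop := ∀ f : Fin k → ℕ × ℕ, (∀ i, 1 ≤ (f i).1 ∧ 1 ≤ (f i).2) →
  (∀ i j, i ≠ j → (f i).1 * (f j).2 ≠ (f j).1 * (f i).2) →
  (∀ p : ℕ, p.Prime → ∃ n : ℕ, ∀ i, ¬ p ∣ (f i).1 * n + (f i).2) →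
  ∃ s : Finset (Fin k), s.card = m ∧ {n : ℕ | ∀ i ∈ s, ((f i).1 * n + (f i).2).Prime}.Infinite

/-- a set of forms is good if they are simultaneously prime infinitely often -/
def SGood (s : Finset (ℕ × ℕ)) : Prop := {n : ℕ | ∀ z ∈ s, (z.1 * n + z.2).Prime}.Infinite

/-- a prime `p > k` cannot be covered by `k` primitive forms -/
theorem large_prime {k p : ℕ} (hp : p.Prime) (hkp : k < p) (f : Fin k → ℕ × ℕ)
    (hco : ∀ i, Nat.Coprime (f i).1 (f i).2) : ∃ n : ℕ, ∀ i, ¬ p ∣ (f i).1 * n + (f i).2 := by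
  classical
  by_contra hcon
  push Not at hcon
  choose g hg using hcon
  -- g : ℕ → Fin k; two n < p with the same index
  have hcard : (univ : Finset (Fin k)).card < (range p).card := by simpa using hkp
  obtain ⟨x, hx, y, hy, hxy, he⟩ := Finset.exists_ne_map_eq_of_card_lt_of_maps_to hcard
    (f := g) (fun a _ => Finset.mem_coe.2 (mem_univ (g a)))
  wlog hlt : x < y generalizing x y
  · exact this y hy x hx hxy.symm he.symm (lt_of_le_of_ne (not_lt.1 hlt) hxy.symm)
  have h1 := hg x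
  have h2 := hg y
  rw [← he] at h2
  have h3 : p ∣ (f (g x)).1 * (y - x) := by
    have e : (f (g x)).1 * y + (f (g x)).2 =
        (f (g x)).1 * (y - x) + ((f (g x)).1 * x + (f (g x)).2) := by
      have : (f (g x)).1 * y = (f (g x)).1 * (y - x) + (f (g x)).1 * x := by
        rw [← mul_add]; congr 1; omega
      rw [this, add_assoc]
    rw [e] at h2
    exact (Nat.dvd_add_left h1).1 h2
  rcases (hp.dvd_mul).1 h3 with h4 | h4
  · have h5 : p ∣ (f (g x)).2 := (Nat.dvd_add_right (h4.mul_right x)).1 h1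
    have h6 : p ∣ Nat.gcd (f (g x)).1 (f (g x)).2 := Nat.dvd_gcd h4 h5
    rw [hco (g x)] at h6
    exact hp.one_lt.ne' (Nat.dvd_one.1 h6)
  · have h5 := Nat.le_of_dvd (by omega) h4
    have h6 := mem_range.1 hy
    omega

/-- coprime forms in one residue class modulo `k!` form an admissible family -/
theorem admissible_class {k : ℕ} (f : Fin k → ℕ × ℕ) (hco : ∀ i, Nat.Coprime (f i).1 (f i).2)
    (hcl : ∀ i j, (f i).1 % k.factorial = (f j).1 % k.factorial ∧
      (f i).2 % k.factorial = (f j).2 % k.factorial) (p : ℕ) (hp : p.Prime) :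
    ∃ n : ℕ, ∀ i, ¬ p ∣ (f i).1 * n + (f i).2 := by
  rcases lt_or_ge k p with hkp | hkp
  · exact large_prime hp hkp f hco
  rcases Nat.eq_zero_or_pos k with hk0 | hk0
  · subst hk0
    exact ⟨0, fun i => i.elim0⟩
  set i0 : Fin k := ⟨0, hk0⟩ with hi0
  have hpk : p ∣ k.factorial := (hp.dvd_factorial).2 hkp
  have hcong : ∀ i, (f i).1 ≡ (f i0).1 [MOD p] ∧ (f i).2 ≡ (f i0).2 [MOD p] := by
    intro i
    have h := hcl i i0
    exact ⟨(show (f i).1 ≡ (f i0).1 [MOD k.factorial] from h.1).of_dvd hpk,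
      (show (f i).2 ≡ (f i0).2 [MOD k.factorial] from h.2).of_dvd hpk⟩
  have hone : ∃ n : ℕ, ¬ p ∣ (f i0).1 * n + (f i0).2 := by
    by_cases h2 : p ∣ (f i0).2
    · refine ⟨1, fun h => ?_⟩
      rw [mul_one] at h
      have h3 : p ∣ (f i0).1 := (Nat.dvd_add_left h2).1 h
      have h6 : p ∣ Nat.gcd (f i0).1 (f i0).2 := Nat.dvd_gcd h3 h2
      rw [hco i0] at h6
      exact hp.one_lt.ne' (Nat.dvd_one.1 h6)
    · exact ⟨0, by simpa using h2⟩
  obtain ⟨n, hn⟩ := hone
  refine ⟨n, fun i h => hn ?_⟩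
  have h1 : (f i).1 * n + (f i).2 ≡ (f i0).1 * n + (f i0).2 [MOD p] :=
    ((hcong i).1.mul_right n).add (hcong i).2
  exact (h1.dvd_iff dvd_rfl).1 h

theorem nonprop_of_coprime {z w : ℕ × ℕ} (hz : Nat.Coprime z.1 z.2) (hw : Nat.Coprime w.1 w.2)
    (hzw : z ≠ w) : z.1 * w.2 ≠ w.1 * z.2 := by
  intro h
  apply hzw
  have h1 : z.1 ∣ w.1 := by
    have : z.1 ∣ w.1 * z.2 := by rw [← h]; exact dvd_mul_right _ _
    exact hz.dvd_of_dvd_mul_right this
  have h2 : w.1 ∣ z.1 := by
    have : w.1 ∣ z.1 * w.2 := by rw [h]; exact dvd_mul_right _ _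
    exact hw.dvd_of_dvd_mul_right this
  have h3 : z.1 = w.1 := Nat.dvd_antisymm h1 h2
  have h4 : z.2 ∣ w.2 := by
    have : z.2 ∣ z.1 * w.2 := by rw [h]; exact dvd_mul_left _ _
    exact hz.symm.dvd_of_dvd_mul_left this
  have h5 : w.2 ∣ z.2 := by
    have : w.2 ∣ w.1 * z.2 := by rw [← h]; exact dvd_mul_left _ _
    exact hw.symm.dvd_of_dvd_mul_left this
  exact Prod.ext h3 (Nat.dvd_antisymm h4 h5)

/-- every `k`-subset of a residue class of coprime pairs contains a good `m`-subset -/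
theorem exists_good_subset {m k : ℕ} (h : MTm m k) (T : Finset (ℕ × ℕ))
    (hpos : ∀ z ∈ T, 1 ≤ z.1 ∧ 1 ≤ z.2) (hco : ∀ z ∈ T, Nat.Coprime z.1 z.2)
    (hcl : ∀ z ∈ T, ∀ w ∈ T, z.1 % k.factorial = w.1 % k.factorial ∧
      z.2 % k.factorial = w.2 % k.factorial)
    (K : Finset (ℕ × ℕ)) (hKT : K ⊆ T) (hK : K.card = k) : ∃ s ⊆ K, s.card = m ∧ SGood s := by
  classical
  set e := (K.equivFinOfCardEq hK).symm with he
  obtain ⟨s, hs, hinf⟩ := h (fun i => (e i).1) (fun i => hpos _ (hKT (e i).2))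
    (fun i j hij => nonprop_of_coprime (hco _ (hKT (e i).2)) (hco _ (hKT (e j).2))
      (fun h1 => hij (e.injective (Subtype.ext h1))))
    (admissible_class _ (fun i => hco _ (hKT (e i).2))
      (fun i j => hcl _ (hKT (e i).2) _ (hKT (e j).2)))
  refine ⟨s.image (fun i => (e i).1), ?_, ?_, ?_⟩
  · intro z hz
    obtain ⟨i, _, rfl⟩ := mem_image.1 hz
    exact (e i).2
  · rw [Finset.card_image_of_injective _ (fun i j hij => e.injective (Subtype.ext hij)), hs]
  · unfold SGood
    convert hinf using 2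
    ext n
    simp

open Classical in
/-- number of good `m`-subsets -/
theorem count_good {m k : ℕ} (hmk : m ≤ k) (h : MTm m k) (T : Finset (ℕ × ℕ))
    (hpos : ∀ z ∈ T, 1 ≤ z.1 ∧ 1 ≤ z.2) (hco : ∀ z ∈ T, Nat.Coprime z.1 z.2)
    (hcl : ∀ z ∈ T, ∀ w ∈ T, z.1 % k.factorial = w.1 % k.factorial ∧
      z.2 % k.factorial = w.2 % k.factorial) (hT : k ≤ T.card) :
    T.card.choose m ≤ k.choose m * ((T.powersetCard m).filter SGood).card := by
  set G := (T.powersetCard m).filter SGood with hG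
  have h1 : T.powersetCard k ⊆ G.biUnion (fun s => (T.powersetCard k).filter (fun K => s ⊆ K)) := by
    intro K hK
    rw [mem_powersetCard] at hK
    obtain ⟨s, hs1, hs2, hs3⟩ := exists_good_subset h T hpos hco hcl K hK.1 hK.2
    rw [mem_biUnion]
    refine ⟨s, ?_, ?_⟩
    · rw [hG, mem_filter, mem_powersetCard]
      exact ⟨⟨hs1.trans hK.1, hs2⟩, hs3⟩
    · rw [mem_filter, mem_powersetCard]
      exact ⟨hK, hs1⟩
  have h2 : ∀ s ∈ G, ((T.powersetCard k).filter (fun K => s ⊆ K)).card =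
      (T.card - m).choose (k - m) := by
    intro s hs
    rw [hG, mem_filter, mem_powersetCard] at hs
    obtain ⟨⟨hs1, hs2⟩, _⟩ := hs
    have h3 : ((T.powersetCard k).filter (fun K => s ⊆ K)).card =
        ((T \ s).powersetCard (k - m)).card := by
      apply Finset.card_bij (fun K _ => K \ s)
      · intro K hK
        rw [mem_filter, mem_powersetCard] at hK
        rw [mem_powersetCard]
        refine ⟨Finset.sdiff_subset_sdiff hK.1.1 (Finset.Subset.refl s), ?_⟩
        rw [Finset.card_sdiff_of_subset hK.2, hK.1.2, hs2]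
      · intro K hK K' hK' he
        rw [mem_filter, mem_powersetCard] at hK hK'
        rw [← Finset.sdiff_union_of_subset hK.2, ← Finset.sdiff_union_of_subset hK'.2, he]
      · intro K' hK'
        rw [mem_powersetCard] at hK'
        have hd : Disjoint K' s := by
          rw [Finset.disjoint_left]
          intro a ha has
          exact (mem_sdiff.1 (hK'.1 ha)).2 has
        refine ⟨K' ∪ s, ?_, ?_⟩
        · rw [mem_filter, mem_powersetCard]
          refine ⟨⟨Finset.union_subset (hK'.1.trans sdiff_subset) hs1, ?_⟩,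
            Finset.subset_union_right⟩
          rw [Finset.card_union_of_disjoint hd, hK'.2, hs2]
          omega
        · rw [Finset.union_sdiff_right, Finset.sdiff_eq_self_iff_disjoint]
          exact hd
    rw [h3, card_powersetCard, Finset.card_sdiff_of_subset hs1, hs2]
  have h4 : (T.card).choose k ≤ G.card * (T.card - m).choose (k - m) := by
    rw [← card_powersetCard]
    refine (card_le_card h1).trans (card_biUnion_le.trans (le_of_eq ?_))
    rw [Finset.sum_congr rfl h2, Finset.sum_const, smul_eq_mul]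
  have h5 := Nat.choose_mul (n := T.card) hmk
  have h6 : 0 < (T.card - m).choose (k - m) := Nat.choose_pos (by omega)
  have h7 : T.card.choose m * (T.card - m).choose (k - m) ≤
      k.choose m * G.card * (T.card - m).choose (k - m) := by
    rw [← h5]
    calc T.card.choose k * k.choose m ≤ (G.card * (T.card - m).choose (k - m)) * k.choose m :=
          Nat.mul_le_mul_right _ h4
      _ = _ := by ring
  exact Nat.le_of_mul_le_mul_right h7 h6

/-- the set of good `m`-tuples of forms in a box -/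
def DTuples (m X Y : ℕ) : Set (Fin m → ℕ × ℕ) :=
  {f | (∀ i, 1 ≤ (f i).1 ∧ (f i).1 ≤ X ∧ 1 ≤ (f i).2 ∧ (f i).2 ≤ Y) ∧ Function.Injective f ∧
    {n : ℕ | ∀ i, ((f i).1 * n + (f i).2).Prime}.Infinite}

theorem DTuples_finite (m X Y : ℕ) : (DTuples m X Y).Finite := by
  have h1 : (Set.pi Set.univ (fun _ : Fin m => (Set.Icc (0 : ℕ) X) ×ˢ (Set.Icc (0 : ℕ) Y))).Finite :=
    Set.Finite.pi' (fun _ => (Set.finite_Icc 0 X).prod (Set.finite_Icc 0 Y)) |>.subset (by
      intro f hf i
      exact hf i (Set.mem_univ i))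
  apply h1.subset
  rintro f ⟨hf, _, _⟩ i _
  exact ⟨⟨Nat.zero_le _, (hf i).2.1⟩, ⟨Nat.zero_le _, (hf i).2.2.2⟩⟩

open Classical in
theorem good_le_tuples {m X Y : ℕ} (T : Finset (ℕ × ℕ))
    (hT : ∀ z ∈ T, 1 ≤ z.1 ∧ z.1 ≤ X ∧ 1 ≤ z.2 ∧ z.2 ≤ Y) :
    ((T.powersetCard m).filter SGood).card ≤ (DTuples m X Y).ncard := by
  set G := (T.powersetCard m).filter SGood with hG
  have hex : ∀ s : Finset (ℕ × ℕ), ∃ f : Fin m → ℕ × ℕ, s ∈ G → (Function.Injective f ∧
      univ.image f = s) := by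
    intro s
    by_cases hs : s ∈ G
    · rw [hG, mem_filter, mem_powersetCard] at hs
      set e := (s.equivFinOfCardEq hs.1.2).symm with he
      refine ⟨fun i => (e i).1, fun _ => ⟨fun i j hij => e.injective (Subtype.ext hij), ?_⟩⟩
      ext z
      rw [mem_image]
      constructor
      · rintro ⟨i, _, rfl⟩
        exact (e i).2
      · intro hz
        exact ⟨e.symm ⟨z, hz⟩, mem_univ _, by simp⟩
    · exact ⟨fun _ => (0, 0), fun h => absurd h hs⟩
  choose F hF using hex
  have hinj : Set.InjOn F (G : Set (Finset (ℕ × ℕ))) := by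
    intro s hs t ht hst
    rw [← (hF s hs).2, ← (hF t ht).2, hst]
  have h1 : ((G.image F : Finset (Fin m → ℕ × ℕ)) : Set (Fin m → ℕ × ℕ)) ⊆ DTuples m X Y := by
    intro f hf
    rw [mem_coe, mem_image] at hf
    obtain ⟨s, hs, rfl⟩ := hf
    obtain ⟨h2, h3⟩ := hF s hs
    have hs' := hs
    rw [hG, mem_filter, mem_powersetCard] at hs'
    have hmem : ∀ i, F s i ∈ s := by
      intro i
      have h5 : F s i ∈ univ.image (F s) := mem_image_of_mem _ (mem_univ i)
      rw [h3] at h5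
      exact h5
    refine ⟨fun i => hT _ (hs'.1.1 (hmem i)), h2, ?_⟩
    refine hs'.2.mono ?_
    intro n hn i
    exact hn _ (hmem i)
  rw [← Finset.card_image_of_injOn hinj, ← Set.ncard_coe_finset]
  exact Set.ncard_le_ncard h1 (DTuples_finite m X Y)

/-- a positive proportion of all `m`-tuples of linear forms are simultaneously prime infinitely
often -/
theorem dickson_proportion (m k : ℕ) (hmk : m ≤ k) (h : MTm m k) :
    ∃ c : ℝ, 0 < c ∧ ∃ N₀ : ℕ, ∀ X Y : ℕ, N₀ ≤ X * Y →
      c * ((X : ℝ) * Y) ^ m ≤ ((DTuples m X Y).ncard : ℝ) := by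
  classical
  set W : ℕ := k.factorial with hW
  have hWpos : 0 < W := Nat.factorial_pos k
  have hW0 : (0 : ℝ) < W := by exact_mod_cast hWpos
  have hch : 0 < k.choose m := Nat.choose_pos hmk
  have hch0 : (0 : ℝ) < (k.choose m : ℝ) := by exact_mod_cast hch
  refine ⟨1 / ((4 * (W : ℝ) ^ 2) ^ m * m.factorial * k.choose m), by positivity,
    2 * W ^ 2 * (k + 2 * m), fun X Y hXY => ?_⟩
  set S := (Ioc 0 X ×ˢ Ioc 0 Y).filter (fun z => Nat.Coprime z.1 z.2) with hS
  have hScount := coprime_count X Y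
  rw [← hS] at hScount
  set b : ℝ := (X : ℝ) * Y / (2 * (W : ℝ) ^ 2) with hb
  obtain ⟨y, _, hy⟩ := Finset.exists_le_card_fiber_of_nsmul_le_card_of_maps_to
    (s := S) (t := range W ×ˢ range W) (f := fun z : ℕ × ℕ => (z.1 % W, z.2 % W)) (b := b)
    (fun z _ => by
      rw [mem_product, mem_range, mem_range]
      exact ⟨Nat.mod_lt _ hWpos, Nat.mod_lt _ hWpos⟩)
    ⟨(0, 0), by
      rw [mem_product]
      exact ⟨mem_range.2 hWpos, mem_range.2 hWpos⟩⟩
    (by
      rw [card_product, card_range, nsmul_eq_mul, hb]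
      push_cast
      have : (W : ℝ) * W * (X * Y / (2 * (W : ℝ) ^ 2)) = X * Y / 2 := by
        field_simp
      rw [this]
      exact hScount)
  set T := S.filter (fun z => (z.1 % W, z.2 % W) = y) with hTdef
  have hTS : T ⊆ S := Finset.filter_subset _ _
  have hTmem : ∀ z ∈ T, 1 ≤ z.1 ∧ z.1 ≤ X ∧ 1 ≤ z.2 ∧ z.2 ≤ Y := by
    intro z hz
    have h1 := hTS hz
    rw [hS, mem_filter, mem_product, mem_Ioc, mem_Ioc] at h1
    exact ⟨h1.1.1.1, h1.1.1.2, h1.1.2.1, h1.1.2.2⟩
  have hXYb : ((k : ℝ) + 2 * m) ≤ b := by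
    rw [hb, le_div_iff₀ (by positivity)]
    have : ((2 * W ^ 2 * (k + 2 * m) : ℕ) : ℝ) ≤ ((X * Y : ℕ) : ℝ) := by exact_mod_cast hXY
    push_cast at this
    linarith
  have hTk : ((k : ℝ) + 2 * m) ≤ T.card := hXYb.trans hy
  have hTk' : k + 2 * m ≤ T.card := by exact_mod_cast hTk
  have hcount := count_good hmk h T (fun z hz => ⟨(hTmem z hz).1, (hTmem z hz).2.2.1⟩)
    (fun z hz => (mem_filter.1 (hTS hz)).2)
    (fun z hz w hw => by
      have h1 := (mem_filter.1 hz).2
      have h2 := (mem_filter.1 hw).2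
      have h3 := h1.trans h2.symm
      rw [Prod.mk.injEq] at h3
      exact h3) (by omega)
  have hle := good_le_tuples (m := m) (X := X) (Y := Y) T hTmem
  have hpow := Nat.pow_le_choose (α := ℝ) m T.card
  have h8 : (T.card : ℝ) / 2 ≤ ((T.card + 1 - m : ℕ) : ℝ) := by
    rw [Nat.cast_sub (by omega)]
    push_cast
    have : ((2 * m : ℕ) : ℝ) ≤ T.card := by exact_mod_cast (by omega : 2 * m ≤ T.card)
    push_cast at this
    linarith
  have h9 : (b / 2) ^ m ≤ ((T.card + 1 - m : ℕ) : ℝ) ^ m := by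
    apply pow_le_pow_left₀
    · have : (0 : ℝ) ≤ b := by rw [hb]; positivity
      linarith
    · linarith
  have hfac : (0 : ℝ) < (m.factorial : ℝ) := by exact_mod_cast Nat.factorial_pos m
  have h10 : (b / 2) ^ m / m.factorial ≤ (T.card.choose m : ℝ) := by
    refine le_trans ?_ hpow
    exact div_le_div_of_nonneg_right h9 hfac.le
  have h11 : (T.card.choose m : ℝ) ≤ k.choose m * ((DTuples m X Y).ncard : ℝ) := by
    have : T.card.choose m ≤ k.choose m * (DTuples m X Y).ncard :=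
      hcount.trans (Nat.mul_le_mul_left _ hle)
    exact_mod_cast this
  have h12 : (b / 2) ^ m / m.factorial / k.choose m ≤ ((DTuples m X Y).ncard : ℝ) := by
    rw [div_le_iff₀ hch0]
    linarith
  refine le_trans (le_of_eq ?_) h12
  have e : b / 2 = (X : ℝ) * Y / (4 * (W : ℝ) ^ 2) := by rw [hb]; field_simp; ring
  rw [e, div_pow]
  field_simp

end Pool.Agent.H361R2
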