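import Mathlib
import Pool.Agent.H361R2.GMain
import Pool.Agent.H361R2.Bridge
import Pool.Agent.H361R2.Dickson

/-! Qualitative forms of the general Maynard-Tao theorem: integer forms, exact set of primes. -/

namespace Pool.Agent.H361R2

open Finset

/-- among `k` distinct admissible integer linear forms, for some set `S` of at least `m` indices the
set of indices at which the form is prime is exactly `S` for infinitely many `n` -/
def MTZ (m k : ℕ) : Prop :=
  ∀ (A : Fin k → ℕ) (B : Fin k → ℤ), (∀ i, 0 < A i) →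
    Function.Injective (fun i => (A i, B i)) →
    (∀ p : ℕ, p.Prime → ∃ n : ℤ, ∀ i, ¬ (p : ℤ) ∣ A i * n + B i) →
    ∃ S : Finset (Fin k), m ≤ S.card ∧
      {n : ℕ | ∀ i, (∃ p : ℕ, p.Prime ∧ (A i * n + B i : ℤ) = p) ↔ i ∈ S}.Infinite

theorem mtz_of_mtg (m k : ℕ) (hMT : GM.MTG m k) : MTZ m k := by
  classical
  intro A B hA hinj hadm
  -- primitive forms
  have hprim : ∀ i, ∀ p : ℕ, p.Prime → ¬ ((p : ℤ) ∣ A i ∧ (p : ℤ) ∣ B i) := by
    intro i p hp ⟨h1, h2⟩
    obtain ⟨n, hn⟩ := hadm p hp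
    exact hn i (dvd_add (Dvd.dvd.mul_right h1 _) h2)
  have hcop : ∀ i, IsCoprime (A i : ℤ) (B i) := fun i => isCoprime_of_forall_prime (hprim i)
  -- the shift
  choose! ν hν using hadm
  set T : Finset ℕ := (range (k + 2)).filter Nat.Prime with hT
  have hpair : Set.Pairwise (T : Set ℕ) (Function.onFun Nat.Coprime (fun p : ℕ => p)) := by
    intro p hp q hq hpq
    have hp' : p.Prime := (mem_filter.1 hp).2
    have hq' : q.Prime := (mem_filter.1 hq).2
    exact (Nat.coprime_primes hp' hq').2 hpq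
  obtain ⟨N0, hN0⟩ := Nat.chineseRemainderOfFinset (fun p : ℕ => ((ν p - 1) % p).toNat)
    (fun p : ℕ => p) T (fun p hp => (mem_filter.1 hp).2.ne_zero) hpair
  set M : ℕ := ∑ i, (B i).natAbs + 1 with hM
  set N : ℕ := N0 + M * (k + 1).factorial with hN
  have hNM : M ≤ N := by
    have : 1 ≤ (k + 1).factorial := Nat.factorial_pos _
    nlinarith [Nat.zero_le N0]
  have hNp : ∀ p ∈ T, (p : ℤ) ∣ (N : ℤ) - (ν p - 1) := by
    intro p hp
    have hpp : p.Prime := (mem_filter.1 hp).2
    have hple : p ≤ k + 1 := by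
      have := mem_range.1 (mem_filter.1 hp).1
      omega
    have h1 := hN0 p hp
    have h2 : (p : ℤ) ∣ (((ν p - 1) % p).toNat : ℤ) - (N0 : ℤ) := Nat.modEq_iff_dvd.1 h1
    rw [Int.toNat_of_nonneg (Int.emod_nonneg _ (by exact_mod_cast hpp.ne_zero))] at h2
    have h3 : (p : ℤ) ∣ (ν p - 1) - (ν p - 1) % p := Int.dvd_self_sub_emod
    have h4 : (p : ℤ) ∣ (M : ℤ) * ((k + 1).factorial : ℤ) :=
      Dvd.dvd.mul_left (Int.natCast_dvd_natCast.2 ((hpp.dvd_factorial).2 hple)) _
    have h5 := dvd_sub h4 (dvd_add h2 h3)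
    have h6 : (M : ℤ) * ((k + 1).factorial : ℤ) -
        (((ν p - 1) % p - (N0 : ℤ)) + ((ν p - 1) - (ν p - 1) % p)) = (N : ℤ) - (ν p - 1) := by
      rw [hN]; push_cast; ring
    rwa [h6] at h5
  have hbpos : ∀ i, 1 ≤ (A i : ℤ) * N + B i := by
    intro i
    have h1 : (B i).natAbs ≤ ∑ i, (B i).natAbs :=
      Finset.single_le_sum (f := fun i => (B i).natAbs) (fun _ _ => Nat.zero_le _) (mem_univ i)
    have h2 : (1 : ℤ) ≤ A i := by exact_mod_cast hA i
    have h3 : ((B i).natAbs : ℤ) + 1 ≤ N := by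
      have : (B i).natAbs + 1 ≤ N := by omega
      exact_mod_cast this
    have h4 : -((B i).natAbs : ℤ) ≤ B i := by
      have := neg_abs_le (B i)
      rwa [Int.abs_eq_natAbs] at this
    nlinarith
  set b : Fin k → ℕ := fun i => ((A i : ℤ) * N + B i).toNat with hb
  have hbz : ∀ i, (b i : ℤ) = (A i : ℤ) * N + B i := by
    intro i
    rw [hb]
    exact Int.toNat_of_nonneg (by have := hbpos i; omega)
  have hb1 : ∀ i, 1 ≤ b i := by
    intro i
    have := hbpos i
    rw [← hbz] at this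
    exact_mod_cast this
  have hnp : ∀ i j, i ≠ j → A i * b j ≠ A j * b i := by
    intro i j hij heq
    have h1 : (A i : ℤ) * b j = (A j : ℤ) * b i := by exact_mod_cast heq
    rw [hbz, hbz] at h1
    have h2 : (A i : ℤ) * B j = A j * B i := by linarith
    have h3 : (A i : ℤ) ∣ A j := (hcop i).dvd_of_dvd_mul_right (Dvd.intro _ h2)
    have h4 : (A j : ℤ) ∣ A i := (hcop j).dvd_of_dvd_mul_right (Dvd.intro _ h2.symm)
    have h5 : A i = A j := Nat.dvd_antisymm (Int.natCast_dvd_natCast.1 h3) (Int.natCast_dvd_natCast.1 h4)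
    have h6 : B i = B j := by
      rw [h5] at h2
      have h7 : (A j : ℤ) ≠ 0 := by exact_mod_cast (hA j).ne'
      exact (mul_left_cancel₀ h7 h2).symm
    exact hij (hinj (by simp [h5, h6]))
  have hadm' : ∀ p : ℕ, p.Prime → ∃ n : ℕ, ¬ p ∣ n ∧ ∀ i, ¬ p ∣ A i * n + b i := by
    intro p hp
    by_cases hpk : p < k + 2
    · refine ⟨1, fun h => hp.one_lt.ne' (Nat.dvd_one.1 h), ?_⟩
      intro i hdvd
      have hpT : p ∈ T := mem_filter.2 ⟨mem_range.2 hpk, hp⟩
      apply hν p hp i
      have h1 : (p : ℤ) ∣ (A i : ℤ) * 1 + b i := by exact_mod_cast hdvd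
      rw [hbz] at h1
      have h2 : (p : ℤ) ∣ (A i : ℤ) * ((N : ℤ) - (ν p - 1)) := Dvd.dvd.mul_left (hNp p hpT) _
      have h3 := dvd_sub h1 h2
      have h4 : (A i : ℤ) * 1 + ((A i : ℤ) * N + B i) - (A i : ℤ) * ((N : ℤ) - (ν p - 1)) =
          (A i : ℤ) * ν p + B i := by ring
      rwa [h4] at h3
    · push Not at hpk
      obtain ⟨n, hn⟩ := exists_avoid' (m := k + 1) hp (by omega)
        (Fin.cons 1 (fun i => (A i : ℤ))) (Fin.cons 0 (fun i => (b i : ℤ))) (by
          intro i
          refine Fin.cases ?_ (fun i => ?_) i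
          · simp only [Fin.cons_zero]
            rintro ⟨h1, _⟩
            exact (Nat.prime_iff_prime_int.1 hp).not_isUnit (isUnit_of_dvd_one h1)
          · simp only [Fin.cons_succ]
            rintro ⟨h1, h2⟩
            apply hprim i p hp
            refine ⟨h1, ?_⟩
            rw [hbz] at h2
            exact (dvd_add_right (Dvd.dvd.mul_right h1 _)).1 h2)
      refine ⟨n, ?_, ?_⟩
      · intro h
        have := hn 0
        simp only [Fin.cons_zero, one_mul, add_zero] at this
        exact this (Int.natCast_dvd_natCast.2 h)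
      · intro i h
        have := hn i.succ
        simp only [Fin.cons_succ] at this
        exact this (by exact_mod_cast h)
  obtain ⟨δ, hδ0, hδ1, x₀, hx₀⟩ := hMT A b (fun i => hA i) hb1 hnp hadm'
  set Sn : ℕ → Finset (Fin k) := fun n => univ.filter (fun i => (A i * n + b i).Prime) with hSn
  -- infinitely many n
  have hinf : {n : ℕ | m ≤ (Sn n).card}.Infinite := by
    intro hfin
    set S := hfin.toFinset with hS
    have htend : Filter.Tendsto (fun x : ℝ => x ^ (1 - δ / 2)) Filter.atTop Filter.atTop :=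
      tendsto_rpow_atTop (by linarith)
    obtain ⟨x, hx1, hx2⟩ := ((htend.eventually_gt_atTop (S.card : ℝ)).and
      (Filter.eventually_ge_atTop x₀)).exists
    have h1 := hx₀ x hx2
    refine absurd (lt_of_lt_of_le hx1 h1) (not_lt.2 ?_)
    rw [Nat.cast_le]
    apply Finset.card_le_card
    intro n hn
    rw [hS, Set.Finite.mem_toFinset]
    have h2 := (mem_filter.1 hn).2.2
    simp only [Set.mem_ofPred_eq, hSn]
    exact le_trans h2 (Finset.card_le_card (fun i hi => by
      rw [mem_filter] at hi ⊢; exact hi))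
  -- pigeonhole
  have hcover : {n : ℕ | m ≤ (Sn n).card} ⊆
      ⋃ S : Finset (Fin k), {n : ℕ | m ≤ S.card ∧ Sn n = S} := by
    intro n hn
    exact Set.mem_iUnion.2 ⟨Sn n, hn, rfl⟩
  have : ∃ S : Finset (Fin k), {n : ℕ | m ≤ S.card ∧ Sn n = S}.Infinite := by
    by_contra hcon
    push Not at hcon
    apply hinf
    apply Set.Finite.subset _ hcover
    exact Set.finite_iUnion (fun S => hcon S)
  obtain ⟨S, hS⟩ := this
  have hne : m ≤ S.card := by
    obtain ⟨n, hn⟩ := hS.nonempty
    exact hn.1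
  refine ⟨S, hne, ?_⟩
  have hinj' : Set.InjOn (fun n : ℕ => n + N) {n : ℕ | m ≤ S.card ∧ Sn n = S} :=
    fun a _ b _ h => by simpa using h
  apply (hS.image hinj').mono
  rintro _ ⟨n, ⟨_, h2⟩, rfl⟩
  intro i
  rw [← h2]
  simp only [hSn, mem_filter, mem_univ, true_and]
  have e : ((A i : ℤ) * ((n + N : ℕ) : ℤ) + B i) = ((A i * n + b i : ℕ) : ℤ) := by
    push_cast
    rw [hbz]; ring
  constructor
  · rintro ⟨p, hp, hpe⟩
    rw [e] at hpe
    have : A i * n + b i = p := by exact_mod_cast hpe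
    rw [this]; exact hp
  · intro hp
    exact ⟨_, hp, e⟩

/-- the form used in `Dickson.lean` -/
theorem mtm_of_mtz (m k : ℕ) (h : MTZ m k) : MTm m k := by
  classical
  intro f hf hnp hadm
  obtain ⟨S, hS, hinf⟩ := h (fun i => (f i).1) (fun i => ((f i).2 : ℤ)) (fun i => (hf i).1) (by
    intro i j hij
    by_contra hne
    simp only [Prod.mk.injEq, Nat.cast_inj] at hij
    exact hnp i j hne (by rw [hij.1, hij.2])) (by
    intro p hp
    obtain ⟨n, hn⟩ := hadm p hp
    refine ⟨n, fun i hi => hn i ?_⟩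
    exact_mod_cast hi)
  obtain ⟨s, hs, hsc⟩ := Finset.exists_subset_card_eq hS
  refine ⟨s, hsc, hinf.mono ?_⟩
  intro n hn i hi
  obtain ⟨p, hp, hpe⟩ := (hn i).2 (hs hi)
  have : (f i).1 * n + (f i).2 = p := by exact_mod_cast hpe
  rw [this]; exact hp

/-- the general Maynard-Tao theorem, integer forms -/
theorem mtz_exists (m : ℕ) : ∃ k : ℕ, m ≤ k ∧ MTZ m k := by
  -- use `m + 1` primes with `M = max m 1`
  obtain ⟨k, hk, h⟩ := GM.maynardTaoG (m + 1) (by omega)
  have hz := mtz_of_mtg _ _ h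
  have hz' : MTZ m k := by
    intro A B hA hinj hadm
    obtain ⟨S, hS, hinf⟩ := hz A B hA hinj hadm
    exact ⟨S, by omega, hinf⟩
  refine ⟨k, ?_, hz'⟩
  -- `m ≤ k` : apply to the forms `n + i * k!`... every `S` has at most `k` elements
  by_contra hlt
  push Not at hlt
  obtain ⟨S, hS, -⟩ := hz (fun _ => 1) (fun i => (i : ℤ) * (k.factorial : ℤ))
    (fun _ => one_pos) (by
      intro i j hij
      simp only [Prod.mk.injEq, true_and] at hij
      have h1 : ((k.factorial : ℕ) : ℤ) ≠ 0 := by exact_mod_cast (Nat.factorial_pos k).ne'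
      have h2 := mul_right_cancel₀ h1 hij
      exact Fin.ext (by exact_mod_cast h2)) (by
      intro p hp
      rcases lt_or_ge k p with hkp | hkp
      · obtain ⟨n, hn⟩ := exists_avoid' (m := k) hp hkp (fun _ => 1)
          (fun i => (i : ℤ) * (k.factorial : ℤ)) (by
            rintro i ⟨h1, _⟩
            exact (Nat.prime_iff_prime_int.1 hp).not_isUnit (isUnit_of_dvd_one h1))
        refine ⟨n, fun i hi => hn i ?_⟩
        simpa using hi
      · refine ⟨1, fun i hi => ?_⟩
        have h1 : (p : ℤ) ∣ (i : ℤ) * (k.factorial : ℤ) :=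
          Dvd.dvd.mul_left (Int.natCast_dvd_natCast.2 ((hp.dvd_factorial).2 hkp)) _
        have h2 : (p : ℤ) ∣ ((1 : ℕ) : ℤ) * 1 := (dvd_add_left h1).1 hi
        have h3 : (p : ℤ) ∣ 1 := by simpa using h2
        exact (Nat.prime_iff_prime_int.1 hp).not_isUnit (isUnit_of_dvd_one h3))
  have h1 : S.card ≤ k := by
    have := Finset.card_le_univ S
    simpa using this
  omega

end Pool.Agent.H361R2
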