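import Mathlib
import Pool.Agent.H361R2.GFinI

/-! Sieve weights with block dependent profiles: set-up and one-dimensional sums. -/

namespace Pool.Agent.H361R2.Inf

open Finset Filter Topology
open Pool.Agent.H410R2 hiding GP GP_prof GP_cut_some GP_cut_none GP_lip gg_pos gg_le_one gg_anti ee_bound ee_nonneg gg_lip LB_gg LB_ee Sums exists_sums yx wx wxi Br sum_GP_none sum_GP_some sum_GP_some_ee sum_GP_some_one sum_GPr_none sum_GPr_some S1_final QI_final S2_final
open GM (SPar)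

/-- block parameters -/
structure BPar (k : ℕ) where
  Q : Fin k → SPar
  hc : ∀ i, (Q i).c = 1 / 10
  hl : ∀ i, (Q i).lam = 10

variable {k : ℕ}

/-- common exponential minorant -/
noncomputable def eeC (t : ℝ) : ℝ := 1 + 10 * t + 100 * t ^ 2

theorem BPar.ee (B : BPar k) (i : Fin k) : (B.Q i).ee = eeC := by
  funext t
  unfold SPar.ee eeC
  rw [B.hl i]
  ring

theorem BPar.I1 (B : BPar k) (i : Fin k) :
    ∫ t in (0 : ℝ)..(1 / 10), (B.Q i).gg t = (B.Q i).I1 := by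
  unfold SPar.I1
  rw [B.hc i]

theorem BPar.I2 (B : BPar k) (i : Fin k) :
    ∫ t in (0 : ℝ)..(1 / 10), (B.Q i).gg t ^ 2 = (B.Q i).I2 := by
  unfold SPar.I2
  rw [B.hc i]

theorem BPar.IE (B : BPar k) (i : Fin k) :
    ∫ t in (0 : ℝ)..(1 / 10), (B.Q i).gg t ^ 2 * eeC t = (B.Q i).IE := by
  unfold SPar.IE
  rw [B.hc i, B.ee i]

/-- the profile functions -/
noncomputable def GPb (B : BPar k) (L L0 : ℝ) : Option (Fin k) → ℝ → ℝ
  | none, s => if s ≤ L0 then 1 - s / L0 else 0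
  | some i, s => if s ≤ 1 / 10 * L then (B.Q i).gg (s / L) else 0

theorem GPb_prof (B : BPar k) (L L0 : ℝ) (hL : 0 < L) (hL0 : 0 < L0) :
    Prof (Option (Fin k)) (GPb B L L0) where
  nonneg := by
    rintro (_ | i) s hs
    · simp only [GPb]
      split_ifs with h
      · have : s / L0 ≤ 1 := (div_le_one hL0).2 h
        linarith
      · exact le_rfl
    · simp only [GPb]
      split_ifs with h
      · exact (GM.gg_pos (B.Q i) (by positivity)).le
      · exact le_rfl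
  le_one := by
    rintro (_ | i) s hs
    · simp only [GPb]
      split_ifs with h
      · have : 0 ≤ s / L0 := by positivity
        linarith
      · norm_num
    · simp only [GPb]
      split_ifs with h
      · exact GM.gg_le_one (B.Q i) (by positivity)
      · norm_num
  anti := by
    rintro (_ | i) s t hs hst
    · simp only [GPb]
      split_ifs with h1 h2 h2
      · have : s / L0 ≤ t / L0 := by gcongr
        linarith
      · exact absurd (hst.trans h1) h2
      · have : s / L0 ≤ 1 := (div_le_one hL0).2 h2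
        linarith
      · exact le_rfl
    · simp only [GPb]
      split_ifs with h1 h2 h2
      · exact GM.gg_anti (B.Q i) (by positivity) (by gcongr)
      · exact absurd (hst.trans h1) h2
      · exact (GM.gg_pos (B.Q i) (by positivity)).le
      · exact le_rfl

theorem GPb_cut_none (B : BPar k) (L L0 : ℝ) (s : ℝ) (_hs : 0 ≤ s) (h : L0 < s) :
    GPb B L L0 none s = 0 := by
  simp only [GPb]
  rw [if_neg (not_le.2 h)]

theorem GPb_cut_some (B : BPar k) (L L0 : ℝ) (j : Option (Fin k)) (hj : j ≠ none) (s : ℝ)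
    (_hs : 0 ≤ s) (h : 1 / 10 * L < s) : GPb B L L0 j s = 0 := by
  rcases j with _ | j
  · exact absurd rfl hj
  · simp only [GPb]
    rw [if_neg (not_le.2 h)]

theorem eeC_bound (L : ℝ) (hL : 0 < L) (s : ℝ) (hs : 0 ≤ s) (h : s ≤ 1 / 10 * L) :
    Real.exp (10 / L * s) ≤ eeC (s / L) := by
  have h1 : s / L ≤ 1 / 10 := by rw [div_le_iff₀ hL]; exact h
  have h0 : 0 ≤ s / L := by positivity
  have h2 : |10 * (s / L)| ≤ 1 := by
    rw [abs_of_nonneg (by positivity)]
    linarith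
  have h3 := Real.abs_exp_sub_one_sub_id_le h2
  have h4 := (abs_le.1 h3).2
  have e1 : 10 / L * s = 10 * (s / L) := by ring
  rw [e1]
  unfold eeC
  nlinarith

theorem eeC_nonneg (L : ℝ) (hL : 0 < L) (s : ℝ) (hs : 0 ≤ s) : 0 ≤ eeC (s / L) := by
  have h0 : 0 ≤ s / L := by positivity
  unfold eeC
  positivity

/-- densities `(1/p) (p/(p-1))^r` -/
noncomputable def hr (r : ℕ) (p : ℕ) : ℝ := 1 / (p : ℝ) * ((p : ℝ) / ((p : ℝ) - 1)) ^ r

theorem one_add_pow_le (u : ℝ) (hu : 0 ≤ u) (hu1 : u ≤ 1) (r : ℕ) :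
    (1 + u) ^ r ≤ 1 + (2 ^ r - 1) * u := by
  induction r with
  | zero => simp
  | succ r ih =>
    have h2 : (1 : ℝ) ≤ 2 ^ r := one_le_pow₀ (by norm_num)
    calc (1 + u) ^ (r + 1) = (1 + u) ^ r * (1 + u) := pow_succ _ _
      _ ≤ (1 + (2 ^ r - 1) * u) * (1 + u) := by gcongr
      _ = 1 + 2 ^ r * u + (2 ^ r - 1) * (u * u) := by ring
      _ ≤ 1 + 2 ^ r * u + (2 ^ r - 1) * (1 * u) := by gcongr
      _ = 1 + (2 ^ (r + 1) - 1) * u := by ring

theorem hr_bound (r p : ℕ) (hp : p.Prime) : |hr r p - 1 / p| ≤ 2 ^ (r + 1) / (p : ℝ) ^ 2 := by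
  have h2 : (2 : ℝ) ≤ p := by exact_mod_cast hp.two_le
  have h1 : (0 : ℝ) < (p : ℝ) - 1 := by linarith
  have h0 : (0 : ℝ) < p := by linarith
  set u : ℝ := 1 / ((p : ℝ) - 1) with hu
  have hu0 : 0 ≤ u := by positivity
  have hu1 : u ≤ 1 := by rw [hu, div_le_one h1]; linarith
  have e1 : (p : ℝ) / ((p : ℝ) - 1) = 1 + u := by rw [hu]; field_simp; ring
  have h3 := one_add_pow_le u hu0 hu1 r
  have h4 : 1 ≤ (1 + u) ^ r := one_le_pow₀ (by linarith)
  have h5 : u ≤ 2 / (p : ℝ) := by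
    rw [hu, div_le_div_iff₀ h1 h0]; linarith
  have h6 : (0 : ℝ) ≤ 2 ^ r - 1 := by
    have : (1 : ℝ) ≤ 2 ^ r := one_le_pow₀ (by norm_num)
    linarith
  unfold hr
  rw [e1]
  have e2 : 1 / (p : ℝ) * (1 + u) ^ r - 1 / p = 1 / (p : ℝ) * ((1 + u) ^ r - 1) := by ring
  rw [e2, abs_of_nonneg (by have : 0 ≤ (1 + u) ^ r - 1 := by linarith
                            positivity)]
  calc 1 / (p : ℝ) * ((1 + u) ^ r - 1) ≤ 1 / (p : ℝ) * ((2 ^ r - 1) * (2 / (p : ℝ))) := by
        have : (1 + u) ^ r - 1 ≤ (2 ^ r - 1) * (2 / (p : ℝ)) := by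
          have := mul_le_mul_of_nonneg_left h5 h6
          linarith
        gcongr
    _ ≤ 1 / (p : ℝ) * (2 ^ r * (2 / (p : ℝ))) := by gcongr; linarith
    _ = 2 ^ (r + 1) / (p : ℝ) ^ 2 := by field_simp; ring

theorem hr_nonneg (r p : ℕ) (hp : p.Prime) : 0 ≤ hr r p := by
  have h2 : (2 : ℝ) ≤ p := by exact_mod_cast hp.two_le
  have h1 : (0 : ℝ) < (p : ℝ) - 1 := by linarith
  unfold hr
  positivity

theorem hr_one (p : ℕ) (hp : p.Prime) : hr 1 p = h0 p := by
  have h2 : (2 : ℝ) ≤ p := by exact_mod_cast hp.two_le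
  have h1 : (p : ℝ) - 1 ≠ 0 := by linarith
  unfold hr h0
  field_simp

theorem hr_two (p : ℕ) (hp : p.Prime) : hr 2 p = h1 p := by
  have h2 : (2 : ℝ) ≤ p := by exact_mod_cast hp.two_le
  have h1' : (p : ℝ) - 1 ≠ 0 := by linarith
  unfold hr h1
  field_simp

/-- the densities used -/
noncomputable def hs (K : ℕ) : Fin 5 → ℕ → ℝ := ![h0, h1, hb K, hr 4, hr 6]

theorem hs_bound (K : ℕ) (j : Fin 5) (p : ℕ) (hp : p.Prime) :
    |hs K j p - 1 / p| ≤ (4 * ((K : ℝ) + 2) + 128) / (p : ℝ) ^ 2 := by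
  have hp2 : (0 : ℝ) < (p : ℝ) ^ 2 := by
    have : (0 : ℝ) < p := by exact_mod_cast hp.pos
    positivity
  have key : ∀ (x C : ℝ), |x - 1 / p| ≤ C / (p : ℝ) ^ 2 → C ≤ 4 * ((K : ℝ) + 2) + 128 →
      |x - 1 / p| ≤ (4 * ((K : ℝ) + 2) + 128) / (p : ℝ) ^ 2 := by
    intro x C h1 h2
    exact h1.trans (by gcongr)
  have hK : (0 : ℝ) ≤ K := Nat.cast_nonneg K
  fin_cases j
  · exact key _ _ (h0_bound p hp) (by linarith)
  · have := hb_bound 0 p hp
    rw [← h1_eq] at this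
    exact key _ _ this (by push_cast; linarith)
  · exact key _ _ (hb_bound K p hp) (by linarith)
  · exact key _ _ (hr_bound 4 p hp) (by norm_num; linarith)
  · exact key _ _ (hr_bound 6 p hp) (by norm_num; linarith)

/-- all the one-dimensional asymptotics needed -/
structure SumsB (B : BPar k) (D : ℕ) (ε : ℝ) (K : ℕ) (L : ℝ) (P : Finset ℕ) : Prop where
  s1 : ∀ j i, |SS P (hs K j) (1 / 10) L (B.Q i).gg - BD D * L * (B.Q i).I1| ≤ ε * (BD D * L)
  s2 : ∀ j i, |SS P (hs K j) (1 / 10) L (fun t => (B.Q i).gg t ^ 2) - BD D * L * (B.Q i).I2| ≤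
    ε * (BD D * L)
  s3 : ∀ j i, |SS P (hs K j) (1 / 10) L (fun t => (B.Q i).gg t ^ 2 * eeC t) -
    BD D * L * (B.Q i).IE| ≤ ε * (BD D * L)
  n2 : ∀ j, |SS P (hs K j) 1 (L / 48) (fun t => (1 - t) ^ 2) - BD D * (L / 48) * (1 / 3)| ≤
    ε * (BD D * (L / 48))
  o1 : ∀ j, |SS P (hs K j) (1 / 2) L (fun _ => 1) - BD D * L * (1 / 2)| ≤ ε * (BD D * L)

theorem LB_gg' (B : BPar k) (i : Fin k) : LB (1 / 10) (B.Q i).G (B.Q i).gg := by
  have := GM.LB_gg (B.Q i)
  rwa [B.hc i] at this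

theorem LB_ee' : LB (1 / 10) 1000 eeC := by
  refine ⟨?_, ?_⟩
  · intro t ht
    have h1 := ht.1
    have h2 := ht.2
    unfold eeC
    constructor
    · positivity
    · nlinarith
  · intro s hs t ht
    have h1 := hs.1
    have h2 := hs.2
    have h3 := ht.1
    have h4 := ht.2
    unfold eeC
    have e : 1 + 10 * s + 100 * s ^ 2 - (1 + 10 * t + 100 * t ^ 2) =
        (10 + 100 * (s + t)) * (s - t) := by ring
    rw [e, abs_mul]
    apply mul_le_mul_of_nonneg_right _ (abs_nonneg _)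
    rw [abs_of_nonneg (by positivity)]
    linarith

theorem exists_sumsB (B : BPar k) (hOD : OneDim) (K : ℕ) (ε : ℝ) (hε : 0 < ε) :
    ∃ D₁ : ℕ, ∀ D : ℕ, D₁ ≤ D → ∀ᶠ L : ℝ in atTop, ∀ P : Finset ℕ,
      IsWin D (Real.exp L) P → SumsB B D ε K L P := by
  have hG0 : ∀ i, 0 ≤ (B.Q i).G := fun i => (B.Q i).G0.le
  have hGG : ∀ i, 0 ≤ (B.Q i).G * (B.Q i).G + (B.Q i).G * (B.Q i).G := fun i => by
    have := hG0 i
    positivity
  set C : ℝ := 4 * ((K : ℝ) + 2) + 128 with hC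
  choose D1 hD1 using fun i => hOD.use C (1 / 10) _ _ (by norm_num) (LB_gg' B i) ε hε
  choose D2 hD2 using fun i => hOD.use C (1 / 10) _ _ (by norm_num)
    ((LB_gg' B i).mul (LB_gg' B i) (hG0 i) (hG0 i)) ε hε
  choose D3 hD3 using fun i => hOD.use C (1 / 10) _ _ (by norm_num)
    (((LB_gg' B i).mul (LB_gg' B i) (hG0 i) (hG0 i)).mul LB_ee' (hGG i) (by norm_num)) ε hε
  obtain ⟨D4, hD4⟩ := hOD.use C 1 2 _ one_pos LB_f0 ε hε
  have LBo : LB (1 / 2) 1 (fun _ => 1) :=
    ⟨fun t _ => ⟨zero_le_one, le_rfl⟩, fun s _ t _ => by simp⟩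
  obtain ⟨D5, hD5⟩ := hOD.use C (1 / 2) 1 _ (by norm_num) LBo ε hε
  refine ⟨∑ i, D1 i + ∑ i, D2 i + ∑ i, D3 i + D4 + D5, fun D hD => ?_⟩
  have l1 : ∀ i, D1 i ≤ ∑ i, D1 i := fun i =>
    Finset.single_le_sum (f := D1) (fun _ _ => Nat.zero_le _) (Finset.mem_univ i)
  have l2 : ∀ i, D2 i ≤ ∑ i, D2 i := fun i =>
    Finset.single_le_sum (f := D2) (fun _ _ => Nat.zero_le _) (Finset.mem_univ i)
  have l3 : ∀ i, D3 i ≤ ∑ i, D3 i := fun i =>
    Finset.single_le_sum (f := D3) (fun _ _ => Nat.zero_le _) (Finset.mem_univ i)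
  have e1 := fun (j : Fin 5) (i : Fin k) => hD1 i D (by have := l1 i; omega) (hs K j)
    (fun p hp _ => hs_bound K j p hp)
  have e2 := fun (j : Fin 5) (i : Fin k) => hD2 i D (by have := l2 i; omega) (hs K j)
    (fun p hp _ => hs_bound K j p hp)
  have e3 := fun (j : Fin 5) (i : Fin k) => hD3 i D (by have := l3 i; omega) (hs K j)
    (fun p hp _ => hs_bound K j p hp)
  have e4 := fun (j : Fin 5) => hD4 D (by omega) (hs K j) (fun p hp _ => hs_bound K j p hp)
  have e5 := fun (j : Fin 5) => hD5 D (by omega) (hs K j) (fun p hp _ => hs_bound K j p hp)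
  have htend : Tendsto (fun L : ℝ => L / 48) atTop atTop :=
    tendsto_id.atTop_div_const (by norm_num)
  have E1 := Filter.eventually_all.2 fun j => Filter.eventually_all.2 (e1 j)
  have E2 := Filter.eventually_all.2 fun j => Filter.eventually_all.2 (e2 j)
  have E3 := Filter.eventually_all.2 fun j => Filter.eventually_all.2 (e3 j)
  have E4 := Filter.eventually_all.2 fun j => htend.eventually (e4 j)
  have E5 := Filter.eventually_all.2 e5
  filter_upwards [E1, E2, E3, E4, E5, eventually_ge_atTop (0 : ℝ)] with L a1 a2 a3 a4 a5 hL0 P hP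
  have hw : ∀ c : ℝ, c ≤ 1 → IsWin D (Real.exp (c * L)) P := by
    intro c hc
    refine ⟨hP.1, fun p hp hDp hpy => hP.2 p hp hDp (hpy.trans ?_)⟩
    apply Real.exp_le_exp.2
    nlinarith
  have hw0 : IsWin D (Real.exp (1 * (L / 48))) P := by
    have := hw (1 / 48) (by norm_num)
    rwa [show 1 * (L / 48) = 1 / 48 * L by ring]
  constructor
  · intro j i
    have := a1 j i P (hw _ (by norm_num))
    rwa [B.I1] at this
  · intro j i
    have := a2 j i P (hw _ (by norm_num))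
    have hsq : (fun t => (B.Q i).gg t * (B.Q i).gg t) = fun t => (B.Q i).gg t ^ 2 := by
      funext t; ring
    rw [hsq, B.I2] at this
    exact this
  · intro j i
    have := a3 j i P (hw _ (by norm_num))
    have hsq : (fun t => (B.Q i).gg t * (B.Q i).gg t * eeC t) =
        fun t => (B.Q i).gg t ^ 2 * eeC t := by
      funext t; ring
    rw [hsq, B.IE] at this
    exact this
  · intro j
    have := a4 j P hw0
    rwa [int_f0] at this
  · intro j
    have := a5 j P (hw _ (by norm_num))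
    have hint : (∫ t in (0 : ℝ)..(1 / 2), (1 : ℝ)) = 1 / 2 := by simp
    rwa [hint] at this

end Pool.Agent.H361R2.Inf
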