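import Mathlib
import Pool.Agent.H361R2.InfS1

/-! Block versions of the upper and lower bounds for the sieve sums. -/

namespace Pool.Agent.H361R2.Inf

open Finset Filter Topology
open Pool.Agent.H410R2 hiding GP GP_prof GP_cut_some GP_cut_none GP_lip gg_pos gg_le_one gg_anti ee_bound ee_nonneg gg_lip LB_gg LB_ee Sums exists_sums yx wx wxi Br sum_GP_none sum_GP_some sum_GP_some_ee sum_GP_some_one sum_GPr_none sum_GPr_some S1_final QI_final S2_final
open GM (SPar)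

variable {k : ℕ}

noncomputable def yxb (B : BPar k) (D : ℕ) (x : ℝ) : (Ix D x → Option (Option (Fin k))) → ℝ :=
  yw (prx D x) none (GPb B (Lx x) (Lx x / 48)) (Lx x)

noncomputable def wxb (B : BPar k) (a b : Fin k → ℕ) (D : ℕ) (x : ℝ) (n : ℕ) : ℝ :=
  ∑ σ, cw (prx D x) (yxb B D x) σ * hN (LF a b) (prx D x) σ n

noncomputable def wxib (B : BPar k) (a b : Fin k → ℕ) (D : ℕ) (x : ℝ) (i : Fin k) (n : ℕ) : ℝ :=
  ∑ σ, cw (prx D x) (yxb B D x) σ * hNI (some i) (LF a b) (prx D x) σ n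

/-- the bracket -/
noncomputable def BrB (B : BPar k) (i : Fin k) (ε : ℝ) : ℝ :=
  (1 - ε) * ((1 / 3 - ε) * ∏ l ∈ univ.erase i, ((B.Q l).I2 - ε)) -
    Real.exp (-9) * ((1 / 3 + ε) * ∏ l ∈ univ.erase i, ((B.Q l).IE + ε))

theorem sum_GPb_none (B : BPar k) (D : ℕ) (x : ℝ) (h : ℕ → ℝ) :
    ∑ a : Finset (Ix D x), (∏ t ∈ a, h (prx D x t)) *
      GPb B (Lx x) (Lx x / 48) none (lg (prx D x) a) ^ 2 =
      SS (Px D x) h 1 (Lx x / 48) (fun t => (1 - t) ^ 2) := by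
  rw [SS_eq _ _ _ _ _ (fun p hp => (Px_prime D x p hp).1.pos)]
  refine Finset.sum_congr rfl fun a _ => ?_
  simp only [GPb, one_mul]
  congr 1
  split_ifs <;> simp

theorem sum_GPb_some (B : BPar k) (D : ℕ) (x : ℝ) (i : Fin k) (h : ℕ → ℝ) :
    ∑ a : Finset (Ix D x), (∏ t ∈ a, h (prx D x t)) *
      GPb B (Lx x) (Lx x / 48) (some i) (lg (prx D x) a) ^ 2 =
      SS (Px D x) h (1 / 10) (Lx x) (fun t => (B.Q i).gg t ^ 2) := by
  rw [SS_eq _ _ _ _ _ (fun p hp => (Px_prime D x p hp).1.pos)]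
  refine Finset.sum_congr rfl fun a _ => ?_
  simp only [GPb]
  congr 1
  split_ifs <;> simp

theorem sum_GPb_some_ee (B : BPar k) (D : ℕ) (x : ℝ) (i : Fin k) (h : ℕ → ℝ) :
    ∑ a : Finset (Ix D x), (∏ t ∈ a, h (prx D x t)) *
      (GPb B (Lx x) (Lx x / 48) (some i) (lg (prx D x) a) ^ 2 * eeC (lg (prx D x) a / Lx x)) =
      SS (Px D x) h (1 / 10) (Lx x) (fun t => (B.Q i).gg t ^ 2 * eeC t) := by
  rw [SS_eq _ _ _ _ _ (fun p hp => (Px_prime D x p hp).1.pos)]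
  refine Finset.sum_congr rfl fun a _ => ?_
  simp only [GPb]
  congr 1
  split_ifs <;> simp

theorem sum_GPb_some_one (B : BPar k) (D : ℕ) (x : ℝ) (i : Fin k) (h : ℕ → ℝ) :
    ∑ a : Finset (Ix D x), GPb B (Lx x) (Lx x / 48) (some i) (lg (prx D x) a) *
      (∏ t ∈ a, h (prx D x t)) =
      SS (Px D x) h (1 / 10) (Lx x) (B.Q i).gg := by
  rw [SS_eq _ _ _ _ _ (fun p hp => (Px_prime D x p hp).1.pos)]
  refine Finset.sum_congr rfl fun a _ => ?_
  simp only [GPb]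
  rw [mul_comm]

theorem prod_erase_erase' (f : Option (Fin k) → ℝ) (i : Fin k) :
    ∏ j ∈ ((univ : Finset (Option (Fin k))).erase (some i)).erase none, f j =
      ∏ l ∈ univ.erase i, f (some l) := by
  have h : ((univ : Finset (Option (Fin k))).erase (some i)).erase none =
      (univ.erase i).map Function.Embedding.some := by
    ext j
    rcases j with _ | j
    · simp
    · simp [Finset.mem_erase]
  rw [h, Finset.prod_map]
  rfl

theorem SumsB.BD_nonneg_aux {B : BPar k} {D : ℕ} {ε : ℝ} {K : ℕ} {L : ℝ} {P : Finset ℕ}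
    (hS : SumsB B D ε K L P) (hB : 0 < BD D) (hL : 0 < L) : 0 < BD D * L ∧
    0 < BD D * (L / 48) := by
  have := hS.n2
  constructor <;> positivity

/-- first upper bound -/
theorem S1_finalB (B : BPar k) (hT1 : S1Upper) {a b : Fin k → ℕ} {D v : ℕ} (hc : Ctx a b D v)
    (ε : ℝ) (K : ℕ) (x : ℝ) (hx : 1 < x) (hS : SumsB B D ε K (Lx x) (Px D x)) :
    ∑ n ∈ (Icc 1 ⌊x⌋₊).filter (fun n => n ≡ v [MOD (WW D)]),
        Real.log (x / n) * (wxb B a b D x n) ^ 2 ≤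
      Q0 k D x * ((1 / 3 + ε) * ∏ i, ((B.Q i).I2 + ε)) + E0 k D x := by
  have hL := Lx_pos hx
  have hL0 : 0 < Lx x / 48 := by positivity
  have hprof := GPb_prof B (Lx x) (Lx x / 48) hL hL0
  have hsd := hc.sd (Px D x) (Px_prime D x)
  have h := S1_le hT1 (prx D x) (LF a b) (WW D) v hc.hW hsd (yxb B D x)
    (fun j s => GPb B (Lx x) (Lx x / 48) j (lg (prx D x) s)) 1 (Lx x / 48 + Lx x) zero_le_one
    (fun j s => hprof.nonneg j _ (lg_nonneg _ _)) (fun j s => hprof.le_one j _ (lg_nonneg _ _))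
    (fun σ => by
      rw [one_mul, yxb, abs_of_nonneg (yw_nonneg _ _ _ hprof _ _)]
      exact yw_le_prod _ _ _ hprof _ _)
    (fun σ hσ => yw_supp _ _ _ _ _ (fun s hs hs' => GPb_cut_none B _ _ s hs hs') σ hσ) x hx.le
  refine le_trans h ?_
  rw [one_pow, one_mul]
  rw [Fintype.prod_option, cardJ]
  apply add_le_add _ (le_of_eq rfl)
  have hB := hc.BDpos
  have hWpos : (0 : ℝ) < WW D := by exact_mod_cast hc.hW
  have hh1 : ∀ p ∈ Px D x, 0 ≤ h1 p := by
    intro p hp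
    unfold h1
    positivity
  have hp0 : ∀ p ∈ Px D x, 0 < p := fun p hp => (Px_prime D x p hp).1.pos
  have e1 := sum_GPb_none B D x h1
  have e2 := fun i => sum_GPb_some B D x i h1
  simp only [h1] at e1 e2
  rw [e1]
  simp_rw [e2]
  change x / WW D * (SS (Px D x) h1 1 (Lx x / 48) (fun t => (1 - t) ^ 2) *
        ∏ i, SS (Px D x) h1 (1 / 10) (Lx x) (fun t => (B.Q i).gg t ^ 2)) ≤ _
  have n2 : ∀ i, 0 ≤ SS (Px D x) h1 (1 / 10) (Lx x) (fun t => (B.Q i).gg t ^ 2) := fun i =>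
    SS_nonneg _ _ _ _ _ hh1 hp0 hL fun t _ => sq_nonneg _
  have n1 : 0 ≤ SS (Px D x) h1 1 (Lx x / 48) (fun t => (1 - t) ^ 2) :=
    SS_nonneg _ _ _ _ _ hh1 hp0 hL0 fun t _ => sq_nonneg _
  have u1 : SS (Px D x) h1 1 (Lx x / 48) (fun t => (1 - t) ^ 2) ≤
      BD D * (Lx x / 48) * (1 / 3 + ε) := by
    have := (abs_le.1 (hS.n2 1)).2
    simp only [hs, Matrix.cons_val_one, Matrix.cons_val_zero] at this
    linarith
  have u2 : ∀ i, SS (Px D x) h1 (1 / 10) (Lx x) (fun t => (B.Q i).gg t ^ 2) ≤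
      BD D * Lx x * ((B.Q i).I2 + ε) := by
    intro i
    have := (abs_le.1 (hS.s2 1 i)).2
    simp only [hs, Matrix.cons_val_one, Matrix.cons_val_zero] at this
    linarith
  calc x / WW D * (SS (Px D x) h1 1 (Lx x / 48) (fun t => (1 - t) ^ 2) *
        ∏ i, SS (Px D x) h1 (1 / 10) (Lx x) (fun t => (B.Q i).gg t ^ 2))
      ≤ x / WW D * ((BD D * (Lx x / 48) * (1 / 3 + ε)) *
        ∏ i, (BD D * Lx x * ((B.Q i).I2 + ε))) := by
        apply mul_le_mul_of_nonneg_left _ (by positivity)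
        apply mul_le_mul u1 _ (Finset.prod_nonneg fun i _ => n2 i) (n1.trans u1)
        exact Finset.prod_le_prod (fun i _ => n2 i) (fun i _ => u2 i)
    _ = _ := by
        unfold Q0
        rw [Finset.prod_mul_distrib, Finset.prod_const, Finset.card_univ, Fintype.card_fin]
        ring

/-- lower bound for the model form -/
theorem QI_finalB (B : BPar k) (hT3 : S2Model) {a b : Fin k → ℕ} {D v : ℕ} (hc : Ctx a b D v)
    (ε : ℝ) (hε : 0 < ε) (hε1 : ε < 1 / 3) (hI1 : ∀ i, ε < (B.Q i).I1) (hI2 : ∀ i, ε < (B.Q i).I2)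
    (hBr : ∀ i, 0 < BrB B i ε) (x : ℝ) (hx : 1 < x)
    (hκ : ∏ t : Ix D x, (1 + ((k + 1 : ℕ) : ℝ) / ((prx D x t : ℝ) - 1) ^ 2) ≤ 1 + ε)
    (hovl : ((k + 1 : ℕ) : ℝ) ^ 2 * ∑ t : Ix D x, (hb (k + 1) (prx D x t)) ^ 2 ≤ ε)
    (hS : SumsB B D ε (k + 1) (Lx x) (Px D x)) (i : Fin k) :
    (1 - ε) ^ 2 * (BD D * Lx x * ((B.Q i).I1 - ε)) ^ 2 *
      (BD D * (Lx x / 48) * (BD D * Lx x) ^ (k - 1) * BrB B i ε) ≤
      QI (some i) (prx D x) (cw (prx D x) (yxb B D x)) := by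
  have hL := Lx_pos hx
  have hL0 : 0 < Lx x / 48 := by positivity
  have hB := hc.BDpos
  have hprof := GPb_prof B (Lx x) (Lx x / 48) hL hL0
  have hp : ∀ t : Ix D x, Fintype.card (Option (Fin k)) + 1 ≤ prx D x t := by
    intro t
    rw [cardJ]
    have h1 := (Px_prime D x t.1 t.2).2
    have h2 := hc.hD
    have : prx D x t = t.1 := rfl
    omega
  have hpr : ∀ t : Ix D x, 0 ≤ hb (k + 1) (prx D x t) := by
    intro t
    have h1 := hp t
    rw [cardJ] at h1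
    have h2 : (((k + 1 : ℕ) + 1 : ℕ) : ℝ) ≤ (prx D x t : ℝ) := by exact_mod_cast h1
    push_cast at h2
    unfold hb
    push_cast
    apply div_nonneg
    · linarith
    · positivity
  have hκ2 : ∏ t : Ix D x, (1 + (Fintype.card (Option (Fin k)) : ℝ) /
      ((prx D x t : ℝ) - 1) ^ 2) ≤ 2 := by
    rw [cardJ]
    linarith
  have h := QI_lower hT3 (prx D x) hp none (some i) (by simp) (GPb B (Lx x) (Lx x / 48)) hprof
    (Lx x) (1 / 10 * Lx x) (10 / Lx x) (by positivity) (fun s => eeC (s / Lx x))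
    (fun s hs => eeC_nonneg (Lx x) hL s hs) (fun s hs h => eeC_bound (Lx x) hL s hs h)
    (fun j hj s hs h => GPb_cut_some B (Lx x) (Lx x / 48) j hj s hs h) hκ2 (hb (k + 1)) (by
      funext p
      unfold hb
      rw [cardJ])
  refine le_trans ?_ h
  have e1 : ∑ a : Finset (Ix D x), GPb B (Lx x) (Lx x / 48) (some i) (lg (prx D x) a) *
      ∏ t ∈ a, (1 / ((prx D x t : ℝ) - 1)) = SS (Px D x) h0 (1 / 10) (Lx x) (B.Q i).gg :=
    sum_GPb_some_one B D x i h0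
  have e2 := sum_GPb_none B D x (hb (k + 1))
  have e3 : ∏ j ∈ (univ.erase (some i)).erase none, ∑ a : Finset (Ix D x),
      (∏ t ∈ a, hb (k + 1) (prx D x t)) * GPb B (Lx x) (Lx x / 48) j (lg (prx D x) a) ^ 2 =
      ∏ l ∈ univ.erase i, SS (Px D x) (hb (k + 1)) (1 / 10) (Lx x) (fun t => (B.Q l).gg t ^ 2) := by
    rw [prod_erase_erase']
    exact Finset.prod_congr rfl fun l _ => sum_GPb_some B D x l (hb (k + 1))
  have e4 : ∏ j ∈ (univ.erase (some i)).erase none, ∑ a : Finset (Ix D x),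
      (∏ t ∈ a, hb (k + 1) (prx D x t)) * (GPb B (Lx x) (Lx x / 48) j (lg (prx D x) a) ^ 2 *
        eeC (lg (prx D x) a / Lx x)) =
      ∏ l ∈ univ.erase i,
        SS (Px D x) (hb (k + 1)) (1 / 10) (Lx x) (fun t => (B.Q l).gg t ^ 2 * eeC t) := by
    rw [prod_erase_erase']
    exact Finset.prod_congr rfl fun l _ => sum_GPb_some_ee B D x l (hb (k + 1))
  have e5 : Real.exp (-(10 / Lx x * (Lx x - 1 / 10 * Lx x))) = Real.exp (-9) := by
    congr 1
    field_simp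
    norm_num
  simp only [e1, e2, e3, e4, e5, cardJ]
  have hp0 : ∀ p ∈ Px D x, 0 < p := fun p hp => (Px_prime D x p hp).1.pos
  have hhb : ∀ p ∈ Px D x, 0 ≤ hb (k + 1) p := fun p hp => hpr ⟨p, hp⟩
  have nS0 : 0 ≤ SS (Px D x) (hb (k + 1)) 1 (Lx x / 48) (fun t => (1 - t) ^ 2) :=
    SS_nonneg _ _ _ _ _ hhb hp0 hL0 fun t _ => sq_nonneg _
  have nSE : ∀ l, 0 ≤ SS (Px D x) (hb (k + 1)) (1 / 10) (Lx x)
      (fun t => (B.Q l).gg t ^ 2 * eeC t) := fun l =>
    SS_nonneg _ _ _ _ _ hhb hp0 hL fun t ht => by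
      unfold eeC
      positivity
  have u0 : BD D * (Lx x / 48) * (1 / 3 - ε) ≤
      SS (Px D x) (hb (k + 1)) 1 (Lx x / 48) (fun t => (1 - t) ^ 2) := by
    have := (abs_le.1 (hS.n2 2)).1
    simp only [hs, Matrix.cons_val] at this
    linarith
  have u0' : SS (Px D x) (hb (k + 1)) 1 (Lx x / 48) (fun t => (1 - t) ^ 2) ≤
      BD D * (Lx x / 48) * (1 / 3 + ε) := by
    have := (abs_le.1 (hS.n2 2)).2
    simp only [hs, Matrix.cons_val] at this
    linarith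
  have uI : BD D * Lx x * ((B.Q i).I1 - ε) ≤ SS (Px D x) h0 (1 / 10) (Lx x) (B.Q i).gg := by
    have := (abs_le.1 (hS.s1 0 i)).1
    simp only [hs, Matrix.cons_val] at this
    linarith
  have u1 : ∀ l, BD D * Lx x * ((B.Q l).I2 - ε) ≤
      SS (Px D x) (hb (k + 1)) (1 / 10) (Lx x) (fun t => (B.Q l).gg t ^ 2) := by
    intro l
    have := (abs_le.1 (hS.s2 2 l)).1
    simp only [hs, Matrix.cons_val] at this
    linarith
  have uE : ∀ l, SS (Px D x) (hb (k + 1)) (1 / 10) (Lx x) (fun t => (B.Q l).gg t ^ 2 * eeC t) ≤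
      BD D * Lx x * ((B.Q l).IE + ε) := by
    intro l
    have := (abs_le.1 (hS.s3 2 l)).2
    simp only [hs, Matrix.cons_val] at this
    linarith
  set S0 := SS (Px D x) (hb (k + 1)) 1 (Lx x / 48) (fun t => (1 - t) ^ 2) with hS0
  set S1 := ∏ l ∈ univ.erase i, SS (Px D x) (hb (k + 1)) (1 / 10) (Lx x)
    (fun t => (B.Q l).gg t ^ 2) with hS1
  set SE := ∏ l ∈ univ.erase i, SS (Px D x) (hb (k + 1)) (1 / 10) (Lx x)
    (fun t => (B.Q l).gg t ^ 2 * eeC t) with hSE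
  set SI := SS (Px D x) h0 (1 / 10) (Lx x) (B.Q i).gg with hSI
  set κ := ∏ t : Ix D x, (1 + ((k + 1 : ℕ) : ℝ) / ((prx D x t : ℝ) - 1) ^ 2) with hκd
  set ov := ((k + 1 : ℕ) : ℝ) ^ 2 * ∑ t : Ix D x, (hb (k + 1) (prx D x t)) ^ 2 with hov
  have hcard : (univ.erase i : Finset (Fin k)).card = k - 1 := by
    rw [Finset.card_erase_of_mem (Finset.mem_univ i), Finset.card_univ, Fintype.card_fin]
  have p1 : (BD D * Lx x) ^ (k - 1) * ∏ l ∈ univ.erase i, ((B.Q l).I2 - ε) ≤ S1 := by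
    rw [← hcard, ← Finset.prod_const, ← Finset.prod_mul_distrib]
    apply Finset.prod_le_prod
    · intro l _
      have : 0 ≤ (B.Q l).I2 - ε := by linarith [hI2 l]
      positivity
    · intro l _
      exact u1 l
  have pE : SE ≤ (BD D * Lx x) ^ (k - 1) * ∏ l ∈ univ.erase i, ((B.Q l).IE + ε) := by
    rw [← hcard, ← Finset.prod_const, ← Finset.prod_mul_distrib]
    exact Finset.prod_le_prod (fun l _ => nSE l) (fun l _ => uE l)
  have hSE0 : 0 ≤ SE := Finset.prod_nonneg fun l _ => nSE l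
  have pI0 : 0 ≤ ∏ l ∈ univ.erase i, ((B.Q l).I2 - ε) := Finset.prod_nonneg fun l _ => by
    linarith [hI2 l]
  have b1 : (1 - ε) ^ 2 ≤ (2 - κ) ^ 2 := by
    have : 1 - ε ≤ 2 - κ := by linarith
    have : 0 ≤ 1 - ε := by linarith
    gcongr
  have b2 : (BD D * Lx x * ((B.Q i).I1 - ε)) ^ 2 ≤ SI ^ 2 := by
    have h1 : 0 ≤ (B.Q i).I1 - ε := by linarith [hI1 i]
    gcongr
  have b3 : (1 - ε) * ((BD D * (Lx x / 48) * (1 / 3 - ε)) *
      ((BD D * Lx x) ^ (k - 1) * ∏ l ∈ univ.erase i, ((B.Q l).I2 - ε))) ≤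
      (1 - ov) * (S0 * S1) := by
    have h1 : 0 ≤ 1 / 3 - ε := by linarith
    have h5 : 0 ≤ 1 - ε := by linarith
    have h6 : 1 - ε ≤ 1 - ov := by linarith
    have h7 : 0 ≤ 1 - ov := by linarith
    gcongr
  have b4 : Real.exp (-9) * (S0 * SE) ≤
      Real.exp (-9) * ((BD D * (Lx x / 48) * (1 / 3 + ε)) *
        ((BD D * Lx x) ^ (k - 1) * ∏ l ∈ univ.erase i, ((B.Q l).IE + ε))) := by
    gcongr
  have b5 : BD D * (Lx x / 48) * (BD D * Lx x) ^ (k - 1) * BrB B i ε ≤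
      (1 - ov) * (S0 * S1) - Real.exp (-9) * (S0 * SE) := by
    have e : BD D * (Lx x / 48) * (BD D * Lx x) ^ (k - 1) * BrB B i ε =
        (1 - ε) * ((BD D * (Lx x / 48) * (1 / 3 - ε)) *
      ((BD D * Lx x) ^ (k - 1) * ∏ l ∈ univ.erase i, ((B.Q l).I2 - ε))) -
        Real.exp (-9) * ((BD D * (Lx x / 48) * (1 / 3 + ε)) *
        ((BD D * Lx x) ^ (k - 1) * ∏ l ∈ univ.erase i, ((B.Q l).IE + ε))) := by
      unfold BrB
      ring
    rw [e]
    linarith
  have n5 : 0 ≤ BD D * (Lx x / 48) * (BD D * Lx x) ^ (k - 1) * BrB B i ε := by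
    have := hBr i
    positivity
  gcongr

/-- lower bound for the prime sums -/
theorem S2_finalB (B : BPar k) (hT2 : S2Approx) (hT3 : S2Model) (hBV : BVAP) (hPNT : PNTLog)
    (hPB : ProdBound)
    (hOB : OmegaBound) {a b : Fin k → ℕ} {D v : ℕ} (hc : Ctx a b D v) (ε : ℝ) (hε : 0 < ε)
    (hε1 : ε < 1 / 3) (hI1 : ∀ i, ε < (B.Q i).I1) (hI2 : ∀ i, ε < (B.Q i).I2)
    (hBr : ∀ i, 0 < BrB B i ε)
    (hκ : ∀ x, ∏ t : Ix D x, (1 + ((k + 1 : ℕ) : ℝ) / ((prx D x t : ℝ) - 1) ^ 2) ≤ 1 + ε)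
    (hovl : ∀ x, ((k + 1 : ℕ) : ℝ) ^ 2 * ∑ t : Ix D x, (hb (k + 1) (prx D x t)) ^ 2 ≤ ε)
    (hS : ∀ᶠ x : ℝ in atTop, SumsB B D ε (k + 1) (Lx x) (Px D x)) :
    ∀ᶠ x : ℝ in atTop, ∀ i : Fin k,
      Lx x * Q0 k D x * ((1 - ε) ^ 3 * ((B.Q i).I1 - ε) ^ 2 * BrB B i ε) - x ≤
      ∑ n ∈ (Icc 1 ⌊x⌋₊).filter
          (fun n => n ≡ v [MOD (WW D)] ∧ ((a i * n + b i : ℕ) : ℝ) ≤ a i * x),
        ArithmeticFunction.vonMangoldt (a i * n + b i) *
          Real.log (a i * x / ((a i * n + b i : ℕ) : ℝ)) * (wxib B a b D x i n) ^ 2 := by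
  have hErr : ∀ᶠ x : ℝ in atTop, ∀ i : Fin k, ∀ r : ℕ → ℕ,
      ErrT ((k + 1 : ℕ) : ℝ) D (a i) (b i) (WW D) x r ≤ x := by
    rw [Filter.eventually_all]
    intro i
    exact ErrT_le hBV hPB hOB _ (by push_cast; linarith [(Nat.cast_nonneg k : (0 : ℝ) ≤ k)]) D
      (a i) (b i) (WW D) (hc.ha i) hc.hW
  have hpsi : ∀ᶠ x : ℝ in atTop, ∀ i : Fin k, (1 - ε) * (a i * x) ≤ psiLog1 (a i * x) := by
    rw [Filter.eventually_all]
    intro i
    have hai : (0 : ℝ) < a i := by exact_mod_cast hc.ha i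
    have h1 : ∀ᶠ X : ℝ in atTop, 1 - ε < psiLog1 X / X :=
      hPNT.eventually (lt_mem_nhds (by linarith))
    have h2 : Tendsto (fun x : ℝ => (a i : ℝ) * x) atTop atTop :=
      tendsto_id.const_mul_atTop hai
    filter_upwards [h2.eventually h1, eventually_gt_atTop (0 : ℝ)] with x hx hx0
    rw [lt_div_iff₀ (by positivity)] at hx
    exact hx.le
  filter_upwards [hErr, hpsi, hS, eventually_gt_atTop (1 : ℝ)] with x hErr hpsi hS hx i
  have hx0 : 0 < x := by linarith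
  have hL := Lx_pos hx
  have hL0 : 0 < Lx x / 48 := by positivity
  have hB := hc.BDpos
  have hWpos : (0 : ℝ) < WW D := by exact_mod_cast hc.hW
  have hai : (0 : ℝ) < a i := by exact_mod_cast hc.ha i
  have hprof := GPb_prof B (Lx x) (Lx x / 48) hL hL0
  have hsd := hc.sd (Px D x) (Px_prime D x)
  have hp2 : ∀ t : Ix D x, 2 ≤ prx D x t := fun t => (Px_prime D x t.1 t.2).1.two_le
  have hp0 : ∀ t : Ix D x, 0 < prx D x t := fun t => by have := hp2 t; omega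
  have hmn : ∀ σ : Ix D x → Option (Option (Fin k)),
      0 ≤ mulc (prx D x) (fun p => 1 / ((p : ℝ) - 1)) σ := by
    intro σ
    unfold mulc
    apply Finset.prod_nonneg
    intro t _
    split_ifs
    · norm_num
    · have : (2 : ℝ) ≤ (prx D x t : ℝ) := by exact_mod_cast hp2 t
      have h3 : 0 < (prx D x t : ℝ) - 1 := by linarith
      positivity
  obtain ⟨r, hr⟩ := hT2.use (prx D x) (LF a b) (WW D) v (some i) (a i) (b i) hc.hW hsd (hc.ha i)
    (fun n => rfl) (hc.hadvd i) (hc.vcop' i) (cw (prx D x) (yxb B D x))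
    (Real.exp (Lx x / 48 + Lx x)) (Real.one_le_exp (by positivity))
    (fun σ => by
      rw [abs_cw _ hp2]
      have h1 : |yxb B D x σ| ≤ 1 := by
        unfold yxb
        rw [abs_of_nonneg (yw_nonneg _ _ _ hprof _ _)]
        exact yw_le_one _ _ _ hprof _ _
      exact mul_le_of_le_one_right (hmn σ) h1)
    (fun σ hσ => by
      rw [mulc_exp _ hp0]
      apply Real.exp_le_exp.2
      apply yw_supp (prx D x) none (GPb B (Lx x) (Lx x / 48)) (Lx x) (Lx x / 48)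
        (fun s hs hs' => GPb_cut_none B _ _ s hs hs') σ
      intro h0
      apply hσ
      unfold cw
      have : yxb B D x σ = 0 := h0
      rw [this, mul_zero]) x hx.le
  have hQI := QI_finalB B hT3 hc ε hε hε1 hI1 hI2 hBr x hx (hκ x) (hovl x) hS i
  have hBri := hBr i
  have hQIn : 0 ≤ (1 - ε) ^ 2 * (BD D * Lx x * ((B.Q i).I1 - ε)) ^ 2 *
      (BD D * (Lx x / 48) * (BD D * Lx x) ^ (k - 1) * BrB B i ε) := by
    positivity
  have hE := hErr i r
  have hE2 : (∏ t : Ix D x, (1 + (Fintype.card (Option (Fin k)) : ℝ) / ((prx D x t : ℝ) - 1)) *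
        ((prx D x t : ℝ) / ((prx D x t : ℝ) - 1))) ^ 2 *
      ∑ q ∈ (Icc 1 ⌊(Real.exp (Lx x / 48 + Lx x)) ^ 2⌋₊).filter
        (fun q => Squarefree q ∧ (r q).Coprime (a i * WW D * q)),
        (3 * (Fintype.card (Option (Fin k)) : ℝ)) ^ q.primeFactors.card *
          (|psiLogAP (a i * x) (a i * WW D * q) (r q) -
            psiLog1 (a i * x) / (Nat.totient (a i * WW D * q) : ℝ)| +
            ((a i : ℝ) + b i) ^ 2 * (Real.log (a i * x) + 1)) ≤ x := by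
    refine le_trans (le_of_eq ?_) hE
    unfold ErrT
    rw [cardJ]
  have h1 := (abs_le.1 (hr.trans hE2)).1
  have hmain : Lx x * Q0 k D x * ((1 - ε) ^ 3 * ((B.Q i).I1 - ε) ^ 2 * BrB B i ε) ≤
      psiLog1 (a i * x) / (a i * Nat.totient (WW D)) *
        QI (some i) (prx D x) (cw (prx D x) (yxb B D x)) := by
    have e1 : (1 - ε) * x / (WW D * BD D) ≤ psiLog1 (a i * x) / (a i * Nat.totient (WW D)) := by
      rw [hc.tot, div_le_div_iff₀ (by positivity) (by positivity)]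
      have := hpsi i
      have h3 : 0 ≤ (WW D : ℝ) * BD D := by positivity
      calc (1 - ε) * x * (a i * (WW D * BD D)) = ((1 - ε) * (a i * x)) * (WW D * BD D) := by ring
        _ ≤ psiLog1 (a i * x) * (WW D * BD D) := by gcongr
    have hk : (BD D * Lx x) ^ k = (BD D * Lx x) ^ (k - 1) * (BD D * Lx x) := by
      rw [← pow_succ]
      congr 1
      have := i.2
      omega
    calc Lx x * Q0 k D x * ((1 - ε) ^ 3 * ((B.Q i).I1 - ε) ^ 2 * BrB B i ε)
        = ((1 - ε) * x / (WW D * BD D)) * ((1 - ε) ^ 2 * (BD D * Lx x * ((B.Q i).I1 - ε)) ^ 2 *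
          (BD D * (Lx x / 48) * (BD D * Lx x) ^ (k - 1) * BrB B i ε)) := by
          unfold Q0
          rw [hk]
          field_simp
      _ ≤ _ := by
          have h5 : 0 ≤ (1 - ε) * x / (WW D * BD D) := by
            have : 0 ≤ 1 - ε := by linarith
            positivity
          gcongr
          exact h5.trans e1
  unfold wxib
  linarith

end Pool.Agent.H361R2.Inf
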