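import Mathlib
import Pool.Agent.H361R2.InfS2
import Pool.Agent.H410R2.MFin4
import Pool.Agent.H361R2.Ana

/-! Block version: pointwise bound of the sieve weights. -/

namespace Pool.Agent.H361R2.Inf

open Finset Filter Topology
open Pool.Agent.H410R2 hiding GP GP_prof GP_cut_some GP_cut_none GP_lip gg_pos gg_le_one gg_anti ee_bound ee_nonneg gg_lip LB_gg LB_ee Sums exists_sums yx wx wxi Br sum_GP_none sum_GP_some sum_GP_some_ee sum_GP_some_one sum_GPr_none sum_GPr_some S1_final QI_final S2_final w_abs_le wmax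

variable {k : ℕ}

theorem w_abs_le (B : BPar k) {a b : Fin k → ℕ} {D v : ℕ} (hc : Ctx a b D v) (x : ℝ) (hx : 1 < x) (n : ℕ)
    (hn : 1 ≤ n) :
    (|wxb B a b D x n| ≤ (∏ t : Ix D x, (1 + 2 * ((k + 1 : ℕ) : ℝ) / (prx D x t : ℝ))) *
        2 ^ (NN a b n).primeFactors.card) ∧
    ∀ i, (|wxib B a b D x i n| ≤ (∏ t : Ix D x, (1 + 2 * ((k + 1 : ℕ) : ℝ) / (prx D x t : ℝ))) *
        2 ^ (NN a b n).primeFactors.card) := by
  have hL := Lx_pos hx
  have hL0 : 0 < Lx x / 48 := by positivity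
  have hprof := GPb_prof B (Lx x) (Lx x / 48) hL hL0
  have hsd := hc.sd (Px D x) (Px_prime D x)
  have hp : ∀ t, 2 ≤ prx D x t := fun t => (hsd.prime t).two_le
  have hy : ∀ σ, |yxb B D x σ| ≤ 1 := by
    intro σ
    rw [yxb, abs_of_nonneg (yw_nonneg _ _ _ hprof _ _)]
    exact yw_le_one _ _ _ hprof _ _
  have hprod : (∏ t : Ix D x, (1 + (Fintype.card (Option (Fin k)) : ℝ) /
      ((prx D x t : ℝ) - 1))) ≤ ∏ t : Ix D x, (1 + 2 * ((k + 1 : ℕ) : ℝ) / (prx D x t : ℝ)) := by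
    rw [cardJ]
    apply Finset.prod_le_prod
    · intro t _
      have : (2 : ℝ) ≤ prx D x t := by exact_mod_cast hp t
      have : (0 : ℝ) < (prx D x t : ℝ) - 1 := by linarith
      positivity
    · intro t _
      have h2 : (2 : ℝ) ≤ prx D x t := by exact_mod_cast hp t
      have h1 : (0 : ℝ) < (prx D x t : ℝ) - 1 := by linarith
      have h0 : (0 : ℝ) < (prx D x t : ℝ) := by linarith
      have hk : (0 : ℝ) ≤ ((k + 1 : ℕ) : ℝ) := Nat.cast_nonneg _
      have : ((k + 1 : ℕ) : ℝ) / ((prx D x t : ℝ) - 1) ≤ 2 * ((k + 1 : ℕ) : ℝ) / (prx D x t : ℝ) := by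
        rw [div_le_div_iff₀ h1 h0]
        nlinarith
      linarith
  have hprod0 : 0 ≤ ∏ t : Ix D x, (1 + 2 * ((k + 1 : ℕ) : ℝ) / (prx D x t : ℝ)) :=
    Finset.prod_nonneg fun t _ => by positivity
  have hcard : (2 : ℝ) ^ (univ.filter (fun t : Ix D x => ∃ j, prx D x t ∣ LF a b j n)).card ≤
      2 ^ (NN a b n).primeFactors.card :=
    pow_le_pow_right₀ (by norm_num) (card_le_omega a b hc.hb D x n hn)
  have hfin : (∏ t : Ix D x, (1 + (Fintype.card (Option (Fin k)) : ℝ) / ((prx D x t : ℝ) - 1))) *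
        2 ^ (univ.filter (fun t : Ix D x => ∃ j, prx D x t ∣ LF a b j n)).card ≤
      (∏ t : Ix D x, (1 + 2 * ((k + 1 : ℕ) : ℝ) / (prx D x t : ℝ))) *
        2 ^ (NN a b n).primeFactors.card :=
    mul_le_mul hprod hcard (by positivity) hprod0
  constructor
  · refine le_trans ?_ hfin
    have := pointwise (prx D x) hp (LF a b) n (fun t i j => hsd.excl t i j n) (yxb B D x) hy
      (fun t v => hl (LF a b) (prx D x t) n v) (fun t => by simp [hl]) (fun t j => by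
        have h2 : (2 : ℝ) ≤ prx D x t := by exact_mod_cast hp t
        simp only [hl]
        split_ifs with h
        · rw [abs_of_nonneg (by linarith)]; linarith
        · simp)
    unfold wxb hN
    convert this using 3
  · intro i
    refine le_trans ?_ hfin
    have := pointwise (prx D x) hp (LF a b) n (fun t i j => hsd.excl t i j n) (yxb B D x) hy
      (fun t v => hlI (some i) (LF a b) (prx D x t) n v) (fun t => by simp [hlI]) (fun t j => by
        have h2 : (2 : ℝ) ≤ prx D x t := by exact_mod_cast hp t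
        simp only [hlI]
        split_ifs with h1 h2 h2
        · rw [abs_neg, abs_one]; linarith
        · rw [abs_neg, abs_one]
        · rw [abs_of_nonneg (by linarith)]; linarith
        · simp)
    unfold wxib hNI
    convert this using 3

theorem wmax (B : BPar k) (hPB : ProdBound) (hOB : OmegaBound) {a b : Fin k → ℕ} {D v : ℕ}
    (hc : Ctx a b D v) (ε' : ℝ) (hε' : 0 < ε') : ∀ᶠ x : ℝ in atTop, ∀ n ∈ Icc 1 ⌊x⌋₊,
      (wxb B a b D x n) ^ 2 ≤ x ^ ε' ∧ ∀ i, (wxib B a b D x i n) ^ 2 ≤ x ^ ε' := by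
  obtain ⟨C, hC, m, h1⟩ := prodIx_le hPB (2 * ((k + 1 : ℕ) : ℝ)) (by positivity) D
  set e2 : ℝ := ε' / (4 * ((k + 1 : ℕ) : ℝ)) with he2
  have he2p : 0 < e2 := by positivity
  obtain ⟨C', hC', h2⟩ := hOB 2 (by norm_num) e2 he2p
  set A : ℝ := ∏ i, ((a i : ℝ) + b i) with hA
  have hA0 : 0 ≤ A := Finset.prod_nonneg fun i _ => by positivity
  filter_upwards [h1, ev_polylog (C ^ 2 * C' ^ 2 * (A ^ e2) ^ 2) (2 * m) (ε' / 2) ε' (by linarith),
    eventually_gt_atTop (1 : ℝ)] with x hx1 hx2 hx3 n hn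
  have hx0 : 0 < x := by linarith
  rw [Finset.mem_Icc] at hn
  have hnx : (n : ℝ) ≤ x := (Nat.cast_le.2 hn.2).trans (Nat.floor_le hx0.le)
  have hlx := Real.log_nonneg hx3.le
  have hom : (2 : ℝ) ^ (NN a b n).primeFactors.card ≤ C' * (A ^ e2 * x ^ (ε' / 4)) := by
    refine le_trans (h2 (NN a b n) (NN_pos a b hc.hb n hn.1)) ?_
    apply mul_le_mul_of_nonneg_left _ hC'.le
    calc (NN a b n : ℝ) ^ e2 ≤ (A * x ^ (k + 1)) ^ e2 :=
          Real.rpow_le_rpow (Nat.cast_nonneg _) (NN_le a b n hn.1 x hnx) he2p.le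
      _ = A ^ e2 * x ^ (ε' / 4) := by
          rw [Real.mul_rpow hA0 (by positivity), ← Real.rpow_natCast, ← Real.rpow_mul hx0.le]
          congr 2
          rw [he2]
          have : ((k + 1 : ℕ) : ℝ) ≠ 0 := by positivity
          field_simp
  have hfin : ∀ w : ℝ, |w| ≤ (∏ t : Ix D x, (1 + 2 * ((k + 1 : ℕ) : ℝ) / (prx D x t : ℝ))) *
        2 ^ (NN a b n).primeFactors.card → w ^ 2 ≤ x ^ ε' := by
    intro w hw
    have hP0 : 0 ≤ ∏ t : Ix D x, (1 + 2 * ((k + 1 : ℕ) : ℝ) / (prx D x t : ℝ)) :=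
      Finset.prod_nonneg fun t _ => by positivity
    have h3 : |w| ≤ (C * (Real.log x) ^ m) * (C' * (A ^ e2 * x ^ (ε' / 4))) :=
      hw.trans (mul_le_mul hx1 hom (by positivity) (by positivity))
    calc w ^ 2 = |w| ^ 2 := (sq_abs w).symm
      _ ≤ ((C * (Real.log x) ^ m) * (C' * (A ^ e2 * x ^ (ε' / 4)))) ^ 2 :=
          pow_le_pow_left₀ (abs_nonneg _) h3 2
      _ = C ^ 2 * C' ^ 2 * (A ^ e2) ^ 2 * (Real.log x) ^ (2 * m) * (x ^ (ε' / 4)) ^ 2 := by ring
      _ = C ^ 2 * C' ^ 2 * (A ^ e2) ^ 2 * (Real.log x) ^ (2 * m) * x ^ (ε' / 2) := by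
          congr 1
          rw [← Real.rpow_natCast, ← Real.rpow_mul hx0.le]
          congr 1
          push_cast
          ring
      _ ≤ _ := hx2
  have h4 := w_abs_le B hc x hx3 n hn.1
  exact ⟨hfin _ h4.1, fun i => hfin _ (h4.2 i)⟩

theorem fab (B : BPar k) (a b : Fin k → ℕ) (D v : ℕ) (hc : Ctx a b D v) (e : ℝ) (he : 0 < e) :
    ∀ᶠ x : ℝ in atTop, ∀ n : ℕ, 1 ≤ n → (n : ℝ) ≤ x →
    (wxb B a b D x n) ^ 2 ≤ x ^ e ∧ ∀ i, (wxib B a b D x i n) ^ 2 ≤ x ^ e := by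
  filter_upwards [wmax B prodBound omegaBound hc e he] with x hx n hn hnx
  exact hx n (Finset.mem_Icc.2 ⟨hn, Nat.le_floor hnx⟩)

end Pool.Agent.H361R2.Inf
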