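import Mathlib
import Pool.Agent.H361R2.InfFA
import Pool.Agent.H361R2.GFinC

/-! Block version: from `Λ` to primes. -/

namespace Pool.Agent.H361R2.Inf

open Finset Filter Topology
open Pool.Agent.H410R2 hiding GP GP_prof GP_cut_some GP_cut_none GP_lip gg_pos gg_le_one gg_anti ee_bound ee_nonneg gg_lip LB_gg LB_ee Sums exists_sums yx wx wxi Br sum_GP_none sum_GP_some sum_GP_some_ee sum_GP_some_one sum_GPr_none sum_GPr_some S1_final QI_final S2_final

variable {k : ℕ}

theorem wxib_eq (B : BPar k) (a b : Fin k → ℕ) (D : ℕ) (x : ℝ) (i : Fin k) (n : ℕ)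
    (h : ∀ t : Ix D x, ¬ prx D x t ∣ a i * n + b i) : wxib B a b D x i n = wxb B a b D x n := by
  unfold wxib wxb
  refine Finset.sum_congr rfl fun σ _ => ?_
  congr 1
  unfold hNI hN
  refine Finset.prod_congr rfl fun t _ => ?_
  rcases σ t with _ | j
  · rfl
  · by_cases hj : j = some i
    · subst hj
      have : ¬ prx D x t ∣ LF a b (some i) n := h t
      simp [hlI, hl, this]
    · simp [hlI, hl, hj]

theorem fcb (B : BPar k) (a b : Fin k → ℕ) (D v : ℕ) (hc : Ctx a b D v) :
    ∃ C : ℝ, 0 ≤ C ∧ ∀ᶠ x : ℝ in atTop, ∀ i : Fin k,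
      ∑ n ∈ (Icc 1 ⌊x⌋₊).filter
          (fun n => n ≡ v [MOD (WW D)] ∧ ((a i * n + b i : ℕ) : ℝ) ≤ a i * x),
        ArithmeticFunction.vonMangoldt (a i * n + b i) *
          Real.log (a i * x / ((a i * n + b i : ℕ) : ℝ)) * (wxib B a b D x i n) ^ 2 ≤
      (Real.log x + C) * ∑ n ∈ (Icc 1 ⌊x⌋₊).filter
          (fun n => n ≡ v [MOD (WW D)] ∧ (a i * n + b i).Prime),
            Real.log (x / n) * (wxb B a b D x n) ^ 2 + x ^ (3 / 4 : ℝ) := by
  classical
  refine ⟨∑ i, Real.log (a i), Finset.sum_nonneg fun i _ => Real.log_natCast_nonneg _, ?_⟩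
  have herr : ∀ᶠ x : ℝ in atTop, ∀ i : Fin k, Real.log (a i * x) * x ^ (1 / 10 : ℝ) *
      (2 * √(a i * x) * Real.log (a i * x) + (Real.log 4 + 4) * Real.exp (Lx x)) ≤
        x ^ (3 / 4 : ℝ) := by
    rw [Filter.eventually_all]
    intro i
    exact GM.err_small (a i) (hc.ha i)
  filter_upwards [herr, fab B a b D v hc (1 / 10) (by norm_num), eventually_gt_atTop (1 : ℝ)]
    with x herr hFA hx i
  have hx0 : 0 < x := by linarith
  have hai : (1 : ℝ) ≤ a i := by exact_mod_cast hc.ha i
  have hai0 : (0 : ℝ) < a i := by linarith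
  have hlx : 0 < Real.log x := Real.log_pos hx
  have hax : 1 ≤ (a i : ℝ) * x := by nlinarith
  have hlax : 0 ≤ Real.log (a i * x) := Real.log_nonneg hax
  have hC : Real.log (a i) ≤ ∑ i, Real.log (a i) :=
    Finset.single_le_sum (f := fun i => Real.log (a i))
      (fun i _ => Real.log_natCast_nonneg (a i)) (Finset.mem_univ i)
  set C := ∑ i, Real.log (a i) with hCdef
  have hC0 : 0 ≤ C := le_trans (Real.log_natCast_nonneg _) hC
  set S := (Icc 1 ⌊x⌋₊).filter
          (fun n => n ≡ v [MOD (WW D)] ∧ ((a i * n + b i : ℕ) : ℝ) ≤ a i * x) with hS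
  have hSm : ∀ n ∈ S, 1 ≤ n ∧ (n : ℝ) ≤ x ∧ n ≡ v [MOD (WW D)] ∧
      ((a i * n + b i : ℕ) : ℝ) ≤ a i * x := by
    intro n hn
    rw [hS, Finset.mem_filter, Finset.mem_Icc] at hn
    exact ⟨hn.1.1, (Nat.cast_le.2 hn.1.2).trans (Nat.floor_le hx0.le), hn.2.1, hn.2.2⟩
  set g : ℕ → ℝ := fun n => if ¬ (a i * n + b i).Prime ∨ ((a i * n + b i : ℕ) : ℝ) ≤
      Real.exp (Lx x) then ArithmeticFunction.vonMangoldt (a i * n + b i) else 0 with hg
  have hg0 : ∀ n, 0 ≤ g n := by
    intro m
    simp only [hg]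
    split_ifs
    · exact ArithmeticFunction.vonMangoldt_nonneg
    · exact le_rfl
  have key : ∀ n ∈ S, ArithmeticFunction.vonMangoldt (a i * n + b i) *
          Real.log (a i * x / ((a i * n + b i : ℕ) : ℝ)) * (wxib B a b D x i n) ^ 2 ≤
      (if (a i * n + b i).Prime then (Real.log x + C) * (Real.log (x / n) * (wxb B a b D x n) ^ 2)
        else 0) + Real.log (a i * x) * x ^ (1 / 10 : ℝ) * g n := by
    intro n hn
    obtain ⟨hn1, hnx, -, hnax⟩ := hSm n hn
    have hn0 : (0 : ℝ) < n := by exact_mod_cast hn1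
    have hm1 : (1 : ℝ) ≤ ((a i * n + b i : ℕ) : ℝ) := by
      have : 1 ≤ a i * n + b i := by have := hc.hb i; omega
      exact_mod_cast this
    have hm0 : (0 : ℝ) < ((a i * n + b i : ℕ) : ℝ) := by linarith
    have hlog1 : 0 ≤ Real.log (a i * x / ((a i * n + b i : ℕ) : ℝ)) := by
      apply Real.log_nonneg
      rw [le_div_iff₀ hm0]
      linarith
    have hlog2 : Real.log (a i * x / ((a i * n + b i : ℕ) : ℝ)) ≤ Real.log (a i * x) := by
      apply Real.log_le_log (by positivity)
      exact div_le_self (by linarith) hm1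
    have hlogn : 0 ≤ Real.log (x / n) := by
      apply Real.log_nonneg
      rw [le_div_iff₀ hn0]
      linarith
    have hV0 : 0 ≤ ArithmeticFunction.vonMangoldt (a i * n + b i) :=
      ArithmeticFunction.vonMangoldt_nonneg
    have hw := (hFA n hn1 hnx).2 i
    by_cases hcase : ¬ (a i * n + b i).Prime ∨ ((a i * n + b i : ℕ) : ℝ) ≤ Real.exp (Lx x)
    · have h1 : 0 ≤ (if (a i * n + b i).Prime then
          (Real.log x + C) * (Real.log (x / n) * (wxb B a b D x n) ^ 2) else 0) := by
        split_ifs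
        · positivity
        · exact le_rfl
      have h2 : ArithmeticFunction.vonMangoldt (a i * n + b i) *
          Real.log (a i * x / ((a i * n + b i : ℕ) : ℝ)) * (wxib B a b D x i n) ^ 2 ≤
          Real.log (a i * x) * x ^ (1 / 10 : ℝ) * g n := by
        simp only [hg]
        rw [if_pos hcase]
        calc _ ≤ ArithmeticFunction.vonMangoldt (a i * n + b i) *
            Real.log (a i * x) * x ^ (1 / 10 : ℝ) := by gcongr
          _ = _ := by ring
      linarith
    · push Not at hcase
      obtain ⟨hpr, hbig⟩ := hcase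
      have hgn : g n = 0 := by
        simp only [hg]
        rw [if_neg]
        push Not
        exact ⟨hpr, hbig⟩
      rw [hgn, mul_zero, add_zero, if_pos hpr]
      have hww : wxib B a b D x i n = wxb B a b D x n := by
        apply wxib_eq
        intro t ht
        have h1 := (Px_prime D x t.1 t.2).1
        have h2 := Px_le D x t.1 t.2
        have h3 : prx D x t = a i * n + b i := (Nat.prime_dvd_prime_iff_eq h1 hpr).1 ht
        have h4 : ((prx D x t : ℕ) : ℝ) = ((a i * n + b i : ℕ) : ℝ) := by rw [h3]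
        have h5 : ((prx D x t : ℕ) : ℝ) ≤ Real.exp (Lx x) := h2
        linarith
      rw [hww, ArithmeticFunction.vonMangoldt_apply_prime hpr]
      have h1 : Real.log ((a i * n + b i : ℕ) : ℝ) ≤ Real.log x + C := by
        calc Real.log ((a i * n + b i : ℕ) : ℝ) ≤ Real.log (a i * x) :=
              Real.log_le_log hm0 hnax
          _ = Real.log (a i) + Real.log x := Real.log_mul hai0.ne' hx0.ne'
          _ ≤ _ := by linarith
      have h2 : Real.log (a i * x / ((a i * n + b i : ℕ) : ℝ)) ≤ Real.log (x / n) := by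
        apply Real.log_le_log (by positivity)
        rw [div_le_div_iff₀ hm0 hn0]
        push_cast
        have : 0 ≤ (b i : ℝ) := Nat.cast_nonneg _
        nlinarith
      have h3 : 0 ≤ Real.log ((a i * n + b i : ℕ) : ℝ) := Real.log_nonneg hm1
      calc _ ≤ (Real.log x + C) * Real.log (x / n) * (wxb B a b D x n) ^ 2 := by
            gcongr
        _ = _ := by ring
  calc ∑ n ∈ S, ArithmeticFunction.vonMangoldt (a i * n + b i) *
          Real.log (a i * x / ((a i * n + b i : ℕ) : ℝ)) * (wxib B a b D x i n) ^ 2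
      ≤ ∑ n ∈ S, ((if (a i * n + b i).Prime then
          (Real.log x + C) * (Real.log (x / n) * (wxb B a b D x n) ^ 2) else 0) +
          Real.log (a i * x) * x ^ (1 / 10 : ℝ) * g n) := Finset.sum_le_sum key
    _ = ∑ n ∈ S, (if (a i * n + b i).Prime then
          (Real.log x + C) * (Real.log (x / n) * (wxb B a b D x n) ^ 2) else 0) +
          Real.log (a i * x) * x ^ (1 / 10 : ℝ) * ∑ n ∈ S, g n := by
        rw [Finset.sum_add_distrib, Finset.mul_sum]
    _ ≤ (Real.log x + C) * ∑ n ∈ (Icc 1 ⌊x⌋₊).filter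
          (fun n => n ≡ v [MOD (WW D)] ∧ (a i * n + b i).Prime),
            Real.log (x / n) * (wxb B a b D x n) ^ 2 + x ^ (3 / 4 : ℝ) := by
        apply add_le_add
        · rw [← Finset.sum_filter, ← Finset.mul_sum]
          apply mul_le_mul_of_nonneg_left _ (by positivity)
          apply Finset.sum_le_sum_of_subset_of_nonneg
          · intro n hn
            rw [Finset.mem_filter, hS, Finset.mem_filter] at hn
            rw [Finset.mem_filter]
            exact ⟨hn.1.1, hn.1.2.1, hn.2⟩
          · intro n hn _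
            rw [Finset.mem_filter, Finset.mem_Icc] at hn
            have h1 : (n : ℝ) ≤ x := (Nat.cast_le.2 hn.1.2).trans (Nat.floor_le hx0.le)
            have hn0 : (0 : ℝ) < n := by exact_mod_cast hn.1.1
            have : 0 ≤ Real.log (x / n) := by
              apply Real.log_nonneg
              rw [le_div_iff₀ hn0]
              linarith
            positivity
        · refine le_trans ?_ (herr i)
          apply mul_le_mul_of_nonneg_left _ (by positivity)
          exact GM.bad_lambda (a i) (b i) (hc.ha i) (hc.hb i) S x (Real.exp (Lx x)) hx.le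
            (Real.exp_pos _).le (fun n hn => (hSm n hn).2.2.2)

end Pool.Agent.H361R2.Inf
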