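import Mathlib
import Pool.Agent.H361R2.GFin1

/-! Interface for the infinite prime pattern theorem. -/

namespace Pool.Agent.H361R2.Inf

open Finset Filter Topology

/-- nonnegative finitely additive set function on `ℕ` vanishing on finite sets -/
structure FMeas (m : Set ℕ → ℝ) : Prop where
  nonneg : ∀ A, 0 ≤ m A
  add : ∀ A B, Disjoint A B → m (A ∪ B) = m A + m B
  fin : ∀ A : Set ℕ, A.Finite → m A = 0

/-- hypotheses on the forms `a i * n + b i`, `i < K` -/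
structure GoodForms (K : ℕ) (a b : ℕ → ℕ) : Prop where
  ha : ∀ i < K, 1 ≤ a i
  hb : ∀ i < K, 1 ≤ b i
  ne : ∀ i < K, ∀ j < K, i ≠ j → a i * b j ≠ a j * b i
  adm : ∀ p : ℕ, p.Prime → ∃ n : ℕ, ¬ p ∣ n ∧ ∀ i < K, ¬ p ∣ a i * n + b i

open Classical in
/-- weights: total mass at most `2`, every block of forms contains a prime with weight at
least `c` -/
def FinBlock (off : ℕ → ℕ) (c : ℝ) : Prop := ∀ (J : ℕ) (a b : ℕ → ℕ), GoodForms (off J) a b →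
  ∃ (mu : ℝ → ℕ → ℝ) (Z : ℝ → ℝ), ∀ᶠ x : ℝ in atTop, 0 < Z x ∧
    (∀ n ∈ Icc 1 ⌊x⌋₊, 0 ≤ mu x n ∧ mu x n ≤ x ^ (-(1 / 4) : ℝ) * Z x) ∧
    ∑ n ∈ Icc 1 ⌊x⌋₊, mu x n ≤ 2 * Z x ∧
    ∀ t < J, c * Z x ≤ ∑ n ∈ (Icc 1 ⌊x⌋₊).filter
      (fun n => ∃ i ∈ Ico (off t) (off (t + 1)), (a i * n + b i).Prime), mu x n

/-- finitely additive measures -/
def BlockMeas (off : ℕ → ℕ) (c : ℝ) : Prop := ∀ (J : ℕ) (a b : ℕ → ℕ), GoodForms (off J) a b →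
  ∃ m : Set ℕ → ℝ, FMeas m ∧ m Set.univ ≤ 2 ∧
    ∀ t < J, c ≤ m {n | ∃ i ∈ Ico (off t) (off (t + 1)), (a i * n + b i).Prime}

end Pool.Agent.H361R2.Inf
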