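import Mathlib
import Pool.Agent.H361R2.InfIface
import Pool.Agent.H361R2.GNum

/-! T6: numerics of the block parameters. -/

namespace Pool.Agent.H361R2.Inf

open Finset Filter Topology
open Pool.Agent.H361R2.GM

/-- T6 : numerics of the block parameters -/
theorem block_par (η : ℝ) (hη : 0 < η) : ∃ (Q : SPar) (k : ℕ), Q.c = 1 / 10 ∧ Q.lam = 10 ∧
    1 ≤ k ∧ 0 < Q.I1 ∧ 0 < Q.I2 ∧ (Q.IE / Q.I2) ^ k ≤ Real.exp η ∧ 1 ≤ k * (Q.I1 ^ 2 / Q.I2) := by
  set A : ℝ := 40 / η + 1 with hA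
  have hA1 : 1 ≤ A := by
    have : 0 ≤ 40 / η := by positivity
    linarith
  have hA0 : 0 < A := by linarith
  have hηA : 2 ≤ η * A / 20 := by
    have h1 : η * (40 / η) = 40 := by field_simp
    have h2 : η * A = 40 + η := by rw [hA, mul_add, h1, mul_one]
    rw [h2]
    linarith
  have hx2 : 1 + A + A ^ 2 / 2 ≤ Real.exp A := Real.quadratic_le_exp_of_nonneg hA0.le
  set x : ℝ := Real.exp A with hx
  have hx1 : 1 < x := by nlinarith
  have hxm : 1 ≤ x - 1 := by nlinarith
  have hx0 : 0 < x := by linarith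
  let Q : SPar := ⟨10 * (x - 1), 1 / 10, 10, by linarith, by norm_num, by norm_num, by norm_num,
    by norm_num⟩
  have hQG : Q.G = 10 * (x - 1) := rfl
  have hQc : Q.c = 1 / 10 := rfl
  have hQl : Q.lam = 10 := rfl
  have hGc : 1 + Q.G * Q.c = x := by rw [hQG, hQc]; ring
  have hm0 : 0 < x - 1 := by linarith
  have hI1 : Q.I1 = A / (10 * (x - 1)) := by
    rw [int_gg, hGc, hQG, hx, Real.log_exp]
  have hI2 : Q.I2 = 1 / (10 * x) := by
    rw [int_gg2, hGc, hQG]
    field_simp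
  have hI1pos : 0 < Q.I1 := by rw [hI1]; positivity
  have hI2pos : 0 < Q.I2 := by rw [hI2]; positivity
  set w : ℝ := (x * A + 1) / (x - 1) ^ 2 with hw
  have hw0 : 0 < w := by rw [hw]; positivity
  have hIE : Q.IE ≤ Q.I2 * (1 + w) := by
    have h := int_gE Q
    rw [hGc, hQG, hQc, hQl, hI2] at h
    rw [hI2]
    have hlog : Real.log x = A := by rw [hx, Real.log_exp]
    rw [hlog] at h
    refine h.trans (le_of_eq ?_)
    rw [hw]
    field_simp
    ring
  have hIE0 : 0 ≤ Q.IE := by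
    unfold SPar.IE
    apply intervalIntegral.integral_nonneg Q.hc.le
    intro t ht
    have h1 : 0 ≤ Q.ee t := by
      have := ht.1
      have := Q.hlam
      unfold SPar.ee
      positivity
    positivity
  set ρ : ℝ := Q.I1 ^ 2 / Q.I2 with hρ
  have hρe : ρ = x * A ^ 2 / (10 * (x - 1) ^ 2) := by
    rw [hρ, hI1, hI2]
    field_simp
  have hρ0 : 0 < ρ := by rw [hρe]; positivity
  have hρ1 : ρ ≤ 1 := by
    rw [hρe, div_le_one (by positivity)]
    have h1 : x ≤ 2 * (x - 1) := by linarith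
    have h2 : A + A ^ 2 / 2 ≤ x - 1 := by linarith
    have hA2 : 0 ≤ A ^ 2 := by positivity
    calc x * A ^ 2 ≤ (2 * (x - 1)) * A ^ 2 := by gcongr
      _ ≤ 10 * (x - 1) * (A + A ^ 2 / 2) := by nlinarith
      _ ≤ 10 * (x - 1) * (x - 1) := by gcongr
      _ = 10 * (x - 1) ^ 2 := by ring
  have hρw : A / 20 ≤ ρ / w := by
    have e1 : ρ / w = x * A ^ 2 / (10 * (x * A + 1)) := by
      rw [hρe, hw]
      field_simp
    rw [e1, div_le_div_iff₀ (by norm_num) (by positivity)]
    have h1 : 1 ≤ x * A := by nlinarith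
    have h3 : A * (10 * (x * A + 1)) ≤ A * (10 * (x * A + x * A)) := by gcongr
    calc A * (10 * (x * A + 1)) ≤ A * (10 * (x * A + x * A)) := h3
      _ = x * A ^ 2 * 20 := by ring
  set k : ℕ := ⌊η / w⌋₊ with hk
  have hk1 : (k : ℝ) ≤ η / w := Nat.floor_le (by positivity)
  have hk2 : η / w - 1 < k := Nat.sub_one_lt_floor _
  have hkρ : 1 ≤ k * ρ := by
    have h1 : (η / w - 1) * ρ ≤ k * ρ := by gcongr
    have h2 : (η / w - 1) * ρ = η * (ρ / w) - ρ := by ring
    have h3 : η * (A / 20) ≤ η * (ρ / w) := by gcongr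
    have h4 : η * (A / 20) = η * A / 20 := by ring
    linarith
  refine ⟨Q, k, hQc, hQl, ?_, hI1pos, hI2pos, ?_, hkρ⟩
  · rcases Nat.eq_zero_or_pos k with h | h
    · rw [h] at hkρ
      norm_num at hkρ
    · exact h
  · have h1 : Q.IE / Q.I2 ≤ 1 + w := by
      rw [div_le_iff₀ hI2pos]
      linarith
    have h2 : Q.IE / Q.I2 ≤ Real.exp w := by
      have := Real.add_one_le_exp w
      linarith
    calc (Q.IE / Q.I2) ^ k ≤ (Real.exp w) ^ k := pow_le_pow_left₀ (by positivity) h2 k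
      _ = Real.exp (k * w) := by rw [← Real.exp_nat_mul]
      _ ≤ Real.exp η := by
          apply Real.exp_le_exp.2
          calc (k : ℝ) * w ≤ (η / w) * w := by gcongr
            _ = η := by field_simp

end Pool.Agent.H361R2.Inf
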