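import Mathlib
import Pool.Agent.H361R2.InfFC
import Pool.Agent.H361R2.InfT6

/-! A1: the blocks of parameters. -/

namespace Pool.Agent.H361R2.Inf

open Finset Filter Topology
open Pool.Agent.H410R2 hiding GP GP_prof GP_cut_some GP_cut_none GP_lip gg_pos gg_le_one gg_anti ee_bound ee_nonneg gg_lip LB_gg LB_ee Sums exists_sums yx wx wxi Br sum_GP_none sum_GP_some sum_GP_some_ee sum_GP_some_one sum_GPr_none sum_GPr_some S1_final QI_final S2_final w_abs_le wmax
open GM (SPar)

theorem InfA1_I2_le_IE (Q : SPar) : Q.I2 ≤ Q.IE := by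
  have hc := Q.hc
  have hl := Q.hlam
  unfold SPar.I2 SPar.IE
  have hcontE : ContinuousOn (fun t => Q.gg t ^ 2 * Q.ee t) (Set.uIcc 0 Q.c) := by
    have := GM.cont_gg2 Q
    unfold SPar.ee
    fun_prop
  apply intervalIntegral.integral_mono_on hc.le (GM.cont_gg2 Q).intervalIntegrable
    hcontE.intervalIntegrable
  intro t ht
  have h0 : 0 ≤ t := ht.1
  have h1 : 1 ≤ Q.ee t := by
    unfold SPar.ee
    have : 0 ≤ Q.lam * t := by positivity
    have : 0 ≤ Q.lam ^ 2 * t ^ 2 := by positivity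
    linarith
  have h2 : 0 ≤ Q.gg t ^ 2 := sq_nonneg _
  nlinarith

/-- A1 : the blocks (from `block_par` with `η = 2 ^ (-t)`) -/
theorem exists_blocks : ∃ (off : ℕ → ℕ) (Q : ℕ → SPar), StrictMono off ∧ off 0 = 0 ∧
    (∀ i, (Q i).c = 1 / 10 ∧ (Q i).lam = 10 ∧ 0 < (Q i).I1 ∧ 0 < (Q i).I2 ∧
      (Q i).I2 ≤ (Q i).IE) ∧
    (∀ t, 1 ≤ ∑ i ∈ Ico (off t) (off (t + 1)), (Q i).I1 ^ 2 / (Q i).I2) ∧
    ∀ N, ∏ i ∈ range (off N), ((Q i).IE / (Q i).I2) ≤ Real.exp 2 := by
  classical
  choose Qt kt hc hl hk h1 h2 hE hs using fun t : ℕ => block_par ((1 / 2 : ℝ) ^ t) (by positivity)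
  let off : ℕ → ℕ := fun t => ∑ s ∈ range t, kt s
  have hoff : ∀ t, off (t + 1) = off t + kt t := fun t => Finset.sum_range_succ _ _
  have hmono : StrictMono off := strictMono_nat_of_lt_succ fun t => by
    have := hk t
    rw [hoff]
    omega
  have hex : ∀ i, ∃ t, i < off (t + 1) := fun i =>
    ⟨i, lt_of_lt_of_le (Nat.lt_succ_self i) (hmono.id_le (i + 1))⟩
  let blk : ℕ → ℕ := fun i => Nat.find (hex i)
  have hblk : ∀ t, ∀ i ∈ Ico (off t) (off (t + 1)), blk i = t := by
    intro t i hi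
    rw [Finset.mem_Ico] at hi
    rw [Nat.find_eq_iff]
    refine ⟨hi.2, fun s hst hlt => ?_⟩
    have := hmono.monotone (Nat.succ_le_of_lt hst)
    have h3 : off (s + 1) ≤ off t := this
    omega
  have hdiff : ∀ t, off (t + 1) - off t = kt t := fun t => by rw [hoff]; omega
  refine ⟨off, fun i => Qt (blk i), hmono, by simp [off], fun i => ⟨hc _, hl _, h1 _, h2 _,
    InfA1_I2_le_IE _⟩, ?_, ?_⟩
  · intro t
    have e : ∑ i ∈ Ico (off t) (off (t + 1)), (Qt (blk i)).I1 ^ 2 / (Qt (blk i)).I2 =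
        ∑ i ∈ Ico (off t) (off (t + 1)), (Qt t).I1 ^ 2 / (Qt t).I2 :=
      Finset.sum_congr rfl fun i hi => by rw [hblk t i hi]
    rw [e, Finset.sum_const, Nat.card_Ico, hdiff, nsmul_eq_mul]
    exact hs t
  · have key : ∀ N, ∏ i ∈ range (off N), ((Qt (blk i)).IE / (Qt (blk i)).I2) ≤
        Real.exp (∑ t ∈ range N, (1 / 2 : ℝ) ^ t) := by
      intro N
      induction N with
      | zero => simp [off]
      | succ N ih =>
        rw [← Finset.prod_range_mul_prod_Ico _ (hmono.monotone (Nat.le_succ N)),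
          Finset.sum_range_succ, Real.exp_add]
        have e : ∏ i ∈ Ico (off N) (off (N + 1)), ((Qt (blk i)).IE / (Qt (blk i)).I2) =
            ∏ i ∈ Ico (off N) (off (N + 1)), ((Qt N).IE / (Qt N).I2) :=
          Finset.prod_congr rfl fun i hi => by rw [hblk N i hi]
        have e' : ∏ i ∈ Ico (off N) (off N.succ), ((Qt (blk i)).IE / (Qt (blk i)).I2) ≤
            Real.exp ((1 / 2 : ℝ) ^ N) := by
          rw [Nat.succ_eq_add_one, e, Finset.prod_const, Nat.card_Ico, hdiff]
          exact hE N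
        refine mul_le_mul ih e' ?_ (Real.exp_pos _).le
        refine Finset.prod_nonneg fun i _ => ?_
        have := h2 (blk i)
        have := InfA1_I2_le_IE (Qt (blk i))
        apply div_nonneg <;> linarith
    intro N
    refine (key N).trans (Real.exp_le_exp.2 ?_)
    have hg := Summable.sum_le_tsum (range N) (fun t _ => by positivity)
      (summable_geometric_of_lt_one (by norm_num : (0 : ℝ) ≤ 1 / 2) (by norm_num))
    rw [tsum_geometric_of_lt_one (by norm_num) (by norm_num)] at hg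
    norm_num at hg ⊢
    exact hg

end Pool.Agent.H361R2.Inf
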