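import Mathlib
import Pool.Agent.H361R2.InfFC

/-! A2: choice of `ε` (continuity at `0`). -/

namespace Pool.Agent.H361R2.Inf

open Finset Filter Topology

namespace A2

theorem exp_neg_seven : Real.exp (-7) ≤ 1 / 100 := by
  rw [Real.exp_neg, inv_eq_one_div]
  apply one_div_le_one_div_of_le (by norm_num)
  have h1 : (2 : ℝ) ≤ Real.exp 1 := by
    have := Real.add_one_le_exp (1 : ℝ)
    linarith
  have h2 : Real.exp 7 = Real.exp 1 ^ 7 := by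
    rw [← Real.exp_nat_mul]; norm_num
  rw [h2]
  calc (100 : ℝ) ≤ 2 ^ 7 := by norm_num
    _ ≤ Real.exp 1 ^ 7 := pow_le_pow_left₀ (by norm_num) h1 7

theorem core {k : ℕ} (x y z : Fin k → ℝ) (h1 : ∀ i, 0 < x i) (h2 : ∀ i, 0 < y i)
    (h3 : ∀ i, y i ≤ z i) (h4 : ∏ i, (z i / y i) ≤ Real.exp 2) :
    ∃ ε : ℝ, 0 < ε ∧ ε < 1 / 10 ∧ (∀ i, ε < x i) ∧ (∀ i, ε < y i) ∧
      (∀ i, 0 < (1 - ε) * ((1 / 3 - ε) * ∏ l ∈ univ.erase i, (y l - ε)) -
        Real.exp (-9) * ((1 / 3 + ε) * ∏ l ∈ univ.erase i, (z l + ε))) ∧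
      (1 / 3 + ε) * ∏ i, (y i + ε) ≤ 3 / 2 * (1 / 3 * ∏ i, y i) ∧
      (∀ i, 9 / 10 * (x i ^ 2 / y i * (1 / 3 * ∏ l, y l)) ≤
        (1 - ε) ^ 3 * (x i - ε) ^ 2 * ((1 - ε) * ((1 / 3 - ε) * ∏ l ∈ univ.erase i, (y l - ε)) -
        Real.exp (-9) * ((1 / 3 + ε) * ∏ l ∈ univ.erase i, (z l + ε)))) ∧
      ∀ i j, i ≠ j →
        (1 / 3 + ε) * (∏ l ∈ (univ.erase i).erase j, (y l + ε)) *
          (((1 / 2 + ε) / (1 / 2 - ε) ^ 2) ^ 2 * (x i + ε) ^ 2 * (x j + ε) ^ 2) ≤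
        5 * ((x i ^ 2 / y i) * (x j ^ 2 / y j) * (1 / 3 * ∏ l, y l)) := by
  have hz : ∀ i, 0 < z i := fun i => (h2 i).trans_le (h3 i)
  have hPi : ∀ i, 0 < ∏ l ∈ univ.erase i, y l := fun i => prod_pos fun l _ => h2 l
  -- bound for the product of the `z`
  have hzprod : ∀ i, ∏ l ∈ univ.erase i, z l ≤ Real.exp 2 * ∏ l ∈ univ.erase i, y l := by
    intro i
    have e1 : ∏ l ∈ univ.erase i, (z l / y l) ≤ ∏ l, (z l / y l) := by
      rw [← mul_prod_erase univ (fun l => z l / y l) (mem_univ i)]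
      apply le_mul_of_one_le_left
      · exact prod_nonneg fun l _ => (div_pos (hz l) (h2 l)).le
      · rw [one_le_div (h2 i)]; exact h3 i
    rw [prod_div_distrib] at e1
    have e2 := e1.trans h4
    rwa [div_le_iff₀ (hPi i)] at e2
  have hBr0 : ∀ i, 99 / 100 * (1 / 3 * ∏ l ∈ univ.erase i, y l) ≤
      (1 / 3 * ∏ l ∈ univ.erase i, y l) - Real.exp (-9) * (1 / 3 * ∏ l ∈ univ.erase i, z l) := by
    intro i
    have e1 : Real.exp (-9) * (1 / 3 * ∏ l ∈ univ.erase i, z l) ≤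
        Real.exp (-9) * (1 / 3 * (Real.exp 2 * ∏ l ∈ univ.erase i, y l)) := by
      have := hzprod i
      have := Real.exp_pos (-9)
      gcongr
    have e2 : Real.exp (-9) * (1 / 3 * (Real.exp 2 * ∏ l ∈ univ.erase i, y l)) =
        Real.exp (-7) * (1 / 3 * ∏ l ∈ univ.erase i, y l) := by
      have : Real.exp (-7) = Real.exp (-9) * Real.exp 2 := by
        rw [← Real.exp_add]; norm_num
      rw [this]; ring
    have e3 := mul_le_mul_of_nonneg_right exp_neg_seven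
      (show 0 ≤ 1 / 3 * ∏ l ∈ univ.erase i, y l by have := hPi i; positivity)
    linarith
  have hsplit : ∀ i, ∏ l, y l = y i * ∏ l ∈ univ.erase i, y l := fun i =>
    (mul_prod_erase univ y (mem_univ i)).symm
  set Br : Fin k → ℝ → ℝ := fun i ε => (1 - ε) * ((1 / 3 - ε) * ∏ l ∈ univ.erase i, (y l - ε)) -
        Real.exp (-9) * ((1 / 3 + ε) * ∏ l ∈ univ.erase i, (z l + ε)) with hBr
  have hBrc : ∀ i, Continuous (Br i) := by
    intro i; rw [hBr]; fun_prop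
  have hBr00 : ∀ i, Br i 0 = (1 / 3 * ∏ l ∈ univ.erase i, y l) -
      Real.exp (-9) * (1 / 3 * ∏ l ∈ univ.erase i, z l) := by
    intro i; rw [hBr]; simp
  have hBrpos : ∀ i, 0 < Br i 0 := by
    intro i
    rw [hBr00]
    refine lt_of_lt_of_le ?_ (hBr0 i)
    have := hPi i; positivity
  have E1 : ∀ᶠ ε : ℝ in 𝓝[>] 0, 0 < ε := self_mem_nhdsWithin
  have E2 : ∀ᶠ ε : ℝ in 𝓝[>] 0, ε < 1 / 10 :=
    (eventually_lt_nhds (by norm_num)).filter_mono nhdsWithin_le_nhds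
  have E3 : ∀ᶠ ε : ℝ in 𝓝[>] 0, ∀ i, ε < x i :=
    eventually_all.2 fun i => (eventually_lt_nhds (h1 i)).filter_mono nhdsWithin_le_nhds
  have E4 : ∀ᶠ ε : ℝ in 𝓝[>] 0, ∀ i, ε < y i :=
    eventually_all.2 fun i => (eventually_lt_nhds (h2 i)).filter_mono nhdsWithin_le_nhds
  have E5 : ∀ᶠ ε : ℝ in 𝓝[>] 0, ∀ i, 0 < Br i ε :=
    eventually_all.2 fun i => ((hBrc i).continuousAt.eventually_const_lt (hBrpos i)).filter_mono
      nhdsWithin_le_nhds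
  have E6 : ∀ᶠ ε : ℝ in 𝓝[>] 0, (1 / 3 + ε) * ∏ i, (y i + ε) < 3 / 2 * (1 / 3 * ∏ i, y i) := by
    have hc : Continuous fun ε : ℝ => (1 / 3 + ε) * ∏ i, (y i + ε) := by fun_prop
    refine (hc.continuousAt.eventually_lt_const ?_).filter_mono nhdsWithin_le_nhds
    have : 0 < ∏ i, y i := prod_pos fun l _ => h2 l
    simp only [add_zero]
    linarith
  have E7 : ∀ᶠ ε : ℝ in 𝓝[>] 0, ∀ i, 9 / 10 * (x i ^ 2 / y i * (1 / 3 * ∏ l, y l)) <
      (1 - ε) ^ 3 * (x i - ε) ^ 2 * Br i ε := by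
    refine eventually_all.2 fun i => ?_
    have hc : Continuous fun ε : ℝ => (1 - ε) ^ 3 * (x i - ε) ^ 2 * Br i ε := by
      have := hBrc i
      fun_prop
    refine (hc.continuousAt.eventually_const_lt ?_).filter_mono nhdsWithin_le_nhds
    show 9 / 10 * (x i ^ 2 / y i * (1 / 3 * ∏ l, y l)) < (1 - 0) ^ 3 * (x i - 0) ^ 2 * Br i 0
    rw [hBr00]
    have e1 : x i ^ 2 / y i * (1 / 3 * ∏ l, y l) = x i ^ 2 * (1 / 3 * ∏ l ∈ univ.erase i, y l) := by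
      rw [hsplit i]
      have := (h2 i).ne'
      field_simp
    rw [e1]
    have e2 : 0 < x i ^ 2 := by have := h1 i; positivity
    have e3 : 0 < 1 / 3 * ∏ l ∈ univ.erase i, y l := by have := hPi i; positivity
    have e4 := mul_le_mul_of_nonneg_left (hBr0 i) e2.le
    have e5 : 0 < x i ^ 2 * (1 / 3 * ∏ l ∈ univ.erase i, y l) := mul_pos e2 e3
    simp only [sub_zero, one_pow, one_mul]
    linarith
  have E8 : ∀ᶠ ε : ℝ in 𝓝[>] 0, ∀ i j, i ≠ j →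
        (1 / 3 + ε) * (∏ l ∈ (univ.erase i).erase j, (y l + ε)) *
          (((1 / 2 + ε) / (1 / 2 - ε) ^ 2) ^ 2 * (x i + ε) ^ 2 * (x j + ε) ^ 2) <
        5 * ((x i ^ 2 / y i) * (x j ^ 2 / y j) * (1 / 3 * ∏ l, y l)) := by
    refine eventually_all.2 fun i => eventually_all.2 fun j => ?_
    by_cases hij : i = j
    · exact Eventually.of_forall fun _ h => absurd hij h
    have hc : ContinuousAt (fun ε : ℝ => (1 / 3 + ε) * (∏ l ∈ (univ.erase i).erase j, (y l + ε)) *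
          (((1 / 2 + ε) / (1 / 2 - ε) ^ 2) ^ 2 * (x i + ε) ^ 2 * (x j + ε) ^ 2)) 0 := by
      have h0 : ((1 : ℝ) / 2 - 0) ^ 2 ≠ 0 := by norm_num
      have hd : ContinuousAt (fun ε : ℝ => (1 / 2 + ε) / (1 / 2 - ε) ^ 2) 0 :=
        ContinuousAt.div (by fun_prop) (by fun_prop) h0
      have hA : ContinuousAt (fun ε : ℝ => (1 / 3 + ε) *
          (∏ l ∈ (univ.erase i).erase j, (y l + ε))) 0 := by fun_prop
      have hB : ContinuousAt (fun ε : ℝ => (x i + ε) ^ 2) 0 := by fun_prop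
      have hC : ContinuousAt (fun ε : ℝ => (x j + ε) ^ 2) 0 := by fun_prop
      exact hA.mul (((hd.pow 2).mul hB).mul hC)
    have hlt : (fun ε : ℝ => (1 / 3 + ε) * (∏ l ∈ (univ.erase i).erase j, (y l + ε)) *
          (((1 / 2 + ε) / (1 / 2 - ε) ^ 2) ^ 2 * (x i + ε) ^ 2 * (x j + ε) ^ 2)) 0 <
          5 * ((x i ^ 2 / y i) * (x j ^ 2 / y j) * (1 / 3 * ∏ l, y l)) := by
      have hji : j ∈ (univ.erase i : Finset (Fin k)) := mem_erase.mpr ⟨Ne.symm hij, mem_univ j⟩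
      have e0 : ∏ l, y l = y i * (y j * ∏ l ∈ (univ.erase i).erase j, y l) := by
        rw [hsplit i, mul_prod_erase _ y hji]
      have hyi := (h2 i).ne'
      have hyj := (h2 j).ne'
      have e1 : (x i ^ 2 / y i) * (x j ^ 2 / y j) * (1 / 3 * ∏ l, y l) =
          x i ^ 2 * x j ^ 2 * (1 / 3 * ∏ l ∈ (univ.erase i).erase j, y l) := by
        rw [e0]; field_simp
      rw [e1]
      have e2 : 0 < ∏ l ∈ (univ.erase i).erase j, y l := prod_pos fun l _ => h2 l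
      have e3 : 0 < x i ^ 2 * x j ^ 2 * (1 / 3 * ∏ l ∈ (univ.erase i).erase j, y l) := by
        have := h1 i; have := h1 j; positivity
      simp only [add_zero, sub_zero]
      have e4 : 1 / 3 * (∏ l ∈ (univ.erase i).erase j, y l) *
          (((1 / 2) / ((1 : ℝ) / 2) ^ 2) ^ 2 * x i ^ 2 * x j ^ 2) =
          4 * (x i ^ 2 * x j ^ 2 * (1 / 3 * ∏ l ∈ (univ.erase i).erase j, y l)) := by
        norm_num; ring
      rw [e4]
      linarith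
    exact ((hc.eventually_lt_const hlt).filter_mono nhdsWithin_le_nhds).mono fun ε h _ => h
  obtain ⟨ε, e1, e2, e3, e4, e5, e6, e7, e8⟩ :=
    (E1.and (E2.and (E3.and (E4.and (E5.and (E6.and (E7.and E8))))))).exists
  exact ⟨ε, e1, e2, e3, e4, e5, e6.le, fun i => (e7 i).le, fun i j hij => (e8 i j hij).le⟩

end A2

open Pool.Agent.H410R2 hiding GP GP_prof GP_cut_some GP_cut_none GP_lip gg_pos gg_le_one gg_anti ee_bound ee_nonneg gg_lip LB_gg LB_ee Sums exists_sums yx wx wxi Br sum_GP_none sum_GP_some sum_GP_some_ee sum_GP_some_one sum_GPr_none sum_GPr_some S1_final QI_final S2_final w_abs_le wmax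
open GM (SPar)

variable {k : ℕ}

/-- A2 : choice of `ε` -/
theorem exists_eps (B : BPar k) (h1 : ∀ i, 0 < (B.Q i).I1) (h2 : ∀ i, 0 < (B.Q i).I2)
    (h3 : ∀ i, (B.Q i).I2 ≤ (B.Q i).IE) (h4 : ∏ i, ((B.Q i).IE / (B.Q i).I2) ≤ Real.exp 2) :
    ∃ ε : ℝ, 0 < ε ∧ ε < 1 / 10 ∧ (∀ i, ε < (B.Q i).I1) ∧ (∀ i, ε < (B.Q i).I2) ∧
      (∀ i, 0 < BrB B i ε) ∧
      (1 / 3 + ε) * ∏ i, ((B.Q i).I2 + ε) ≤ 3 / 2 * (1 / 3 * ∏ i, (B.Q i).I2) ∧
      (∀ i, 9 / 10 * ((B.Q i).I1 ^ 2 / (B.Q i).I2 * (1 / 3 * ∏ l, (B.Q l).I2)) ≤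
        (1 - ε) ^ 3 * ((B.Q i).I1 - ε) ^ 2 * BrB B i ε) ∧
      ∀ i j, i ≠ j →
        (1 / 3 + ε) * (∏ l ∈ (univ.erase i).erase j, ((B.Q l).I2 + ε)) *
          (((1 / 2 + ε) / (1 / 2 - ε) ^ 2) ^ 2 * ((B.Q i).I1 + ε) ^ 2 * ((B.Q j).I1 + ε) ^ 2) ≤
        5 * (((B.Q i).I1 ^ 2 / (B.Q i).I2) * ((B.Q j).I1 ^ 2 / (B.Q j).I2) *
          (1 / 3 * ∏ l, (B.Q l).I2)) :=
  A2.core (fun i => (B.Q i).I1) (fun i => (B.Q i).I2) (fun i => (B.Q i).IE) h1 h2 h3 h4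

end Pool.Agent.H361R2.Inf
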