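import Mathlib

/-! A3 : second moment. -/

namespace Pool.Agent.H361R2.Inf

open Finset Filter Topology

open Classical in
/-- A3 : second moment -/
theorem cs_block {ι : Type} (s : Finset ℕ) (mu : ℕ → ℝ) (hmu : ∀ n ∈ s, 0 ≤ mu n)
    (T : Finset ι) (E : ι → ℕ → Prop) (Z : ℝ) (hZ : 0 < Z) (ρ : ι → ℝ)
    (hρ : ∀ i ∈ T, 0 ≤ ρ i) (h1 : 1 ≤ ∑ i ∈ T, ρ i)
    (hs : ∀ i ∈ T, 1 / 5 * ρ i * Z ≤ ∑ n ∈ s.filter (fun n => E i n), mu n)
    (hp : ∀ i ∈ T, ∀ j ∈ T, i ≠ j →
      ∑ n ∈ s.filter (fun n => E i n ∧ E j n), mu n ≤ 6 * (ρ i * ρ j * Z)) :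
    1 / 200 * Z ≤ ∑ n ∈ s.filter (fun n => ∃ i ∈ T, E i n), mu n := by
  set κ := ∑ i ∈ T, ρ i with hκ
  set f : ℕ → ℝ := fun n => ∑ i ∈ T, if E i n then (1 : ℝ) else 0 with hf
  set S := ∑ n ∈ s, mu n * f n with hS
  set M := ∑ n ∈ s, mu n * (f n) ^ 2 with hM
  set U := ∑ n ∈ s.filter (fun n => ∃ i ∈ T, E i n), mu n with hU
  -- first moment
  have hS1 : S = ∑ i ∈ T, ∑ n ∈ s.filter (fun n => E i n), mu n := by
    rw [hS]
    simp only [hf, Finset.mul_sum]
    rw [Finset.sum_comm]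
    refine Finset.sum_congr rfl fun i _ => ?_
    rw [Finset.sum_filter]
    refine Finset.sum_congr rfl fun n _ => ?_
    split_ifs <;> simp
  have hS2 : 1 / 5 * κ * Z ≤ S := by
    rw [hS1]
    calc 1 / 5 * κ * Z = ∑ i ∈ T, 1 / 5 * ρ i * Z := by
          rw [hκ, Finset.mul_sum, Finset.sum_mul]
      _ ≤ _ := Finset.sum_le_sum hs
  -- second moment
  have hM1 : M = ∑ i ∈ T, ∑ j ∈ T, ∑ n ∈ s.filter (fun n => E i n ∧ E j n), mu n := by
    rw [hM]
    have e : ∀ n ∈ s, mu n * (f n) ^ 2 =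
        ∑ i ∈ T, ∑ j ∈ T, if E i n ∧ E j n then mu n else 0 := by
      intro n _
      rw [sq, hf, Finset.sum_mul_sum, Finset.mul_sum]
      refine Finset.sum_congr rfl fun i _ => ?_
      rw [Finset.mul_sum]
      refine Finset.sum_congr rfl fun j _ => ?_
      by_cases hi : E i n <;> by_cases hj : E j n <;> simp [hi, hj]
    rw [Finset.sum_congr rfl e, Finset.sum_comm]
    refine Finset.sum_congr rfl fun i _ => ?_
    rw [Finset.sum_comm]
    refine Finset.sum_congr rfl fun j _ => ?_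
    rw [Finset.sum_filter]
  have hM2 : M ≤ S + 6 * κ ^ 2 * Z := by
    have e : ∀ i ∈ T, ∑ j ∈ T, ∑ n ∈ s.filter (fun n => E i n ∧ E j n), mu n ≤
        ∑ n ∈ s.filter (fun n => E i n), mu n + 6 * (ρ i * κ * Z) := by
      intro i hi
      rw [← Finset.add_sum_erase T _ hi]
      have e1 : ∑ n ∈ s.filter (fun n => E i n ∧ E i n), mu n =
          ∑ n ∈ s.filter (fun n => E i n), mu n := by
        simp only [and_self]
      rw [e1]
      have e2 : ∑ j ∈ T.erase i, ∑ n ∈ s.filter (fun n => E i n ∧ E j n), mu n ≤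
          6 * (ρ i * κ * Z) := by
        calc ∑ j ∈ T.erase i, ∑ n ∈ s.filter (fun n => E i n ∧ E j n), mu n
            ≤ ∑ j ∈ T.erase i, 6 * (ρ i * ρ j * Z) := by
              refine Finset.sum_le_sum fun j hj => ?_
              exact hp i hi j (Finset.mem_of_mem_erase hj) (Finset.ne_of_mem_erase hj).symm
          _ ≤ ∑ j ∈ T, 6 * (ρ i * ρ j * Z) := by
              refine Finset.sum_le_sum_of_subset_of_nonneg (Finset.erase_subset _ _) ?_
              intro j hj _
              have := hρ i hi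
              have := hρ j hj
              positivity
          _ = 6 * (ρ i * κ * Z) := by
              rw [hκ, Finset.mul_sum, Finset.sum_mul, Finset.mul_sum]
      linarith
    calc M ≤ ∑ i ∈ T, (∑ n ∈ s.filter (fun n => E i n), mu n + 6 * (ρ i * κ * Z)) := by
          rw [hM1]
          exact Finset.sum_le_sum e
      _ = S + 6 * κ ^ 2 * Z := by
          rw [Finset.sum_add_distrib, ← hS1]
          congr 1
          have : ∀ i ∈ T, 6 * (ρ i * κ * Z) = ρ i * (6 * κ * Z) := fun i _ => by ring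
          rw [Finset.sum_congr rfl this, ← Finset.sum_mul, ← hκ]
          ring
  -- the quadratic inequality
  have hq : ∀ t : ℝ, 2 * t * S - M ≤ t ^ 2 * U := by
    intro t
    rw [hU, hS, hM, Finset.sum_filter, Finset.mul_sum, Finset.mul_sum, ← Finset.sum_sub_distrib]
    refine Finset.sum_le_sum fun n hn => ?_
    have hm := hmu n hn
    split_ifs with h
    · have := mul_nonneg hm (sq_nonneg (t - f n))
      nlinarith
    · have h0 : f n = 0 := by
        rw [hf]
        refine Finset.sum_eq_zero fun i hi => ?_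
        rw [if_neg]
        exact fun h' => h ⟨i, hi, h'⟩
      rw [h0]
      simp
  have hSpos : 0 < S := by
    have : 0 < 1 / 5 * κ * Z := by
      have : 0 < κ := by linarith
      positivity
    linarith
  -- bound `M ≤ 155 * S ^ 2 / Z`
  have hMZ : Z * M ≤ 155 * S ^ 2 := by
    have a1 : Z * κ ≤ 5 * S := by linarith
    have a2 : Z ≤ 5 * S := by nlinarith
    have a3 : Z * S ≤ 5 * S * S := mul_le_mul_of_nonneg_right a2 hSpos.le
    have a4 : (Z * κ) ^ 2 ≤ (5 * S) ^ 2 := by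
      apply pow_le_pow_left₀ _ a1
      have : 0 < κ := by linarith
      positivity
    have a5 : Z * M ≤ Z * (S + 6 * κ ^ 2 * Z) := mul_le_mul_of_nonneg_left hM2 hZ.le
    nlinarith
  have hfin := hq (200 * S / Z)
  have e1 : 2 * (200 * S / Z) * S = 400 * S ^ 2 / Z := by ring
  have e2 : M ≤ 155 * S ^ 2 / Z := by
    rw [le_div_iff₀ hZ]
    linarith
  have e3 : 245 * S ^ 2 / Z ≤ (200 * S / Z) ^ 2 * U := by
    have : 245 * S ^ 2 / Z = 400 * S ^ 2 / Z - 155 * S ^ 2 / Z := by ring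
    linarith
  have e4 : 245 * S ^ 2 / Z = (200 * S / Z) ^ 2 * (245 / 40000 * Z) := by
    field_simp
    ring
  rw [e4] at e3
  have hpos : 0 < (200 * S / Z) ^ 2 := by positivity
  have := le_of_mul_le_mul_left e3 hpos
  linarith

end Pool.Agent.H361R2.Inf
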