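import Mathlib
import Pool.Agent.H361R2.InfFC
import Pool.Agent.H361R2.GMain
import Pool.Agent.H361R2.InfA2

/-! A4 : what the sieve gives. -/

namespace Pool.Agent.H361R2.Inf

open Finset Filter Topology
open Pool.Agent.H410R2 hiding GP GP_prof GP_cut_some GP_cut_none GP_lip gg_pos gg_le_one gg_anti ee_bound ee_nonneg gg_lip LB_gg LB_ee Sums exists_sums yx wx wxi Br sum_GP_none sum_GP_some sum_GP_some_ee sum_GP_some_one sum_GPr_none sum_GPr_some S1_final QI_final S2_final w_abs_le wmax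
open GM (SPar)

variable {k : ℕ}

theorem sumsB_ev (B : BPar k) (hOD : OneDim) (K : ℕ) (ε : ℝ) (hε : 0 < ε) : ∃ D₀ : ℕ, ∀ D, D₀ ≤ D →
    ∀ᶠ x : ℝ in atTop, SumsB B D ε K (Lx x) (Px D x) := by
  obtain ⟨D₁, h⟩ := exists_sumsB B hOD K ε hε
  refine ⟨D₁, fun D hD => ?_⟩
  filter_upwards [GM.tendsto_Lx.eventually (h D hD)] with x hx
  exact hx _ (isWin_Px D x)

/-- A4 with the conclusion of A2 as hypothesis -/
theorem sieve_out_aux (B : BPar k) (h1 : ∀ i, 0 < (B.Q i).I1) (h2 : ∀ i, 0 < (B.Q i).I2)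
    (hE : ∃ ε : ℝ, 0 < ε ∧ ε < 1 / 10 ∧ (∀ i, ε < (B.Q i).I1) ∧ (∀ i, ε < (B.Q i).I2) ∧
      (∀ i, 0 < BrB B i ε) ∧
      (1 / 3 + ε) * ∏ i, ((B.Q i).I2 + ε) ≤ 3 / 2 * (1 / 3 * ∏ i, (B.Q i).I2) ∧
      (∀ i, 9 / 10 * ((B.Q i).I1 ^ 2 / (B.Q i).I2 * (1 / 3 * ∏ l, (B.Q l).I2)) ≤
        (1 - ε) ^ 3 * ((B.Q i).I1 - ε) ^ 2 * BrB B i ε) ∧
      ∀ i j, i ≠ j →
        (1 / 3 + ε) * (∏ l ∈ (univ.erase i).erase j, ((B.Q l).I2 + ε)) *
          (((1 / 2 + ε) / (1 / 2 - ε) ^ 2) ^ 2 * ((B.Q i).I1 + ε) ^ 2 * ((B.Q j).I1 + ε) ^ 2) ≤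
        5 * (((B.Q i).I1 ^ 2 / (B.Q i).I2) * ((B.Q j).I1 ^ 2 / (B.Q j).I2) *
          (1 / 3 * ∏ l, (B.Q l).I2)))
    (hpair : ∀ (a b : Fin k → ℕ) (D v : ℕ), Ctx a b D v → ∀ ε : ℝ, 0 < ε → ε < 1 / 10 →
      (∀ᶠ x : ℝ in atTop, SumsB B D ε (k + 1) (Lx x) (Px D x)) →
      ∀ᶠ x : ℝ in atTop, ∀ i j : Fin k, i ≠ j →
        ∑ n ∈ (Icc 1 ⌊x⌋₊).filter
          (fun n => n ≡ v [MOD (WW D)] ∧ (a i * n + b i).Prime ∧ (a j * n + b j).Prime),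
            Real.log (x / n) * (wxb B a b D x n) ^ 2 ≤
        Q0 k D x * ((1 / 3 + ε) * (∏ l ∈ (univ.erase i).erase j, ((B.Q l).I2 + ε)) *
          (((1 / 2 + ε) / (1 / 2 - ε) ^ 2) ^ 2 * ((B.Q i).I1 + ε) ^ 2 * ((B.Q j).I1 + ε) ^ 2)) + x)
    (a b : Fin k → ℕ) (ha : ∀ i, 1 ≤ a i) (hb : ∀ i, 1 ≤ b i)
    (hnp : ∀ i j, i ≠ j → a i * b j ≠ a j * b i)
    (hadm : ∀ p : ℕ, p.Prime → ∃ n : ℕ, ¬ p ∣ n ∧ ∀ i, ¬ p ∣ a i * n + b i) :
    ∃ (mu : ℝ → ℕ → ℝ) (Z : ℝ → ℝ), ∀ᶠ x : ℝ in atTop, 0 < Z x ∧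
      (∀ n ∈ Icc 1 ⌊x⌋₊, 0 ≤ mu x n ∧ mu x n ≤ x ^ (-(1 / 4) : ℝ) * Z x) ∧
      ∑ n ∈ Icc 1 ⌊x⌋₊, mu x n ≤ 2 * Z x ∧
      (∀ i : Fin k, 1 / 5 * ((B.Q i).I1 ^ 2 / (B.Q i).I2) * Z x ≤
        ∑ n ∈ (Icc 1 ⌊x⌋₊).filter (fun n => (a i * n + b i).Prime), mu x n) ∧
      ∀ i j : Fin k, i ≠ j →
        ∑ n ∈ (Icc 1 ⌊x⌋₊).filter
          (fun n => (a i * n + b i).Prime ∧ (a j * n + b j).Prime), mu x n ≤
          6 * (((B.Q i).I1 ^ 2 / (B.Q i).I2) * ((B.Q j).I1 ^ 2 / (B.Q j).I2) * Z x) := by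
  obtain ⟨ε, hε, hε1, hI1, hI2, hBr, hA, hbet, hpr⟩ := hE
  obtain ⟨D2, hctx⟩ := GM.exists_ctx Pool.Agent.H398R2.ariSetup a b ha hb hnp hadm
  obtain ⟨D3, hκ⟩ := GM.hκ_of Pool.Agent.H361R2.tailBound k ε hε
  obtain ⟨D4, hov⟩ := GM.hovl_of Pool.Agent.H361R2.tailBound k ε hε
  obtain ⟨D5, hsum⟩ := sumsB_ev B Pool.Agent.H399R2.oneDim (k + 1) ε hε
  set D := D2 + D3 + D4 + D5 with hD
  obtain ⟨v, hc⟩ := hctx D (by omega)
  have hκ := hκ D (by omega)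
  have hov := hov D (by omega)
  have hsum := hsum D (by omega)
  set Z0 : ℝ := 1 / 3 * ∏ l, (B.Q l).I2 with hZ0
  have hZ0p : 0 < Z0 := by
    have : 0 < ∏ l, (B.Q l).I2 := Finset.prod_pos fun l _ => h2 l
    positivity
  set ρ : Fin k → ℝ := fun i => (B.Q i).I1 ^ 2 / (B.Q i).I2 with hρ
  have hρp : ∀ i, 0 < ρ i := fun i => by
    have := h1 i
    have := h2 i
    simp only [hρ]
    positivity
  obtain ⟨C, hC0, hFC⟩ := fcb B a b D v hc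
  have hFA := fab B a b D v hc (1 / 4) (by norm_num)
  have hS2 := S2_finalB B Pool.Agent.H732R2.s2Approx Pool.Agent.H361R2.s2Model bvap
    Pool.Agent.H732R2.pntLog Pool.Agent.H361R2.prodBound Pool.Agent.H361R2.omegaBound hc ε hε
    (by linarith) hI1 hI2 hBr hκ hov hsum
  have hP := hpair a b D v hc ε hε hε1 hsum
  have hq3 : ∀ᶠ x : ℝ in atTop, ∀ i : Fin k, 3 / (ρ i * Z0) * x ≤ Q0 k D x :=
    Filter.eventually_all.2 fun i => GM.Q0_large k D hc.hW hc.BDpos _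
  have hq4 : ∀ᶠ x : ℝ in atTop, ∀ i j : Fin k, 1 / (ρ i * ρ j * Z0) * x ≤ Q0 k D x :=
    Filter.eventually_all.2 fun i => Filter.eventually_all.2 fun j =>
      GM.Q0_large k D hc.hW hc.BDpos _
  refine ⟨fun x n => if n ≡ v [MOD (WW D)] then Real.log (x / n) * (wxb B a b D x n) ^ 2 else 0,
    fun x => Q0 k D x * Z0, ?_⟩
  filter_upwards [hFA, hS2, hFC, hP, hsum, E0_le Pool.Agent.H361R2.prodBound k D,
    GM.Q0_large k D hc.hW hc.BDpos (2 / Z0), hq3, hq4,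
    ev_polylog 1 1 (1 / 4) (3 / 4) (by norm_num),
    Real.tendsto_log_atTop.eventually_ge_atTop ((1 + C / 5) / (16 / 1000)),
    eventually_gt_atTop (1 : ℝ)]
    with x hFA hS2 hFC hP hsum hE0 hq1 hq3 hq4 hpl hlC hx
  have hx0 : 0 < x := by linarith
  have hlx : 0 < Real.log x := Real.log_pos hx
  set Z := Q0 k D x * Z0 with hZ
  have hZ2 : 2 * x ≤ Z := by
    have := mul_le_mul_of_nonneg_right hq1 hZ0p.le
    calc 2 * x = 2 / Z0 * x * Z0 := by field_simp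
      _ ≤ _ := this
  have hZpos : 0 < Z := by linarith
  have hNm : ∀ n ∈ Icc 1 ⌊x⌋₊, 1 ≤ n ∧ (n : ℝ) ≤ x := by
    intro n hn
    rw [Finset.mem_Icc] at hn
    exact ⟨hn.1, (Nat.cast_le.2 hn.2).trans (Nat.floor_le hx0.le)⟩
  have hlogn : ∀ n ∈ Icc 1 ⌊x⌋₊, 0 ≤ Real.log (x / n) ∧ Real.log (x / n) ≤ Real.log x := by
    intro n hn
    obtain ⟨h1, h2⟩ := hNm n hn
    have hn1 : (1 : ℝ) ≤ n := by exact_mod_cast h1
    have hn0 : (0 : ℝ) < n := by linarith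
    constructor
    · apply Real.log_nonneg
      rw [le_div_iff₀ hn0]
      linarith
    · apply Real.log_le_log (by positivity)
      exact div_le_self hx0.le hn1
  set u : ℕ → ℝ := fun n => Real.log (x / n) * (wxb B a b D x n) ^ 2 with hu
  have hu0 : ∀ n ∈ Icc 1 ⌊x⌋₊, 0 ≤ u n := fun n hn => mul_nonneg (hlogn n hn).1 (sq_nonneg _)
  have hu1 : ∀ n ∈ Icc 1 ⌊x⌋₊, u n ≤ x ^ (-(1 / 4) : ℝ) * Z := by
    intro n hn
    obtain ⟨h1, h2⟩ := hNm n hn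
    have h3 := (hFA n h1 h2).1
    have h4 := hlogn n hn
    calc u n ≤ Real.log x * x ^ (1 / 4 : ℝ) := mul_le_mul h4.2 h3 (sq_nonneg _) hlx.le
      _ ≤ x ^ (3 / 4 : ℝ) := by
          have := hpl
          rw [one_mul, pow_one] at this
          exact this
      _ = x ^ (-(1 / 4) : ℝ) * x := by
          rw [← Real.rpow_add_one hx0.ne']
          norm_num
      _ ≤ x ^ (-(1 / 4) : ℝ) * Z := by
          apply mul_le_mul_of_nonneg_left (by linarith) (by positivity)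
  refine ⟨hZpos, ?_, ?_, ?_, ?_⟩
  · intro n hn
    change 0 ≤ (if n ≡ v [MOD (WW D)] then u n else 0) ∧
      (if n ≡ v [MOD (WW D)] then u n else 0) ≤ x ^ (-(1 / 4) : ℝ) * Z
    split_ifs
    · exact ⟨hu0 n hn, hu1 n hn⟩
    · exact ⟨le_rfl, by positivity⟩
  · change ∑ n ∈ Icc 1 ⌊x⌋₊, (if n ≡ v [MOD (WW D)] then u n else 0) ≤ 2 * Z
    rw [← Finset.sum_filter]
    have hS1 := S1_finalB B Pool.Agent.H361R2.s1Upper hc ε (k + 1) x hx hsum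
    refine hS1.trans ?_
    have hQ0 : 0 ≤ Q0 k D x := by
      by_contra hcon
      push Not at hcon
      have := mul_neg_of_neg_of_pos hcon hZ0p
      linarith
    have e1 : Q0 k D x * ((1 / 3 + ε) * ∏ i, ((B.Q i).I2 + ε)) ≤ 3 / 2 * Z := by
      calc Q0 k D x * ((1 / 3 + ε) * ∏ i, ((B.Q i).I2 + ε)) ≤ Q0 k D x * (3 / 2 * Z0) :=
            mul_le_mul_of_nonneg_left hA hQ0
        _ = 3 / 2 * Z := by rw [hZ]; ring
    have e2 : x ^ (1 / 2 : ℝ) ≤ x := by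
      calc x ^ (1 / 2 : ℝ) ≤ x ^ (1 : ℝ) := Real.rpow_le_rpow_of_exponent_le hx.le (by norm_num)
        _ = x := Real.rpow_one x
    linarith
  · intro i
    change 1 / 5 * ρ i * Z ≤ ∑ n ∈ (Icc 1 ⌊x⌋₊).filter (fun n => (a i * n + b i).Prime),
      (if n ≡ v [MOD (WW D)] then u n else 0)
    have e0 : ∑ n ∈ (Icc 1 ⌊x⌋₊).filter (fun n => (a i * n + b i).Prime),
        (if n ≡ v [MOD (WW D)] then u n else 0) =
        ∑ n ∈ (Icc 1 ⌊x⌋₊).filter (fun n => n ≡ v [MOD (WW D)] ∧ (a i * n + b i).Prime), u n := by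
      rw [← Finset.sum_filter, Finset.filter_filter]
      refine Finset.sum_congr (Finset.ext fun n => ?_) fun _ _ => rfl
      simp only [Finset.mem_filter]
      tauto
    rw [e0]
    set S := ∑ n ∈ (Icc 1 ⌊x⌋₊).filter (fun n => n ≡ v [MOD (WW D)] ∧ (a i * n + b i).Prime), u n
      with hS
    have e1 : Lx x * Q0 k D x * ((1 - ε) ^ 3 * ((B.Q i).I1 - ε) ^ 2 * BrB B i ε) - x ≤
        (Real.log x + C) * S + x ^ (3 / 4 : ℝ) := (hS2 i).trans (hFC i)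
    have hQ0 : 0 ≤ Q0 k D x := by
      by_contra hcon
      push Not at hcon
      have := mul_neg_of_neg_of_pos hcon hZ0p
      linarith
    have hLx : 0 ≤ Lx x := (Lx_pos hx).le
    have e2 : 216 / 1000 * Real.log x * (ρ i * Z) ≤
        Lx x * Q0 k D x * ((1 - ε) ^ 3 * ((B.Q i).I1 - ε) ^ 2 * BrB B i ε) := by
      calc 216 / 1000 * Real.log x * (ρ i * Z) = Lx x * Q0 k D x * (9 / 10 * (ρ i * Z0)) := by
            rw [hZ]
            unfold Lx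
            ring
        _ ≤ _ := mul_le_mul_of_nonneg_left (hbet i) (by positivity)
    have e3 : x ^ (3 / 4 : ℝ) ≤ x := by
      calc x ^ (3 / 4 : ℝ) ≤ x ^ (1 : ℝ) := Real.rpow_le_rpow_of_exponent_le hx.le (by norm_num)
        _ = x := Real.rpow_one x
    have e4 : 3 * x ≤ ρ i * Z := by
      have h5 : 0 < ρ i * Z0 := mul_pos (hρp i) hZ0p
      have := mul_le_mul_of_nonneg_right (hq3 i) h5.le
      calc 3 * x = 3 / (ρ i * Z0) * x * (ρ i * Z0) := by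
            have h5' := h5.ne'
            generalize ρ i * Z0 = y at h5' ⊢
            field_simp
        _ ≤ Q0 k D x * (ρ i * Z0) := this
        _ = ρ i * Z := by rw [hZ]; ring
    by_contra hcon
    push Not at hcon
    have e5 : (Real.log x + C) * S ≤ (Real.log x + C) * (1 / 5 * ρ i * Z) :=
      mul_le_mul_of_nonneg_left hcon.le (by linarith)
    have e6 : (1 + C / 5) ≤ 16 / 1000 * Real.log x := by
      rw [div_le_iff₀ (by norm_num)] at hlC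
      linarith
    have e7 : 0 < ρ i * Z := mul_pos (hρp i) hZpos
    have e8 : (1 + C / 5) * (ρ i * Z) ≤ 16 / 1000 * Real.log x * (ρ i * Z) :=
      mul_le_mul_of_nonneg_right e6 e7.le
    nlinarith
  · intro i j hij
    change ∑ n ∈ (Icc 1 ⌊x⌋₊).filter (fun n => (a i * n + b i).Prime ∧ (a j * n + b j).Prime),
      (if n ≡ v [MOD (WW D)] then u n else 0) ≤ 6 * (ρ i * ρ j * Z)
    have e0 : ∑ n ∈ (Icc 1 ⌊x⌋₊).filter
          (fun n => (a i * n + b i).Prime ∧ (a j * n + b j).Prime),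
        (if n ≡ v [MOD (WW D)] then u n else 0) =
        ∑ n ∈ (Icc 1 ⌊x⌋₊).filter (fun n => n ≡ v [MOD (WW D)] ∧ (a i * n + b i).Prime ∧
          (a j * n + b j).Prime), u n := by
      rw [← Finset.sum_filter, Finset.filter_filter]
      refine Finset.sum_congr (Finset.ext fun n => ?_) fun _ _ => rfl
      simp only [Finset.mem_filter]
      tauto
    rw [e0]
    refine (hP i j hij).trans ?_
    have hQ0 : 0 ≤ Q0 k D x := by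
      by_contra hcon
      push Not at hcon
      have := mul_neg_of_neg_of_pos hcon hZ0p
      linarith
    have e1 := mul_le_mul_of_nonneg_left (hpr i j hij) hQ0
    have e4 : x ≤ ρ i * ρ j * Z := by
      have h5 : 0 < ρ i * ρ j * Z0 := mul_pos (mul_pos (hρp i) (hρp j)) hZ0p
      have := mul_le_mul_of_nonneg_right (hq4 i j) h5.le
      calc x = 1 / (ρ i * ρ j * Z0) * x * (ρ i * ρ j * Z0) := by
            have h5' := h5.ne'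
            generalize ρ i * ρ j * Z0 = y at h5' ⊢
            field_simp
        _ ≤ Q0 k D x * (ρ i * ρ j * Z0) := this
        _ = ρ i * ρ j * Z := by rw [hZ]; ring
    have e5 : Q0 k D x * (5 * (ρ i * ρ j * Z0)) = 5 * (ρ i * ρ j * Z) := by rw [hZ]; ring
    have e6 : Q0 k D x * (5 * (((B.Q i).I1 ^ 2 / (B.Q i).I2) * ((B.Q j).I1 ^ 2 / (B.Q j).I2) *
          (1 / 3 * ∏ l, (B.Q l).I2))) = 5 * (ρ i * ρ j * Z) := e5
    rw [e6] at e1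
    linarith

/-- A4 : what the sieve gives -/
theorem sieve_out (B : BPar k) (h1 : ∀ i, 0 < (B.Q i).I1) (h2 : ∀ i, 0 < (B.Q i).I2)
    (h3 : ∀ i, (B.Q i).I2 ≤ (B.Q i).IE) (h4 : ∏ i, ((B.Q i).IE / (B.Q i).I2) ≤ Real.exp 2)
    (hpair : ∀ (a b : Fin k → ℕ) (D v : ℕ), Ctx a b D v → ∀ ε : ℝ, 0 < ε → ε < 1 / 10 →
      (∀ᶠ x : ℝ in atTop, SumsB B D ε (k + 1) (Lx x) (Px D x)) →
      ∀ᶠ x : ℝ in atTop, ∀ i j : Fin k, i ≠ j →
        ∑ n ∈ (Icc 1 ⌊x⌋₊).filter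
          (fun n => n ≡ v [MOD (WW D)] ∧ (a i * n + b i).Prime ∧ (a j * n + b j).Prime),
            Real.log (x / n) * (wxb B a b D x n) ^ 2 ≤
        Q0 k D x * ((1 / 3 + ε) * (∏ l ∈ (univ.erase i).erase j, ((B.Q l).I2 + ε)) *
          (((1 / 2 + ε) / (1 / 2 - ε) ^ 2) ^ 2 * ((B.Q i).I1 + ε) ^ 2 * ((B.Q j).I1 + ε) ^ 2)) + x)
    (a b : Fin k → ℕ) (ha : ∀ i, 1 ≤ a i) (hb : ∀ i, 1 ≤ b i)
    (hnp : ∀ i j, i ≠ j → a i * b j ≠ a j * b i)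
    (hadm : ∀ p : ℕ, p.Prime → ∃ n : ℕ, ¬ p ∣ n ∧ ∀ i, ¬ p ∣ a i * n + b i) :
    ∃ (mu : ℝ → ℕ → ℝ) (Z : ℝ → ℝ), ∀ᶠ x : ℝ in atTop, 0 < Z x ∧
      (∀ n ∈ Icc 1 ⌊x⌋₊, 0 ≤ mu x n ∧ mu x n ≤ x ^ (-(1 / 4) : ℝ) * Z x) ∧
      ∑ n ∈ Icc 1 ⌊x⌋₊, mu x n ≤ 2 * Z x ∧
      (∀ i : Fin k, 1 / 5 * ((B.Q i).I1 ^ 2 / (B.Q i).I2) * Z x ≤
        ∑ n ∈ (Icc 1 ⌊x⌋₊).filter (fun n => (a i * n + b i).Prime), mu x n) ∧
      ∀ i j : Fin k, i ≠ j →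
        ∑ n ∈ (Icc 1 ⌊x⌋₊).filter
          (fun n => (a i * n + b i).Prime ∧ (a j * n + b j).Prime), mu x n ≤
          6 * (((B.Q i).I1 ^ 2 / (B.Q i).I2) * ((B.Q j).I1 ^ 2 / (B.Q j).I2) * Z x) :=
  sieve_out_aux B h1 h2 (exists_eps B h1 h2 h3 h4) hpair a b ha hb hnp hadm

end Pool.Agent.H361R2.Inf
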