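import Mathlib
import Pool.Agent.H361R2.InfFC
import Pool.Agent.H361R2.InfIface
import Pool.Agent.H361R2.InfA3

/-! A5 : `FinBlock` from the blocks, the second moment and the sieve. -/

namespace Pool.Agent.H361R2.Inf

open Finset Filter Topology
open Pool.Agent.H410R2 hiding GP GP_prof GP_cut_some GP_cut_none GP_lip gg_pos gg_le_one gg_anti ee_bound ee_nonneg gg_lip LB_gg LB_ee Sums exists_sums yx wx wxi Br sum_GP_none sum_GP_some sum_GP_some_ee sum_GP_some_one sum_GPr_none sum_GPr_some S1_final QI_final S2_final w_abs_le wmax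
open GM (SPar)

variable {k : ℕ}

/-- A5 : `FinBlock` from A1, A3 and the conclusion of A4 (taken as hypothesis `hA4`) -/
theorem finBlock_of (off : ℕ → ℕ) (Q : ℕ → SPar) (hoff : StrictMono off) (h0 : off 0 = 0)
    (hQ : ∀ i, (Q i).c = 1 / 10 ∧ (Q i).lam = 10 ∧ 0 < (Q i).I1 ∧ 0 < (Q i).I2 ∧
      (Q i).I2 ≤ (Q i).IE)
    (hQ1 : ∀ t, 1 ≤ ∑ i ∈ Ico (off t) (off (t + 1)), (Q i).I1 ^ 2 / (Q i).I2)
    (hQ2 : ∀ N, ∏ i ∈ range (off N), ((Q i).IE / (Q i).I2) ≤ Real.exp 2)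
    (hA4 : ∀ (k : ℕ) (B : BPar k), (∀ i, 0 < (B.Q i).I1) → (∀ i, 0 < (B.Q i).I2) →
      (∀ i, (B.Q i).I2 ≤ (B.Q i).IE) → (∏ i, ((B.Q i).IE / (B.Q i).I2) ≤ Real.exp 2) →
      ∀ (a b : Fin k → ℕ), (∀ i, 1 ≤ a i) → (∀ i, 1 ≤ b i) →
      (∀ i j, i ≠ j → a i * b j ≠ a j * b i) →
      (∀ p : ℕ, p.Prime → ∃ n : ℕ, ¬ p ∣ n ∧ ∀ i, ¬ p ∣ a i * n + b i) →
      ∃ (mu : ℝ → ℕ → ℝ) (Z : ℝ → ℝ), ∀ᶠ x : ℝ in atTop, 0 < Z x ∧
        (∀ n ∈ Icc 1 ⌊x⌋₊, 0 ≤ mu x n ∧ mu x n ≤ x ^ (-(1 / 4) : ℝ) * Z x) ∧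
        ∑ n ∈ Icc 1 ⌊x⌋₊, mu x n ≤ 2 * Z x ∧
        (∀ i : Fin k, 1 / 5 * ((B.Q i).I1 ^ 2 / (B.Q i).I2) * Z x ≤
          ∑ n ∈ (Icc 1 ⌊x⌋₊).filter (fun n => (a i * n + b i).Prime), mu x n) ∧
        ∀ i j : Fin k, i ≠ j →
          ∑ n ∈ (Icc 1 ⌊x⌋₊).filter
            (fun n => (a i * n + b i).Prime ∧ (a j * n + b j).Prime), mu x n ≤
            6 * (((B.Q i).I1 ^ 2 / (B.Q i).I2) * ((B.Q j).I1 ^ 2 / (B.Q j).I2) * Z x)) :
    FinBlock off (1 / 200) := by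
  classical
  intro J a b hG
  obtain ⟨mu, Z, h⟩ := hA4 (off J)
    ⟨fun i => Q i, fun i => (hQ i).1, fun i => (hQ i).2.1⟩
    (fun i => (hQ i).2.2.1) (fun i => (hQ i).2.2.2.1) (fun i => (hQ i).2.2.2.2)
    (by
      have := hQ2 J
      rwa [← Fin.prod_univ_eq_prod_range (fun i => (Q i).IE / (Q i).I2)] at this)
    (fun i => a i) (fun i => b i) (fun i => hG.ha i i.2) (fun i => hG.hb i i.2)
    (fun i j hij => hG.ne i i.2 j j.2 (fun e => hij (Fin.ext e)))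
    (fun p hp => by
      obtain ⟨n, hn1, hn2⟩ := hG.adm p hp
      exact ⟨n, hn1, fun i => hn2 i i.2⟩)
  refine ⟨mu, Z, ?_⟩
  filter_upwards [h] with x hx
  obtain ⟨hZ, hmu, htot, hs, hp⟩ := hx
  refine ⟨hZ, hmu, htot, fun t ht => ?_⟩
  have hlt : ∀ i ∈ Ico (off t) (off (t + 1)), i < off J := by
    intro i hi
    exact lt_of_lt_of_le (Finset.mem_Ico.mp hi).2 (hoff.monotone (Nat.succ_le_of_lt ht))
  have key := cs_block (Icc 1 ⌊x⌋₊) (mu x) (fun n hn => (hmu n hn).1)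
    (Ico (off t) (off (t + 1))) (fun i n => (a i * n + b i).Prime) (Z x) hZ
    (fun i => (Q i).I1 ^ 2 / (Q i).I2)
    (fun i _ => (div_pos (pow_pos (hQ i).2.2.1 2) (hQ i).2.2.2.1).le)
    (hQ1 t)
    (fun i hi => by
      have h1 := hs ⟨i, hlt i hi⟩
      refine le_trans h1 (le_of_eq ?_)
      refine Finset.sum_congr ?_ fun _ _ => rfl
      ext n
      simp only [Finset.mem_filter])
    (fun i hi j hj hij => by
      have h1 := hp ⟨i, hlt i hi⟩ ⟨j, hlt j hj⟩ (fun e => hij (Fin.mk.inj e))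
      refine le_trans (le_of_eq ?_) h1
      refine Finset.sum_congr ?_ fun _ _ => rfl
      ext n
      simp only [Finset.mem_filter])
  refine le_trans key (le_of_eq ?_)
  refine Finset.sum_congr ?_ fun _ _ => rfl
  ext n
  simp only [Finset.mem_filter]

end Pool.Agent.H361R2.Inf
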