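import Mathlib
import Pool.Agent.H361R2.InfIface

namespace Pool.Agent.H361R2.Inf

open Finset Filter Topology
open scoped Nat

/-- a sequence in an infinite set along which each finite colouring `g j` is constant from `j` on -/
theorem exists_seq {α : Type*} (β : ℕ → Type*) [∀ j, Finite (β j)] (g : ∀ j, α → β j)
    (F : Set α) (hF : F.Infinite) :
    ∃ f : ℕ → α, Function.Injective f ∧ (∀ i, f i ∈ F) ∧ ∀ j i, j ≤ i → g j (f i) = g j (f j) := by
  have step : ∀ (j : ℕ) (X : {X : Set α // X.Infinite}), ∃ (Y : {Y : Set α // Y.Infinite}) (x : α),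
      x ∈ X.1 ∧ Y.1 ⊆ X.1 ∧ x ∉ Y.1 ∧ ∀ y ∈ Y.1, g j y = g j x := by
    intro j X
    have h1 : ∃ b : β j, (X.1 ∩ {y | g j y = b}).Infinite := by
      by_contra hcon
      push Not at hcon
      have : X.1 = ⋃ b : β j, X.1 ∩ {y | g j y = b} := by
        ext y; simp
      apply X.2
      rw [this]
      exact Set.finite_iUnion fun b => hcon b
    obtain ⟨b, hb⟩ := h1
    obtain ⟨x, hx⟩ := hb.nonempty
    refine ⟨⟨(X.1 ∩ {y | g j y = b}) \ {x}, hb.sdiff (Set.finite_singleton x)⟩, x, hx.1, ?_, ?_, ?_⟩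
    · intro y hy; exact hy.1.1
    · intro h; exact h.2 rfl
    · intro y hy
      have h2 := hy.1.2
      have h3 := hx.2
      simp only [Set.mem_ofPred_eq] at h2 h3
      rw [h2, h3]
  choose Y x hxX hYX hxY hY using step
  let S : ℕ → {X : Set α // X.Infinite} := fun n => Nat.rec ⟨F, hF⟩ (fun j X => Y j X) n
  have hS : ∀ j, S (j + 1) = Y j (S j) := fun j => rfl
  have hanti : ∀ j i, j ≤ i → (S i).1 ⊆ (S j).1 := by
    intro j i hji
    induction i, hji using Nat.le_induction with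
    | base => exact subset_rfl
    | succ i _ ih => exact (by rw [hS]; exact (hYX i (S i)).trans ih)
  have hmem : ∀ j i, j < i → x i (S i) ∈ (Y j (S j)).1 := by
    intro j i hji
    have := hanti (j + 1) i hji (hxX i (S i))
    rwa [hS] at this
  refine ⟨fun j => x j (S j), ?_, fun i => hanti 0 i (Nat.zero_le _) (hxX i (S i)), ?_⟩
  · intro i j hij
    by_contra hne
    rcases Nat.lt_or_gt_of_ne hne with h | h
    · have := hmem i j h
      simp only at hij
      rw [← hij] at this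
      exact hxY _ _ this
    · have := hmem j i h
      simp only at hij
      rw [hij] at this
      exact hxY _ _ this
  · intro j i hji
    rcases hji.eq_or_lt with rfl | h
    · rfl
    · exact hY j (S j) _ (hmem j i h)

/-- avoiding the zero class of all forms modulo `p` -/
theorem avoid (A B : ℕ → ℤ) (hcop : ∀ i, IsCoprime (A i) (B i))
    (hA : ∀ j i, j ≤ i → A i ≡ A j [ZMOD ((j + 3)! : ℕ)])
    (hB : ∀ j i, j ≤ i → B i ≡ B j [ZMOD ((j + 3)! : ℕ)]) (p : ℕ) (hp : p.Prime) :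
    ∃ n : ℕ, ∀ i, ¬ (p : ℤ) ∣ A i * n + B i := by
  classical
  set bad := (range (p - 3 + 1)).biUnion (fun i => (range p).filter (fun n : ℕ => (p : ℤ) ∣ A i * (n : ℤ) + B i))
    with hbad
  have hcard : bad.card < p := by
    calc bad.card ≤ ∑ i ∈ range (p - 3 + 1), ((range p).filter (fun n : ℕ => (p : ℤ) ∣ A i * (n : ℤ) + B i)).card :=
          card_biUnion_le
      _ ≤ ∑ i ∈ range (p - 3 + 1), 1 := by
          apply sum_le_sum
          intro i _
          rw [card_le_one]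
          intro m hm n hn
          rw [mem_filter, mem_range] at hm hn
          have hpA : ¬ (p : ℤ) ∣ A i := by
            intro h
            have h2 : (p : ℤ) ∣ B i := by
              have := hm.2.sub (h.mul_right (m : ℤ))
              simpa using this
            have h3 := (hcop i).isUnit_of_dvd' h h2
            have h4 := Int.isUnit_iff.mp h3
            have := hp.two_le
            omega
          have h5 : (p : ℤ) ∣ A i * ((m : ℤ) - n) := by
            have := hm.2.sub hn.2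
            have h6 : A i * ((m : ℤ) - n) = A i * m + B i - (A i * n + B i) := by ring
            rwa [h6]
          have h7 : (p : ℤ) ∣ (m : ℤ) - n :=
            ((Nat.prime_iff_prime_int.mp hp).dvd_or_dvd h5).resolve_left hpA
          have h8 : (m : ℤ) - n = 0 := by
            apply Int.eq_zero_of_abs_lt_dvd h7
            rw [abs_lt]
            omega
          omega
      _ = p - 3 + 1 := by simp
      _ < p := by have := hp.two_le; omega
  obtain ⟨n, hn, hnb⟩ : ∃ n ∈ range p, n ∉ bad := by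
    by_contra hcon
    push Not at hcon
    have := card_le_card (show range p ⊆ bad from hcon)
    rw [card_range] at this
    omega
  refine ⟨n, fun i hi => ?_⟩
  by_cases h : i < p - 3 + 1
  · apply hnb
    rw [hbad, mem_biUnion]
    exact ⟨i, mem_range.mpr h, mem_filter.mpr ⟨hn, hi⟩⟩
  · apply hnb
    have hj : p - 3 ≤ i := by omega
    rw [hbad, mem_biUnion]
    refine ⟨p - 3, mem_range.mpr (by omega), mem_filter.mpr ⟨hn, ?_⟩⟩
    have hpd : (p : ℤ) ∣ (((p - 3 + 3)! : ℕ) : ℤ) := by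
      have : p ∣ (p - 3 + 3)! := (hp.dvd_factorial).mpr (by omega)
      exact_mod_cast this
    have h1 : A i ≡ A (p - 3) [ZMOD p] := (hA (p - 3) i hj).of_dvd hpd
    have h2 : B i ≡ B (p - 3) [ZMOD p] := (hB (p - 3) i hj).of_dvd hpd
    have h3 : A i * n + B i ≡ A (p - 3) * n + B (p - 3) [ZMOD p] := (h1.mul_right _).add h2
    exact (Int.ModEq.dvd_iff h3).mp hi


/-- the statement of T3 (`inf_class`) -/
def InfClassStmt : Prop := ∀ (off : ℕ → ℕ) (_ : StrictMono off) (_ : off 0 = 0) (c : ℝ) (_ : 0 < c)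
    (_ : BlockMeas off c) (A B : ℕ → ℤ) (_ : ∀ i, 1 ≤ A i)
    (_ : ∀ i j, i ≠ j → A i * B j ≠ A j * B i)
    (W r : ℕ → ℕ) (_ : ∀ J, 1 ≤ W J) (_ : ∀ J, ∀ p : ℕ, p.Prime → p ≤ off J + 1 → p ∣ W J)
    (_ : ∀ J, ∀ i < off J, IsCoprime (A i * r J + B i) (W J : ℤ))
    (_ : ∀ i, IsCoprime (A i) (B i)),
    ∃ I : Set ℕ, I.Infinite ∧ ∀ N : ℕ, ∃ J, N ≤ J ∧
      {n : ℕ | n ≡ r J [MOD W J] ∧ ∀ i < N, (Nat.Prime (A i * n + B i).toNat ↔ i ∈ I)}.Infinite

/-- T4 : Theorem A from T3 -/
theorem dickson_inf_of (hT3 : InfClassStmt) (off : ℕ → ℕ) (hoff : StrictMono off) (h0 : off 0 = 0)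
    (c : ℝ) (hc : 0 < c) (hBM : BlockMeas off c) (F : Set (ℤ × ℤ)) (hF : F.Infinite)
    (hF1 : ∀ f ∈ F, 1 ≤ f.1 ∧ IsCoprime f.1 f.2) :
    ∃ G ⊆ F, G.Infinite ∧ ∀ S : Finset (ℤ × ℤ), ↑S ⊆ G →
      {n : ℕ | ∀ f ∈ S, Nat.Prime (f.1 * n + f.2).toNat}.Infinite := by
  classical
  have hne0 : ∀ j : ℕ, NeZero (j + 3)! := fun j => ⟨Nat.factorial_ne_zero _⟩
  obtain ⟨f, hinj, hfF, hcol⟩ := exists_seq (fun j => ZMod (j + 3)! × ZMod (j + 3)!)
    (fun j (x : ℤ × ℤ) => ((x.1 : ZMod (j + 3)!), (x.2 : ZMod (j + 3)!))) F hF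
  set A : ℕ → ℤ := fun i => (f i).1 with hAdef
  set B : ℕ → ℤ := fun i => (f i).2 with hBdef
  have hA1 : ∀ i, 1 ≤ A i := fun i => (hF1 _ (hfF i)).1
  have hcop' : ∀ i, IsCoprime (A i) (B i) := fun i => (hF1 _ (hfF i)).2
  have hAc : ∀ j i, j ≤ i → A i ≡ A j [ZMOD ((j + 3)! : ℕ)] := by
    intro j i hji
    have := congrArg Prod.fst (hcol j i hji)
    exact (ZMod.intCast_eq_intCast_iff _ _ _).mp this
  have hBc : ∀ j i, j ≤ i → B i ≡ B j [ZMOD ((j + 3)! : ℕ)] := by
    intro j i hji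
    have := congrArg Prod.snd (hcol j i hji)
    exact (ZMod.intCast_eq_intCast_iff _ _ _).mp this
  have hne : ∀ i j, i ≠ j → A i * B j ≠ A j * B i := by
    intro i j hij heq
    apply hij
    apply hinj
    have d1 : A i ∣ A j := by
      have : A i ∣ A j * B i := ⟨B j, heq.symm⟩
      exact (hcop' i).dvd_of_dvd_mul_right this
    have d2 : A j ∣ A i := by
      have : A j ∣ A i * B j := ⟨B i, heq⟩
      exact (hcop' j).dvd_of_dvd_mul_right this
    have hA : A i = A j := Int.dvd_antisymm (by linarith [hA1 i]) (by linarith [hA1 j]) d1 d2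
    have hB : B i = B j := by
      rw [hA] at heq
      have : A j ≠ 0 := by have := hA1 j; omega
      exact (mul_left_cancel₀ this heq).symm
    exact Prod.ext hA hB
  choose! np hnp using avoid A B hcop' hAc hBc
  have hr : ∀ J : ℕ, ∃ r : ℕ, ∀ p : ℕ, p.Prime → p ≤ off J + 1 → r ≡ np p [MOD p] := by
    intro J
    have hco : Set.Pairwise (↑((range (off J + 2)).filter Nat.Prime) : Set ℕ)
        (Function.onFun Nat.Coprime (fun p : ℕ => p)) := by
      intro p hp q hq hpq
      rw [mem_coe, mem_filter] at hp hq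
      exact (Nat.coprime_primes hp.2 hq.2).mpr hpq
    have hz : ∀ p ∈ (range (off J + 2)).filter Nat.Prime, (fun p : ℕ => p) p ≠ 0 := by
      intro p hp
      rw [mem_filter] at hp
      exact hp.2.ne_zero
    refine ⟨(Nat.chineseRemainderOfFinset np (fun p => p) ((range (off J + 2)).filter Nat.Prime)
      hz hco : ℕ), ?_⟩
    intro p hp hpJ
    exact (Nat.chineseRemainderOfFinset np (fun p => p) ((range (off J + 2)).filter Nat.Prime)
      hz hco).2 p (mem_filter.mpr ⟨mem_range.mpr (by omega), hp⟩)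
  choose r hr using hr
  obtain ⟨I, hI, hIN⟩ := hT3 off hoff h0 c hc hBM A B hA1 hne (fun J => (off J + 1)!) r
    (fun J => Nat.factorial_pos _) (fun J p hp hpJ => (hp.dvd_factorial).mpr hpJ)
    (by
      intro J i _
      rw [Int.isCoprime_iff_gcd_eq_one]
      by_contra hcon
      obtain ⟨p, hp, hpd⟩ := Nat.exists_prime_and_dvd hcon
      have h1 : (p : ℤ) ∣ A i * r J + B i := (Int.natCast_dvd_natCast.mpr hpd).trans (Int.gcd_dvd_left ..)
      have h2 : (p : ℤ) ∣ (((off J + 1)! : ℕ) : ℤ) :=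
        (Int.natCast_dvd_natCast.mpr hpd).trans (Int.gcd_dvd_right ..)
      have h3 : p ≤ off J + 1 := (hp.dvd_factorial).mp (by exact_mod_cast h2)
      have h4 : (r J : ℤ) ≡ np p [ZMOD p] := Int.natCast_modEq_iff.mpr (hr J p hp h3)
      have h5 : A i * r J + B i ≡ A i * np p + B i [ZMOD p] := (h4.mul_left _).add_right _
      exact hnp p hp i ((Int.ModEq.dvd_iff h5).mp h1))
    hcop'
  refine ⟨f '' I, ?_, hI.image hinj.injOn, ?_⟩
  · rintro _ ⟨i, _, rfl⟩
    exact hfF i
  · intro S hS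
    have hN : ∃ N : ℕ, ∀ x ∈ S, ∃ i < N, i ∈ I ∧ f i = x := by
      choose! g hg using fun x (hx : x ∈ S) => hS hx
      refine ⟨S.sup g + 1, fun x hx => ⟨g x, ?_, (hg x hx).1, (hg x hx).2⟩⟩
      have := le_sup (f := g) hx
      omega
    obtain ⟨N, hN⟩ := hN
    obtain ⟨J, _, hJinf⟩ := hIN N
    refine hJinf.mono ?_
    intro n hn x hx
    obtain ⟨i, hi, hiI, rfl⟩ := hN x hx
    exact (hn.2 i hi).mpr hiI

end Pool.Agent.H361R2.Inf
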