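import Mathlib
import Pool.Agent.H361R2.InfT4

/-! A6 : exact version of Theorem A. -/

namespace Pool.Agent.H361R2.Inf

open Finset Filter Topology
open scoped Nat

/-- two primitive pairs with positive first entries which are proportional are equal -/
theorem A6_prim {u v x y : ℤ} (hu : 1 ≤ u) (hx : 1 ≤ x) (h1 : IsCoprime u v) (h2 : IsCoprime x y)
    (h : u * y = x * v) : (u, v) = (x, y) := by
  have d1 : u ∣ x := by
    have : u ∣ x * v := ⟨y, h.symm⟩
    exact h1.dvd_of_dvd_mul_right this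
  have d2 : x ∣ u := by
    have : x ∣ u * y := ⟨v, h⟩
    exact h2.dvd_of_dvd_mul_right this
  have hA : u = x := Int.dvd_antisymm (by linarith) (by linarith) d1 d2
  have hB : v = y := by
    rw [hA] at h
    have : x ≠ 0 := by omega
    exact (mul_left_cancel₀ this h).symm
  rw [hA, hB]

/-- a root of a linear form modulo a prime -/
theorem A6_root (q : ℕ) (hq : q.Prime) (u v : ℤ) (hu : ¬ (q : ℤ) ∣ u) :
    ∃ r : ℕ, (q : ℤ) ∣ u * r + v := by
  haveI := Fact.mk hq
  have hu0 : (u : ZMod q) ≠ 0 := by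
    intro h
    exact hu ((ZMod.intCast_zmod_eq_zero_iff_dvd u q).mp h)
  refine ⟨(-(v : ZMod q) / (u : ZMod q)).val, ?_⟩
  rw [← ZMod.intCast_zmod_eq_zero_iff_dvd]
  push_cast
  rw [ZMod.natCast_zmod_val]
  field_simp
  ring

/-- the residue class -/
theorem A6_class (A B : ℕ → ℤ) (hA1 : ∀ i, 1 ≤ A i) (hcop : ∀ i, IsCoprime (A i) (B i))
    (np : ℕ → ℕ) (hnp : ∀ p : ℕ, p.Prime → ∀ i, ¬ (p : ℤ) ∣ A i * (np p) + B i) (K : ℕ)
    (bad : Finset (ℤ × ℤ)) (hbad : ∀ g ∈ bad, 1 ≤ g.1 ∧ IsCoprime g.1 g.2 ∧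
      ∀ i, g ≠ (A i, B i)) :
    ∃ (W r Q : ℕ), 1 ≤ W ∧ (∀ p : ℕ, p.Prime → p ≤ K + 1 → p ∣ W) ∧
      (∀ i < K, IsCoprime (A i * r + B i) (W : ℤ)) ∧
      ∀ g ∈ bad, ∀ n : ℕ, n ≡ r [MOD W] → Q < n → ¬ Nat.Prime (g.1 * n + g.2).toNat := by
  classical
  set M : ℕ := K + 2 + ∑ g ∈ bad, g.1.natAbs +
    ∑ g ∈ bad, ∑ i ∈ range K, (g.1 * B i - A i * g.2).natAbs with hM
  set q : ℤ × ℤ → ℕ := fun g => Nat.nth Nat.Prime (M + Encodable.encode g) with hq
  have hqp : ∀ g, (q g).Prime := fun g => Nat.prime_nth_prime _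
  have hqM : ∀ g, M < q g := fun g => by
    have : M + Encodable.encode g + 2 ≤ q g := Nat.add_two_le_nth_prime _
    omega
  have hqinj : Function.Injective q := by
    intro g g' h
    have h1 := Nat.nth_injective Nat.infinite_setOf_prime h
    have h2 : Encodable.encode g = Encodable.encode g' := by omega
    exact Encodable.encode_injective h2
  have hg1 : ∀ g ∈ bad, ¬ (q g : ℤ) ∣ g.1 := by
    intro g hg hd
    have h1 : g.1.natAbs ≤ ∑ g ∈ bad, g.1.natAbs :=
      Finset.single_le_sum (f := fun g : ℤ × ℤ => g.1.natAbs) (fun _ _ => Nat.zero_le _) hg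
    have h2 := hqM g
    have h3 := (hbad g hg).1
    have h4 := Int.le_of_dvd (by omega) hd
    omega
  have hroot : ∀ g : ℤ × ℤ, ∃ r : ℕ, g ∈ bad → (q g : ℤ) ∣ g.1 * r + g.2 := by
    intro g
    by_cases hg : g ∈ bad
    · obtain ⟨r, hr⟩ := A6_root (q g) (hqp g) g.1 g.2 (hg1 g hg)
      exact ⟨r, fun _ => hr⟩
    · exact ⟨0, fun h => absurd h hg⟩
  choose ro hro using hroot
  set P : Finset ℕ := (Finset.range (K + 2)).filter Nat.Prime with hP
  set t : Finset (ℕ ⊕ (ℤ × ℤ)) := P.disjSum bad with ht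
  set s : ℕ ⊕ (ℤ × ℤ) → ℕ := Sum.elim id q with hs
  set a : ℕ ⊕ (ℤ × ℤ) → ℕ := Sum.elim np ro with ha
  have hsprime : ∀ x ∈ t, (s x).Prime := by
    intro x hx
    rcases x with p | j
    · have : p ∈ P := Finset.inl_mem_disjSum.mp hx
      exact (Finset.mem_filter.mp this).2
    · exact hqp j
  have hsinj : ∀ x ∈ t, ∀ y ∈ t, x ≠ y → s x ≠ s y := by
    intro x hx y hy hxy
    rcases x with p | j <;> rcases y with p' | j'
    · intro h'
      exact hxy (congrArg Sum.inl h')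
    · intro h'
      have h1 : p ∈ P := Finset.inl_mem_disjSum.mp hx
      have h2 : p < K + 2 := Finset.mem_range.mp (Finset.mem_filter.mp h1).1
      have h3 : p = q j' := h'
      have := hqM j'
      omega
    · intro h'
      have h1 : p' ∈ P := Finset.inl_mem_disjSum.mp hy
      have h2 : p' < K + 2 := Finset.mem_range.mp (Finset.mem_filter.mp h1).1
      have h3 : q j = p' := h'
      have := hqM j
      omega
    · intro h'
      exact hxy (congrArg Sum.inr (hqinj h'))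
  have hpair : Set.Pairwise (t : Set (ℕ ⊕ (ℤ × ℤ))) (Function.onFun Nat.Coprime s) := by
    intro x hx y hy hxy
    exact (Nat.coprime_primes (hsprime x hx) (hsprime y hy)).mpr (hsinj x hx y hy hxy)
  obtain ⟨r, hr⟩ := Nat.chineseRemainderOfFinset a s t (fun i hi => (hsprime i hi).ne_zero) hpair
  have hqr : ∀ g ∈ bad, ∀ n : ℕ, n ≡ r [MOD q g] → (q g : ℤ) ∣ g.1 * n + g.2 := by
    intro g hg n hn
    have h1 : r ≡ ro g [MOD q g] := hr _ (Finset.inr_mem_disjSum.mpr hg)
    have h2 : (n : ℤ) ≡ (ro g : ℤ) [ZMOD q g] := Int.natCast_modEq_iff.mpr (hn.trans h1)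
    have h3 : g.1 * n + g.2 ≡ g.1 * (ro g : ℤ) + g.2 [ZMOD q g] :=
      (h2.mul_left _).add_right _
    exact (Int.ModEq.dvd_iff h3).mpr (hro g hg)
  refine ⟨∏ x ∈ t, s x, r, ∑ g ∈ bad, (q g + g.2.natAbs), ?_, ?_, ?_, ?_⟩
  · exact Nat.one_le_iff_ne_zero.mpr
      (Finset.prod_ne_zero_iff.mpr (fun x hx => (hsprime x hx).ne_zero))
  · intro p hp hpK
    have hmem : (Sum.inl p : ℕ ⊕ (ℤ × ℤ)) ∈ t :=
      Finset.inl_mem_disjSum.mpr (Finset.mem_filter.mpr ⟨Finset.mem_range.mpr (by omega), hp⟩)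
    exact Finset.dvd_prod_of_mem s hmem
  · intro i hi
    rw [Nat.cast_prod]
    refine IsCoprime.prod_right (fun x hx => ?_)
    rw [isCoprime_comm]
    have hpI : Prime ((s x : ℕ) : ℤ) := Nat.prime_iff_prime_int.mp (hsprime x hx)
    rw [hpI.coprime_iff_not_dvd]
    rcases x with p | g
    · have h1 : p ∈ P := Finset.inl_mem_disjSum.mp hx
      have hpp : p.Prime := (Finset.mem_filter.mp h1).2
      intro hd
      have h2 : (r : ℤ) ≡ np p [ZMOD p] := Int.natCast_modEq_iff.mpr (hr _ hx)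
      have h3 : A i * r + B i ≡ A i * np p + B i [ZMOD p] := (h2.mul_left _).add_right _
      exact hnp p hpp i ((Int.ModEq.dvd_iff h3).mp hd)
    · have hg : g ∈ bad := Finset.inr_mem_disjSum.mp hx
      intro hd
      have hd' : (q g : ℤ) ∣ A i * r + B i := hd
      have h1 : (q g : ℤ) ∣ g.1 * r + g.2 := hqr g hg r (Nat.ModEq.refl _)
      have h2 : (q g : ℤ) ∣ g.1 * B i - A i * g.2 := by
        have h3 := (hd'.mul_left g.1).sub (h1.mul_left (A i))
        have h4 : g.1 * (A i * r + B i) - A i * (g.1 * r + g.2) = g.1 * B i - A i * g.2 := by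
          ring
        rwa [h4] at h3
      have h5 : (g.1 * B i - A i * g.2).natAbs ≤ M := by
        have h6 : ∑ i ∈ range K, (g.1 * B i - A i * g.2).natAbs ≤
            ∑ g ∈ bad, ∑ i ∈ range K, (g.1 * B i - A i * g.2).natAbs :=
          Finset.single_le_sum
            (f := fun g : ℤ × ℤ => ∑ i ∈ range K, (g.1 * B i - A i * g.2).natAbs)
            (fun _ _ => Nat.zero_le _) hg
        have h7 : (g.1 * B i - A i * g.2).natAbs ≤
            ∑ i ∈ range K, (g.1 * B i - A i * g.2).natAbs :=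
          Finset.single_le_sum (f := fun i => (g.1 * B i - A i * g.2).natAbs)
            (fun _ _ => Nat.zero_le _) (mem_range.mpr hi)
        omega
      have h8 : g.1 * B i - A i * g.2 = 0 := by
        apply Int.eq_zero_of_abs_lt_dvd h2
        have := hqM g
        rw [Int.abs_eq_natAbs]
        exact_mod_cast lt_of_le_of_lt h5 this
      obtain ⟨hg1', hg2', hg3'⟩ := hbad g hg
      apply hg3' i
      exact A6_prim hg1' (hA1 i) hg2' (hcop i) (by linarith)
  · intro g hg n hn hQ hprime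
    have hmem : (Sum.inr g : ℕ ⊕ (ℤ × ℤ)) ∈ t := Finset.inr_mem_disjSum.mpr hg
    have hd : q g ∣ ∏ x ∈ t, s x := Finset.dvd_prod_of_mem s hmem
    have h1 : (q g : ℤ) ∣ g.1 * n + g.2 := hqr g hg n (hn.of_dvd hd)
    have h2 : q g + g.2.natAbs ≤ ∑ g ∈ bad, (q g + g.2.natAbs) :=
      Finset.single_le_sum (f := fun g : ℤ × ℤ => q g + g.2.natAbs)
        (fun _ _ => Nat.zero_le _) hg
    have h3 := (hbad g hg).1
    have h4 : (n : ℤ) ≤ g.1 * n := by nlinarith [Int.natCast_nonneg n]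
    have h5 : (q g : ℤ) < g.1 * n + g.2 := by omega
    have h6 : ((g.1 * n + g.2).toNat : ℤ) = g.1 * n + g.2 := Int.toNat_of_nonneg (by omega)
    have h7 : q g ∣ (g.1 * n + g.2).toNat := by
      rw [← h6] at h1
      exact Int.natCast_dvd_natCast.mp h1
    have h8 := (Nat.prime_dvd_prime_iff_eq (hqp g) hprime).mp h7
    omega

/-- A6 : exact version of Theorem A, from T3 -/
theorem exact_inf_of (hT3 : InfClassStmt) (off : ℕ → ℕ) (hoff : StrictMono off) (h0 : off 0 = 0)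
    (c : ℝ) (hc : 0 < c) (hBM : BlockMeas off c) (F : Set (ℤ × ℤ)) (hF : F.Infinite)
    (hF1 : ∀ f ∈ F, 1 ≤ f.1 ∧ IsCoprime f.1 f.2) :
    ∃ G ⊆ F, G.Infinite ∧ ∀ T : Finset (ℤ × ℤ), (∀ f ∈ T, 1 ≤ f.1) →
      {n : ℕ | ∀ f ∈ T, (Nat.Prime (f.1 * n + f.2).toNat ↔ f ∈ G)}.Infinite := by
  classical
  have hne0 : ∀ j : ℕ, NeZero (j + 3)! := fun j => ⟨Nat.factorial_ne_zero _⟩
  obtain ⟨f, hinj, hfF, hcol⟩ := exists_seq (fun j => ZMod (j + 3)! × ZMod (j + 3)!)
    (fun j (x : ℤ × ℤ) => ((x.1 : ZMod (j + 3)!), (x.2 : ZMod (j + 3)!))) F hF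
  set A : ℕ → ℤ := fun i => (f i).1 with hAdef
  set B : ℕ → ℤ := fun i => (f i).2 with hBdef
  have hfAB : ∀ i, f i = (A i, B i) := fun i => rfl
  have hA1 : ∀ i, 1 ≤ A i := fun i => (hF1 _ (hfF i)).1
  have hcop' : ∀ i, IsCoprime (A i) (B i) := fun i => (hF1 _ (hfF i)).2
  have hAc : ∀ j i, j ≤ i → A i ≡ A j [ZMOD ((j + 3)! : ℕ)] := by
    intro j i hji
    have := congrArg Prod.fst (hcol j i hji)
    exact (ZMod.intCast_eq_intCast_iff _ _ _).mp this
  have hBc : ∀ j i, j ≤ i → B i ≡ B j [ZMOD ((j + 3)! : ℕ)] := by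
    intro j i hji
    have := congrArg Prod.snd (hcol j i hji)
    exact (ZMod.intCast_eq_intCast_iff _ _ _).mp this
  have hne : ∀ i j, i ≠ j → A i * B j ≠ A j * B i := by
    intro i j hij heq
    exact hij (hinj (A6_prim (hA1 i) (hA1 j) (hcop' i) (hcop' j) heq))
  choose! np hnp using avoid A B hcop' hAc hBc
  set bad : ℕ → Finset (ℤ × ℤ) := fun J =>
    ((range J).image (fun e => Denumerable.ofNat (ℤ × ℤ) e)).filter
      (fun g => 1 ≤ g.1 ∧ IsCoprime g.1 g.2 ∧ g ∉ Set.range f) with hbad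
  choose W r Q hW hWp hWc hQ using fun J : ℕ => A6_class A B hA1 hcop' np hnp (off J) (bad J)
    (by
      intro g hg
      obtain ⟨_, h1, h2, h3⟩ := Finset.mem_filter.mp hg
      exact ⟨h1, h2, fun i h => h3 ⟨i, h.symm⟩⟩)
  obtain ⟨I, hI, hIN⟩ := hT3 off hoff h0 c hc hBM A B hA1 hne W r hW hWp hWc hcop'
  refine ⟨f '' I, ?_, hI.image hinj.injOn, ?_⟩
  · rintro _ ⟨i, _, rfl⟩
    exact hfF i
  · intro T hT
    obtain ⟨N1, hN1⟩ : ∃ N : ℕ, ∀ i, f i ∈ T → i < N := by
      have h1 : (f ⁻¹' (T : Set (ℤ × ℤ))).Finite := T.finite_toSet.preimage hinj.injOn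
      obtain ⟨N, hN⟩ := h1.bddAbove
      exact ⟨N + 1, fun i hi => Nat.lt_succ_of_le (hN hi)⟩
    set N2 : ℕ := T.sup Encodable.encode + 1 with hN2
    obtain ⟨J, hJ, hinf⟩ := hIN (max N1 N2)
    set Q' : ℕ := Q J + ∑ g ∈ T, (g.1.natAbs + g.2.natAbs) with hQ'
    refine (hinf.diff (Set.finite_Iic Q')).mono ?_
    rintro n ⟨⟨hn1, hn2⟩, hn3⟩ g hg
    have hn3' : Q' < n := by simpa using hn3
    by_cases hgf : g ∈ Set.range f
    · obtain ⟨i, rfl⟩ := hgf
      rw [hinj.mem_set_image]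
      exact hn2 i (lt_of_lt_of_le (hN1 i hg) (le_max_left _ _))
    · have hgG : g ∉ f '' I := fun h => hgf (Set.image_subset_range _ _ h)
      refine iff_of_false ?_ hgG
      by_cases hgc : IsCoprime g.1 g.2
      · have hgb : g ∈ bad J := by
          refine Finset.mem_filter.mpr ⟨?_, hT g hg, hgc, hgf⟩
          refine Finset.mem_image.mpr ⟨Encodable.encode g, ?_, Denumerable.ofNat_encode g⟩
          rw [Finset.mem_range]
          have h1 : Encodable.encode g ≤ T.sup Encodable.encode :=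
            Finset.le_sup (f := Encodable.encode) hg
          have h2 : N2 ≤ J := (le_max_right _ _).trans hJ
          omega
        exact hQ J g hgb n hn1 (by omega)
      · intro hprime
        have h1 : g.1.natAbs + g.2.natAbs ≤ ∑ g ∈ T, (g.1.natAbs + g.2.natAbs) :=
          Finset.single_le_sum (f := fun g : ℤ × ℤ => g.1.natAbs + g.2.natAbs)
            (fun _ _ => Nat.zero_le _) hg
        have h3 := hT g hg
        have h4 : (n : ℤ) ≤ g.1 * n := by nlinarith [Int.natCast_nonneg n]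
        have h5 : (g.1.natAbs : ℤ) < g.1 * n + g.2 := by omega
        have h6 : ((g.1 * n + g.2).toNat : ℤ) = g.1 * n + g.2 :=
          Int.toNat_of_nonneg (by omega)
        set d : ℕ := Int.gcd g.1 g.2 with hd
        have hd1 : (d : ℤ) ∣ g.1 := Int.gcd_dvd_left ..
        have hd2 : (d : ℤ) ∣ g.2 := Int.gcd_dvd_right ..
        have hdne : d ≠ 1 := fun h => hgc (Int.isCoprime_iff_gcd_eq_one.mpr h)
        have h7 : d ∣ (g.1 * n + g.2).toNat := by
          have h8 : (d : ℤ) ∣ ((g.1 * n + g.2).toNat : ℤ) := by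
            rw [h6]
            exact (hd1.mul_right _).add hd2
          exact Int.natCast_dvd_natCast.mp h8
        have h9 := (Nat.dvd_prime hprime).mp h7
        have h10 : (d : ℤ) ≤ g.1 := Int.le_of_dvd (by omega) hd1
        rcases h9 with h9 | h9
        · exact hdne h9
        · omega

end Pool.Agent.H361R2.Inf
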