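import Mathlib
import Pool.Agent.H361R2.InfB1
import Pool.Agent.H361R2.InfA1

/-! B2: the blocks of parameters, with growth. -/

namespace Pool.Agent.H361R2.Inf

open Finset Filter Topology
open Pool.Agent.H361R2.GM

/-- B2 : the blocks, with growth (from B1, as in InfA1) -/
theorem exists_blocks_growth (δ : ℝ) (hδ : 0 < δ) : ∃ (off : ℕ → ℕ) (Q : ℕ → SPar),
    StrictMono off ∧ off 0 = 0 ∧
    (∀ i, (Q i).c = 1 / 10 ∧ (Q i).lam = 10 ∧ 0 < (Q i).I1 ∧ 0 < (Q i).I2 ∧
      (Q i).I2 ≤ (Q i).IE) ∧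
    (∀ t, 1 ≤ ∑ i ∈ Ico (off t) (off (t + 1)), (Q i).I1 ^ 2 / (Q i).I2) ∧
    (∀ N, ∏ i ∈ range (off N), ((Q i).IE / (Q i).I2) ≤ Real.exp 2) ∧
    ∃ C : ℝ, 0 < C ∧ ∀ N : ℕ, (off N : ℝ) ≤ Real.exp (C * ((N : ℝ) + 1) ^ (1 + δ)) := by
  classical
  obtain ⟨C, hC, hB1⟩ := block_par_exp
  have hsum : Summable (fun t : ℕ => 1 / ((t : ℝ) + 1) ^ (1 + δ)) := by
    have h := (Real.summable_one_div_nat_add_rpow 1 (1 + δ)).2 (by linarith)
    refine h.congr fun t => ?_
    rw [abs_of_nonneg (by positivity)]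
  set S : ℝ := ∑' t : ℕ, 1 / ((t : ℝ) + 1) ^ (1 + δ) with hS
  have hS1 : 1 ≤ S := by
    have h := hsum.le_tsum 0 (fun t _ => by positivity)
    calc (1 : ℝ) = 1 / (((0 : ℕ) : ℝ) + 1) ^ (1 + δ) := by simp
      _ ≤ S := h
  have hS0 : 0 < S := by linarith
  have hpw : ∀ t : ℕ, (1 : ℝ) ≤ ((t : ℝ) + 1) ^ (1 + δ) := fun t =>
    Real.one_le_rpow (by linarith [Nat.cast_nonneg (α := ℝ) t]) (by linarith)
  set η : ℕ → ℝ := fun t => 1 / S * (1 / ((t : ℝ) + 1) ^ (1 + δ)) with hη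
  have hη0 : ∀ t, 0 < η t := fun t => by
    have := hpw t
    simp only [hη]
    positivity
  have hη1 : ∀ t, η t ≤ 1 := fun t => by
    have h1 : 1 / S ≤ 1 := by rw [div_le_one hS0]; exact hS1
    have h2 : 1 / ((t : ℝ) + 1) ^ (1 + δ) ≤ 1 := by
      rw [div_le_one (by linarith [hpw t])]
      exact hpw t
    have h3 : 0 ≤ 1 / ((t : ℝ) + 1) ^ (1 + δ) := by positivity
    simp only [hη]
    calc 1 / S * (1 / ((t : ℝ) + 1) ^ (1 + δ)) ≤ 1 * 1 :=
          mul_le_mul h1 h2 h3 (by norm_num)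
      _ = 1 := by norm_num
  choose Qt kt hc hl hk h1 h2 hE hs hkb using fun t : ℕ => hB1 (η t) (hη0 t) (hη1 t)
  let off : ℕ → ℕ := fun t => ∑ s ∈ range t, kt s
  have hoff : ∀ t, off (t + 1) = off t + kt t := fun t => Finset.sum_range_succ _ _
  have hmono : StrictMono off := strictMono_nat_of_lt_succ fun t => by
    have := hk t
    rw [hoff]
    omega
  have hex : ∀ i, ∃ t, i < off (t + 1) := fun i =>
    ⟨i, lt_of_lt_of_le (Nat.lt_succ_self i) (hmono.id_le (i + 1))⟩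
  let blk : ℕ → ℕ := fun i => Nat.find (hex i)
  have hblk : ∀ t, ∀ i ∈ Ico (off t) (off (t + 1)), blk i = t := by
    intro t i hi
    rw [Finset.mem_Ico] at hi
    rw [Nat.find_eq_iff]
    refine ⟨hi.2, fun s hst hlt => ?_⟩
    have := hmono.monotone (Nat.succ_le_of_lt hst)
    have h3 : off (s + 1) ≤ off t := this
    omega
  have hdiff : ∀ t, off (t + 1) - off t = kt t := fun t => by rw [hoff]; omega
  refine ⟨off, fun i => Qt (blk i), hmono, by simp [off], fun i => ⟨hc _, hl _, h1 _, h2 _,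
    InfA1_I2_le_IE _⟩, ?_, ?_, ?_⟩
  · intro t
    have e : ∑ i ∈ Ico (off t) (off (t + 1)), (Qt (blk i)).I1 ^ 2 / (Qt (blk i)).I2 =
        ∑ i ∈ Ico (off t) (off (t + 1)), (Qt t).I1 ^ 2 / (Qt t).I2 :=
      Finset.sum_congr rfl fun i hi => by rw [hblk t i hi]
    rw [e, Finset.sum_const, Nat.card_Ico, hdiff, nsmul_eq_mul]
    exact hs t
  · have key : ∀ N, ∏ i ∈ range (off N), ((Qt (blk i)).IE / (Qt (blk i)).I2) ≤
        Real.exp (∑ t ∈ range N, η t) := by
      intro N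
      induction N with
      | zero => simp [off]
      | succ N ih =>
        rw [← Finset.prod_range_mul_prod_Ico _ (hmono.monotone (Nat.le_succ N)),
          Finset.sum_range_succ, Real.exp_add]
        have e : ∏ i ∈ Ico (off N) (off (N + 1)), ((Qt (blk i)).IE / (Qt (blk i)).I2) =
            ∏ i ∈ Ico (off N) (off (N + 1)), ((Qt N).IE / (Qt N).I2) :=
          Finset.prod_congr rfl fun i hi => by rw [hblk N i hi]
        have e' : ∏ i ∈ Ico (off N) (off N.succ), ((Qt (blk i)).IE / (Qt (blk i)).I2) ≤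
            Real.exp (η N) := by
          rw [Nat.succ_eq_add_one, e, Finset.prod_const, Nat.card_Ico, hdiff]
          exact hE N
        refine mul_le_mul ih e' ?_ (Real.exp_pos _).le
        refine Finset.prod_nonneg fun i _ => ?_
        have := h2 (blk i)
        have := InfA1_I2_le_IE (Qt (blk i))
        apply div_nonneg <;> linarith
    intro N
    refine (key N).trans (Real.exp_le_exp.2 ?_)
    have hg := hsum.sum_le_tsum (range N) (fun t _ => by positivity)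
    have : ∑ t ∈ range N, η t = 1 / S * ∑ t ∈ range N, 1 / ((t : ℝ) + 1) ^ (1 + δ) := by
      rw [Finset.mul_sum]
    rw [this]
    calc 1 / S * ∑ t ∈ range N, 1 / ((t : ℝ) + 1) ^ (1 + δ) ≤ 1 / S * S := by gcongr
      _ = 1 := by field_simp
      _ ≤ 2 := by norm_num
  · refine ⟨C * S + 1, by positivity, fun N => ?_⟩
    have hkb' : ∀ t < N, (kt t : ℝ) ≤ Real.exp (C * S * ((N : ℝ) + 1) ^ (1 + δ)) := by
      intro t ht
      refine (hkb t).trans (Real.exp_le_exp.2 ?_)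
      have e : C / η t = C * S * ((t : ℝ) + 1) ^ (1 + δ) := by
        have := hpw t
        simp only [hη]
        field_simp
      rw [e]
      have h3 : ((t : ℝ) + 1) ^ (1 + δ) ≤ ((N : ℝ) + 1) ^ (1 + δ) := by
        apply Real.rpow_le_rpow (by positivity) _ (by linarith)
        have : (t : ℝ) ≤ N := by exact_mod_cast ht.le
        linarith
      gcongr
    have h4 : (off N : ℝ) ≤ N * Real.exp (C * S * ((N : ℝ) + 1) ^ (1 + δ)) := by
      simp only [off]
      push_cast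
      calc ∑ s ∈ range N, (kt s : ℝ)
          ≤ ∑ s ∈ range N, Real.exp (C * S * ((N : ℝ) + 1) ^ (1 + δ)) :=
            Finset.sum_le_sum fun t ht => hkb' t (Finset.mem_range.1 ht)
        _ = N * Real.exp (C * S * ((N : ℝ) + 1) ^ (1 + δ)) := by
            rw [Finset.sum_const, Finset.card_range, nsmul_eq_mul]
    have h5 : (N : ℝ) ≤ Real.exp (((N : ℝ) + 1) ^ (1 + δ)) := by
      have h6 : (N : ℝ) + 1 ≤ ((N : ℝ) + 1) ^ (1 + δ) := by
        have h7 : (1 : ℝ) ≤ (N : ℝ) + 1 := by linarith [Nat.cast_nonneg (α := ℝ) N]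
        calc (N : ℝ) + 1 = ((N : ℝ) + 1) ^ (1 : ℝ) := (Real.rpow_one _).symm
          _ ≤ ((N : ℝ) + 1) ^ (1 + δ) := Real.rpow_le_rpow_of_exponent_le h7 (by linarith)
      have h8 := Real.add_one_le_exp (((N : ℝ) + 1) ^ (1 + δ))
      linarith
    calc (off N : ℝ) ≤ N * Real.exp (C * S * ((N : ℝ) + 1) ^ (1 + δ)) := h4
      _ ≤ Real.exp (((N : ℝ) + 1) ^ (1 + δ)) * Real.exp (C * S * ((N : ℝ) + 1) ^ (1 + δ)) := by
          gcongr
      _ = Real.exp ((C * S + 1) * ((N : ℝ) + 1) ^ (1 + δ)) := by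
          rw [← Real.exp_add]
          congr 1
          ring

end Pool.Agent.H361R2.Inf
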