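import Mathlib
import Pool.Agent.H361R2.InfIface

/-! Task T1: a finitely additive intersectivity lemma. -/

namespace Pool.Agent.H361R2.Inf

open Finset Filter Topology

namespace T1

variable {m : Set ℕ → ℝ}

theorem mono (hm : FMeas m) {A B : Set ℕ} (h : A ⊆ B) : m A ≤ m B := by
  have h1 : m B = m A + m (B \ A) := by
    rw [← hm.add A (B \ A) Set.disjoint_sdiff_right, Set.union_sdiff_cancel h]
  have h2 := hm.nonneg (B \ A)
  linarith

theorem empty (hm : FMeas m) : m ∅ = 0 := hm.fin ∅ Set.finite_empty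

theorem union_inter (hm : FMeas m) (A B : Set ℕ) : m (A ∪ B) = m A + m B - m (A ∩ B) := by
  have h1 : m (A ∪ B) = m A + m (B \ A) := by
    rw [← hm.add A (B \ A) Set.disjoint_sdiff_right, Set.union_sdiff_self]
  have h2 : m B = m (A ∩ B) + m (B \ A) := by
    rw [← hm.add (A ∩ B) (B \ A) (by
      rw [Set.disjoint_left]
      rintro x ⟨hx, _⟩ ⟨_, hx'⟩
      exact hx' hx)]
    congr 1
    ext x
    simp only [Set.mem_union, Set.mem_inter_iff, Set.mem_sdiff]
    tauto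
  linarith

theorem union_le (hm : FMeas m) (A B : Set ℕ) : m (A ∪ B) ≤ m A + m B := by
  have h1 := union_inter hm A B
  have h2 := hm.nonneg (A ∩ B)
  linarith

theorem biUnion_le (hm : FMeas m) {ι : Type*} (s : Finset ι) (f : ι → Set ℕ) :
    m (⋃ i ∈ s, f i) ≤ ∑ i ∈ s, m (f i) := by
  classical
  induction s using Finset.induction_on with
  | empty => simp [empty hm]
  | insert a s ha ih =>
    rw [Finset.set_biUnion_insert, Finset.sum_insert ha]
    have := union_le hm (f a) (⋃ i ∈ s, f i)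
    linarith

/-- (*) -/
theorem star (hm : FMeas m) (A : ℕ → Set ℕ) (T : Set ℕ) (hT : T.Infinite) (S : Set ℕ) (c : ℝ)
    (hc : 0 < c) (h : ∀ t ∈ T, c ≤ m (S ∩ A t)) (K : ℕ) :
    ∃ t₀ ∈ T, K ≤ t₀ ∧ ∃ T' ⊆ T, T'.Infinite ∧ ∃ c' > 0, ∀ t ∈ T', c' ≤ m (S ∩ A t₀ ∩ A t) := by
  by_contra hcon
  push Not at hcon
  have hfin : ∀ t₀ ∈ T, K ≤ t₀ → ∀ c' > 0, {t ∈ T | c' ≤ m (S ∩ A t₀ ∩ A t)}.Finite := by
    intro t₀ h1 h2 c' hc'
    by_contra hinf
    obtain ⟨t, ht, hlt⟩ := hcon t₀ h1 h2 {t ∈ T | c' ≤ m (S ∩ A t₀ ∩ A t)} (fun t ht => ht.1) hinf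
      c' hc'
    exact absurd ht.2 (not_le.mpr hlt)
  have hM0 : 0 ≤ m Set.univ := hm.nonneg _
  obtain ⟨N, hN⟩ := exists_nat_gt (2 * m Set.univ / c)
  have hNpos : 0 < (N : ℝ) := lt_of_le_of_lt (by positivity) hN
  have key : ∀ n ≤ N, ∃ F : Finset ℕ, (∀ j ∈ F, j ∈ T ∧ K ≤ j) ∧ F.card ≤ n ∧
      n * (c / 2) ≤ m (⋃ j ∈ F, (S ∩ A j)) := by
    intro n
    induction n with
    | zero =>
      intro _
      refine ⟨∅, by simp, by simp, ?_⟩
      simp [empty hm]
    | succ n ih =>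
      intro hn
      obtain ⟨F, hF, hFc, hFm⟩ := ih (by omega)
      have hbad : (⋃ j ∈ F, {t ∈ T | c / (2 * N) ≤ m (S ∩ A j ∩ A t)}).Finite := by
        refine Set.Finite.biUnion F.finite_toSet ?_
        intro j hj
        exact hfin j (hF j hj).1 (hF j hj).2 _ (by positivity)
      obtain ⟨t, ⟨htT, htb⟩, htK⟩ := ((hT.sdiff hbad).sdiff (Set.finite_lt_nat K)).nonempty
      have htK' : K ≤ t := by
        by_contra hlt
        exact htK (by simpa using hlt)
      classical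
      refine ⟨insert t F, ?_, ?_, ?_⟩
      · intro j hj
        rcases Finset.mem_insert.mp hj with rfl | hj
        · exact ⟨htT, htK'⟩
        · exact hF j hj
      · exact (Finset.card_insert_le t F).trans (by omega)
      · rw [Finset.set_biUnion_insert, union_inter hm]
        have h1 := h t htT
        have h2 : m (S ∩ A t ∩ ⋃ j ∈ F, (S ∩ A j)) ≤ n * (c / (2 * N)) := by
          have h3 : (S ∩ A t ∩ ⋃ j ∈ F, (S ∩ A j)) ⊆ ⋃ j ∈ F, (S ∩ A j ∩ A t) := by
            rintro x ⟨⟨hx1, hx2⟩, hx3⟩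
            simp only [Set.mem_iUnion] at hx3 ⊢
            obtain ⟨j, hj, hx4⟩ := hx3
            exact ⟨j, hj, hx4, hx2⟩
          calc m (S ∩ A t ∩ ⋃ j ∈ F, (S ∩ A j)) ≤ m (⋃ j ∈ F, (S ∩ A j ∩ A t)) := mono hm h3
            _ ≤ ∑ j ∈ F, m (S ∩ A j ∩ A t) := biUnion_le hm F _
            _ ≤ ∑ j ∈ F, c / (2 * N) := by
                refine Finset.sum_le_sum ?_
                intro j hj
                by_contra hlt
                apply htb
                simp only [Set.mem_iUnion]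
                exact ⟨j, hj, htT, (not_le.mp hlt).le⟩
            _ = F.card * (c / (2 * N)) := by rw [Finset.sum_const, nsmul_eq_mul]
            _ ≤ n * (c / (2 * N)) := by
                refine mul_le_mul_of_nonneg_right ?_ (by positivity)
                exact_mod_cast hFc
        have h4 : (n : ℝ) * (c / (2 * N)) ≤ c / 2 := by
          have : (n : ℝ) ≤ N := by exact_mod_cast (by omega : n ≤ N)
          calc (n : ℝ) * (c / (2 * N)) ≤ N * (c / (2 * N)) :=
                mul_le_mul_of_nonneg_right this (by positivity)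
            _ = c / 2 := by field_simp
        push_cast
        linarith
  obtain ⟨F, _, _, hF⟩ := key N le_rfl
  have h5 : m (⋃ j ∈ F, (S ∩ A j)) ≤ m Set.univ := mono hm (Set.subset_univ _)
  have h6 : 2 * m Set.univ < N * c := by
    rwa [div_lt_iff₀ hc] at hN
  linarith

/-- cylinder -/
def cyl (E : ℕ → Set ℕ) (p : Set ℕ) (N : ℕ) : Set ℕ := {n | ∀ i < N, (n ∈ E i ↔ i ∈ p)}

/-- state -/
structure State (m : Set ℕ → ℝ) (E : ℕ → Set ℕ) (A : ℕ → Set ℕ) where
  N : ℕ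
  p : Set ℕ
  T : Set ℕ
  c : ℝ
  hT : T.Infinite
  hc : 0 < c
  h : ∀ t ∈ T, c ≤ m (cyl E p N ∩ A t)

theorem step (hm : FMeas m) (off : ℕ → ℕ) (hoff : StrictMono off) (E : ℕ → Set ℕ)
    (A : ℕ → Set ℕ) (hA : ∀ t, A t = {n | ∃ i ∈ Ico (off t) (off (t + 1)), n ∈ E i})
    (s : State m E A) :
    ∃ s' : State m E A, s.N < s'.N ∧ (∀ i < s.N, (i ∈ s'.p ↔ i ∈ s.p)) ∧
      ∃ i, s.N ≤ i ∧ i < s'.N ∧ i ∈ s'.p := by
  classical
  obtain ⟨t₀, ht₀, hKt₀, T', hT'T, hT'inf, c', hc', h'⟩ :=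
    star hm A s.T s.hT (cyl E s.p s.N) s.c s.hc s.h s.N
  have hoff1 : s.N ≤ off t₀ := hKt₀.trans (hoff.id_le t₀)
  have hoff2 : off t₀ < off (t₀ + 1) := hoff (Nat.lt_succ_self _)
  set N' := off (t₀ + 1) with hN'
  set Q : Finset (Finset ℕ) := (Finset.range N').powerset.filter
    (fun q => (∀ i < s.N, (i ∈ q ↔ i ∈ s.p)) ∧ ∃ i, off t₀ ≤ i ∧ i < N' ∧ i ∈ q) with hQ
  have hcover : ∀ t, cyl E s.p s.N ∩ A t₀ ∩ A t ⊆ ⋃ q ∈ Q, (cyl E (↑q) N' ∩ A t) := by
    rintro t n ⟨⟨hn1, hn2⟩, hn3⟩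
    simp only [Set.mem_iUnion]
    refine ⟨(Finset.range N').filter (fun i => n ∈ E i), ?_, ?_, hn3⟩
    · rw [hQ, Finset.mem_filter]
      refine ⟨Finset.mem_powerset.mpr (Finset.filter_subset _ _), ?_, ?_⟩
      · intro i hi
        rw [Finset.mem_filter, Finset.mem_range]
        constructor
        · rintro ⟨_, h⟩
          exact (hn1 i hi).mp h
        · intro h
          exact ⟨by omega, (hn1 i hi).mpr h⟩
      · rw [hA t₀] at hn2
        obtain ⟨i, hi, hni⟩ := hn2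
        rw [Finset.mem_Ico] at hi
        refine ⟨i, hi.1, hi.2, ?_⟩
        rw [Finset.mem_filter, Finset.mem_range]
        exact ⟨hi.2, hni⟩
    · intro i hi
      simp only [Finset.coe_filter, Finset.mem_range, Set.mem_ofPred_eq]
      tauto
  have hsum : ∀ t ∈ T', c' ≤ ∑ q ∈ Q, m (cyl E (↑q) N' ∩ A t) := by
    intro t ht
    exact (h' t ht).trans ((mono hm (hcover t)).trans (biUnion_le hm Q _))
  have hQne : Q.Nonempty := by
    obtain ⟨t, ht⟩ := hT'inf.nonempty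
    by_contra hne
    rw [Finset.not_nonempty_iff_eq_empty] at hne
    have := hsum t ht
    rw [hne, Finset.sum_empty] at this
    linarith
  have hQc : 0 < (Q.card : ℝ) := by exact_mod_cast hQne.card_pos
  have hpig : ∃ q ∈ Q, {t ∈ T' | c' / Q.card ≤ m (cyl E (↑q) N' ∩ A t)}.Infinite := by
    by_contra hcon
    push Not at hcon
    have hfin : (⋃ q ∈ Q, {t ∈ T' | c' / Q.card ≤ m (cyl E (↑q) N' ∩ A t)}).Finite := by
      refine Set.Finite.biUnion Q.finite_toSet ?_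
      intro q hq
      exact hcon q hq
    refine hT'inf (hfin.subset ?_)
    intro t ht
    by_contra hnot
    simp only [Set.mem_iUnion, Set.mem_ofPred_eq, not_exists, not_and, not_le] at hnot
    have h1 := hsum t ht
    have h2 : ∑ q ∈ Q, m (cyl E (↑q) N' ∩ A t) < ∑ q ∈ Q, c' / Q.card :=
      Finset.sum_lt_sum_of_nonempty hQne (fun q hq => hnot q hq ht)
    rw [Finset.sum_const, nsmul_eq_mul, mul_div_cancel₀ _ hQc.ne'] at h2
    linarith
  obtain ⟨q, hq, hqinf⟩ := hpig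
  rw [hQ, Finset.mem_filter] at hq
  refine ⟨⟨N', ↑q, _, c' / Q.card, hqinf, by positivity, fun t ht => ht.2⟩, ?_, ?_, ?_⟩
  · show s.N < N'
    omega
  · intro i hi
    exact hq.2.1 i hi
  · obtain ⟨i, hi1, hi2, hi3⟩ := hq.2.2
    exact ⟨i, by omega, hi2, hi3⟩

end T1

open T1 in
/-- T1 -/
theorem comb (m : Set ℕ → ℝ) (hm : FMeas m) (off : ℕ → ℕ) (hoff : StrictMono off)
    (h0 : off 0 = 0) (E : ℕ → Set ℕ) (c : ℝ) (hc : 0 < c)
    (hB : ∀ t, c ≤ m {n | ∃ i ∈ Ico (off t) (off (t + 1)), n ∈ E i}) :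
    ∃ I : Set ℕ, I.Infinite ∧ ∀ N : ℕ, 0 < m {n | ∀ i < N, (n ∈ E i ↔ i ∈ I)} := by
  classical
  set A : ℕ → Set ℕ := fun t => {n | ∃ i ∈ Ico (off t) (off (t + 1)), n ∈ E i} with hA
  let s0 : State m E A := ⟨0, ∅, Set.univ, c, Set.infinite_univ, hc, by
    intro t _
    have : cyl E ∅ 0 ∩ A t = A t := by
      rw [Set.inter_eq_right]
      intro n _ i hi
      omega
    rw [this]
    exact hB t⟩
  choose f hf1 hf2 hf3 using step hm off hoff E A (fun t => rfl)
  let s : ℕ → State m E A := fun k => Nat.rec s0 (fun _ x => f x) k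
  have hs : ∀ k, s (k + 1) = f (s k) := fun k => rfl
  have hNlt : ∀ k, (s k).N < (s (k + 1)).N := fun k => by rw [hs]; exact hf1 _
  have hNmono : StrictMono fun k => (s k).N := strictMono_nat_of_lt_succ hNlt
  have hagree : ∀ k l, k ≤ l → ∀ i < (s k).N, (i ∈ (s l).p ↔ i ∈ (s k).p) := by
    intro k l hkl
    induction l, hkl using Nat.le_induction with
    | base => intro i _; rfl
    | succ l hkl ih =>
      intro i hi
      rw [hs, hf2 (s l) i (lt_of_lt_of_le hi (hNmono.monotone hkl)), ih i hi]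
  set I : Set ℕ := {i | ∃ k, i < (s k).N ∧ i ∈ (s k).p} with hI
  have hIk : ∀ k, ∀ i < (s k).N, (i ∈ I ↔ i ∈ (s k).p) := by
    intro k i hi
    constructor
    · rintro ⟨l, hl1, hl2⟩
      rcases le_total k l with hkl | hkl
      · exact (hagree k l hkl i hi).mp hl2
      · exact (hagree l k hkl i hl1).mpr hl2
    · intro h
      exact ⟨k, hi, h⟩
  refine ⟨I, ?_, ?_⟩
  · rw [Set.infinite_iff_exists_gt]
    intro a
    obtain ⟨i, hi1, hi2, hi3⟩ := hf3 (s (a + 1))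
    refine ⟨i, ⟨a + 2, hi2, hi3⟩, ?_⟩
    have : a + 1 ≤ (s (a + 1)).N := hNmono.id_le (a + 1)
    omega
  · intro N
    obtain ⟨t, ht⟩ := (s N).hT.nonempty
    have h1 := (s N).h t ht
    have h2 : cyl E (s N).p (s N).N ∩ A t ⊆ {n | ∀ i < N, (n ∈ E i ↔ i ∈ I)} := by
      rintro n ⟨hn, _⟩ i hi
      have hiN : i < (s N).N := lt_of_lt_of_le hi (hNmono.id_le N)
      rw [hn i hiN, hIk N i hiN]
    exact lt_of_lt_of_le (s N).hc (h1.trans (mono hm h2))

end Pool.Agent.H361R2.Inf
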