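import Mathlib
import Pool.Agent.H361R2.InfIface
import Pool.Agent.H361R2.InfT1

/-! Task B3: the finitely additive intersectivity lemma for cylinder events, and its density
version. -/

namespace Pool.Agent.H361R2.Inf

open Finset Filter Topology

namespace B3

open T1

variable {m : Set ℕ → ℝ}

theorem step (hm : FMeas m) (E : ℕ → Set ℕ) (ℓ : ℕ → ℕ)
    (𝒢 : ∀ _ : ℕ, Set (Set ℕ)) (hdep : ∀ j (I I' : Set ℕ), (∀ i < ℓ j, (i ∈ I ↔ i ∈ I')) →
      (I ∈ 𝒢 j ↔ I' ∈ 𝒢 j))
    (A : ℕ → Set ℕ) (hA : ∀ j, A j = {n | {i | n ∈ E i} ∈ 𝒢 j})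
    (s : State m E A) :
    ∃ s' : State m E A, s.N < s'.N ∧
      (∀ i < s.N, (i ∈ s'.p ↔ i ∈ s.p)) ∧
      ∃ j, s.N ≤ j ∧ ∀ I : Set ℕ, (∀ i < s'.N, (i ∈ I ↔ i ∈ s'.p)) → I ∈ 𝒢 j := by
  classical
  obtain ⟨t₀, ht₀, hKt₀, T', hT'T, hT'inf, c', hc', h'⟩ :=
    star hm A s.T s.hT (cyl E s.p s.N) s.c s.hc s.h s.N
  set N' := max (s.N + 1) (ℓ t₀) with hN'
  have hN1 : s.N + 1 ≤ N' := le_max_left _ _
  have hN2 : ℓ t₀ ≤ N' := le_max_right _ _
  set Q : Finset (Finset ℕ) := (Finset.range N').powerset.filter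
    (fun q => (∀ i < s.N, (i ∈ q ↔ i ∈ s.p)) ∧ (q : Set ℕ) ∈ 𝒢 t₀) with hQ
  have hcover : ∀ t, cyl E s.p s.N ∩ A t₀ ∩ A t ⊆ ⋃ q ∈ Q, (cyl E (↑q) N' ∩ A t) := by
    rintro t n ⟨⟨hn1, hn2⟩, hn3⟩
    simp only [Set.mem_iUnion]
    refine ⟨(Finset.range N').filter (fun i => n ∈ E i), ?_, ?_, hn3⟩
    · rw [hQ, Finset.mem_filter]
      refine ⟨Finset.mem_powerset.mpr (Finset.filter_subset _ _), ?_, ?_⟩
      · intro i hi
        rw [Finset.mem_filter, Finset.mem_range]
        constructor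
        · rintro ⟨_, h⟩
          exact (hn1 i hi).mp h
        · intro h
          exact ⟨by omega, (hn1 i hi).mpr h⟩
      · have hn2' : {i | n ∈ E i} ∈ 𝒢 t₀ := by
          rw [hA] at hn2
          exact hn2
        refine (hdep t₀ _ _ ?_).mp hn2'
        intro i hi
        simp only [Finset.coe_filter, Finset.mem_range, Set.mem_ofPred_eq]
        constructor
        · intro h
          exact ⟨by omega, h⟩
        · rintro ⟨_, h⟩
          exact h
    · intro i hi
      simp only [Finset.coe_filter, Finset.mem_range, Set.mem_ofPred_eq]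
      tauto
  have hsum : ∀ t ∈ T', c' ≤ ∑ q ∈ Q, m (cyl E (↑q) N' ∩ A t) := by
    intro t ht
    exact (h' t ht).trans ((mono hm (hcover t)).trans (biUnion_le hm Q _))
  have hQne : Q.Nonempty := by
    obtain ⟨t, ht⟩ := hT'inf.nonempty
    by_contra hne
    rw [Finset.not_nonempty_iff_eq_empty] at hne
    have := hsum t ht
    rw [hne, Finset.sum_empty] at this
    linarith
  have hQc : 0 < (Q.card : ℝ) := by exact_mod_cast hQne.card_pos
  have hpig : ∃ q ∈ Q, {t ∈ T' | c' / Q.card ≤ m (cyl E (↑q) N' ∩ A t)}.Infinite := by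
    by_contra hcon
    push Not at hcon
    have hfin : (⋃ q ∈ Q, {t ∈ T' | c' / Q.card ≤ m (cyl E (↑q) N' ∩ A t)}).Finite := by
      refine Set.Finite.biUnion Q.finite_toSet ?_
      intro q hq
      exact hcon q hq
    refine hT'inf (hfin.subset ?_)
    intro t ht
    by_contra hnot
    simp only [Set.mem_iUnion, Set.mem_ofPred_eq, not_exists, not_and, not_le] at hnot
    have h1 := hsum t ht
    have h2 : ∑ q ∈ Q, m (cyl E (↑q) N' ∩ A t) < ∑ q ∈ Q, c' / Q.card :=
      Finset.sum_lt_sum_of_nonempty hQne (fun q hq => hnot q hq ht)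
    rw [Finset.sum_const, nsmul_eq_mul, mul_div_cancel₀ _ hQc.ne'] at h2
    linarith
  obtain ⟨q, hq, hqinf⟩ := hpig
  rw [hQ, Finset.mem_filter] at hq
  refine ⟨⟨N', ↑q, _, c' / Q.card, hqinf, by positivity, fun t ht => ht.2⟩, ?_, ?_, t₀, hKt₀, ?_⟩
  · show s.N < N'
    omega
  · intro i hi
    exact hq.2.1 i hi
  · intro I hI
    refine (hdep t₀ _ _ ?_).mp hq.2.2
    intro i hi
    exact (hI i (lt_of_lt_of_le hi hN2)).symm

end B3

open T1 in
open Classical in
/-- B3 : finitely additive intersectivity lemma for cylinder events `G j` depending on the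
coordinates `i < ℓ j` (same proof as `comb`, InfT1) -/
theorem comb2 (m : Set ℕ → ℝ) (hm : FMeas m) (E : ℕ → Set ℕ) (ℓ : ℕ → ℕ)
    (𝒢 : ∀ j : ℕ, Set (Set ℕ)) (hdep : ∀ j (I I' : Set ℕ), (∀ i < ℓ j, (i ∈ I ↔ i ∈ I')) →
      (I ∈ 𝒢 j ↔ I' ∈ 𝒢 j)) (c : ℝ) (hc : 0 < c)
    (hB : ∀ j, c ≤ m {n | {i | n ∈ E i} ∈ 𝒢 j}) :
    ∃ I : Set ℕ, (∃ᶠ j in atTop, I ∈ 𝒢 j) ∧ ∀ N : ℕ, 0 < m {n | ∀ i < N, (n ∈ E i ↔ i ∈ I)} := by
  let s0 : State m E (fun j => {n | {i | n ∈ E i} ∈ 𝒢 j}) := ⟨0, ∅, Set.univ, c,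
    Set.infinite_univ, hc, by
      intro t _
      have : cyl E ∅ 0 ∩ {n | {i | n ∈ E i} ∈ 𝒢 t} = {n | {i | n ∈ E i} ∈ 𝒢 t} := by
        rw [Set.inter_eq_right]
        intro n _ i hi
        omega
      rw [this]
      exact hB t⟩
  choose f hf1 hf2 hf3 using B3.step hm E ℓ 𝒢 hdep _ (fun j => rfl)
  let s : ℕ → State m E (fun j => {n | {i | n ∈ E i} ∈ 𝒢 j}) :=
    fun k => Nat.rec s0 (fun _ x => f x) k
  have hs : ∀ k, s (k + 1) = f (s k) := fun k => rfl
  have hNlt : ∀ k, (s k).N < (s (k + 1)).N := fun k => by rw [hs]; exact hf1 _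
  have hNmono : StrictMono fun k => (s k).N := strictMono_nat_of_lt_succ hNlt
  have hagree : ∀ k l, k ≤ l → ∀ i < (s k).N, (i ∈ (s l).p ↔ i ∈ (s k).p) := by
    intro k l hkl
    induction l, hkl using Nat.le_induction with
    | base => intro i _; rfl
    | succ l hkl ih =>
      intro i hi
      rw [hs, hf2 (s l) i (lt_of_lt_of_le hi (hNmono.monotone hkl)), ih i hi]
  set I : Set ℕ := {i | ∃ k, i < (s k).N ∧ i ∈ (s k).p} with hI
  have hIk : ∀ k, ∀ i < (s k).N, (i ∈ I ↔ i ∈ (s k).p) := by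
    intro k i hi
    constructor
    · rintro ⟨l, hl1, hl2⟩
      rcases le_total k l with hkl | hkl
      · exact (hagree k l hkl i hi).mp hl2
      · exact (hagree l k hkl i hl1).mpr hl2
    · intro h
      exact ⟨k, hi, h⟩
  refine ⟨I, ?_, ?_⟩
  · rw [Filter.frequently_atTop]
    intro a
    obtain ⟨j, hj1, hj2⟩ := hf3 (s a)
    refine ⟨j, (hNmono.id_le a).trans hj1, hj2 I ?_⟩
    intro i hi
    rw [← hs] at hi ⊢
    exact hIk (a + 1) i hi
  · intro N
    obtain ⟨t, ht⟩ := (s N).hT.nonempty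
    have h1 := (s N).h t ht
    have h2 : cyl E (s N).p (s N).N ∩ {n | {i | n ∈ E i} ∈ 𝒢 t} ⊆
        {n | ∀ i < N, (n ∈ E i ↔ i ∈ I)} := by
      rintro n ⟨hn, _⟩ i hi
      have hiN : i < (s N).N := lt_of_lt_of_le hi (hNmono.id_le N)
      rw [hn i hiN, hIk N i hiN]
    exact lt_of_lt_of_le (s N).hc (h1.trans (mono hm h2))

namespace B3

open T1

variable {m : Set ℕ → ℝ}

/-- sets with small multiplicity -/
theorem sum_le (hm : FMeas m) (A : ℕ → Set ℕ) (j : ℕ) : ∀ (r : ℕ) (S : Set ℕ),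
    (∀ n ∈ S, ∀ F : Finset ℕ, F ⊆ range j → (∀ t ∈ F, n ∈ A t) → F.card ≤ r) →
    ∑ t ∈ range j, m (S ∩ A t) ≤ r * m S := by
  classical
  induction j with
  | zero =>
    intro r S _
    rw [Finset.range_zero, Finset.sum_empty]
    exact mul_nonneg (Nat.cast_nonneg r) (hm.nonneg S)
  | succ j ih =>
    intro r S hS
    have hsplit : ∀ B : Set ℕ, m (S ∩ B) = m (S ∩ A j ∩ B) + m ((S \ A j) ∩ B) := by
      intro B
      rw [← hm.add]
      · congr 1
        ext n
        simp only [Set.mem_inter_iff, Set.mem_union, Set.mem_sdiff]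
        tauto
      · rw [Set.disjoint_left]
        rintro n ⟨⟨_, h1⟩, _⟩ ⟨⟨_, h2⟩, _⟩
        exact h2 h1
    have hS12 : m S = m (S ∩ A j) + m (S \ A j) := by
      have := hsplit Set.univ
      simpa using this
    have hsub : range j ⊆ range (j + 1) := Finset.range_mono (Nat.le_succ j)
    have h2 : ∑ t ∈ range j, m ((S \ A j) ∩ A t) ≤ r * m (S \ A j) := by
      apply ih r (S \ A j)
      intro n hn F hF hFA
      exact hS n hn.1 F (hF.trans hsub) hFA
    have hins : ∀ n ∈ S ∩ A j, ∀ F : Finset ℕ, F ⊆ range j → (∀ t ∈ F, n ∈ A t) →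
        F.card + 1 ≤ r := by
      intro n hn F hF hFA
      have hj : j ∉ F := fun h => by
        have := Finset.mem_range.1 (hF h)
        omega
      rw [← Finset.card_insert_of_notMem hj]
      apply hS n hn.1
      · intro t ht
        rcases Finset.mem_insert.1 ht with rfl | ht
        · exact Finset.mem_range.2 (Nat.lt_succ_self _)
        · exact hsub (hF ht)
      · intro t ht
        rcases Finset.mem_insert.1 ht with rfl | ht
        · exact hn.2
        · exact hFA t ht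
    have h1 : ∑ t ∈ range j, m ((S ∩ A j) ∩ A t) + m (S ∩ A j) ≤ r * m (S ∩ A j) := by
      rcases Nat.eq_zero_or_pos r with hr | hr
      · have hemp : S ∩ A j = ∅ := by
          rw [Set.eq_empty_iff_forall_notMem]
          intro n hn
          have := hins n hn ∅ (Finset.empty_subset _) (by simp)
          omega
        rw [hemp, empty hm]
        simp only [Set.empty_inter, empty hm]
        simp
      · obtain ⟨r, rfl⟩ : ∃ k, r = k + 1 := ⟨r - 1, by omega⟩
        have h3 := ih r (S ∩ A j) (by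
          intro n hn F hF hFA
          have := hins n hn F hF hFA
          omega)
        push_cast
        linarith
    rw [Finset.sum_range_succ, Finset.sum_congr rfl (fun t _ => hsplit (A t)),
      Finset.sum_add_distrib, hS12]
    linarith

end B3

open T1 in
open Classical in
/-- B3' : density version of `comb` (from B3 and Markov: `𝒢 j` = the sets meeting at least
`(c / 8) j` of the first `j` blocks; `m {n | ..} ≥ c / 2`) -/
theorem comb_density (m : Set ℕ → ℝ) (hm : FMeas m) (hm2 : m Set.univ ≤ 2) (off : ℕ → ℕ)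
    (hoff : StrictMono off) (h0 : off 0 = 0) (E : ℕ → Set ℕ) (c : ℝ) (hc : 0 < c)
    (hB : ∀ t, c ≤ m {n | ∃ i ∈ Ico (off t) (off (t + 1)), n ∈ E i}) :
    ∃ I : Set ℕ, (∃ᶠ N : ℕ in atTop, c / 8 * N ≤
        ((range N).filter (fun t => ∃ i ∈ Ico (off t) (off (t + 1)), i ∈ I)).card) ∧
      ∀ N : ℕ, 0 < m {n | ∀ i < N, (n ∈ E i ↔ i ∈ I)} := by
  set A : ℕ → Set ℕ := fun t => {n | ∃ i ∈ Ico (off t) (off (t + 1)), n ∈ E i} with hA
  refine comb2 m hm E off (fun j => {I | c / 8 * j ≤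
    (((range j).filter (fun t => ∃ i ∈ Ico (off t) (off (t + 1)), i ∈ I)).card : ℝ)}) ?_ (c / 2)
    (by positivity) ?_
  · intro j I I' hII
    have e : (range j).filter (fun t => ∃ i ∈ Ico (off t) (off (t + 1)), i ∈ I) =
        (range j).filter (fun t => ∃ i ∈ Ico (off t) (off (t + 1)), i ∈ I') := by
      ext t
      simp only [Finset.mem_filter, Finset.mem_range]
      refine and_congr_right fun ht => ?_
      have hle : off (t + 1) ≤ off j := hoff.monotone ht
      constructor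
      · rintro ⟨i, hi, h⟩
        rw [Finset.mem_Ico] at hi
        exact ⟨i, Finset.mem_Ico.2 hi, (hII i (by omega)).mp h⟩
      · rintro ⟨i, hi, h⟩
        rw [Finset.mem_Ico] at hi
        exact ⟨i, Finset.mem_Ico.2 hi, (hII i (by omega)).mpr h⟩
    simp only [Set.mem_ofPred_eq, e]
  · intro j
    set G : Set ℕ := {n | {i | n ∈ E i} ∈ {I : Set ℕ | c / 8 * j ≤
      (((range j).filter (fun t => ∃ i ∈ Ico (off t) (off (t + 1)), i ∈ I)).card : ℝ)}} with hG
    have hGmem : ∀ n, n ∉ G → ∀ F : Finset ℕ, F ⊆ range j → (∀ t ∈ F, n ∈ A t) →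
        (F.card : ℝ) < c / 8 * j := by
      intro n hn F hF hFA
      simp only [hG, Set.mem_ofPred_eq, not_le] at hn
      refine lt_of_le_of_lt ?_ hn
      apply Nat.cast_le.2
      apply Finset.card_le_card
      intro t ht
      simp only [Finset.mem_filter]
      exact ⟨hF ht, hFA t ht⟩
    rcases Nat.eq_zero_or_pos j with hj | hj
    · have hGu : G = Set.univ := by
        rw [Set.eq_univ_iff_forall]
        intro n
        simp only [hG, Set.mem_ofPred_eq, hj]
        simp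
      rw [hGu]
      have h1 := hB 0
      have h2 : m {n | ∃ i ∈ Ico (off 0) (off (0 + 1)), n ∈ E i} ≤ m Set.univ :=
        mono hm (Set.subset_univ _)
      linarith
    · have hj0 : (0 : ℝ) < j := by exact_mod_cast hj
      have hsplit : ∀ t, m (A t) = m (Gᶜ ∩ A t) + m (G ∩ A t) := by
        intro t
        rw [← hm.add]
        · congr 1
          ext n
          simp only [Set.mem_inter_iff, Set.mem_union, Set.mem_compl_iff]
          tauto
        · rw [Set.disjoint_left]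
          rintro n ⟨h1, _⟩ ⟨h2, _⟩
          exact h1 h2
      have h1 : ∑ t ∈ range j, m (Gᶜ ∩ A t) ≤ (⌊c / 8 * j⌋₊ : ℝ) * m Gᶜ := by
        apply B3.sum_le hm A j
        intro n hn F hF hFA
        exact Nat.le_floor (hGmem n hn F hF hFA).le
      have h2 : ∑ t ∈ range j, m (G ∩ A t) ≤ j * m G := by
        calc ∑ t ∈ range j, m (G ∩ A t) ≤ ∑ t ∈ range j, m G :=
              Finset.sum_le_sum fun t _ => mono hm Set.inter_subset_left
          _ = j * m G := by rw [Finset.sum_const, Finset.card_range, nsmul_eq_mul]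
      have h3 : (j : ℝ) * c ≤ ∑ t ∈ range j, m (A t) := by
        calc (j : ℝ) * c = ∑ t ∈ range j, c := by
              rw [Finset.sum_const, Finset.card_range, nsmul_eq_mul]
          _ ≤ _ := Finset.sum_le_sum fun t _ => hB t
      have h4 : (⌊c / 8 * j⌋₊ : ℝ) * m Gᶜ ≤ c / 8 * j * 2 := by
        have hfl : (⌊c / 8 * j⌋₊ : ℝ) ≤ c / 8 * j := Nat.floor_le (by positivity)
        have hGc : m Gᶜ ≤ 2 := (mono hm (Set.subset_univ _)).trans hm2
        exact mul_le_mul hfl hGc (hm.nonneg _) (by positivity)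
      have h5 : ∑ t ∈ range j, m (A t) = ∑ t ∈ range j, m (Gᶜ ∩ A t) + ∑ t ∈ range j, m (G ∩ A t) := by
        rw [← Finset.sum_add_distrib]
        exact Finset.sum_congr rfl fun t _ => hsplit t
      have h6 : (j : ℝ) * c ≤ c / 8 * j * 2 + j * m G := by linarith
      by_contra hlt
      push Not at hlt
      have h7 : (j : ℝ) * m G < j * (c / 2) := by
        apply mul_lt_mul_of_pos_left hlt hj0
      nlinarith

end Pool.Agent.H361R2.Inf
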