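import Mathlib
import Pool.Agent.H361R2.InfIface

namespace Pool.Agent.H361R2.Inf

open Finset Filter Topology

theorem T3_avoid {p : ℕ} (hp : p.Prime) (K : ℕ) (hK : K + 1 < p) (A B : ℕ → ℤ)
    (hAB : ∀ i < K, ¬ ((p : ℤ) ∣ A i ∧ (p : ℤ) ∣ B i)) :
    ∃ n : ℕ, ¬ p ∣ n ∧ ∀ i < K, ¬ (p : ℤ) ∣ A i * n + B i := by
  classical
  by_contra hcon
  push Not at hcon
  have hcon' : ∀ n : ℕ, ∃ i ∈ range (K + 1), (i = K ∧ p ∣ n) ∨
      (i < K ∧ (p : ℤ) ∣ A i * n + B i) := by
    intro n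
    by_cases h : p ∣ n
    · exact ⟨K, mem_range.2 (by omega), Or.inl ⟨rfl, h⟩⟩
    · obtain ⟨i, hi, hi2⟩ := hcon n h
      exact ⟨i, mem_range.2 (by omega), Or.inr ⟨hi, hi2⟩⟩
  choose f hf1 hf2 using hcon'
  have hmaps : ∀ n ∈ range p, f n ∈ range (K + 1) := fun n _ => hf1 n
  have hcard : (range (K + 1)).card < (range p).card := by simpa using hK
  obtain ⟨x, hx, y, hy, hxy, hfe⟩ := exists_ne_map_eq_of_card_lt_of_maps_to hcard hmaps
  rw [mem_range] at hx hy
  have hpI : Prime (p : ℤ) := Nat.prime_iff_prime_int.1 hp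
  have hmod : ((p : ℤ) ∣ (x : ℤ) - y) → False := by
    intro h5
    have h6 : (x : ℤ) ≡ y [ZMOD p] := (Int.modEq_iff_dvd.2 (by
      have := (dvd_neg (a := (p : ℤ))).2 h5
      rwa [neg_sub] at this))
    have h7 : x ≡ y [MOD p] := (Int.natCast_modEq_iff).1 h6
    exact hxy (Nat.ModEq.eq_of_lt_of_lt h7 hx hy)
  rcases hf2 x with ⟨hx1, hx2⟩ | ⟨hx1, hx2⟩
  · rcases hf2 y with ⟨hy1, hy2⟩ | ⟨hy1, hy2⟩
    · exact hmod (dvd_sub (Int.natCast_dvd_natCast.2 hx2) (Int.natCast_dvd_natCast.2 hy2))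
    · omega
  · rcases hf2 y with ⟨hy1, hy2⟩ | ⟨hy1, hy2⟩
    · omega
    · rw [hfe] at hx2
      have h3 := dvd_sub hx2 hy2
      have h4 : (A (f y) * (x : ℤ) + B (f y)) - (A (f y) * (y : ℤ) + B (f y)) =
          (A (f y) : ℤ) * ((x : ℤ) - y) := by ring
      rw [h4] at h3
      rcases hpI.dvd_or_dvd h3 with h5 | h5
      · exact hAB (f y) hy1 ⟨h5, (dvd_add_right (Dvd.dvd.mul_right h5 _)).1 hy2⟩
      · exact hmod h5

theorem T3_mono {m : Set ℕ → ℝ} (hm : FMeas m) {A B : Set ℕ} (h : A ⊆ B) : m A ≤ m B := by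
  have h1 := hm.add A (B \ A) Set.disjoint_sdiff_right
  rw [Set.union_sdiff_cancel h] at h1
  have h2 := hm.nonneg (B \ A)
  linarith

/-- the measure for one `J` -/
theorem T3_one (off : ℕ → ℕ) (hoff : StrictMono off) (c : ℝ)
    (hBM : BlockMeas off c) (A B : ℕ → ℤ) (hA : ∀ i, 1 ≤ A i)
    (hne : ∀ i j, i ≠ j → A i * B j ≠ A j * B i)
    (W r : ℕ → ℕ) (hW : ∀ J, 1 ≤ W J) (hWp : ∀ J, ∀ p : ℕ, p.Prime → p ≤ off J + 1 → p ∣ W J)
    (hcop : ∀ J, ∀ i < off J, IsCoprime (A i * r J + B i) (W J : ℤ))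
    (hcop' : ∀ i, IsCoprime (A i) (B i)) (J : ℕ) :
    ∃ m : Set ℕ → ℝ, FMeas m ∧ m Set.univ ≤ 2 ∧
      (∀ t < J, c ≤ m {n | ∃ i ∈ Ico (off t) (off (t + 1)),
        n ∈ {n : ℕ | Nat.Prime (A i * n + B i).toNat}}) ∧
      ∀ S : Set ℕ, 0 < m S → {n | n ∈ S ∧ n ≡ r J [MOD W J]}.Infinite := by
  classical
  set s : ℕ := ∑ i ∈ range (off J), (B i).natAbs + 1 with hs
  set r' : ℕ := r J + W J * s with hr'
  have hpos : ∀ i < off J, 1 ≤ A i * (r' : ℤ) + B i := by
    intro i hi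
    have h1 : (B i).natAbs ≤ ∑ i ∈ range (off J), (B i).natAbs :=
      Finset.single_le_sum (f := fun i => (B i).natAbs) (fun _ _ => Nat.zero_le _)
        (mem_range.2 hi)
    have h2 : s ≤ r' := by
      have := hW J
      nlinarith
    have h3 : ((B i).natAbs : ℤ) + 1 ≤ (r' : ℤ) := by exact_mod_cast (by omega)
    have h4 : -((B i).natAbs : ℤ) ≤ B i := by omega
    have h5 : (r' : ℤ) ≤ A i * (r' : ℤ) := by
      have h6 := hA i
      have h7 : (0 : ℤ) ≤ (r' : ℤ) := Int.natCast_nonneg _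
      nlinarith
    linarith
  set a : ℕ → ℕ := fun i => (A i).toNat * W J with ha
  set b : ℕ → ℕ := fun i => (A i * (r' : ℤ) + B i).toNat with hb
  have hacast : ∀ i, ((a i : ℕ) : ℤ) = A i * W J := by
    intro i
    have := hA i
    simp only [ha]
    push_cast
    rw [Int.toNat_of_nonneg (by omega)]
  have hbcast : ∀ i < off J, ((b i : ℕ) : ℤ) = A i * (r' : ℤ) + B i := by
    intro i hi
    have := hpos i hi
    simp only [hb]
    rw [Int.toNat_of_nonneg (by omega)]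
  have hform : ∀ i < off J, ∀ n : ℕ, a i * n + b i = (A i * ((W J * n + r' : ℕ) : ℤ) + B i).toNat := by
    intro i hi n
    have h1 : ((a i * n + b i : ℕ) : ℤ) = A i * ((W J * n + r' : ℕ) : ℤ) + B i := by
      push_cast
      rw [hacast, hbcast i hi]
      ring
    rw [← h1, Int.toNat_natCast]
  have hgood : GoodForms (off J) a b := by
    refine ⟨fun i _ => ?_, fun i hi => ?_, fun i hi j hj hij h => ?_, fun p hp => ?_⟩
    · have h1 := hA i
      have h2 := hW J
      have h3 : 1 ≤ (A i).toNat := by omega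
      exact Nat.mul_pos h3 h2
    · have h1 := hpos i hi
      simp only [hb]
      omega
    · have h1 : ((a i * b j : ℕ) : ℤ) = ((a j * b i : ℕ) : ℤ) := by rw [h]
      push_cast at h1
      rw [hacast, hacast, hbcast i hi, hbcast j hj] at h1
      have h2 : (W J : ℤ) * (A i * B j - A j * B i) = 0 := by linear_combination h1
      have h3 : (W J : ℤ) ≠ 0 := by
        have := hW J
        exact_mod_cast (by omega)
      rcases mul_eq_zero.1 h2 with h4 | h4
      · exact h3 h4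
      · exact hne i j hij (by linarith)
    · have hpI : Prime (p : ℤ) := Nat.prime_iff_prime_int.1 hp
      by_cases hpW : p ∣ W J
      · refine ⟨1, fun h => hp.one_lt.ne' (Nat.dvd_one.1 h), fun i hi h => ?_⟩
        have h1 : (p : ℤ) ∣ ((a i * 1 + b i : ℕ) : ℤ) := Int.natCast_dvd_natCast.2 h
        have h2 : ((a i * 1 + b i : ℕ) : ℤ) = (A i * r J + B i) + (W J : ℤ) * (A i * (1 + s)) := by
          push_cast
          rw [hacast, hbcast i hi, hr']
          push_cast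
          ring
        rw [h2] at h1
        have h3 : (p : ℤ) ∣ (W J : ℤ) := Int.natCast_dvd_natCast.2 hpW
        have h4 : (p : ℤ) ∣ A i * r J + B i := (dvd_add_left (Dvd.dvd.mul_right h3 _)).1 h1
        exact hpI.not_isUnit ((hcop J i hi).isUnit_of_dvd' h4 h3)
      · have hpK : off J + 1 < p := by
          by_contra hcon
          exact hpW (hWp J p hp (by omega))
        obtain ⟨n, hn1, hn2⟩ := T3_avoid hp (off J) hpK (fun i => (a i : ℤ)) (fun i => (b i : ℤ)) (by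
          intro i hi ⟨h1, h2⟩
          rw [hacast] at h1
          rw [hbcast i hi] at h2
          have h3 : (p : ℤ) ∣ A i := by
            rcases hpI.dvd_or_dvd h1 with h | h
            · exact h
            · exact absurd (Int.natCast_dvd_natCast.1 h) hpW
          have h4 : (p : ℤ) ∣ B i := (dvd_add_right (Dvd.dvd.mul_right h3 _)).1 h2
          exact hpI.not_isUnit ((hcop' i).isUnit_of_dvd' h3 h4))
        refine ⟨n, hn1, fun i hi h => hn2 i hi ?_⟩
        have : (p : ℤ) ∣ ((a i * n + b i : ℕ) : ℤ) := Int.natCast_dvd_natCast.2 h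
        push_cast at this
        exact this
  obtain ⟨m, hm, hm2, hmc⟩ := hBM J a b hgood
  refine ⟨fun S => m {n | W J * n + r' ∈ S}, ⟨fun S => hm.nonneg _, fun S T hST => ?_, fun S hS => ?_⟩,
    ?_, ?_, ?_⟩
  · have h1 := hm.add {n | W J * n + r' ∈ S} {n | W J * n + r' ∈ T} (by
      rw [Set.disjoint_left] at hST ⊢
      intro n h2 h3
      exact hST h2 h3)
    exact h1
  · apply hm.fin
    apply hS.preimage
    intro x _ y _ hxy
    have h1 := hW J
    simp only [add_left_inj] at hxy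
    exact Nat.eq_of_mul_eq_mul_left h1 hxy
  · exact hm2
  · intro t ht
    refine (hmc t ht).trans (le_of_eq ?_)
    congr 1
    ext n
    simp only [Set.mem_ofPred_eq]
    constructor
    · rintro ⟨i, hi, hp⟩
      refine ⟨i, hi, ?_⟩
      have hi2 : i < off J := (mem_Ico.1 hi).2.trans_le (hoff.monotone ht)
      rw [hform i hi2] at hp
      exact hp
    · rintro ⟨i, hi, hp⟩
      refine ⟨i, hi, ?_⟩
      have hi2 : i < off J := (mem_Ico.1 hi).2.trans_le (hoff.monotone ht)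
      rw [hform i hi2]
      exact hp
  · intro S hS hfin
    have h1 : m {n | W J * n + r' ∈ S} = 0 := by
      apply hm.fin
      have h2 : {n | W J * n + r' ∈ S} ⊆ (fun n => W J * n + r') ⁻¹' {n | n ∈ S ∧ n ≡ r J [MOD W J]} := by
        intro n hn
        refine ⟨hn, ?_⟩
        simp only [hr']
        have : W J * n + (r J + W J * s) = r J + W J * (n + s) := by ring
        rw [this]
        exact Nat.ModEq.symm (Nat.modEq_iff_dvd' (by omega) |>.2 (by
          rw [Nat.add_sub_cancel_left]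
          exact Dvd.intro _ rfl))
      refine (hfin.preimage ?_).subset h2
      intro x _ y _ hxy
      have h1 := hW J
      simp only [add_left_inj] at hxy
      exact Nat.eq_of_mul_eq_mul_left h1 hxy
    simp only at hS
    linarith

/-- T3, from the statement of T1 -/
theorem inf_class_of_comb (hcomb : ∀ (m : Set ℕ → ℝ), FMeas m → ∀ (off : ℕ → ℕ), StrictMono off →
      off 0 = 0 → ∀ (E : ℕ → Set ℕ) (c : ℝ), 0 < c →
      (∀ t, c ≤ m {n | ∃ i ∈ Ico (off t) (off (t + 1)), n ∈ E i}) →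
      ∃ I : Set ℕ, I.Infinite ∧ ∀ N : ℕ, 0 < m {n | ∀ i < N, (n ∈ E i ↔ i ∈ I)})
    (off : ℕ → ℕ) (hoff : StrictMono off) (h0 : off 0 = 0) (c : ℝ) (hc : 0 < c)
    (hBM : BlockMeas off c) (A B : ℕ → ℤ) (hA : ∀ i, 1 ≤ A i)
    (hne : ∀ i j, i ≠ j → A i * B j ≠ A j * B i)
    (W r : ℕ → ℕ) (hW : ∀ J, 1 ≤ W J) (hWp : ∀ J, ∀ p : ℕ, p.Prime → p ≤ off J + 1 → p ∣ W J)
    (hcop : ∀ J, ∀ i < off J, IsCoprime (A i * r J + B i) (W J : ℤ))
    (hcop' : ∀ i, IsCoprime (A i) (B i)) :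
    ∃ I : Set ℕ, I.Infinite ∧ ∀ N : ℕ, ∃ J, N ≤ J ∧
      {n : ℕ | n ≡ r J [MOD W J] ∧ ∀ i < N, (Nat.Prime (A i * n + B i).toNat ↔ i ∈ I)}.Infinite := by
  have hone := T3_one off hoff c hBM A B hA hne W r hW hWp hcop hcop'
  choose M hM hM2 hMc hMS using hone
  set U : Ultrafilter ℕ := Ultrafilter.of atTop with hU
  have hUle : (U : Filter ℕ) ≤ atTop := Ultrafilter.of_le _
  have hlim : ∀ S : Set ℕ, ∃ l : ℝ, Tendsto (fun J => M J S) U (𝓝 l) := by
    intro S
    have hc1 : IsCompact (Set.Icc (0 : ℝ) 2) := isCompact_Icc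
    have h1 : ((U.map (fun J => M J S) : Ultrafilter ℝ) : Filter ℝ) ≤ 𝓟 (Set.Icc (0 : ℝ) 2) := by
      rw [le_principal_iff, Ultrafilter.mem_coe, Ultrafilter.mem_map]
      apply Filter.univ_mem'
      intro J
      exact ⟨(hM J).nonneg S, (T3_mono (hM J) (Set.subset_univ S)).trans (hM2 J)⟩
    obtain ⟨l, _, hl⟩ := hc1.ultrafilter_le_nhds _ h1
    exact ⟨l, hl⟩
  choose m hm using hlim
  have hmF : FMeas m := by
    refine ⟨fun S => ?_, fun S T hST => ?_, fun S hS => ?_⟩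
    · exact ge_of_tendsto' (hm S) fun J => (hM J).nonneg S
    · have h1 := (hm S).add (hm T)
      have h2 := hm (S ∪ T)
      have h3 : (fun J => M J (S ∪ T)) = fun J => M J S + M J T := by
        ext J
        exact (hM J).add S T hST
      rw [h3] at h2
      exact tendsto_nhds_unique h2 h1
    · have h1 := hm S
      have h2 : (fun J => M J S) = fun _ => 0 := by
        ext J
        exact (hM J).fin S hS
      rw [h2] at h1
      exact tendsto_nhds_unique h1 tendsto_const_nhds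
  obtain ⟨I, hI, hIN⟩ := hcomb m hmF off hoff h0 (fun i => {n : ℕ | Nat.Prime (A i * n + B i).toNat})
    c hc (by
      intro t
      apply ge_of_tendsto (hm _)
      have h1 : ∀ᶠ J in (U : Filter ℕ), t < J := hUle (eventually_gt_atTop t)
      filter_upwards [h1] with J hJ
      exact hMc J t hJ)
  refine ⟨I, hI, fun N => ?_⟩
  have h1 := (hm {n | ∀ i < N, (n ∈ {n : ℕ | Nat.Prime (A i * n + B i).toNat} ↔ i ∈ I)})
  have h2 : ∀ᶠ J in (U : Filter ℕ), 0 < M J {n | ∀ i < N,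
      (n ∈ {n : ℕ | Nat.Prime (A i * n + B i).toNat} ↔ i ∈ I)} :=
    h1.eventually (lt_mem_nhds (hIN N))
  have h3 : ∀ᶠ J in (U : Filter ℕ), N ≤ J := hUle (eventually_ge_atTop N)
  obtain ⟨J, hJ1, hJ2⟩ := (h2.and h3).exists
  refine ⟨J, hJ2, ?_⟩
  refine (hMS J _ hJ1).mono ?_
  rintro n ⟨h4, h5⟩
  exact ⟨h5, h4⟩

end Pool.Agent.H361R2.Inf
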