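import Mathlib
import Pool.Agent.H361R2.InfT3

/-! B4: T3 for a general conclusion `P` of the intersectivity lemma. -/

namespace Pool.Agent.H361R2.Inf

open Finset Filter Topology

/-- B4 : T3 for a general conclusion `P` of the intersectivity lemma (same proof as
`inf_class_of_comb`, InfT3; there `P = Set.Infinite`) -/
theorem inf_class_of_combP (P : Set ℕ → Prop) (off : ℕ → ℕ) (hoff : StrictMono off)
    (h0 : off 0 = 0) (c : ℝ) (hc : 0 < c)
    (hcomb : ∀ (m : Set ℕ → ℝ), FMeas m → m Set.univ ≤ 2 → ∀ (E : ℕ → Set ℕ),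
      (∀ t, c ≤ m {n | ∃ i ∈ Ico (off t) (off (t + 1)), n ∈ E i}) →
      ∃ I : Set ℕ, P I ∧ ∀ N : ℕ, 0 < m {n | ∀ i < N, (n ∈ E i ↔ i ∈ I)})
    (hBM : BlockMeas off c) (A B : ℕ → ℤ) (hA : ∀ i, 1 ≤ A i)
    (hne : ∀ i j, i ≠ j → A i * B j ≠ A j * B i)
    (W r : ℕ → ℕ) (hW : ∀ J, 1 ≤ W J) (hWp : ∀ J, ∀ p : ℕ, p.Prime → p ≤ off J + 1 → p ∣ W J)
    (hcop : ∀ J, ∀ i < off J, IsCoprime (A i * r J + B i) (W J : ℤ))
    (hcop' : ∀ i, IsCoprime (A i) (B i)) :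
    ∃ I : Set ℕ, P I ∧ ∀ N : ℕ, ∃ J, N ≤ J ∧
      {n : ℕ | n ≡ r J [MOD W J] ∧ ∀ i < N, (Nat.Prime (A i * n + B i).toNat ↔ i ∈ I)}.Infinite := by
  have hone := T3_one off hoff c hBM A B hA hne W r hW hWp hcop hcop'
  choose M hM hM2 hMc hMS using hone
  set U : Ultrafilter ℕ := Ultrafilter.of atTop with hU
  have hUle : (U : Filter ℕ) ≤ atTop := Ultrafilter.of_le _
  have hlim : ∀ S : Set ℕ, ∃ l : ℝ, Tendsto (fun J => M J S) U (𝓝 l) := by
    intro S
    have hc1 : IsCompact (Set.Icc (0 : ℝ) 2) := isCompact_Icc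
    have h1 : ((U.map (fun J => M J S) : Ultrafilter ℝ) : Filter ℝ) ≤ 𝓟 (Set.Icc (0 : ℝ) 2) := by
      rw [le_principal_iff, Ultrafilter.mem_coe, Ultrafilter.mem_map]
      apply Filter.univ_mem'
      intro J
      exact ⟨(hM J).nonneg S, (T3_mono (hM J) (Set.subset_univ S)).trans (hM2 J)⟩
    obtain ⟨l, _, hl⟩ := hc1.ultrafilter_le_nhds _ h1
    exact ⟨l, hl⟩
  choose m hm using hlim
  have hmF : FMeas m := by
    refine ⟨fun S => ?_, fun S T hST => ?_, fun S hS => ?_⟩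
    · exact ge_of_tendsto' (hm S) fun J => (hM J).nonneg S
    · have h1 := (hm S).add (hm T)
      have h2 := hm (S ∪ T)
      have h3 : (fun J => M J (S ∪ T)) = fun J => M J S + M J T := by
        ext J
        exact (hM J).add S T hST
      rw [h3] at h2
      exact tendsto_nhds_unique h2 h1
    · have h1 := hm S
      have h2 : (fun J => M J S) = fun _ => 0 := by
        ext J
        exact (hM J).fin S hS
      rw [h2] at h1
      exact tendsto_nhds_unique h1 tendsto_const_nhds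
  have hmuniv : m Set.univ ≤ 2 := le_of_tendsto' (hm Set.univ) hM2
  obtain ⟨I, hI, hIN⟩ := hcomb m hmF hmuniv (fun i => {n : ℕ | Nat.Prime (A i * n + B i).toNat})
    (by
      intro t
      apply ge_of_tendsto (hm _)
      have h1 : ∀ᶠ J in (U : Filter ℕ), t < J := hUle (eventually_gt_atTop t)
      filter_upwards [h1] with J hJ
      exact hMc J t hJ)
  refine ⟨I, hI, fun N => ?_⟩
  have h1 := (hm {n | ∀ i < N, (n ∈ {n : ℕ | Nat.Prime (A i * n + B i).toNat} ↔ i ∈ I)})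
  have h2 : ∀ᶠ J in (U : Filter ℕ), 0 < M J {n | ∀ i < N,
      (n ∈ {n : ℕ | Nat.Prime (A i * n + B i).toNat} ↔ i ∈ I)} :=
    h1.eventually (lt_mem_nhds (hIN N))
  have h3 : ∀ᶠ J in (U : Filter ℕ), N ≤ J := hUle (eventually_ge_atTop N)
  obtain ⟨J, hJ1, hJ2⟩ := (h2.and h3).exists
  refine ⟨J, hJ2, ?_⟩
  refine (hMS J _ hJ1).mono ?_
  rintro n ⟨h4, h5⟩
  exact ⟨h5, h4⟩

end Pool.Agent.H361R2.Inf
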