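import Mathlib
import Pool.Agent.H361R2.InfA6

/-! B5 : exactness with respect to all linear forms, for an admissible sequence. -/

namespace Pool.Agent.H361R2.Inf

open Finset Filter Topology

/-- B5 : exactness with respect to all linear forms, for an admissible sequence of forms
(`hT3` = conclusion of T3 / B4) -/
theorem exact_seq_of (P : Set ℕ → Prop) (off : ℕ → ℕ)
    (hT3 : ∀ (A B : ℕ → ℤ), (∀ i, 1 ≤ A i) → (∀ i j, i ≠ j → A i * B j ≠ A j * B i) →
      ∀ (W r : ℕ → ℕ), (∀ J, 1 ≤ W J) →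
      (∀ J, ∀ p : ℕ, p.Prime → p ≤ off J + 1 → p ∣ W J) →
      (∀ J, ∀ i < off J, IsCoprime (A i * r J + B i) (W J : ℤ)) →
      (∀ i, IsCoprime (A i) (B i)) →
      ∃ I : Set ℕ, P I ∧ ∀ N : ℕ, ∃ J, N ≤ J ∧
      {n : ℕ | n ≡ r J [MOD W J] ∧
        ∀ i < N, (Nat.Prime (A i * n + B i).toNat ↔ i ∈ I)}.Infinite)
    (A B : ℕ → ℤ) (hA : ∀ i, 1 ≤ A i) (hcop : ∀ i, IsCoprime (A i) (B i))
    (hinj : Function.Injective (fun i => (A i, B i)))
    (hadm : ∀ p : ℕ, p.Prime → ∃ n : ℕ, ∀ i, ¬ (p : ℤ) ∣ A i * n + B i) :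
    ∃ I : Set ℕ, P I ∧ ∀ T : Finset (ℤ × ℤ), (∀ f ∈ T, 1 ≤ f.1) →
      {n : ℕ | ∀ f ∈ T, (Nat.Prime (f.1 * n + f.2).toNat ↔ ∃ i ∈ I, f = (A i, B i))}.Infinite := by
  classical
  set f : ℕ → ℤ × ℤ := fun i => (A i, B i) with hf
  have hne : ∀ i j, i ≠ j → A i * B j ≠ A j * B i := by
    intro i j hij heq
    exact hij (hinj (A6_prim (hA i) (hA j) (hcop i) (hcop j) heq))
  choose! np hnp using hadm
  set bad : ℕ → Finset (ℤ × ℤ) := fun J =>
    ((range J).image (fun e => Denumerable.ofNat (ℤ × ℤ) e)).filter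
      (fun g => 1 ≤ g.1 ∧ IsCoprime g.1 g.2 ∧ g ∉ Set.range f) with hbad
  choose W r Q hW hWp hWc hQ using fun J : ℕ => A6_class A B hA hcop np hnp (off J) (bad J)
    (by
      intro g hg
      obtain ⟨_, h1, h2, h3⟩ := Finset.mem_filter.mp hg
      exact ⟨h1, h2, fun i h => h3 ⟨i, h.symm⟩⟩)
  obtain ⟨I, hI, hIN⟩ := hT3 A B hA hne W r hW hWp hWc hcop
  refine ⟨I, hI, ?_⟩
  intro T hT
  obtain ⟨N1, hN1⟩ : ∃ N : ℕ, ∀ i, f i ∈ T → i < N := by
    have h1 : (f ⁻¹' (T : Set (ℤ × ℤ))).Finite := T.finite_toSet.preimage hinj.injOn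
    obtain ⟨N, hN⟩ := h1.bddAbove
    exact ⟨N + 1, fun i hi => Nat.lt_succ_of_le (hN hi)⟩
  set N2 : ℕ := T.sup Encodable.encode + 1 with hN2
  obtain ⟨J, hJ, hinf⟩ := hIN (max N1 N2)
  set Q' : ℕ := Q J + ∑ g ∈ T, (g.1.natAbs + g.2.natAbs) with hQ'
  refine (hinf.sdiff (Set.finite_Iic Q')).mono ?_
  rintro n ⟨⟨hn1, hn2⟩, hn3⟩ g hg
  have hn3' : Q' < n := by simpa using hn3
  by_cases hgf : g ∈ Set.range f
  · obtain ⟨i, rfl⟩ := hgf
    have h1 := hn2 i (lt_of_lt_of_le (hN1 i hg) (le_max_left _ _))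
    constructor
    · intro hp
      exact ⟨i, h1.mp hp, rfl⟩
    · rintro ⟨j, hj, hij⟩
      have h2 : i = j := hinj hij
      rw [h2] at h1
      rw [h2]
      exact h1.mpr hj
  · have hgG : ¬ ∃ i ∈ I, g = (A i, B i) := by
      rintro ⟨i, _, h⟩
      exact hgf ⟨i, h.symm⟩
    refine iff_of_false ?_ hgG
    by_cases hgc : IsCoprime g.1 g.2
    · have hgb : g ∈ bad J := by
        refine Finset.mem_filter.mpr ⟨?_, hT g hg, hgc, hgf⟩
        refine Finset.mem_image.mpr ⟨Encodable.encode g, ?_, Denumerable.ofNat_encode g⟩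
        rw [Finset.mem_range]
        have h1 : Encodable.encode g ≤ T.sup Encodable.encode :=
          Finset.le_sup (f := Encodable.encode) hg
        have h2 : N2 ≤ J := (le_max_right _ _).trans hJ
        omega
      exact hQ J g hgb n hn1 (by omega)
    · intro hprime
      have h1 : g.1.natAbs + g.2.natAbs ≤ ∑ g ∈ T, (g.1.natAbs + g.2.natAbs) :=
        Finset.single_le_sum (f := fun g : ℤ × ℤ => g.1.natAbs + g.2.natAbs)
          (fun _ _ => Nat.zero_le _) hg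
      have h3 := hT g hg
      have h4 : (n : ℤ) ≤ g.1 * n := by nlinarith [Int.natCast_nonneg n]
      have h5 : (g.1.natAbs : ℤ) < g.1 * n + g.2 := by omega
      have h6 : ((g.1 * n + g.2).toNat : ℤ) = g.1 * n + g.2 :=
        Int.toNat_of_nonneg (by omega)
      set d : ℕ := Int.gcd g.1 g.2 with hd
      have hd1 : (d : ℤ) ∣ g.1 := Int.gcd_dvd_left ..
      have hd2 : (d : ℤ) ∣ g.2 := Int.gcd_dvd_right ..
      have hdne : d ≠ 1 := fun h => hgc (Int.isCoprime_iff_gcd_eq_one.mpr h)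
      have h7 : d ∣ (g.1 * n + g.2).toNat := by
        have h8 : (d : ℤ) ∣ ((g.1 * n + g.2).toNat : ℤ) := by
          rw [h6]
          exact (hd1.mul_right _).add hd2
        exact Int.natCast_dvd_natCast.mp h8
      have h9 := (Nat.dvd_prime hprime).mp h7
      have h10 : (d : ℤ) ≤ g.1 := Int.le_of_dvd (by omega) hd1
      rcases h9 with h9 | h9
      · exact hdne h9
      · omega

end Pool.Agent.H361R2.Inf
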