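import Mathlib
import Pool.Agent.H362R2.CM.PairAlg

/-! Replacing the weights in two coordinates (algebra); uses the one coordinate lemmas of
`H362R2.CM.PairAlg` (helper362). -/

namespace Pool.Agent.H361R2.Inf

open Finset
open Pool.Agent.H410R2
open Pool.Agent.H362R2.CM

section pa
variable {ι J : Type} [Fintype ι] [DecidableEq ι] [Fintype J] [DecidableEq J]

theorem local_sum0 (j : J) (L : J → ℕ → ℕ) (p n : ℕ) (hp : 2 ≤ p)
    (hn : ¬ p ∣ L j n) (u : Option J) :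
    ∑ v ∈ univ.filter (fun v : Option J => v ≠ some j), cf p v * hl L p n v * psiL j p u v =
      cf p u * hl L p n u := by
  have hp1 : (p : ℝ) - 1 ≠ 0 := by
    have : (2 : ℝ) ≤ p := by exact_mod_cast hp
    linarith
  rw [Finset.sum_filter, Fintype.sum_option]
  rcases u with _ | l
  · simp [psiL, cf, hl]
  · by_cases hlj : l = j
    · subst hlj
      have h1 : ∑ x : J, (if some x ≠ some l then cf p (some x) * hl L p n (some x) *
          psiL l p (some l) (some x) else 0) = 0 := by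
        apply Finset.sum_eq_zero
        intro x _
        by_cases hx : x = l
        · simp [hx]
        · have : ¬ l = x := fun h => hx h.symm
          simp [psiL, this]
      rw [h1]
      simp [cf, hl, psiL, hn]
    · have h1 : ∑ x : J, (if some x ≠ some j then cf p (some x) * hl L p n (some x) *
          psiL j p (some l) (some x) else 0) = cf p (some l) * hl L p n (some l) := by
        rw [Finset.sum_eq_single l]
        · simp [psiL, hlj]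
        · intro x _ hx
          have : ¬ l = x := fun h => hx h.symm
          simp [psiL, this]
        · intro h; exact absurd (Finset.mem_univ l) h
      rw [h1]
      simp [psiL, hlj]

theorem sum_eq_YY0 (j : J) (pr : ι → ℕ) (hp : ∀ t, 2 ≤ pr t) (L : J → ℕ → ℕ)
    (n : ℕ) (hn : ∀ t, ¬ pr t ∣ L j n) (y : (ι → Option J) → ℝ) :
    ∑ σ, cw pr y σ * hN L pr σ n =
      ∑ ρ ∈ univ.filter (fun ρ : ι → Option J => ∀ t, ρ t ≠ some j),
        (∏ t, cf (pr t) (ρ t) * hl L (pr t) n (ρ t)) * YY j pr y ρ := by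
  have h1 : ∑ ρ ∈ univ.filter (fun ρ : ι → Option J => ∀ t, ρ t ≠ some j),
        (∏ t, cf (pr t) (ρ t) * hl L (pr t) n (ρ t)) * YY j pr y ρ =
      ∑ τ : ι → Option J, y τ * ∑ ρ ∈ univ.filter (fun ρ : ι → Option J => ∀ t, ρ t ≠ some j),
        ∏ t, (cf (pr t) (ρ t) * hl L (pr t) n (ρ t) * psiL j (pr t) (τ t) (ρ t)) := by
    unfold YY
    simp_rw [Finset.mul_sum]
    rw [Finset.sum_comm]
    refine Finset.sum_congr rfl fun τ _ => Finset.sum_congr rfl fun ρ _ => ?_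
    rw [Finset.prod_mul_distrib (f := fun t => cf (pr t) (ρ t) * hl L (pr t) n (ρ t))]
    ring
  rw [h1]
  refine Finset.sum_congr rfl fun τ _ => ?_
  rw [sum_avoid j (fun t v => cf (pr t) v * hl L (pr t) n v * psiL j (pr t) (τ t) v)]
  rw [Finset.prod_congr rfl fun t _ => local_sum0 j L (pr t) n (hp t) (hn t) (τ t)]
  unfold cw hN
  rw [Finset.prod_mul_distrib]
  ring

/-- the two weights agree when `L j n` is free of sieving primes -/
theorem sum_ymod0 (j : J) (pr : ι → ℕ) (hp : ∀ t, 2 ≤ pr t) (L : J → ℕ → ℕ)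
    (n : ℕ) (hn : ∀ t, ¬ pr t ∣ L j n) (u y : (ι → Option J) → ℝ)
    (hu : ∀ ρ : ι → Option J, (∀ t, ρ t ≠ some j) → YY j pr u ρ ≠ 0) :
    ∑ σ, cw pr (ymod j pr u y) σ * hN L pr σ n = ∑ σ, cw pr y σ * hN L pr σ n := by
  rw [sum_eq_YY0 j pr hp L n hn, sum_eq_YY0 j pr hp L n hn]
  refine Finset.sum_congr rfl fun ρ hρ => ?_
  have h := (Finset.mem_filter.1 hρ).2
  rw [YY_ymod j pr u y ρ h (hu ρ h)]

/-- support of the modified weights -/
theorem ymod_supp (j : J) (pr : ι → ℕ) (Λ R : ℝ) (y : (ι → Option J) → ℝ)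
    (hy : ∀ σ, y σ ≠ 0 → lgt pr σ ≤ R) (σ : ι → Option J)
    (hσ : ymod j pr (uj j pr Λ) y σ ≠ 0) : lgt pr σ ≤ R + Λ := by
  unfold ymod at hσ
  have h1 : uj j pr Λ σ ≠ 0 := fun h => hσ (by rw [h, mul_zero])
  have h2 : lg pr (fib σ j) ≤ Λ := by
    by_contra hcon
    apply h1
    unfold uj
    rw [if_neg hcon]
  have h3 : YY j pr y (era j σ) ≠ 0 := fun h => hσ (by rw [h]; simp)
  unfold YY at h3
  obtain ⟨τ, _, hτ⟩ := Finset.exists_ne_zero_of_sum_ne_zero h3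
  have h4 : y τ ≠ 0 := fun h => hτ (by rw [h, zero_mul])
  have h5 : ∏ t, psiL j (pr t) (τ t) (era j σ t) ≠ 0 := fun h => hτ (by rw [h, mul_zero])
  have h6 := psi_supp j pr τ (era j σ) (era_ne j σ) h5
  have h7 := hy τ h4
  rw [lgt_eq] at h7 ⊢
  rw [← Finset.add_sum_erase univ (fun l => lg pr (fib σ l)) (Finset.mem_univ j)]
  rw [← Finset.add_sum_erase univ (fun l => lg pr (fib τ l)) (Finset.mem_univ j)] at h7
  have h8 : ∑ l ∈ univ.erase j, lg pr (fib σ l) = ∑ l ∈ univ.erase j, lg pr (fib τ l) := by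
    refine Finset.sum_congr rfl fun l hl => ?_
    have hl' := Finset.ne_of_mem_erase hl
    rw [← era_fib j σ l hl', ← era_fib j τ l hl', h6]
  rw [h8]
  have h9 := lg_nonneg pr (fib τ j)
  linarith

/-- the local factor as a product over the colours -/
theorem mulc_split (pr : ι → ℕ) (f : ℕ → ℝ) (σ : ι → Option J) (j : J) :
    mulc pr f σ = (∏ t ∈ fib σ j, f (pr t)) * ∏ l ∈ univ.erase j, ∏ t ∈ fib σ l, f (pr t) := by
  rw [mulc_eq, ← Finset.mul_prod_erase univ _ (Finset.mem_univ j)]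

/-- `p / (p - 1)` -/
noncomputable def kp (p : ℕ) : ℝ := (p : ℝ) / ((p : ℝ) - 1)

theorem kp_ge (p : ℕ) (hp : 2 ≤ p) : 1 ≤ kp p := by
  have h2 : (2 : ℝ) ≤ p := by exact_mod_cast hp
  have h3 : (0 : ℝ) < (p : ℝ) - 1 := by linarith
  unfold kp
  rw [one_le_div h3]; linarith

theorem kp_le (p : ℕ) (hp : 2 ≤ p) : kp p ≤ 2 := by
  have h2 : (2 : ℝ) ≤ p := by exact_mod_cast hp
  have h3 : (0 : ℝ) < (p : ℝ) - 1 := by linarith
  unfold kp
  rw [div_le_iff₀ h3]; linarith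

/-- the majorants after one modification -/
noncomputable def GG1 (j : J) (pr : ι → ℕ) (Λ : ℝ) (GG : J → Finset ι → ℝ) (l : J)
    (a : Finset ι) : ℝ :=
  (if l = j then (if lg pr a ≤ Λ then 1 else 0) else GG l a) * ∏ t ∈ a, kp (pr t)

theorem GG1_nonneg (j : J) (pr : ι → ℕ) (hp : ∀ t, 2 ≤ pr t) (Λ : ℝ) (GG : J → Finset ι → ℝ)
    (hGG : ∀ l a, 0 ≤ GG l a) (l : J) (a : Finset ι) : 0 ≤ GG1 j pr Λ GG l a := by
  unfold GG1
  apply mul_nonneg
  · split_ifs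
    · norm_num
    · norm_num
    · exact hGG l a
  · exact Finset.prod_nonneg fun t _ => zero_le_one.trans (kp_ge (pr t) (hp t))

theorem prod_GG1 (j : J) (pr : ι → ℕ) (Λ : ℝ) (GG : J → Finset ι → ℝ) (σ : ι → Option J) :
    ∏ l, GG1 j pr Λ GG l (fib σ l) =
      mulc pr (fun p => (p : ℝ) / ((p : ℝ) - 1)) σ *
        ((∏ l ∈ univ.erase j, GG l (fib σ l)) * uj j pr Λ σ) := by
  have e1 : ∏ l, GG1 j pr Λ GG l (fib σ l) =
      (∏ l, (if l = j then (if lg pr (fib σ l) ≤ Λ then (1 : ℝ) else 0) else GG l (fib σ l))) *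
        ∏ l, ∏ t ∈ fib σ l, kp (pr t) := by
    rw [← Finset.prod_mul_distrib]
    rfl
  rw [e1, mulc_eq]
  have e2 : ∏ l, (if l = j then (if lg pr (fib σ l) ≤ Λ then (1 : ℝ) else 0)
      else GG l (fib σ l)) = (∏ l ∈ univ.erase j, GG l (fib σ l)) * uj j pr Λ σ := by
    rw [← Finset.mul_prod_erase univ _ (Finset.mem_univ j), if_pos rfl, mul_comm]
    congr 1
    refine Finset.prod_congr rfl fun l hl => ?_
    rw [if_neg (Finset.ne_of_mem_erase hl)]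
  rw [e2]
  unfold kp
  ring

/-- the one-dimensional constant of a modification -/
noncomputable def cst (j : J) (pr : ι → ℕ) (Λ : ℝ) (GG : J → Finset ι → ℝ) : ℝ :=
  (∑ a : Finset ι, GG j a * ∏ t ∈ a, (1 / ((pr t : ℝ) - 1))) /
        (∑ a : Finset ι, (if lg pr a ≤ Λ then (1 : ℝ) else 0) * ∏ t ∈ a, (1 / ((pr t : ℝ) - 1)))

theorem ymod_le1 (j : J) (pr : ι → ℕ) (hp : ∀ t, 2 ≤ pr t) (Λ : ℝ) (hΛ : 0 ≤ Λ)
    (y : (ι → Option J) → ℝ) (GG : J → Finset ι → ℝ) (hGG : ∀ l a, 0 ≤ GG l a)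
    (hy : ∀ τ, y τ ≤ ∏ l, GG l (fib τ l)) (σ : ι → Option J) :
    ymod j pr (uj j pr Λ) y σ ≤ cst j pr Λ GG * ∏ l, GG1 j pr Λ GG l (fib σ l) := by
  rw [prod_GG1]
  exact ymod_le j pr hp Λ hΛ y GG hGG hy σ

theorem cst_nonneg (j : J) (pr : ι → ℕ) (hp : ∀ t, 2 ≤ pr t) (Λ : ℝ) (GG : J → Finset ι → ℝ)
    (hGG : ∀ l a, 0 ≤ GG l a) : 0 ≤ cst j pr Λ GG := by
  have hw : ∀ a : Finset ι, 0 ≤ ∏ t ∈ a, (1 / ((pr t : ℝ) - 1)) := fun a =>
    Finset.prod_nonneg fun t _ => by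
      have : (2 : ℝ) ≤ pr t := by exact_mod_cast hp t
      have : (0 : ℝ) < (pr t : ℝ) - 1 := by linarith
      positivity
  unfold cst
  apply div_nonneg
  · exact Finset.sum_nonneg fun a _ => mul_nonneg (hGG j a) (hw a)
  · exact Finset.sum_nonneg fun a _ => mul_nonneg (by split_ifs <;> norm_num) (hw a)

/-- scaling of the weights -/
theorem ymod_smul (j : J) (pr : ι → ℕ) (u y : (ι → Option J) → ℝ) (c : ℝ) (σ : ι → Option J) :
    ymod j pr u (fun τ => c * y τ) σ = c * ymod j pr u y σ := by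
  have h : YY j pr (fun τ => c * y τ) (era j σ) = c * YY j pr y (era j σ) := by
    unfold YY
    rw [Finset.mul_sum]
    exact Finset.sum_congr rfl fun τ _ => by ring
  unfold ymod
  rw [h]
  ring

theorem ymod_mono (j : J) (pr : ι → ℕ) (hp : ∀ t, 2 ≤ pr t) (u y y' : (ι → Option J) → ℝ)
    (hu : ∀ σ, 0 ≤ u σ) (h : ∀ σ, y σ ≤ y' σ) (σ : ι → Option J) :
    ymod j pr u y σ ≤ ymod j pr u y' σ := by
  unfold ymod
  apply mul_le_mul_of_nonneg_right _ (hu σ)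
  apply div_le_div_of_nonneg_right _ (YY_nonneg j pr hp u hu _)
  unfold YY
  apply Finset.sum_le_sum
  intro τ _
  exact mul_le_mul_of_nonneg_right (h τ)
    (Finset.prod_nonneg fun t _ => psiL_nonneg j (pr t) (hp t) _ _)

/-- weights modified in two coordinates -/
noncomputable def ymod2 (i j : J) (pr : ι → ℕ) (Λ : ℝ) (y : (ι → Option J) → ℝ) :
    (ι → Option J) → ℝ :=
  ymod i pr (uj i pr Λ) (ymod j pr (uj j pr Λ) y)

theorem ymod2_nonneg (i j : J) (pr : ι → ℕ) (hp : ∀ t, 2 ≤ pr t) (Λ : ℝ)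
    (y : (ι → Option J) → ℝ) (hy : ∀ σ, 0 ≤ y σ) (σ : ι → Option J) :
    0 ≤ ymod2 i j pr Λ y σ :=
  ymod_nonneg i pr hp _ _ (uj_nonneg i pr Λ)
    (fun τ => ymod_nonneg j pr hp _ _ (uj_nonneg j pr Λ) hy τ) σ

theorem ymod2_le (i j : J) (pr : ι → ℕ) (hp : ∀ t, 2 ≤ pr t) (Λ : ℝ) (hΛ : 0 ≤ Λ)
    (y : (ι → Option J) → ℝ) (GG : J → Finset ι → ℝ) (hGG : ∀ l a, 0 ≤ GG l a)
    (hy : ∀ τ, y τ ≤ ∏ l, GG l (fib τ l)) (σ : ι → Option J) :
    ymod2 i j pr Λ y σ ≤ (cst j pr Λ GG * cst i pr Λ (GG1 j pr Λ GG)) *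
      ∏ l, GG1 i pr Λ (GG1 j pr Λ GG) l (fib σ l) := by
  have hc := cst_nonneg j pr hp Λ GG hGG
  have hG1 := GG1_nonneg j pr hp Λ GG hGG
  have h1 := ymod_mono i pr hp (uj i pr Λ) (ymod j pr (uj j pr Λ) y)
    (fun τ => cst j pr Λ GG * ∏ l, GG1 j pr Λ GG l (fib τ l)) (uj_nonneg i pr Λ)
    (fun τ => ymod_le1 j pr hp Λ hΛ y GG hGG hy τ) σ
  have h2 := ymod_le1 i pr hp Λ hΛ (fun τ => ∏ l, GG1 j pr Λ GG l (fib τ l))
    (GG1 j pr Λ GG) hG1 (fun τ => le_rfl) σ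
  calc ymod2 i j pr Λ y σ ≤ ymod i pr (uj i pr Λ)
        (fun τ => cst j pr Λ GG * ∏ l, GG1 j pr Λ GG l (fib τ l)) σ := h1
    _ = cst j pr Λ GG * ymod i pr (uj i pr Λ) (fun τ => ∏ l, GG1 j pr Λ GG l (fib τ l)) σ :=
        ymod_smul i pr (uj i pr Λ) (fun τ => ∏ l, GG1 j pr Λ GG l (fib τ l)) (cst j pr Λ GG) σ
    _ ≤ cst j pr Λ GG * (cst i pr Λ (GG1 j pr Λ GG) *
        ∏ l, GG1 i pr Λ (GG1 j pr Λ GG) l (fib σ l)) := mul_le_mul_of_nonneg_left h2 hc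
    _ = _ := by ring

theorem ymod2_supp (i j : J) (pr : ι → ℕ) (Λ R : ℝ) (y : (ι → Option J) → ℝ)
    (hy : ∀ σ, y σ ≠ 0 → lgt pr σ ≤ R) (σ : ι → Option J)
    (hσ : ymod2 i j pr Λ y σ ≠ 0) : lgt pr σ ≤ R + Λ + Λ :=
  ymod_supp i pr Λ (R + Λ) _ (fun τ hτ => ymod_supp j pr Λ R y hy τ hτ) σ hσ

theorem sum_ymod2 (i j : J) (pr : ι → ℕ) (hp : ∀ t, 2 ≤ pr t) (Λ : ℝ) (hΛ : 0 ≤ Λ)
    (L : J → ℕ → ℕ) (n : ℕ) (hi : ∀ t, ¬ pr t ∣ L i n) (hj : ∀ t, ¬ pr t ∣ L j n)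
    (y : (ι → Option J) → ℝ) :
    ∑ σ, cw pr (ymod2 i j pr Λ y) σ * hN L pr σ n = ∑ σ, cw pr y σ * hN L pr σ n := by
  unfold ymod2
  rw [sum_ymod0 i pr hp L n hi _ _ (fun ρ hρ => (YY_uj_pos i pr hp Λ hΛ ρ hρ).ne'),
    sum_ymod0 j pr hp L n hj _ _ (fun ρ hρ => (YY_uj_pos j pr hp Λ hΛ ρ hρ).ne')]

end pa

end Pool.Agent.H361R2.Inf
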