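import Mathlib
import Pool.Agent.H361R2.InfMarg

/-! Sieve upper bound for general weights. -/

namespace Pool.Agent.H361R2.Inf

open Finset
open Pool.Agent.H410R2
open Pool.Agent.H362R2.CM

section pa
variable {ι J : Type} [Fintype ι] [DecidableEq ι] [Fintype J] [DecidableEq J]

theorem rankinC (pr : ι → ℕ) (hp : ∀ t, 2 ≤ pr t) (f : ℕ → ℝ) (C : ℝ)
    (hf : ∀ t, 0 ≤ f (pr t)) (hfC : ∀ t, f (pr t) ≤ C) (R' : ℝ) :
    ∑ σ ∈ univ.filter (fun σ : ι → Option J => lgt pr σ ≤ R'), mulc pr f σ ≤
      Real.exp R' * ∏ t, (1 + C * (Fintype.card J : ℝ) / (pr t : ℝ)) := by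
  have hp0 : ∀ t, (0 : ℝ) < (pr t : ℝ) := fun t => by
    have : (2 : ℝ) ≤ pr t := by exact_mod_cast hp t
    linarith
  have hm0 : ∀ σ : ι → Option J, 0 ≤ mulc pr f σ := by
    intro σ
    unfold mulc
    apply Finset.prod_nonneg
    intro t _
    split_ifs
    · norm_num
    · exact hf t
  calc ∑ σ ∈ univ.filter (fun σ : ι → Option J => lgt pr σ ≤ R'), mulc pr f σ
      ≤ ∑ σ : ι → Option J, Real.exp (R' - lgt pr σ) * mulc pr f σ := by
        rw [Finset.sum_filter]
        apply Finset.sum_le_sum
        intro σ _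
        split_ifs with h
        · have h1 : 1 ≤ Real.exp (R' - lgt pr σ) := Real.one_le_exp (by linarith)
          nlinarith [hm0 σ]
        · exact mul_nonneg (Real.exp_pos _).le (hm0 σ)
    _ = Real.exp R' * ∑ σ : ι → Option J, ∏ t, (if σ t = none then 1 else
          f (pr t) / (pr t : ℝ)) := by
        rw [Finset.mul_sum]
        refine Finset.sum_congr rfl fun σ _ => ?_
        rw [Real.exp_sub, div_eq_mul_inv, mul_assoc]
        congr 1
        rw [← Real.exp_neg, lgt, ← Finset.sum_neg_distrib, Real.exp_sum, mulc,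
          ← Finset.prod_mul_distrib]
        refine Finset.prod_congr rfl fun t _ => ?_
        by_cases h : σ t = none
        · simp [h]
        · simp only [h, if_false]
          rw [Real.exp_neg, Real.exp_log (hp0 t)]
          have := (hp0 t).ne'
          field_simp
    _ = Real.exp R' * ∏ t, (1 + (Fintype.card J : ℝ) * (f (pr t) / (pr t : ℝ))) := by
        rw [sum_prod_local (fun t v => if v = none then 1 else f (pr t) / (pr t : ℝ))]
        congr 1
        refine Finset.prod_congr rfl fun t _ => ?_
        rw [Fintype.sum_option]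
        simp [Finset.card_univ]
    _ ≤ _ := by
        apply mul_le_mul_of_nonneg_left _ (Real.exp_pos _).le
        apply Finset.prod_le_prod
        · intro t _
          have := hp0 t
          have := hf t
          positivity
        · intro t _
          have h0 := hp0 t
          have h1 : f (pr t) / (pr t : ℝ) ≤ C / (pr t : ℝ) := by
            have := hfC t
            gcongr
          have h3 := mul_le_mul_of_nonneg_left h1 (Nat.cast_nonneg (α := ℝ) (Fintype.card J))
          have h4 : (Fintype.card J : ℝ) * (C / (pr t : ℝ)) =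
              C * (Fintype.card J : ℝ) / (pr t : ℝ) := by ring
          linarith

/-- upper bound for the sieve sum with weights dominated by a product, general version -/
theorem S1_leG (hT1 : S1Upper) (pr : ι → ℕ) (L : J → ℕ → ℕ) (m v : ℕ) (hm : 1 ≤ m)
    (hs : SieveData ι J pr L m) (y : (ι → Option J) → ℝ) (GG : J → Finset ι → ℝ)
    (Λ R' : ℝ) (hΛ : 0 ≤ Λ) (hGG0 : ∀ j a, 0 ≤ GG j a)
    (hGG1 : ∀ j a, GG j a ≤ ∏ t ∈ a, kp (pr t) ^ 2)
    (hy : ∀ σ, |y σ| ≤ Λ * ∏ j, GG j (fib σ j))
    (hR : ∀ σ, y σ ≠ 0 → lgt pr σ ≤ R') (x : ℝ) (hx : 1 ≤ x) :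
    ∑ n ∈ (Icc 1 ⌊x⌋₊).filter (fun n => n ≡ v [MOD m]),
        Real.log (x / n) * (∑ σ, cw pr y σ * hN L pr σ n) ^ 2 ≤
      Λ ^ 2 * (x / m * ∏ j, ∑ a : Finset ι, (∏ t ∈ a, (pr t : ℝ) / ((pr t : ℝ) - 1) ^ 2) * GG j a ^ 2 +
        (Real.log x + 1) *
          (Real.exp R' * ∏ t, (1 + 12 * (Fintype.card J : ℝ) / (pr t : ℝ))) ^ 2) := by
  have hp : ∀ t, 2 ≤ pr t := fun t => (hs.prime t).two_le
  have hp2 : ∀ t, (2 : ℝ) ≤ (pr t : ℝ) := fun t => by exact_mod_cast hp t
  have hp1 : ∀ t, (0 : ℝ) < (pr t : ℝ) - 1 := by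
    intro t
    have := hp2 t
    linarith
  have hp0 : ∀ t, (0 : ℝ) < (pr t : ℝ) := fun t => by have := hp1 t; linarith
  refine le_trans (hT1.use pr L m v hm hs (cw pr y) x hx) ?_
  have hlog : 0 ≤ Real.log x := Real.log_nonneg hx
  have hx0 : 0 ≤ x / m := by positivity
  -- first term
  have h1 : ∑ σ, cw pr y σ ^ 2 * mulc pr (fun p => (p : ℝ)) σ ≤
      Λ ^ 2 * ∏ j, ∑ a : Finset ι, (∏ t ∈ a, (pr t : ℝ) / ((pr t : ℝ) - 1) ^ 2) * GG j a ^ 2 := by
    calc ∑ σ, cw pr y σ ^ 2 * mulc pr (fun p => (p : ℝ)) σ
        ≤ ∑ σ : ι → Option J, Λ ^ 2 * ∏ j, ((∏ t ∈ fib σ j, (pr t : ℝ) / ((pr t : ℝ) - 1) ^ 2) *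
            GG j (fib σ j) ^ 2) := by
          apply Finset.sum_le_sum
          intro σ _
          rw [Finset.prod_mul_distrib, ← sq_abs (cw pr y σ), abs_cw pr hp, mul_pow]
          have e1 : (mulc pr (fun p => 1 / ((p : ℝ) - 1)) σ) ^ 2 * mulc pr (fun p => (p : ℝ)) σ =
              ∏ j, ∏ t ∈ fib σ j, (pr t : ℝ) / ((pr t : ℝ) - 1) ^ 2 := by
            rw [prod_color (fun t => (pr t : ℝ) / ((pr t : ℝ) - 1) ^ 2)]
            unfold mulc
            rw [← Finset.prod_pow, ← Finset.prod_mul_distrib]
            refine Finset.prod_congr rfl fun t _ => ?_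
            by_cases h : σ t = none
            · simp [h]
            · simp only [h, if_false]
              have := (hp1 t).ne'
              field_simp
          have e2 : |y σ| ^ 2 ≤ Λ ^ 2 * ∏ j, GG j (fib σ j) ^ 2 := by
            rw [Finset.prod_pow, ← mul_pow]
            exact pow_le_pow_left₀ (abs_nonneg _) (hy σ) 2
          have e3 : 0 ≤ ∏ j, ∏ t ∈ fib σ j, (pr t : ℝ) / ((pr t : ℝ) - 1) ^ 2 :=
            Finset.prod_nonneg fun j _ => Finset.prod_nonneg fun t _ => by
              have := hp1 t
              have := hp0 t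
              positivity
          calc _ = ((mulc pr (fun p => 1 / ((p : ℝ) - 1)) σ) ^ 2 *
                mulc pr (fun p => (p : ℝ)) σ) * |y σ| ^ 2 := by ring
            _ ≤ (∏ j, ∏ t ∈ fib σ j, (pr t : ℝ) / ((pr t : ℝ) - 1) ^ 2) *
                (Λ ^ 2 * ∏ j, GG j (fib σ j) ^ 2) := by
                rw [e1]
                exact mul_le_mul_of_nonneg_left e2 e3
            _ = _ := by ring
      _ = Λ ^ 2 * ∑ σ : ι → Option J, ∏ j, ((∏ t ∈ fib σ j, (pr t : ℝ) / ((pr t : ℝ) - 1) ^ 2) *
            GG j (fib σ j) ^ 2) := by rw [Finset.mul_sum]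
      _ ≤ _ := by
          apply mul_le_mul_of_nonneg_left _ (sq_nonneg _)
          apply sum_tuple_le (fun j a => (∏ t ∈ a, (pr t : ℝ) / ((pr t : ℝ) - 1) ^ 2) * GG j a ^ 2)
          intro j a
          apply mul_nonneg _ (sq_nonneg _)
          exact Finset.prod_nonneg fun t _ => by
              have := hp1 t
              have := hp0 t
              positivity
  have h2 : ∑ σ, |cw pr y σ| * mulc pr (fun p => (p : ℝ) + 1) σ ≤
      Λ * (Real.exp R' * ∏ t, (1 + 12 * (Fintype.card J : ℝ) / (pr t : ℝ))) := by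
    calc ∑ σ, |cw pr y σ| * mulc pr (fun p => (p : ℝ) + 1) σ
        ≤ ∑ σ : ι → Option J, (if lgt pr σ ≤ R' then
            Λ * mulc pr (fun p => ((p : ℝ) + 1) / ((p : ℝ) - 1) * kp p ^ 2) σ else 0) := by
          apply Finset.sum_le_sum
          intro σ _
          rw [abs_cw pr hp]
          have e1 : mulc pr (fun p => 1 / ((p : ℝ) - 1)) σ * mulc pr (fun p => (p : ℝ) + 1) σ *
              mulc pr (fun p => kp p ^ 2) σ =
              mulc pr (fun p => ((p : ℝ) + 1) / ((p : ℝ) - 1) * kp p ^ 2) σ := by
            unfold mulc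
            rw [← Finset.prod_mul_distrib, ← Finset.prod_mul_distrib]
            refine Finset.prod_congr rfl fun t _ => ?_
            by_cases h : σ t = none
            · simp [h]
            · simp only [h, if_false]
              ring
          have e0 : 0 ≤ mulc pr (fun p => 1 / ((p : ℝ) - 1)) σ *
              mulc pr (fun p => (p : ℝ) + 1) σ := by
            unfold mulc
            apply mul_nonneg
            · apply Finset.prod_nonneg
              intro t _
              split_ifs
              · norm_num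
              · have := hp1 t
                positivity
            · apply Finset.prod_nonneg
              intro t _
              split_ifs
              · norm_num
              · have := hp0 t
                positivity
          have e00 : 0 ≤ mulc pr (fun p => ((p : ℝ) + 1) / ((p : ℝ) - 1) * kp p ^ 2) σ := by
            unfold mulc
            apply Finset.prod_nonneg
            intro t _
            split_ifs
            · norm_num
            · have := hp1 t
              have := hp0 t
              positivity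
          by_cases hy0 : y σ = 0
          · rw [hy0]
            simp only [abs_zero, mul_zero, zero_mul]
            split_ifs
            · positivity
            · exact le_rfl
          · rw [if_pos (hR σ hy0)]
            have e2 : |y σ| ≤ Λ * mulc pr (fun p => kp p ^ 2) σ := by
              refine le_trans (hy σ) ?_
              apply mul_le_mul_of_nonneg_left _ hΛ
              rw [mulc_eq]
              exact Finset.prod_le_prod (fun j _ => hGG0 j _) (fun j _ => hGG1 j _)
            calc _ = (mulc pr (fun p => 1 / ((p : ℝ) - 1)) σ *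
                  mulc pr (fun p => (p : ℝ) + 1) σ) * |y σ| := by ring
              _ ≤ (mulc pr (fun p => 1 / ((p : ℝ) - 1)) σ *
                  mulc pr (fun p => (p : ℝ) + 1) σ) * (Λ * mulc pr (fun p => kp p ^ 2) σ) :=
                mul_le_mul_of_nonneg_left e2 e0
              _ = Λ * (mulc pr (fun p => 1 / ((p : ℝ) - 1)) σ *
                  mulc pr (fun p => (p : ℝ) + 1) σ * mulc pr (fun p => kp p ^ 2) σ) := by ring
              _ = _ := by rw [e1]
      _ = Λ * ∑ σ ∈ univ.filter (fun σ : ι → Option J => lgt pr σ ≤ R'),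
          mulc pr (fun p => ((p : ℝ) + 1) / ((p : ℝ) - 1) * kp p ^ 2) σ := by
          rw [Finset.mul_sum, Finset.sum_filter]
      _ ≤ _ := by
          apply mul_le_mul_of_nonneg_left _ hΛ
          apply rankinC pr hp
          · intro t
            have := hp1 t
            have := hp0 t
            positivity
          · intro t
            have h1 := hp1 t
            have h2 := hp2 t
            have a1 : ((pr t : ℝ) + 1) / ((pr t : ℝ) - 1) ≤ 3 := by
              rw [div_le_iff₀ h1]; linarith
            have a2 : kp (pr t) ^ 2 ≤ 4 := by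
              have := kp_le (pr t) (hp t)
              have := kp_ge (pr t) (hp t)
              nlinarith
            have a3 : 0 ≤ ((pr t : ℝ) + 1) / ((pr t : ℝ) - 1) := by positivity
            calc ((pr t : ℝ) + 1) / ((pr t : ℝ) - 1) * kp (pr t) ^ 2 ≤ 3 * 4 := by gcongr
              _ = 12 := by norm_num
  have h3 : 0 ≤ ∑ σ, |cw pr y σ| * mulc pr (fun p => (p : ℝ) + 1) σ := by
    apply Finset.sum_nonneg
    intro σ _
    apply mul_nonneg (abs_nonneg _)
    unfold mulc
    apply Finset.prod_nonneg
    intro t _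
    split_ifs
    · norm_num
    · have := hp0 t
      positivity
  calc x / m * ∑ σ, cw pr y σ ^ 2 * mulc pr (fun p => (p : ℝ)) σ +
        (Real.log x + 1) * (∑ σ, |cw pr y σ| * mulc pr (fun p => (p : ℝ) + 1) σ) ^ 2
      ≤ x / m * (Λ ^ 2 * ∏ j, ∑ a : Finset ι, (∏ t ∈ a, (pr t : ℝ) / ((pr t : ℝ) - 1) ^ 2) *
          GG j a ^ 2) + (Real.log x + 1) * (Λ * (Real.exp R' *
            ∏ t, (1 + 12 * (Fintype.card J : ℝ) / (pr t : ℝ)))) ^ 2 := by
        gcongr
    _ = _ := by ring

end pa

end Pool.Agent.H361R2.Inf
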