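import Mathlib
import Pool.Agent.H361R2.InfFC
import Pool.Agent.H361R2.InfPair1

/-! The sieve upper bound for pairs of primes: main step. -/

namespace Pool.Agent.H361R2.Inf

open Finset Filter Topology
open Pool.Agent.H410R2 hiding GP GP_prof GP_cut_some GP_cut_none GP_lip gg_pos gg_le_one gg_anti ee_bound ee_nonneg gg_lip LB_gg LB_ee Sums exists_sums yx wx wxi Br sum_GP_none sum_GP_some sum_GP_some_ee sum_GP_some_one sum_GPr_none sum_GPr_some S1_final QI_final S2_final w_abs_le wmax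
open GM (SPar)

variable {k : ℕ}

/-- the fibre majorants -/
noncomputable def GX (B : BPar k) (D : ℕ) (x : ℝ) (l : Option (Fin k)) (a : Finset (Ix D x)) : ℝ :=
  GPb B (Lx x) (Lx x / 48) l (lg (prx D x) a)

theorem GX_nonneg (B : BPar k) (D : ℕ) (x : ℝ) (hx : 1 < x) (l : Option (Fin k))
    (a : Finset (Ix D x)) : 0 ≤ GX B D x l a := by
  have hL := Lx_pos hx
  exact (GPb_prof B (Lx x) (Lx x / 48) hL (by positivity)).nonneg l _ (lg_nonneg _ _)

theorem GX_le_one (B : BPar k) (D : ℕ) (x : ℝ) (hx : 1 < x) (l : Option (Fin k))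
    (a : Finset (Ix D x)) : GX B D x l a ≤ 1 := by
  have hL := Lx_pos hx
  exact (GPb_prof B (Lx x) (Lx x / 48) hL (by positivity)).le_one l _ (lg_nonneg _ _)

theorem sum_ind (D : ℕ) (x : ℝ) (h : ℕ → ℝ) :
    ∑ a : Finset (Ix D x), (∏ t ∈ a, h (prx D x t)) *
      (if lg (prx D x) a ≤ Lx x / 2 then (1 : ℝ) else 0) =
      SS (Px D x) h (1 / 2) (Lx x) (fun _ => 1) := by
  rw [SS_eq _ _ _ _ _ (fun p hp => (Px_prime D x p hp).1.pos)]
  refine Finset.sum_congr rfl fun a _ => ?_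
  congr 1
  have : 1 / 2 * Lx x = Lx x / 2 := by ring
  rw [this]

theorem hr_eq (r p : ℕ) (hp : 2 ≤ p) : (p : ℝ) / ((p : ℝ) - 1) ^ 2 * kp p ^ r = hr (r + 2) p := by
  have h2 : (2 : ℝ) ≤ p := by exact_mod_cast hp
  have h1 : (p : ℝ) - 1 ≠ 0 := by linarith
  have h0 : (p : ℝ) ≠ 0 := by linarith
  unfold hr kp
  rw [pow_add]
  field_simp

theorem h1_kp (p : ℕ) : kp p * (1 / ((p : ℝ) - 1)) = h1 p := by
  unfold kp h1
  rw [div_mul_div_comm, mul_one, sq]

/-- bounds for the constants of the modifications -/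
theorem cst_le (B : BPar k) {D : ℕ} (hB : 0 < BD D) (ε : ℝ) (hε1 : ε < 1 / 10)
    (K : ℕ) (x : ℝ) (hx : 1 < x) (hS : SumsB B D ε K (Lx x) (Px D x)) (i j : Fin k)
    (hij : i ≠ j) :
    cst (some j) (prx D x) (Lx x / 2) (GX B D x) ≤ ((B.Q j).I1 + ε) / (1 / 2 - ε) ∧
    cst (some i) (prx D x) (Lx x / 2) (GG1 (some j) (prx D x) (Lx x / 2) (GX B D x)) ≤
      ((B.Q i).I1 + ε) / (1 / 2 - ε) := by
  have hL := Lx_pos hx
  have hp0 : ∀ p ∈ Px D x, 0 < p := fun p hp => (Px_prime D x p hp).1.pos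
  have hBL : 0 < BD D * Lx x := by positivity
  have hden : BD D * Lx x * (1 / 2 - ε) ≤ ∑ a : Finset (Ix D x),
      (if lg (prx D x) a ≤ Lx x / 2 then (1 : ℝ) else 0) *
        ∏ t ∈ a, (1 / ((prx D x t : ℝ) - 1)) := by
    have e : ∑ a : Finset (Ix D x), (if lg (prx D x) a ≤ Lx x / 2 then (1 : ℝ) else 0) *
        ∏ t ∈ a, (1 / ((prx D x t : ℝ) - 1)) = SS (Px D x) h0 (1 / 2) (Lx x) (fun _ => 1) := by
      rw [← sum_ind D x h0]
      refine Finset.sum_congr rfl fun a _ => ?_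
      rw [mul_comm]
      rfl
    rw [e]
    have := (abs_le.1 (hS.o1 0)).1
    simp only [hs, Matrix.cons_val_zero] at this
    linarith
  have hε2 : 0 < 1 / 2 - ε := by linarith
  have key : ∀ (N : ℝ) (I : ℝ), 0 ≤ N → N ≤ BD D * Lx x * (I + ε) →
      N / (∑ a : Finset (Ix D x), (if lg (prx D x) a ≤ Lx x / 2 then (1 : ℝ) else 0) *
        ∏ t ∈ a, (1 / ((prx D x t : ℝ) - 1))) ≤ (I + ε) / (1 / 2 - ε) := by
    intro N I hN0 hN
    have hd : 0 < BD D * Lx x * (1 / 2 - ε) := by positivity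
    calc N / (∑ a : Finset (Ix D x), (if lg (prx D x) a ≤ Lx x / 2 then (1 : ℝ) else 0) *
        ∏ t ∈ a, (1 / ((prx D x t : ℝ) - 1))) ≤ N / (BD D * Lx x * (1 / 2 - ε)) := by
          gcongr
      _ ≤ (BD D * Lx x * (I + ε)) / (BD D * Lx x * (1 / 2 - ε)) := by gcongr
      _ = _ := mul_div_mul_left _ _ hBL.ne'
  have hgg : ∀ i : Fin k, ∀ t : ℝ, 0 ≤ t → 0 ≤ (B.Q i).gg t := fun i t ht =>
    (GM.gg_pos (B.Q i) ht).le
  constructor
  · unfold cst
    have e : ∑ a : Finset (Ix D x), GX B D x (some j) a * ∏ t ∈ a, (1 / ((prx D x t : ℝ) - 1)) =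
        SS (Px D x) h0 (1 / 10) (Lx x) (B.Q j).gg := sum_GPb_some_one B D x j h0
    rw [e]
    apply key
    · apply SS_nonneg _ _ _ _ _ _ hp0 hL (hgg j)
      intro p hp
      have := (Px_prime D x p hp).1.two_le
      have h2 : (2 : ℝ) ≤ p := by exact_mod_cast this
      unfold h0
      have : (0 : ℝ) < (p : ℝ) - 1 := by linarith
      positivity
    · have := (abs_le.1 (hS.s1 0 j)).2
      simp only [hs, Matrix.cons_val_zero] at this
      linarith
  · unfold cst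
    have e : ∑ a : Finset (Ix D x), GG1 (some j) (prx D x) (Lx x / 2) (GX B D x) (some i) a *
        ∏ t ∈ a, (1 / ((prx D x t : ℝ) - 1)) =
        SS (Px D x) h1 (1 / 10) (Lx x) (B.Q i).gg := by
      rw [← sum_GPb_some_one B D x i h1]
      refine Finset.sum_congr rfl fun a _ => ?_
      unfold GG1
      rw [if_neg (by simpa using hij), mul_assoc, ← Finset.prod_mul_distrib]
      congr 1
      exact Finset.prod_congr rfl fun t _ => h1_kp (prx D x t)
    rw [e]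
    apply key
    · apply SS_nonneg _ _ _ _ _ _ hp0 hL (hgg i)
      intro p hp
      unfold h1
      positivity
    · have := (abs_le.1 (hS.s1 1 i)).2
      simp only [hs, Matrix.cons_val_one, Matrix.cons_val_zero] at this
      linarith

/-- product of the one-dimensional sums -/
theorem prod_sums (B : BPar k) {D : ℕ} (hB : 0 < BD D) (ε : ℝ)
    (K : ℕ) (x : ℝ) (hx : 1 < x) (hS : SumsB B D ε K (Lx x) (Px D x)) (i j : Fin k)
    (hij : i ≠ j) :
    ∏ l : Option (Fin k), ∑ a : Finset (Ix D x),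
      (∏ t ∈ a, (prx D x t : ℝ) / ((prx D x t : ℝ) - 1) ^ 2) *
        GG1 (some i) (prx D x) (Lx x / 2) (GG1 (some j) (prx D x) (Lx x / 2) (GX B D x)) l a ^ 2 ≤
      (BD D * (Lx x / 48) * (1 / 3 + ε)) * ((BD D * Lx x * (1 / 2 + ε)) *
        ((BD D * Lx x * (1 / 2 + ε)) * ∏ l ∈ (univ.erase i).erase j,
          (BD D * Lx x * ((B.Q l).I2 + ε)))) := by
  have hL := Lx_pos hx
  have hL0 : 0 < Lx x / 48 := by positivity
  have hp0 : ∀ p ∈ Px D x, 0 < p := fun p hp => (Px_prime D x p hp).1.pos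
  have hp2 : ∀ t : Ix D x, 2 ≤ prx D x t := fun t => (Px_prime D x t.1 t.2).1.two_le
  have hhr : ∀ r, ∀ p ∈ Px D x, 0 ≤ hr r p := fun r p hp => hr_nonneg r p (Px_prime D x p hp).1
  rw [Fintype.prod_option]
  -- the colour none
  have en : ∑ a : Finset (Ix D x), (∏ t ∈ a, (prx D x t : ℝ) / ((prx D x t : ℝ) - 1) ^ 2) *
        GG1 (some i) (prx D x) (Lx x / 2) (GG1 (some j) (prx D x) (Lx x / 2) (GX B D x)) none a ^ 2
      = SS (Px D x) (hr 6) 1 (Lx x / 48) (fun t => (1 - t) ^ 2) := by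
    rw [← sum_GPb_none B D x (hr 6)]
    refine Finset.sum_congr rfl fun a _ => ?_
    unfold GG1
    rw [if_neg (by simp), if_neg (by simp)]
    have : ∏ t ∈ a, hr 6 (prx D x t) = (∏ t ∈ a, (prx D x t : ℝ) / ((prx D x t : ℝ) - 1) ^ 2) *
        (∏ t ∈ a, kp (prx D x t)) ^ 4 := by
      rw [← Finset.prod_pow, ← Finset.prod_mul_distrib]
      exact Finset.prod_congr rfl fun t _ => (hr_eq 4 _ (hp2 t)).symm
    rw [this]
    unfold GX
    ring
  have es : ∀ l : Fin k, l ≠ i → l ≠ j →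
      ∑ a : Finset (Ix D x), (∏ t ∈ a, (prx D x t : ℝ) / ((prx D x t : ℝ) - 1) ^ 2) *
        GG1 (some i) (prx D x) (Lx x / 2) (GG1 (some j) (prx D x) (Lx x / 2) (GX B D x))
          (some l) a ^ 2
      = SS (Px D x) (hr 6) (1 / 10) (Lx x) (fun t => (B.Q l).gg t ^ 2) := by
    intro l hli hlj
    rw [← sum_GPb_some B D x l (hr 6)]
    refine Finset.sum_congr rfl fun a _ => ?_
    unfold GG1
    rw [if_neg (by simpa using hli), if_neg (by simpa using hlj)]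
    have : ∏ t ∈ a, hr 6 (prx D x t) = (∏ t ∈ a, (prx D x t : ℝ) / ((prx D x t : ℝ) - 1) ^ 2) *
        (∏ t ∈ a, kp (prx D x t)) ^ 4 := by
      rw [← Finset.prod_pow, ← Finset.prod_mul_distrib]
      exact Finset.prod_congr rfl fun t _ => (hr_eq 4 _ (hp2 t)).symm
    rw [this]
    unfold GX
    ring
  have ei : ∑ a : Finset (Ix D x), (∏ t ∈ a, (prx D x t : ℝ) / ((prx D x t : ℝ) - 1) ^ 2) *
        GG1 (some i) (prx D x) (Lx x / 2) (GG1 (some j) (prx D x) (Lx x / 2) (GX B D x))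
          (some i) a ^ 2
      = SS (Px D x) (hr 4) (1 / 2) (Lx x) (fun _ => 1) := by
    rw [← sum_ind D x (hr 4)]
    refine Finset.sum_congr rfl fun a _ => ?_
    have : ∏ t ∈ a, hr 4 (prx D x t) = (∏ t ∈ a, (prx D x t : ℝ) / ((prx D x t : ℝ) - 1) ^ 2) *
        (∏ t ∈ a, kp (prx D x t)) ^ 2 := by
      rw [← Finset.prod_pow, ← Finset.prod_mul_distrib]
      exact Finset.prod_congr rfl fun t _ => (hr_eq 2 _ (hp2 t)).symm
    rw [this]
    conv_lhs => unfold GG1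
    rw [if_pos rfl]
    split_ifs <;> ring
  have ej : ∑ a : Finset (Ix D x), (∏ t ∈ a, (prx D x t : ℝ) / ((prx D x t : ℝ) - 1) ^ 2) *
        GG1 (some i) (prx D x) (Lx x / 2) (GG1 (some j) (prx D x) (Lx x / 2) (GX B D x))
          (some j) a ^ 2
      = SS (Px D x) (hr 6) (1 / 2) (Lx x) (fun _ => 1) := by
    rw [← sum_ind D x (hr 6)]
    refine Finset.sum_congr rfl fun a _ => ?_
    have : ∏ t ∈ a, hr 6 (prx D x t) = (∏ t ∈ a, (prx D x t : ℝ) / ((prx D x t : ℝ) - 1) ^ 2) *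
        (∏ t ∈ a, kp (prx D x t)) ^ 4 := by
      rw [← Finset.prod_pow, ← Finset.prod_mul_distrib]
      exact Finset.prod_congr rfl fun t _ => (hr_eq 4 _ (hp2 t)).symm
    rw [this]
    unfold GG1
    rw [if_neg (by simpa using hij.symm), if_pos rfl]
    split_ifs <;> ring
  rw [en, ← Finset.mul_prod_erase univ _ (Finset.mem_univ i), ei,
    ← Finset.mul_prod_erase (univ.erase i) _
      (Finset.mem_erase.2 ⟨hij.symm, Finset.mem_univ j⟩), ej]
  have er : ∏ l ∈ (univ.erase i).erase j, ∑ a : Finset (Ix D x),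
      (∏ t ∈ a, (prx D x t : ℝ) / ((prx D x t : ℝ) - 1) ^ 2) *
        GG1 (some i) (prx D x) (Lx x / 2) (GG1 (some j) (prx D x) (Lx x / 2) (GX B D x))
          (some l) a ^ 2 =
      ∏ l ∈ (univ.erase i).erase j,
        SS (Px D x) (hr 6) (1 / 10) (Lx x) (fun t => (B.Q l).gg t ^ 2) := by
    refine Finset.prod_congr rfl fun l hl => ?_
    have h1 := Finset.mem_erase.1 hl
    have h2 := Finset.mem_erase.1 h1.2
    exact es l h2.1 h1.1
  rw [er]
  have u0 : SS (Px D x) (hr 6) 1 (Lx x / 48) (fun t => (1 - t) ^ 2) ≤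
      BD D * (Lx x / 48) * (1 / 3 + ε) := by
    have := (abs_le.1 (hS.n2 4)).2
    simp only [hs, Matrix.cons_val] at this
    linarith
  have ui : SS (Px D x) (hr 4) (1 / 2) (Lx x) (fun _ => 1) ≤ BD D * Lx x * (1 / 2 + ε) := by
    have := (abs_le.1 (hS.o1 3)).2
    simp only [hs, Matrix.cons_val] at this
    linarith
  have uj' : SS (Px D x) (hr 6) (1 / 2) (Lx x) (fun _ => 1) ≤ BD D * Lx x * (1 / 2 + ε) := by
    have := (abs_le.1 (hS.o1 4)).2
    simp only [hs, Matrix.cons_val] at this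
    linarith
  have ul : ∀ l, SS (Px D x) (hr 6) (1 / 10) (Lx x) (fun t => (B.Q l).gg t ^ 2) ≤
      BD D * Lx x * ((B.Q l).I2 + ε) := by
    intro l
    have := (abs_le.1 (hS.s2 4 l)).2
    simp only [hs, Matrix.cons_val] at this
    linarith
  have n0 : 0 ≤ SS (Px D x) (hr 6) 1 (Lx x / 48) (fun t => (1 - t) ^ 2) :=
    SS_nonneg _ _ _ _ _ (hhr 6) hp0 hL0 fun t _ => sq_nonneg _
  have ni : 0 ≤ SS (Px D x) (hr 4) (1 / 2) (Lx x) (fun _ => 1) :=
    SS_nonneg _ _ _ _ _ (hhr 4) hp0 hL fun t _ => zero_le_one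
  have nj : 0 ≤ SS (Px D x) (hr 6) (1 / 2) (Lx x) (fun _ => 1) :=
    SS_nonneg _ _ _ _ _ (hhr 6) hp0 hL fun t _ => zero_le_one
  have nl : ∀ l, 0 ≤ SS (Px D x) (hr 6) (1 / 10) (Lx x) (fun t => (B.Q l).gg t ^ 2) := fun l =>
    SS_nonneg _ _ _ _ _ (hhr 6) hp0 hL fun t _ => sq_nonneg _
  have np : 0 ≤ ∏ l ∈ (univ.erase i).erase j,
      SS (Px D x) (hr 6) (1 / 10) (Lx x) (fun t => (B.Q l).gg t ^ 2) :=
    Finset.prod_nonneg fun l _ => nl l
  have up : ∏ l ∈ (univ.erase i).erase j,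
      SS (Px D x) (hr 6) (1 / 10) (Lx x) (fun t => (B.Q l).gg t ^ 2) ≤
      ∏ l ∈ (univ.erase i).erase j, (BD D * Lx x * ((B.Q l).I2 + ε)) :=
    Finset.prod_le_prod (fun l _ => nl l) (fun l _ => ul l)
  apply mul_le_mul u0 _ (by positivity) (n0.trans u0)
  apply mul_le_mul ui _ (by positivity) (ni.trans ui)
  exact mul_le_mul uj' up np (nj.trans uj')

theorem GG1_le {ι J : Type} [Fintype ι] [DecidableEq ι] [Fintype J] [DecidableEq J]
    (j : J) (pr : ι → ℕ) (hp : ∀ t, 2 ≤ pr t) (Λ : ℝ) (GG : J → Finset ι → ℝ) (l : J)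
    (a : Finset ι) (M : ℝ) (hM : 1 ≤ M) (h : GG l a ≤ M) :
    GG1 j pr Λ GG l a ≤ M * ∏ t ∈ a, kp (pr t) := by
  unfold GG1
  apply mul_le_mul_of_nonneg_right _
    (Finset.prod_nonneg fun t _ => zero_le_one.trans (kp_ge (pr t) (hp t)))
  split_ifs
  · exact hM
  · linarith
  · exact h

/-- error term of the pair bound -/
noncomputable def E2 (k : ℕ) (D : ℕ) (x : ℝ) : ℝ :=
  (Real.log x + 1) * (Real.exp (Lx x / 48 + Lx x + Lx x / 2 + Lx x / 2) *
    ∏ t : Ix D x, (1 + 12 * ((k + 1 : ℕ) : ℝ) / (prx D x t : ℝ))) ^ 2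

theorem pair_step (B : BPar k) (hT1 : S1Upper) {a b : Fin k → ℕ} {D v : ℕ} (hc : Ctx a b D v)
    (ε : ℝ) (hε : 0 < ε) (hε1 : ε < 1 / 10) (hI1 : ∀ i, 0 < (B.Q i).I1) (K : ℕ) (x : ℝ)
    (hx : 1 < x) (hS : SumsB B D ε K (Lx x) (Px D x)) (i j : Fin k) (hij : i ≠ j) :
    ∑ n ∈ (Icc 1 ⌊x⌋₊).filter (fun n => n ≡ v [MOD (WW D)]),
        Real.log (x / n) * (∑ σ, cw (prx D x)
          (ymod2 (some i) (some j) (prx D x) (Lx x / 2) (yxb B D x)) σ *
            hN (LF a b) (prx D x) σ n) ^ 2 ≤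
      Q0 k D x * ((1 / 3 + ε) * (∏ l ∈ (univ.erase i).erase j, ((B.Q l).I2 + ε)) *
          (((1 / 2 + ε) / (1 / 2 - ε) ^ 2) ^ 2 * ((B.Q i).I1 + ε) ^ 2 * ((B.Q j).I1 + ε) ^ 2)) +
      (((B.Q j).I1 + ε) / (1 / 2 - ε) * (((B.Q i).I1 + ε) / (1 / 2 - ε))) ^ 2 * E2 k D x := by
  have hL := Lx_pos hx
  have hL0 : 0 < Lx x / 48 := by positivity
  have hB := hc.BDpos
  have hWpos : (0 : ℝ) < WW D := by exact_mod_cast hc.hW
  have hprof := GPb_prof B (Lx x) (Lx x / 48) hL hL0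
  have hsd := hc.sd (Px D x) (Px_prime D x)
  have hp2 : ∀ t : Ix D x, 2 ≤ prx D x t := fun t => (Px_prime D x t.1 t.2).1.two_le
  have hGX := GX_nonneg B D x hx
  have hG1 := GG1_nonneg (some j) (prx D x) hp2 (Lx x / 2) (GX B D x) hGX
  have hG2 := GG1_nonneg (some i) (prx D x) hp2 (Lx x / 2)
    (GG1 (some j) (prx D x) (Lx x / 2) (GX B D x)) hG1
  have hcst := cst_le B hB ε hε1 K x hx hS i j hij
  have hc1 := cst_nonneg (some j) (prx D x) hp2 (Lx x / 2) (GX B D x) hGX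
  have hc2 := cst_nonneg (some i) (prx D x) hp2 (Lx x / 2)
    (GG1 (some j) (prx D x) (Lx x / 2) (GX B D x)) hG1
  have hε2 : 0 < 1 / 2 - ε := by linarith
  have hΛ0 : 0 ≤ ((B.Q j).I1 + ε) / (1 / 2 - ε) * (((B.Q i).I1 + ε) / (1 / 2 - ε)) := by
    have := hI1 i
    have := hI1 j
    positivity
  have hy0 : ∀ σ, 0 ≤ yxb B D x σ := fun σ => yw_nonneg _ _ _ hprof _ _
  have hkp1 : ∀ t : Ix D x, 1 ≤ kp (prx D x t) := fun t => kp_ge _ (hp2 t)
  have hkpp : ∀ a : Finset (Ix D x), 1 ≤ ∏ t ∈ a, kp (prx D x t) := fun a => by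
    calc (1 : ℝ) = ∏ t ∈ a, (1 : ℝ) := by simp
      _ ≤ ∏ t ∈ a, kp (prx D x t) :=
        Finset.prod_le_prod (fun _ _ => zero_le_one) (fun t _ => hkp1 t)
  have h := S1_leG hT1 (prx D x) (LF a b) (WW D) v hc.hW hsd
    (ymod2 (some i) (some j) (prx D x) (Lx x / 2) (yxb B D x))
    (GG1 (some i) (prx D x) (Lx x / 2) (GG1 (some j) (prx D x) (Lx x / 2) (GX B D x)))
    (((B.Q j).I1 + ε) / (1 / 2 - ε) * (((B.Q i).I1 + ε) / (1 / 2 - ε)))
    (Lx x / 48 + Lx x + Lx x / 2 + Lx x / 2) hΛ0 hG2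
    (fun l a => by
      have s1 : GG1 (some j) (prx D x) (Lx x / 2) (GX B D x) l a ≤ ∏ t ∈ a, kp (prx D x t) := by
        have := GG1_le (some j) (prx D x) hp2 (Lx x / 2) (GX B D x) l a 1 le_rfl
          (GX_le_one B D x hx l a)
        rwa [one_mul] at this
      have s2 := GG1_le (some i) (prx D x) hp2 (Lx x / 2)
        (GG1 (some j) (prx D x) (Lx x / 2) (GX B D x)) l a (∏ t ∈ a, kp (prx D x t)) (hkpp a) s1
      refine s2.trans (le_of_eq ?_)
      rw [← Finset.prod_mul_distrib]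
      exact Finset.prod_congr rfl fun t _ => by ring)
    (fun σ => by
      rw [abs_of_nonneg (ymod2_nonneg (some i) (some j) (prx D x) hp2 (Lx x / 2) _ hy0 σ)]
      refine le_trans (ymod2_le (some i) (some j) (prx D x) hp2 (Lx x / 2) (by positivity)
        (yxb B D x) (GX B D x) hGX (fun τ => yw_le_prod _ _ _ hprof _ _) σ) ?_
      apply mul_le_mul_of_nonneg_right _ (Finset.prod_nonneg fun l _ => hG2 l _)
      exact mul_le_mul hcst.1 hcst.2 hc2 (hc1.trans hcst.1))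
    (fun σ hσ => ymod2_supp (some i) (some j) (prx D x) (Lx x / 2) (Lx x / 48 + Lx x)
      (yxb B D x) (fun τ hτ => yw_supp _ _ _ _ _ (fun s hs hs' => GPb_cut_none B _ _ s hs hs')
        τ hτ) σ hσ) x hx.le
  refine le_trans h ?_
  rw [mul_add, cardJ]
  apply add_le_add _ (le_of_eq rfl)
  have hps := prod_sums B hB ε K x hx hS i j hij
  have hcard : ((univ.erase i).erase j : Finset (Fin k)).card = k - 2 := by
    rw [Finset.card_erase_of_mem (Finset.mem_erase.2 ⟨hij.symm, Finset.mem_univ j⟩),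
      Finset.card_erase_of_mem (Finset.mem_univ i), Finset.card_univ, Fintype.card_fin]
    omega
  have hk2 : 2 ≤ k := by
    have h1 := i.2
    have h2 := j.2
    have h3 : (i : ℕ) ≠ j := fun h => hij (Fin.ext h)
    omega
  calc (((B.Q j).I1 + ε) / (1 / 2 - ε) * (((B.Q i).I1 + ε) / (1 / 2 - ε))) ^ 2 *
        (x / WW D * ∏ l : Option (Fin k), ∑ a : Finset (Ix D x),
      (∏ t ∈ a, (prx D x t : ℝ) / ((prx D x t : ℝ) - 1) ^ 2) *
        GG1 (some i) (prx D x) (Lx x / 2) (GG1 (some j) (prx D x) (Lx x / 2) (GX B D x)) l a ^ 2)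
      ≤ (((B.Q j).I1 + ε) / (1 / 2 - ε) * (((B.Q i).I1 + ε) / (1 / 2 - ε))) ^ 2 *
        (x / WW D * ((BD D * (Lx x / 48) * (1 / 3 + ε)) * ((BD D * Lx x * (1 / 2 + ε)) *
        ((BD D * Lx x * (1 / 2 + ε)) * ∏ l ∈ (univ.erase i).erase j,
          (BD D * Lx x * ((B.Q l).I2 + ε)))))) := by
        gcongr
    _ = _ := by
        rw [Finset.prod_mul_distrib, Finset.prod_const, hcard]
        unfold Q0
        have : (BD D * Lx x) ^ k = (BD D * Lx x) ^ (k - 2) * (BD D * Lx x) ^ 2 := by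
          rw [← pow_add]
          congr 1
          omega
        rw [this]
        field_simp

end Pool.Agent.H361R2.Inf
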