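import Mathlib
import Pool.Agent.H361R2.InfPair2
import Pool.Agent.H361R2.GMain

/-! The sieve upper bound for pairs of primes. -/

namespace Pool.Agent.H361R2.Inf

open Finset Filter Topology
open Pool.Agent.H410R2 hiding GP GP_prof GP_cut_some GP_cut_none GP_lip gg_pos gg_le_one gg_anti ee_bound ee_nonneg gg_lip LB_gg LB_ee Sums exists_sums yx wx wxi Br sum_GP_none sum_GP_some sum_GP_some_ee sum_GP_some_one sum_GPr_none sum_GPr_some S1_final QI_final S2_final w_abs_le wmax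
open GM (SPar)

variable {k : ℕ}

theorem exp_Lx2 (x : ℝ) (hx : 0 < x) :
    Real.exp (Lx x / 48 + Lx x + Lx x / 2 + Lx x / 2) = x ^ (485 / 1000 : ℝ) := by
  rw [Real.rpow_def_of_pos hx]
  congr 1
  unfold Lx
  ring

theorem E2_le (hPB : ProdBound) (k D : ℕ) (M : ℝ) :
    ∀ᶠ x : ℝ in atTop, M ^ 2 * E2 k D x ≤ x / 2 := by
  obtain ⟨C, hC, m, h⟩ := prodIx_le hPB (12 * ((k + 1 : ℕ) : ℝ)) (by positivity) D
  filter_upwards [h, ev_polylog (4 * M ^ 2 * C ^ 2) (2 * m + 1) (97 / 100) 1 (by norm_num),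
    eventually_ge_atTop (Real.exp 1)] with x h1 h2 hx
  have hx0 : 0 < x := lt_of_lt_of_le (Real.exp_pos _) hx
  have hlx : 1 ≤ Real.log x := (Real.le_log_iff_exp_le hx0).2 hx
  have h3 : 0 ≤ ∏ t : Ix D x, (1 + 12 * ((k + 1 : ℕ) : ℝ) / (prx D x t : ℝ)) :=
    Finset.prod_nonneg fun t _ => by positivity
  have h4 : E2 k D x ≤ 2 * C ^ 2 * (Real.log x) ^ (2 * m + 1) * x ^ (97 / 100 : ℝ) := by
    unfold E2
    rw [exp_Lx2 x hx0]
    calc (Real.log x + 1) * (x ^ (485 / 1000 : ℝ) *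
          ∏ t : Ix D x, (1 + 12 * ((k + 1 : ℕ) : ℝ) / (prx D x t : ℝ))) ^ 2
        ≤ (Real.log x + Real.log x) * (x ^ (485 / 1000 : ℝ) * (C * (Real.log x) ^ m)) ^ 2 := by
          gcongr
      _ = 2 * C ^ 2 * (Real.log x) ^ (2 * m + 1) * (x ^ (485 / 1000 : ℝ)) ^ 2 := by ring
      _ = _ := by
          congr 1
          rw [← Real.rpow_natCast, ← Real.rpow_mul hx0.le]
          congr 1
          norm_num
  rw [Real.rpow_one] at h2
  have h5 := mul_le_mul_of_nonneg_left h4 (sq_nonneg M)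
  have h6 : 2 * (M ^ 2 * (2 * C ^ 2 * (Real.log x) ^ (2 * m + 1) * x ^ (97 / 100 : ℝ))) ≤ x := by
    refine le_trans (le_of_eq ?_) h2
    ring
  linarith

theorem pair_bound (B : BPar k) (hI1 : ∀ i, 0 < (B.Q i).I1) (a b : Fin k → ℕ) (D v : ℕ)
    (hc : Ctx a b D v) (ε : ℝ) (hε : 0 < ε) (hε1 : ε < 1 / 10)
    (hS : ∀ᶠ x : ℝ in atTop, SumsB B D ε (k + 1) (Lx x) (Px D x)) :
    ∀ᶠ x : ℝ in atTop, ∀ i j : Fin k, i ≠ j →
        ∑ n ∈ (Icc 1 ⌊x⌋₊).filter
          (fun n => n ≡ v [MOD (WW D)] ∧ (a i * n + b i).Prime ∧ (a j * n + b j).Prime),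
            Real.log (x / n) * (wxb B a b D x n) ^ 2 ≤
        Q0 k D x * ((1 / 3 + ε) * (∏ l ∈ (univ.erase i).erase j, ((B.Q l).I2 + ε)) *
          (((1 / 2 + ε) / (1 / 2 - ε) ^ 2) ^ 2 * ((B.Q i).I1 + ε) ^ 2 * ((B.Q j).I1 + ε) ^ 2)) +
        x := by
  have hE : ∀ᶠ x : ℝ in atTop, ∀ i j : Fin k,
      (((B.Q j).I1 + ε) / (1 / 2 - ε) * (((B.Q i).I1 + ε) / (1 / 2 - ε))) ^ 2 * E2 k D x ≤
        x / 2 := by
    rw [Filter.eventually_all]
    intro i
    rw [Filter.eventually_all]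
    intro j
    exact E2_le Pool.Agent.H361R2.prodBound k D _
  filter_upwards [hE, hS, fab B a b D v hc (1 / 10) (by norm_num),
    ev_polylog 2 1 (34 / 100) 1 (by norm_num), eventually_gt_atTop (1 : ℝ)]
    with x hE hS hfab hpl hx i j hij
  have hx0 : 0 < x := by linarith
  have hlx : 0 < Real.log x := Real.log_pos hx
  have hL := Lx_pos hx
  have hp2 : ∀ t : Ix D x, 2 ≤ prx D x t := fun t => (Px_prime D x t.1 t.2).1.two_le
  have hstep := pair_step B Pool.Agent.H361R2.s1Upper hc ε hε hε1 hI1 (k + 1) x hx hS i j hij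
  set g : ℕ → ℝ := fun n => Real.log (x / n) * (∑ σ, cw (prx D x)
          (ymod2 (some i) (some j) (prx D x) (Lx x / 2) (yxb B D x)) σ *
            hN (LF a b) (prx D x) σ n) ^ 2 with hg
  set h : ℕ → ℝ := fun n => if (n : ℝ) ≤ Real.exp (Lx x) then Real.log x * x ^ (1 / 10 : ℝ)
    else 0 with hh
  have hh0 : ∀ n, 0 ≤ h n := by
    intro n
    simp only [hh]
    split_ifs
    · positivity
    · exact le_rfl
  have hm : ∀ n ∈ Icc 1 ⌊x⌋₊, 1 ≤ n ∧ (n : ℝ) ≤ x := by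
    intro n hn
    rw [Finset.mem_Icc] at hn
    exact ⟨hn.1, (Nat.cast_le.2 hn.2).trans (Nat.floor_le hx0.le)⟩
  have hlogn : ∀ n ∈ Icc 1 ⌊x⌋₊, 0 ≤ Real.log (x / n) ∧ Real.log (x / n) ≤ Real.log x := by
    intro n hn
    obtain ⟨h1, h2⟩ := hm n hn
    have hn1 : (1 : ℝ) ≤ n := by exact_mod_cast h1
    have hn0 : (0 : ℝ) < n := by linarith
    constructor
    · apply Real.log_nonneg
      rw [le_div_iff₀ hn0]
      linarith
    · apply Real.log_le_log (by positivity)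
      exact div_le_self hx0.le hn1
  have hg0 : ∀ n ∈ Icc 1 ⌊x⌋₊, 0 ≤ g n := fun n hn => mul_nonneg (hlogn n hn).1 (sq_nonneg _)
  have key : ∀ n ∈ (Icc 1 ⌊x⌋₊).filter
          (fun n => n ≡ v [MOD (WW D)] ∧ (a i * n + b i).Prime ∧ (a j * n + b j).Prime),
      Real.log (x / n) * (wxb B a b D x n) ^ 2 ≤ g n + h n := by
    intro n hn
    obtain ⟨hn1, -, hpi, hpj⟩ := Finset.mem_filter.1 hn
    have h1 := hg0 n hn1
    have h2 := hlogn n hn1
    have h3 := hm n hn1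
    by_cases hsm : (n : ℝ) ≤ Real.exp (Lx x)
    · have h4 : h n = Real.log x * x ^ (1 / 10 : ℝ) := by
        simp only [hh]
        rw [if_pos hsm]
      have h5 := (hfab n h3.1 h3.2).1
      have h6 : Real.log (x / n) * (wxb B a b D x n) ^ 2 ≤ Real.log x * x ^ (1 / 10 : ℝ) :=
        mul_le_mul h2.2 h5 (sq_nonneg _) hlx.le
      linarith
    · have hnd : ∀ l : Fin k, (a l * n + b l).Prime → ∀ t, ¬ prx D x t ∣ LF a b (some l) n := by
        intro l hl t ht
        have h4 := (Px_prime D x t.1 t.2).1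
        have h5 := Px_le D x t.1 t.2
        have h6 : prx D x t = a l * n + b l := (Nat.prime_dvd_prime_iff_eq h4 hl).1 ht
        have h7 : ((prx D x t : ℕ) : ℝ) = ((a l * n + b l : ℕ) : ℝ) := by rw [h6]
        have h8 : ((prx D x t : ℕ) : ℝ) ≤ Real.exp (Lx x) := h5
        have h9 : n ≤ a l * n + b l := by
          have := hc.ha l
          nlinarith
        have h10 : (n : ℝ) ≤ ((a l * n + b l : ℕ) : ℝ) := by exact_mod_cast h9
        apply hsm
        linarith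
      have h4 := sum_ymod2 (some i) (some j) (prx D x) hp2 (Lx x / 2) (by positivity) (LF a b) n
        (hnd i hpi) (hnd j hpj) (yxb B D x)
      have h5 : g n = Real.log (x / n) * (wxb B a b D x n) ^ 2 := by
        simp only [hg]
        rw [h4]
        rfl
      have := hh0 n
      linarith
  have hsum2 : ∑ n ∈ Icc 1 ⌊x⌋₊, h n ≤ Real.exp (Lx x) * (Real.log x * x ^ (1 / 10 : ℝ)) := by
    simp only [hh]
    rw [← Finset.sum_filter, Finset.sum_const, nsmul_eq_mul]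
    apply mul_le_mul_of_nonneg_right _ (by positivity)
    have hsub : (Icc 1 ⌊x⌋₊).filter (fun n : ℕ => (n : ℝ) ≤ Real.exp (Lx x)) ⊆
        Icc 1 ⌊Real.exp (Lx x)⌋₊ := by
      intro n hn
      rw [Finset.mem_filter, Finset.mem_Icc] at hn
      rw [Finset.mem_Icc]
      exact ⟨hn.1.1, Nat.le_floor hn.2⟩
    calc (((Icc 1 ⌊x⌋₊).filter (fun n : ℕ => (n : ℝ) ≤ Real.exp (Lx x))).card : ℝ) ≤
          ((Icc 1 ⌊Real.exp (Lx x)⌋₊).card : ℝ) := by exact_mod_cast Finset.card_le_card hsub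
      _ = (⌊Real.exp (Lx x)⌋₊ : ℝ) := by simp
      _ ≤ _ := Nat.floor_le (Real.exp_pos _).le
  have hexpL : Real.exp (Lx x) = x ^ (24 / 100 : ℝ) := by
    rw [Real.rpow_def_of_pos hx0]
    congr 1
    unfold Lx
    ring
  have hpl' : Real.exp (Lx x) * (Real.log x * x ^ (1 / 10 : ℝ)) ≤ x / 2 := by
    rw [Real.rpow_one, pow_one] at hpl
    have e : Real.exp (Lx x) * (Real.log x * x ^ (1 / 10 : ℝ)) =
        Real.log x * x ^ (34 / 100 : ℝ) := by
      rw [hexpL, show (34 / 100 : ℝ) = 24 / 100 + 1 / 10 by norm_num, Real.rpow_add hx0]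
      ring
    rw [e]
    linarith
  calc ∑ n ∈ (Icc 1 ⌊x⌋₊).filter
          (fun n => n ≡ v [MOD (WW D)] ∧ (a i * n + b i).Prime ∧ (a j * n + b j).Prime),
            Real.log (x / n) * (wxb B a b D x n) ^ 2
      ≤ ∑ n ∈ (Icc 1 ⌊x⌋₊).filter
          (fun n => n ≡ v [MOD (WW D)] ∧ (a i * n + b i).Prime ∧ (a j * n + b j).Prime),
            (g n + h n) := Finset.sum_le_sum key
    _ = ∑ n ∈ (Icc 1 ⌊x⌋₊).filter
          (fun n => n ≡ v [MOD (WW D)] ∧ (a i * n + b i).Prime ∧ (a j * n + b j).Prime), g n +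
        ∑ n ∈ (Icc 1 ⌊x⌋₊).filter
          (fun n => n ≡ v [MOD (WW D)] ∧ (a i * n + b i).Prime ∧ (a j * n + b j).Prime), h n :=
        Finset.sum_add_distrib
    _ ≤ ∑ n ∈ (Icc 1 ⌊x⌋₊).filter (fun n => n ≡ v [MOD (WW D)]), g n +
        ∑ n ∈ Icc 1 ⌊x⌋₊, h n := by
        apply add_le_add
        · apply Finset.sum_le_sum_of_subset_of_nonneg
          · intro n hn
            rw [Finset.mem_filter] at hn ⊢
            exact ⟨hn.1, hn.2.1⟩
          · intro n hn _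
            exact hg0 n (Finset.mem_filter.1 hn).1
        · apply Finset.sum_le_sum_of_subset_of_nonneg (Finset.filter_subset _ _)
          intro n _ _
          exact hh0 n
    _ ≤ _ := by
        have h1 := hE i j
        linarith

end Pool.Agent.H361R2.Inf
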