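import Mathlib
import Pool.Agent.H361R2.InfIface

/-! T2: finitely additive block measures from finite blocks, by a limit along an ultrafilter. -/

namespace Pool.Agent.H361R2.Inf

open Finset Filter Topology

open Classical in
/-- normalised weight of the set `A` at height `x` -/
noncomputable def t2f (mu : ℝ → ℕ → ℝ) (Z : ℝ → ℝ) (A : Set ℕ) (x : ℝ) : ℝ :=
  (∑ n ∈ (Icc 1 ⌊x⌋₊).filter (fun n => n ∈ A), mu x n) / Z x

theorem t2f_union (mu : ℝ → ℕ → ℝ) (Z : ℝ → ℝ) (A B : Set ℕ) (h : Disjoint A B) (x : ℝ) :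
    t2f mu Z (A ∪ B) x = t2f mu Z A x + t2f mu Z B x := by
  classical
  unfold t2f
  rw [← add_div]
  congr 1
  simp only [Set.mem_union]
  rw [Finset.filter_or, Finset.sum_union]
  rw [Finset.disjoint_filter]
  intro n _ ha hb
  exact Set.disjoint_left.1 h ha hb

/-- T2 -/
theorem blockMeas_of_finBlock (off : ℕ → ℕ) (c : ℝ) (h : FinBlock off c) : BlockMeas off c := by
  classical
  intro J a b hG
  obtain ⟨mu, Z, hev⟩ := h J a b hG
  let F : Ultrafilter ℝ := Ultrafilter.of atTop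
  have hF : (F : Filter ℝ) ≤ atTop := Ultrafilter.of_le _
  have hevF := hev.filter_mono hF
  -- bounds
  have hnn : ∀ A : Set ℕ, ∀ᶠ x in (F : Filter ℝ), 0 ≤ t2f mu Z A x := by
    intro A
    filter_upwards [hevF] with x hx
    refine div_nonneg (Finset.sum_nonneg fun n hn => ?_) hx.1.le
    exact (hx.2.1 n (Finset.mem_filter.1 hn).1).1
  have hle : ∀ A : Set ℕ, ∀ᶠ x in (F : Filter ℝ), t2f mu Z A x ≤ 2 := by
    intro A
    filter_upwards [hevF] with x hx
    unfold t2f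
    rw [div_le_iff₀ hx.1]
    refine (Finset.sum_le_sum_of_subset_of_nonneg (Finset.filter_subset _ _)
      fun n hn _ => (hx.2.1 n hn).1).trans hx.2.2.1
  have hlim : ∀ A : Set ℕ, ∃ y : ℝ, y ∈ Set.Icc (0:ℝ) 2 ∧
      Tendsto (t2f mu Z A) (F : Filter ℝ) (𝓝 y) := by
    intro A
    have h1 : (F.map (t2f mu Z A) : Filter ℝ) ≤ 𝓟 (Set.Icc (0:ℝ) 2) := by
      rw [Filter.le_principal_iff, Ultrafilter.mem_coe, Ultrafilter.mem_map]
      filter_upwards [hnn A, hle A] with x h1 h2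
      exact ⟨h1, h2⟩
    obtain ⟨y, hy, hy2⟩ := isCompact_Icc.ultrafilter_le_nhds (F.map (t2f mu Z A)) h1
    exact ⟨y, hy, hy2⟩
  choose m hm1 hm2 using hlim
  refine ⟨m, ⟨fun A => (hm1 A).1, fun A B hAB => ?_, fun A hA => ?_⟩, (hm1 _).2, fun t ht => ?_⟩
  · have h1 : Tendsto (t2f mu Z (A ∪ B)) (F : Filter ℝ) (𝓝 (m A + m B)) := by
      have h2 := (hm2 A).add (hm2 B)
      refine h2.congr fun x => ?_
      rw [t2f_union mu Z A B hAB x]
    exact tendsto_nhds_unique (hm2 _) h1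
  · have h1 : Tendsto (fun x : ℝ => (hA.toFinset.card : ℝ) * x ^ (-(1 / 4) : ℝ))
        (F : Filter ℝ) (𝓝 0) := by
      have h2 : Tendsto (fun x : ℝ => x ^ (-(1 / 4) : ℝ)) atTop (𝓝 0) :=
        tendsto_rpow_neg_atTop (by norm_num)
      have h3 := (h2.const_mul (hA.toFinset.card : ℝ)).mono_left hF
      simpa using h3
    have h2 : Tendsto (t2f mu Z A) (F : Filter ℝ) (𝓝 0) := by
      refine tendsto_of_tendsto_of_tendsto_of_le_of_le' tendsto_const_nhds h1 (hnn A) ?_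
      filter_upwards [hevF, hF (eventually_gt_atTop (0:ℝ))] with x hx hx0
      unfold t2f
      rw [div_le_iff₀ hx.1]
      have hsub : (Icc 1 ⌊x⌋₊).filter (fun n => n ∈ A) ⊆ hA.toFinset := by
        intro n hn
        rw [Set.Finite.mem_toFinset]
        exact (Finset.mem_filter.1 hn).2
      calc ∑ n ∈ (Icc 1 ⌊x⌋₊).filter (fun n => n ∈ A), mu x n
          ≤ ∑ _n ∈ (Icc 1 ⌊x⌋₊).filter (fun n => n ∈ A), x ^ (-(1 / 4) : ℝ) * Z x :=
            Finset.sum_le_sum fun n hn => (hx.2.1 n (Finset.mem_filter.1 hn).1).2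
        _ = (((Icc 1 ⌊x⌋₊).filter (fun n => n ∈ A)).card : ℝ) * (x ^ (-(1 / 4) : ℝ) * Z x) := by
            rw [Finset.sum_const, nsmul_eq_mul]
        _ ≤ (hA.toFinset.card : ℝ) * (x ^ (-(1 / 4) : ℝ) * Z x) := by
            refine mul_le_mul_of_nonneg_right ?_ ?_
            · exact_mod_cast Finset.card_le_card hsub
            · exact mul_nonneg (Real.rpow_nonneg hx0.le _) hx.1.le
        _ = (hA.toFinset.card : ℝ) * x ^ (-(1 / 4) : ℝ) * Z x := by ring
    exact tendsto_nhds_unique (hm2 _) h2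
  · refine ge_of_tendsto (hm2 _) ?_
    filter_upwards [hevF] with x hx
    unfold t2f
    rw [le_div_iff₀ hx.1]
    have h3 := hx.2.2.2 t ht
    refine h3.trans (le_of_eq (Finset.sum_congr ?_ fun _ _ => rfl))
    ext n
    simp only [Finset.mem_filter]
    exact Iff.rfl

end Pool.Agent.H361R2.Inf
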