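import Mathlib
import Pool.Agent.H361R2.InfT1
import Pool.Agent.H361R2.InfT2
import Pool.Agent.H361R2.InfT3
import Pool.Agent.H361R2.InfA6
import Pool.Agent.H361R2.InfA1
import Pool.Agent.H361R2.InfA2
import Pool.Agent.H361R2.InfA4
import Pool.Agent.H361R2.InfA5
import Pool.Agent.H361R2.InfPair3

/-! Infinite prime patterns: final combination. -/

namespace Pool.Agent.H361R2.Inf

open Finset Filter Topology

theorem infClass : InfClassStmt := by
  intro off hoff h0 c hc hBM A B hA hne W r hW hWp hcop hcop'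
  exact inf_class_of_comb (fun m hm off hoff h0 E c hc hB => comb m hm off hoff h0 E c hc hB)
    off hoff h0 c hc hBM A B hA hne W r hW hWp hcop hcop'

theorem exists_blockMeas : ∃ off : ℕ → ℕ, StrictMono off ∧ off 0 = 0 ∧
    BlockMeas off (1 / 200) := by
  obtain ⟨off, Q, hoff, h0, hQ, hQ1, hQ2⟩ := exists_blocks
  refine ⟨off, hoff, h0, blockMeas_of_finBlock off (1 / 200) ?_⟩
  apply finBlock_of off Q hoff h0 hQ hQ1 hQ2
  intro k B h1 h2 h3 h4 a b ha hb hnp hadm
  exact sieve_out B h1 h2 h3 h4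
    (fun a b D v hc ε hε hε1 hS => pair_bound B h1 a b D v hc ε hε hε1 hS) a b ha hb hnp hadm

/-- every infinite set of primitive linear forms contains an infinite exact prime pattern -/
theorem exact_infinite (F : Set (ℤ × ℤ)) (hF : F.Infinite)
    (hF1 : ∀ f ∈ F, 1 ≤ f.1 ∧ IsCoprime f.1 f.2) :
    ∃ G ⊆ F, G.Infinite ∧ ∀ T : Finset (ℤ × ℤ), (∀ f ∈ T, 1 ≤ f.1) →
      {n : ℕ | ∀ f ∈ T, (Nat.Prime (f.1 * n + f.2).toNat ↔ f ∈ G)}.Infinite := by
  obtain ⟨off, hoff, h0, hBM⟩ := exists_blockMeas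
  exact exact_inf_of infClass off hoff h0 (1 / 200) (by norm_num) hBM F hF hF1

/-- shifts: every infinite set of naturals contains an infinite exact prime pattern -/
theorem exact_shifts (A : Set ℕ) (hA : A.Infinite) :
    ∃ B ⊆ A, B.Infinite ∧ ∀ M : ℕ, {n : ℕ | ∀ j ≤ M, (Nat.Prime (n + j) ↔ j ∈ B)}.Infinite := by
  set φ : ℕ → ℤ × ℤ := fun a => (1, (a : ℤ)) with hφ
  have hinj : Function.Injective φ := by
    intro a b h
    simpa [hφ] using h
  obtain ⟨G, hGF, hGinf, hG⟩ := exact_infinite (φ '' A) (hA.image hinj.injOn) (by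
    rintro _ ⟨a, _, rfl⟩
    exact ⟨le_rfl, isCoprime_one_left⟩)
  refine ⟨φ ⁻¹' G, ?_, ?_, ?_⟩
  · intro a ha
    obtain ⟨b, hb, hba⟩ := hGF ha
    rwa [← hinj hba]
  · intro hfin
    apply hGinf
    have h1 : G ⊆ φ '' (φ ⁻¹' G) := by
      intro f hf
      obtain ⟨b, _, rfl⟩ := hGF hf
      exact ⟨b, hf, rfl⟩
    exact (hfin.image φ).subset h1
  · intro M
    have h1 := hG ((range (M + 1)).image φ) (by
      intro f hf
      obtain ⟨j, _, rfl⟩ := Finset.mem_image.1 hf
      exact le_rfl)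
    refine h1.mono ?_
    intro n hn j hj
    have h2 := hn (φ j) (Finset.mem_image.2 ⟨j, Finset.mem_range.2 (by omega), rfl⟩)
    have h3 : ((1 : ℤ) * n + (j : ℤ)).toNat = n + j := by
      rw [show ((1 : ℤ) * n + (j : ℤ)) = ((n + j : ℕ) : ℤ) by push_cast; ring, Int.toNat_natCast]
    simp only [hφ] at h2
    rw [h3] at h2
    exact h2

end Pool.Agent.H361R2.Inf
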