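import Mathlib

/-! Counting: from hit blocks to hit indices. -/

namespace Pool.Agent.H361R2.Inf

open Finset Filter Topology

open Classical in
theorem hit_le (off : ℕ → ℕ) (hoff : StrictMono off) (I : Set ℕ) (N : ℕ) :
    ((range N).filter (fun t => ∃ i ∈ Ico (off t) (off (t + 1)), i ∈ I)).card ≤
      (I ∩ Set.Iio (off N)).ncard := by
  set S := (range N).filter (fun t => ∃ i ∈ Ico (off t) (off (t + 1)), i ∈ I) with hS
  have h1 : ∀ t ∈ S, ∃ i, off t ≤ i ∧ i < off (t + 1) ∧ i ∈ I := by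
    intro t ht
    simp only [hS, Finset.mem_filter] at ht
    obtain ⟨i, hi, hiI⟩ := ht.2
    rw [Finset.mem_Ico] at hi
    exact ⟨i, hi.1, hi.2, hiI⟩
  choose! g hg using h1
  have hinj : Set.InjOn g (S : Set ℕ) := by
    intro s hs t ht hst
    have h2 := hg s hs
    have h3 := hg t ht
    by_contra hne
    rcases Nat.lt_or_gt_of_ne hne with h | h
    · have : off (s + 1) ≤ off t := hoff.monotone h
      omega
    · have : off (t + 1) ≤ off s := hoff.monotone h
      omega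
  have hsub : g '' (S : Set ℕ) ⊆ I ∩ Set.Iio (off N) := by
    rintro _ ⟨t, ht, rfl⟩
    have h2 := hg t ht
    have h3 : t < N := by
      simp only [hS, Finset.mem_coe, Finset.mem_filter] at ht
      exact Finset.mem_range.1 ht.1
    have h4 : off (t + 1) ≤ off N := hoff.monotone h3
    exact ⟨h2.2.2, lt_of_lt_of_le h2.2.1 h4⟩
  calc S.card = (g '' (S : Set ℕ)).ncard := by
        rw [hinj.ncard_image, Set.ncard_coe_finset]
    _ ≤ _ := Set.ncard_le_ncard hsub ((Set.finite_Iio _).inter_of_right _)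

open Classical in
theorem count_of_blocks (off : ℕ → ℕ) (hoff : StrictMono off) (C δ c θ : ℝ) (hC : 0 < C)
    (hc : 0 < c) (hθ0 : 0 ≤ θ) (hθ : θ * (1 + δ) < 1)
    (hgr : ∀ N : ℕ, (off N : ℝ) ≤ Real.exp (C * ((N : ℝ) + 1) ^ (1 + δ))) (I : Set ℕ)
    (hI : ∃ᶠ N : ℕ in atTop, c * N ≤
      ((range N).filter (fun t => ∃ i ∈ Ico (off t) (off (t + 1)), i ∈ I)).card) :
    ∃ᶠ X : ℕ in atTop, (Real.log X) ^ θ ≤ ((I ∩ Set.Iio X).ncard : ℝ) := by
  -- for large `N` the growth bound beats `c N`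
  have hev : ∀ᶠ N : ℕ in atTop, (C * ((N : ℝ) + 1) ^ (1 + δ)) ^ θ ≤ c * N := by
    have h1 : Tendsto (fun y : ℝ => y ^ (1 - θ * (1 + δ))) atTop atTop :=
      tendsto_rpow_atTop (by linarith)
    have h3 : Tendsto (fun N : ℕ => (N : ℝ) + 1) atTop atTop :=
      tendsto_atTop_add_const_right _ _ tendsto_natCast_atTop_atTop
    filter_upwards [h3.eventually (h1.eventually_ge_atTop (2 * C ^ θ / c)),
      eventually_ge_atTop 1] with N hN hN1
    have hN0 : (0 : ℝ) < (N : ℝ) + 1 := by positivity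
    have hN1' : (1 : ℝ) ≤ N := by exact_mod_cast hN1
    have hCθ : 0 < C ^ θ := by positivity
    rw [Real.mul_rpow hC.le (by positivity), ← Real.rpow_mul hN0.le, mul_comm (1 + δ) θ]
    rw [Real.rpow_sub hN0, Real.rpow_one, div_le_div_iff₀ hc (by positivity)] at hN
    nlinarith
  have h := hI.and_eventually hev
  rw [Filter.frequently_atTop] at h ⊢
  intro a
  obtain ⟨N, hNa, hN1, hN2⟩ := h (a + 1)
  refine ⟨off N, (by have := hoff.le_apply (x := N); omega), ?_⟩
  have hoffN : 1 ≤ off N := by have := hoff.le_apply (x := N); omega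
  have hlog : Real.log (off N) ≤ C * ((N : ℝ) + 1) ^ (1 + δ) := by
    have h3 : (0 : ℝ) < (off N : ℝ) := by exact_mod_cast hoffN
    rw [Real.log_le_iff_le_exp h3]
    exact hgr N
  have hlog0 : 0 ≤ Real.log (off N) := Real.log_natCast_nonneg _
  calc (Real.log (off N)) ^ θ ≤ (C * ((N : ℝ) + 1) ^ (1 + δ)) ^ θ :=
        Real.rpow_le_rpow hlog0 hlog hθ0
    _ ≤ c * N := hN2
    _ ≤ _ := hN1
    _ ≤ _ := by exact_mod_cast hit_le off hoff I N

end Pool.Agent.H361R2.Inf
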