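import Mathlib
import Pool.Agent.H361R2.InfMain
import Pool.Agent.H361R2.InfB2
import Pool.Agent.H361R2.InfB3
import Pool.Agent.H361R2.InfB4
import Pool.Agent.H361R2.InfB5
import Pool.Agent.H361R2.InfQ

/-! Quantitative infinite exact prime patterns: final combination. -/

namespace Pool.Agent.H361R2.Inf

open Finset Filter Topology

/-- `I` has at least `(log X) ^ θ` elements below `X` for arbitrarily large `X` -/
def LogDense (θ : ℝ) (I : Set ℕ) : Prop :=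
  ∃ᶠ X : ℕ in atTop, (Real.log X) ^ θ ≤ ((I ∩ Set.Iio X).ncard : ℝ)

theorem LogDense.mono {θ θ' : ℝ} (h : θ ≤ θ') {I : Set ℕ} (hI : LogDense θ' I) :
    LogDense θ I := by
  unfold LogDense at *
  refine (hI.and_eventually (eventually_ge_atTop 3)).mono ?_
  rintro X ⟨h1, h2⟩
  refine le_trans ?_ h1
  apply Real.rpow_le_rpow_of_exponent_le _ h
  have h3 : (3 : ℝ) ≤ X := by exact_mod_cast h2
  have h4 : (0 : ℝ) < X := by linarith
  rw [Real.le_log_iff_exp_le h4]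
  linarith [Real.exp_one_lt_d9]

theorem exact_seq_quant' (A B : ℕ → ℤ) (hA : ∀ i, 1 ≤ A i)
    (hinj : Function.Injective (fun i => (A i, B i)))
    (hadm : ∀ p : ℕ, p.Prime → ∃ n : ℕ, ∀ i, ¬ (p : ℤ) ∣ A i * n + B i) (θ : ℝ)
    (hθ0 : 1 / 2 ≤ θ) (hθ : θ < 1) :
    ∃ I : Set ℕ, LogDense θ I ∧ ∀ T : Finset (ℤ × ℤ), (∀ f ∈ T, 1 ≤ f.1) →
      {n : ℕ | ∀ f ∈ T, (Nat.Prime (f.1 * n + f.2).toNat ↔ ∃ i ∈ I, f = (A i, B i))}.Infinite := by
  classical
  have hcop : ∀ i, IsCoprime (A i) (B i) := by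
    intro i
    rw [Int.isCoprime_iff_gcd_eq_one]
    by_contra hcon
    obtain ⟨p, hp, hpd⟩ := Nat.exists_prime_and_dvd hcon
    obtain ⟨n, hn⟩ := hadm p hp
    apply hn i
    have h1 : (p : ℤ) ∣ A i := (Int.natCast_dvd_natCast.mpr hpd).trans (Int.gcd_dvd_left ..)
    have h2 : (p : ℤ) ∣ B i := (Int.natCast_dvd_natCast.mpr hpd).trans (Int.gcd_dvd_right ..)
    exact dvd_add (h1.mul_right _) h2
  obtain ⟨off, Q, hoff, h0, hQ, hQ1, hQ2, C, hC, hgr⟩ :=
    exists_blocks_growth ((1 - θ) / 2) (by linarith)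
  have hBM : BlockMeas off (1 / 200) := by
    apply blockMeas_of_finBlock off (1 / 200)
    apply finBlock_of off Q hoff h0 hQ hQ1 hQ2
    intro k B h1 h2 h3 h4 a b ha hb hnp hadm
    exact sieve_out B h1 h2 h3 h4
      (fun a b D v hc ε hε hε1 hS => pair_bound B h1 a b D v hc ε hε hε1 hS) a b ha hb hnp hadm
  apply exact_seq_of (LogDense θ) off _ A B hA hcop hinj hadm
  intro A B hA hne W r hW hWp hcop hcop'
  apply inf_class_of_combP (LogDense θ) off hoff h0 (1 / 200) (by norm_num) _ hBM A B hA hne W r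
    hW hWp hcop hcop'
  intro m hm hm2 E hB
  obtain ⟨I, hI1, hI2⟩ := comb_density m hm hm2 off hoff h0 E (1 / 200) (by norm_num) hB
  refine ⟨I, ?_, hI2⟩
  exact count_of_blocks off hoff C ((1 - θ) / 2) (1 / 200 / 8) θ hC (by norm_num) (by linarith)
    (by nlinarith) hgr I hI1

/-- quantitative exact infinite prime patterns for admissible sequences of linear forms -/
theorem exact_seq_quant (A B : ℕ → ℤ) (hA : ∀ i, 1 ≤ A i)
    (hinj : Function.Injective (fun i => (A i, B i)))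
    (hadm : ∀ p : ℕ, p.Prime → ∃ n : ℕ, ∀ i, ¬ (p : ℤ) ∣ A i * n + B i) (ε : ℝ) (hε : 0 < ε) :
    ∃ I : Set ℕ, LogDense (1 - ε) I ∧ ∀ T : Finset (ℤ × ℤ), (∀ f ∈ T, 1 ≤ f.1) →
      {n : ℕ | ∀ f ∈ T, (Nat.Prime (f.1 * n + f.2).toNat ↔ ∃ i ∈ I, f = (A i, B i))}.Infinite := by
  obtain ⟨I, h1, h2⟩ := exact_seq_quant' A B hA hinj hadm (max (1 - ε) (1 / 2))
    (le_max_right _ _) (max_lt (by linarith) (by norm_num))
  exact ⟨I, h1.mono (le_max_left _ _), h2⟩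

end Pool.Agent.H361R2.Inf
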