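import Mathlib
import Pool.Agent.H361R2.InfQMain

/-! Corollaries: shifts, exponent patterns in Cunningham orbits. -/

namespace Pool.Agent.H361R2.Inf

open Finset Filter Topology

/-- shifts -/
theorem shifts_quant (h : ℕ → ℕ) (hinj : Function.Injective h)
    (hadm : ∀ p : ℕ, p.Prime → ∃ r : ℕ, ∀ i, ¬ p ∣ r + h i) (ε : ℝ) (hε : 0 < ε) :
    ∃ I : Set ℕ, LogDense (1 - ε) I ∧
      ∀ M : ℕ, {n : ℕ | ∀ j ≤ M, (Nat.Prime (n + j) ↔ ∃ i ∈ I, h i = j)}.Infinite := by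
  obtain ⟨I, h1, h2⟩ := exact_seq_quant (fun _ => 1) (fun i => (h i : ℤ)) (fun _ => le_rfl)
    (by
      intro i j hij
      apply hinj
      simpa using hij)
    (by
      intro p hp
      obtain ⟨r, hr⟩ := hadm p hp
      refine ⟨r, fun i hd => hr i ?_⟩
      have e : (1 : ℤ) * r + (h i : ℤ) = ((r + h i : ℕ) : ℤ) := by push_cast; ring
      rw [e] at hd
      exact_mod_cast hd) ε hε
  refine ⟨I, h1, fun M => ?_⟩
  have h3 := h2 ((range (M + 1)).image (fun j : ℕ => ((1 : ℤ), (j : ℤ)))) (by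
    intro f hf
    obtain ⟨j, _, rfl⟩ := Finset.mem_image.1 hf
    exact le_rfl)
  refine h3.mono ?_
  intro n hn j hj
  have h4 := hn ((1 : ℤ), (j : ℤ)) (Finset.mem_image.2 ⟨j, Finset.mem_range.2 (by omega), rfl⟩)
  have h5 : ((1 : ℤ) * n + (j : ℤ)).toNat = n + j := by
    rw [show ((1 : ℤ) * n + (j : ℤ)) = ((n + j : ℕ) : ℤ) by push_cast; ring, Int.toNat_natCast]
  simp only at h4
  rw [h5] at h4
  rw [h4]
  constructor
  · rintro ⟨i, hi, hij⟩
    refine ⟨i, hi, ?_⟩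
    have := (Prod.ext_iff.1 hij).2
    simp only at this
    exact_mod_cast this.symm
  · rintro ⟨i, hi, rfl⟩
    exact ⟨i, hi, rfl⟩

/-- first kind orbits -/
theorem first_kind (s : ℕ → ℕ) (hs : Function.Injective s) (ε : ℝ) (hε : 0 < ε) :
    ∃ I : Set ℕ, LogDense (1 - ε) I ∧
      ∀ M : ℕ, {n : ℕ | ∀ j ≤ M, (Nat.Prime (2 ^ j * n - 1) ↔ ∃ i ∈ I, s i = j)}.Infinite := by
  obtain ⟨I, h1, h2⟩ := exact_seq_quant (fun i => 2 ^ s i) (fun _ => -1)
    (fun _ => one_le_pow₀ (by norm_num))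
    (by
      intro i j hij
      apply hs
      have := (Prod.ext_iff.1 hij).1
      simp only at this
      have h3 : (2 : ℕ) ^ s i = 2 ^ s j := by exact_mod_cast this
      exact Nat.pow_right_injective le_rfl h3)
    (by
      intro p hp
      refine ⟨0, fun i hd => ?_⟩
      have h3 : (p : ℤ) ∣ 1 := by
        have := (dvd_neg (a := (p : ℤ)) (b := 1)).1 (by simpa using hd)
        exact this
      have h4 := Int.natAbs_dvd_natAbs.2 h3
      simp at h4
      exact hp.one_lt.ne' h4) ε hε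
  refine ⟨I, h1, fun M => ?_⟩
  have h3 := h2 ((range (M + 1)).image (fun j : ℕ => ((2 : ℤ) ^ j, (-1 : ℤ)))) (by
    intro f hf
    obtain ⟨j, _, rfl⟩ := Finset.mem_image.1 hf
    exact one_le_pow₀ (by norm_num))
  refine h3.mono ?_
  intro n hn j hj
  have h4 := hn ((2 : ℤ) ^ j, (-1 : ℤ)) (Finset.mem_image.2 ⟨j, Finset.mem_range.2 (by omega), rfl⟩)
  have h5 : ((2 : ℤ) ^ j * n + (-1 : ℤ)).toNat = 2 ^ j * n - 1 := by
    have e : (2 : ℤ) ^ j * n + (-1 : ℤ) = ((2 ^ j * n : ℕ) : ℤ) - 1 := by push_cast; ring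
    rw [e]
    omega
  simp only at h4
  rw [h5] at h4
  rw [h4]
  constructor
  · rintro ⟨i, hi, hij⟩
    refine ⟨i, hi, ?_⟩
    have := (Prod.ext_iff.1 hij).1
    simp only at this
    have h6 : (2 : ℕ) ^ j = 2 ^ s i := by exact_mod_cast this
    exact (Nat.pow_right_injective le_rfl h6).symm
  · rintro ⟨i, hi, rfl⟩
    exact ⟨i, hi, rfl⟩

/-- second kind orbits -/
theorem second_kind (s : ℕ → ℕ) (hs : Function.Injective s) (ε : ℝ) (hε : 0 < ε) :
    ∃ I : Set ℕ, LogDense (1 - ε) I ∧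
      ∀ M : ℕ, {n : ℕ | ∀ j ≤ M, (Nat.Prime (2 ^ j * n + 1) ↔ ∃ i ∈ I, s i = j)}.Infinite := by
  obtain ⟨I, h1, h2⟩ := exact_seq_quant (fun i => 2 ^ s i) (fun _ => 1)
    (fun _ => one_le_pow₀ (by norm_num))
    (by
      intro i j hij
      apply hs
      have := (Prod.ext_iff.1 hij).1
      simp only at this
      have h3 : (2 : ℕ) ^ s i = 2 ^ s j := by exact_mod_cast this
      exact Nat.pow_right_injective le_rfl h3)
    (by
      intro p hp
      refine ⟨0, fun i hd => ?_⟩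
      have h3 : (p : ℤ) ∣ 1 := by simpa using hd
      have h4 := Int.natAbs_dvd_natAbs.2 h3
      simp at h4
      exact hp.one_lt.ne' h4) ε hε
  refine ⟨I, h1, fun M => ?_⟩
  have h3 := h2 ((range (M + 1)).image (fun j : ℕ => ((2 : ℤ) ^ j, (1 : ℤ)))) (by
    intro f hf
    obtain ⟨j, _, rfl⟩ := Finset.mem_image.1 hf
    exact one_le_pow₀ (by norm_num))
  refine h3.mono ?_
  intro n hn j hj
  have h4 := hn ((2 : ℤ) ^ j, (1 : ℤ)) (Finset.mem_image.2 ⟨j, Finset.mem_range.2 (by omega), rfl⟩)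
  have h5 : ((2 : ℤ) ^ j * n + (1 : ℤ)).toNat = 2 ^ j * n + 1 := by
    have e : (2 : ℤ) ^ j * n + (1 : ℤ) = ((2 ^ j * n + 1 : ℕ) : ℤ) := by push_cast; ring
    rw [e, Int.toNat_natCast]
  simp only at h4
  rw [h5] at h4
  rw [h4]
  constructor
  · rintro ⟨i, hi, hij⟩
    refine ⟨i, hi, ?_⟩
    have := (Prod.ext_iff.1 hij).1
    simp only at this
    have h6 : (2 : ℕ) ^ j = 2 ^ s i := by exact_mod_cast this
    exact (Nat.pow_right_injective le_rfl h6).symm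
  · rintro ⟨i, hi, rfl⟩
    exact ⟨i, hi, rfl⟩

end Pool.Agent.H361R2.Inf
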