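import Mathlib
import Pool.Agent.H361R2.InfQMain

/-! Infinite exact prime patterns in arbitrary sequences of primitive linear forms. -/

namespace Pool.Agent.H361R2.Inf

open Finset Filter Topology

theorem LogDense.infinite {θ : ℝ} (hθ : 0 < θ) {I : Set ℕ} (hI : LogDense θ I) : I.Infinite := by
  intro hfin
  have h1 : Tendsto (fun X : ℕ => (Real.log X) ^ θ) atTop atTop :=
    (tendsto_rpow_atTop hθ).comp (Real.tendsto_log_atTop.comp tendsto_natCast_atTop_atTop)
  have h2 := hI.and_eventually (h1.eventually_gt_atTop (I.ncard : ℝ))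
  obtain ⟨X, h3, h4⟩ := h2.exists
  have h5 : (I ∩ Set.Iio X).ncard ≤ I.ncard := Set.ncard_le_ncard Set.inter_subset_left hfin
  have h6 : ((I ∩ Set.Iio X).ncard : ℝ) ≤ I.ncard := by exact_mod_cast h5
  linarith

theorem seq_exact (A B : ℕ → ℤ) (hA : ∀ i, 1 ≤ A i) (hcop : ∀ i, IsCoprime (A i) (B i))
    (hinj : Function.Injective (fun i => (A i, B i))) (ε : ℝ) (hε : 0 < ε) :
    ∃ I : Set ℕ, I.Infinite ∧
      ((∀ p : ℕ, p.Prime → ∃ n : ℕ, ∀ i, ¬ (p : ℤ) ∣ A i * n + B i) → LogDense (1 - ε) I) ∧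
      ∀ T : Finset (ℤ × ℤ), (∀ f ∈ T, 1 ≤ f.1) →
        {n : ℕ | ∀ f ∈ T,
          (Nat.Prime (f.1 * n + f.2).toNat ↔ ∃ i ∈ I, f = (A i, B i))}.Infinite := by
  by_cases hadm : ∀ p : ℕ, p.Prime → ∃ n : ℕ, ∀ i, ¬ (p : ℤ) ∣ A i * n + B i
  · obtain ⟨I, h1, h2⟩ := exact_seq_quant A B hA hinj hadm (min ε (1 / 2))
      (lt_min hε (by norm_num))
    refine ⟨I, h1.infinite ?_, fun _ => h1.mono ?_, h2⟩
    · have := min_le_right ε (1 / 2)
      linarith
    · have := min_le_left ε (1 / 2)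
      linarith
  · obtain ⟨G, hGF, hGinf, hG⟩ := exact_infinite (Set.range (fun i => (A i, B i)))
      (Set.infinite_range_of_injective hinj) (by
        rintro _ ⟨i, rfl⟩
        exact ⟨hA i, hcop i⟩)
    refine ⟨{i | (A i, B i) ∈ G}, ?_, fun h => absurd h hadm, ?_⟩
    · intro hfin
      apply hGinf
      have h1 : G ⊆ (fun i => (A i, B i)) '' {i | (A i, B i) ∈ G} := by
        intro f hf
        obtain ⟨i, hi⟩ := hGF hf
        simp only at hi
        subst hi
        exact ⟨i, hf, rfl⟩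
      exact (hfin.image _).subset h1
    · intro T hT
      refine (hG T hT).mono ?_
      intro n hn f hf
      rw [hn f hf]
      constructor
      · intro h
        obtain ⟨i, hi⟩ := hGF h
        simp only at hi
        subst hi
        exact ⟨i, h, rfl⟩
      · rintro ⟨i, hi, rfl⟩
        exact hi

end Pool.Agent.H361R2.Inf
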