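import Mathlib
import Pool.Agent.H361R2.InfCor
import Pool.Agent.H361R2.InfSeq

/-! More corollaries: an exact pattern of near-logarithmic size; Cunningham orbits started at a
prime. -/

namespace Pool.Agent.H361R2.Inf

open Finset Filter Topology

theorem logDense_image_sq {θ θ' : ℝ} (hθ : 0 ≤ θ) (hθθ' : θ < θ') {I : Set ℕ}
    (hI : LogDense θ' I) : LogDense θ ((fun i => 4 * i ^ 2) '' I) := by
  unfold LogDense at *
  have h1 : Tendsto (fun X : ℕ => (Real.log X) ^ (θ' - θ)) atTop atTop :=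
    (tendsto_rpow_atTop (by linarith)).comp
      (Real.tendsto_log_atTop.comp tendsto_natCast_atTop_atTop)
  have h := (hI.and_eventually ((h1.eventually_ge_atTop (3 ^ θ)).and (eventually_ge_atTop 4)))
  rw [Filter.frequently_atTop] at h ⊢
  intro a
  obtain ⟨X, hXa, h2, h3, h4⟩ := h a
  refine ⟨4 * X ^ 2, by nlinarith, ?_⟩
  have hX : (4 : ℝ) ≤ X := by exact_mod_cast h4
  have hX0 : (0 : ℝ) < X := by linarith
  have hl4 : Real.log 4 ≤ Real.log X := Real.log_le_log (by norm_num) hX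
  have hl40 : 0 < Real.log 4 := Real.log_pos (by norm_num)
  have hl : 0 < Real.log X := by linarith
  have e1 : Real.log ((4 * X ^ 2 : ℕ) : ℝ) = Real.log 4 + 2 * Real.log X := by
    push_cast
    rw [Real.log_mul (by norm_num) (by positivity), Real.log_pow]
    norm_num
  have hinj : Set.InjOn (fun i : ℕ => 4 * i ^ 2) (I ∩ Set.Iio X) := by
    intro i _ j _ hij
    simp only at hij
    have : i ^ 2 = j ^ 2 := by omega
    exact Nat.pow_left_injective (n := 2) (by norm_num) this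
  have hsub : (fun i : ℕ => 4 * i ^ 2) '' (I ∩ Set.Iio X) ⊆
      (fun i : ℕ => 4 * i ^ 2) '' I ∩ Set.Iio (4 * X ^ 2) := by
    rintro _ ⟨i, ⟨hi, hiX⟩, rfl⟩
    refine ⟨⟨i, hi, rfl⟩, ?_⟩
    simp only [Set.mem_Iio] at hiX ⊢
    have : i ^ 2 < X ^ 2 := Nat.pow_lt_pow_left hiX (by norm_num)
    omega
  have hcard : ((I ∩ Set.Iio X).ncard : ℝ) ≤
      (((fun i : ℕ => 4 * i ^ 2) '' I ∩ Set.Iio (4 * X ^ 2)).ncard : ℝ) := by
    rw [← hinj.ncard_image]
    exact_mod_cast Set.ncard_le_ncard hsub ((Set.finite_Iio _).inter_of_right _)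
  refine le_trans ?_ hcard
  refine le_trans ?_ h2
  rw [e1]
  calc (Real.log 4 + 2 * Real.log X) ^ θ ≤ (3 * Real.log X) ^ θ :=
        Real.rpow_le_rpow (by positivity) (by linarith) hθ
    _ = 3 ^ θ * (Real.log X) ^ θ := Real.mul_rpow (by norm_num) hl.le
    _ ≤ (Real.log X) ^ (θ' - θ) * (Real.log X) ^ θ := by gcongr
    _ = (Real.log X) ^ θ' := by
        rw [← Real.rpow_add hl]
        congr 1
        ring

/-- the shifts `4 i ^ 2` avoid a residue class modulo every prime -/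
theorem adm_sq (p : ℕ) (hp : p.Prime) : ∃ r : ℕ, ∀ i : ℕ, ¬ p ∣ r + 4 * i ^ 2 := by
  have := Fact.mk hp
  by_cases h2 : p = 2
  · subst h2
    refine ⟨1, fun i hd => ?_⟩
    omega
  · obtain ⟨a, ha⟩ := FiniteField.exists_nonsquare (F := ZMod p) (by
      rw [ZMod.ringChar_zmod_n]
      exact h2)
    refine ⟨(-a).val, fun i hd => ?_⟩
    have hz : (((-a).val + 4 * i ^ 2 : ℕ) : ZMod p) = 0 := (ZMod.natCast_eq_zero_iff _ _).mpr hd
    push_cast at hz
    rw [ZMod.natCast_zmod_val] at hz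
    apply ha
    refine ⟨2 * (i : ZMod p), ?_⟩
    have h3 : a = 4 * (i : ZMod p) ^ 2 := by
      have := neg_add_eq_zero.mp hz
      exact this
    rw [h3]
    ring

/-- an exact prime pattern of near-logarithmic size -/
theorem dense_pattern (ε : ℝ) (hε : 0 < ε) : ∃ B : Set ℕ, LogDense (1 - ε) B ∧
    ∀ M : ℕ, {n : ℕ | ∀ j ≤ M, (Nat.Prime (n + j) ↔ j ∈ B)}.Infinite := by
  have hinj : Function.Injective (fun i : ℕ => 4 * i ^ 2) := by
    intro i j hij
    simp only at hij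
    have : i ^ 2 = j ^ 2 := by omega
    exact Nat.pow_left_injective (n := 2) (by norm_num) this
  set e : ℝ := min ε (1 / 2) with he
  have he0 : 0 < e := lt_min hε (by norm_num)
  have he1 : e ≤ 1 / 2 := min_le_right _ _
  obtain ⟨I, h1, h2⟩ := shifts_quant (fun i => 4 * i ^ 2) hinj adm_sq (e / 2) (by positivity)
  refine ⟨(fun i => 4 * i ^ 2) '' I, ?_, fun M => (h2 M).mono ?_⟩
  · have h3 : LogDense (1 - e) ((fun i => 4 * i ^ 2) '' I) :=
      logDense_image_sq (by linarith) (by linarith) h1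
    exact h3.mono (by have := min_le_left ε (1 / 2); linarith)
  · intro n hn j hj
    rw [hn j hj]
    rfl

/-- shifting the positions so that they start at `0` -/
theorem LogDense.shift {θ : ℝ} (hθ : 0 ≤ θ) {I : Set ℕ} (hI : LogDense θ I) (e : ℕ)
    (he : ∀ i ∈ I, e ≤ i) : LogDense θ {j | e + j ∈ I} := by
  unfold LogDense at *
  refine hI.mono ?_
  intro X hX
  refine hX.trans ?_
  have hinj : Set.InjOn (fun i : ℕ => i - e) (I ∩ Set.Iio X) := by
    intro i hi j hj hij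
    have h1 := he i hi.1
    have h2 := he j hj.1
    simp only at hij
    omega
  have hsub : (fun i : ℕ => i - e) '' (I ∩ Set.Iio X) ⊆ {j | e + j ∈ I} ∩ Set.Iio X := by
    rintro _ ⟨i, ⟨hi, hiX⟩, rfl⟩
    have h1 := he i hi
    simp only [Set.mem_Iio] at hiX
    refine ⟨?_, ?_⟩
    · change e + (i - e) ∈ I
      rwa [Nat.add_sub_cancel' h1]
    · simp only [Set.mem_Iio]
      omega
  rw [← hinj.ncard_image]
  exact_mod_cast Set.ncard_le_ncard hsub ((Set.finite_Iio _).inter_of_right _)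

/-- first kind orbits started at a prime -/
theorem first_kind_prime (ε : ℝ) (hε : 0 < ε) : ∃ E : Set ℕ, 0 ∈ E ∧ LogDense (1 - ε) E ∧
    ∀ M : ℕ, {p : ℕ | ∀ j ≤ M, (Nat.Prime (2 ^ j * (p + 1) - 1) ↔ j ∈ E)}.Infinite := by
  classical
  set e' : ℝ := min ε (1 / 2) with he'
  have he0 : 0 < e' := lt_min hε (by norm_num)
  have he1 : e' ≤ 1 / 2 := min_le_right _ _
  obtain ⟨I, h1, h2⟩ := first_kind id Function.injective_id e' he0
  have hinf : I.Infinite := h1.infinite (by linarith)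
  obtain ⟨e, heI, hemin⟩ : ∃ e ∈ I, ∀ i ∈ I, e ≤ i := by
    refine ⟨sInf I, Nat.sInf_mem hinf.nonempty, fun i hi => Nat.sInf_le hi⟩
  refine ⟨{j | e + j ∈ I}, by simpa using heI,
    (h1.shift (by linarith) e hemin).mono (by have := min_le_left ε (1 / 2); linarith), ?_⟩
  intro M
  have h3 := h2 (e + M)
  have hinj : Set.InjOn (fun n : ℕ => 2 ^ e * n - 1)
      {n : ℕ | ∀ j ≤ e + M, (Nat.Prime (2 ^ j * n - 1) ↔ ∃ i ∈ I, id i = j)} := by
    intro m hm n hn hmn
    have hm1 := (hm e (by omega)).2 ⟨e, heI, rfl⟩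
    have hn1 := (hn e (by omega)).2 ⟨e, heI, rfl⟩
    have h4 := hm1.two_le
    have h5 := hn1.two_le
    simp only at hmn
    have h6 : 2 ^ e * m = 2 ^ e * n := by omega
    exact Nat.eq_of_mul_eq_mul_left (by positivity) h6
  refine (h3.image hinj).mono ?_
  rintro _ ⟨n, hn, rfl⟩ j hj
  have hn1 := (hn e (by omega)).2 ⟨e, heI, rfl⟩
  have h4 := hn1.two_le
  simp only
  have h5 : 2 ^ j * (2 ^ e * n - 1 + 1) = 2 ^ (e + j) * n := by
    have : 2 ^ e * n - 1 + 1 = 2 ^ e * n := by omega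
    rw [this, pow_add]
    ring
  rw [h5, hn (e + j) (by omega)]
  constructor
  · rintro ⟨i, hi, hij⟩
    simp only [id] at hij
    subst hij
    exact hi
  · intro h
    exact ⟨e + j, h, rfl⟩

/-- second kind orbits started at a prime -/
theorem second_kind_prime (ε : ℝ) (hε : 0 < ε) : ∃ E : Set ℕ, 0 ∈ E ∧ LogDense (1 - ε) E ∧
    ∀ M : ℕ, {p : ℕ | ∀ j ≤ M, (Nat.Prime (2 ^ j * (p - 1) + 1) ↔ j ∈ E)}.Infinite := by
  classical
  set e' : ℝ := min ε (1 / 2) with he'
  have he0 : 0 < e' := lt_min hε (by norm_num)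
  have he1 : e' ≤ 1 / 2 := min_le_right _ _
  obtain ⟨I, h1, h2⟩ := second_kind id Function.injective_id e' he0
  have hinf : I.Infinite := h1.infinite (by linarith)
  obtain ⟨e, heI, hemin⟩ : ∃ e ∈ I, ∀ i ∈ I, e ≤ i := by
    refine ⟨sInf I, Nat.sInf_mem hinf.nonempty, fun i hi => Nat.sInf_le hi⟩
  refine ⟨{j | e + j ∈ I}, by simpa using heI,
    (h1.shift (by linarith) e hemin).mono (by have := min_le_left ε (1 / 2); linarith), ?_⟩
  intro M
  have h3 := h2 (e + M)
  have hinj : Set.InjOn (fun n : ℕ => 2 ^ e * n + 1)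
      {n : ℕ | ∀ j ≤ e + M, (Nat.Prime (2 ^ j * n + 1) ↔ ∃ i ∈ I, id i = j)} := by
    intro m _ n _ hmn
    simp only at hmn
    have h6 : 2 ^ e * m = 2 ^ e * n := by omega
    exact Nat.eq_of_mul_eq_mul_left (by positivity) h6
  refine (h3.image hinj).mono ?_
  rintro _ ⟨n, hn, rfl⟩ j hj
  simp only
  have h5 : 2 ^ j * (2 ^ e * n + 1 - 1) + 1 = 2 ^ (e + j) * n + 1 := by
    have : 2 ^ e * n + 1 - 1 = 2 ^ e * n := by omega
    rw [this, pow_add]
    ring
  rw [h5, hn (e + j) (by omega)]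
  constructor
  · rintro ⟨i, hi, hij⟩
    simp only [id] at hij
    subst hij
    exact hi
  · intro h
    exact ⟨e + j, h, rfl⟩

/-- primes of one kind only -/
theorem pure_kind (δ : ℤ) (hδ : δ = 1 ∨ δ = -1) (ε : ℝ) (hε : 0 < ε) :
    ∃ E : Set ℕ, LogDense (1 - ε) E ∧
    ∀ M : ℕ, {n : ℕ | ∀ j ≤ M, (Nat.Prime (2 ^ j * (n : ℤ) + δ).toNat ↔ j ∈ E) ∧
      ¬ Nat.Prime (2 ^ j * (n : ℤ) - δ).toNat}.Infinite := by
  have hpw : ∀ i j : ℕ, (2 : ℤ) ^ i = 2 ^ j → i = j := by
    intro i j h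
    have h3 : (2 : ℕ) ^ i = 2 ^ j := by exact_mod_cast h
    exact Nat.pow_right_injective le_rfl h3
  obtain ⟨I, h1, h2⟩ := exact_seq_quant (fun i => 2 ^ i) (fun _ => δ)
    (fun _ => one_le_pow₀ (by norm_num))
    (by
      intro i j hij
      exact hpw i j (Prod.ext_iff.1 hij).1)
    (by
      intro p hp
      refine ⟨0, fun i hd => ?_⟩
      have h3 : (p : ℤ) ∣ 1 := by
        rcases hδ with h | h
        · simpa [h] using hd
        · simpa [h] using hd
      have h4 := Int.natAbs_dvd_natAbs.2 h3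
      simp at h4
      exact hp.one_lt.ne' h4) ε hε
  refine ⟨I, h1, fun M => ?_⟩
  have h3 := h2 ((range (M + 1)).image (fun j : ℕ => ((2 : ℤ) ^ j, δ)) ∪
    (range (M + 1)).image (fun j : ℕ => ((2 : ℤ) ^ j, -δ))) (by
    intro f hf
    rcases Finset.mem_union.1 hf with hf | hf
    · obtain ⟨j, _, rfl⟩ := Finset.mem_image.1 hf
      exact one_le_pow₀ (by norm_num)
    · obtain ⟨j, _, rfl⟩ := Finset.mem_image.1 hf
      exact one_le_pow₀ (by norm_num))
  refine h3.mono ?_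
  intro n hn j hj
  have h4 := hn ((2 : ℤ) ^ j, δ) (Finset.mem_union_left _
    (Finset.mem_image.2 ⟨j, Finset.mem_range.2 (by omega), rfl⟩))
  have h5 := hn ((2 : ℤ) ^ j, -δ) (Finset.mem_union_right _
    (Finset.mem_image.2 ⟨j, Finset.mem_range.2 (by omega), rfl⟩))
  simp only at h4 h5
  constructor
  · rw [h4]
    constructor
    · rintro ⟨i, hi, hij⟩
      have := hpw j i (Prod.ext_iff.1 hij).1
      rwa [this]
    · intro hjI
      exact ⟨j, hjI, rfl⟩
  · intro hpr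
    rw [sub_eq_add_neg] at hpr
    obtain ⟨i, _, hij⟩ := h5.1 hpr
    have h6 : -δ = δ := (Prod.ext_iff.1 hij).2
    rcases hδ with h | h <;> rw [h] at h6 <;> norm_num at h6

end Pool.Agent.H361R2.Inf
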