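import Mathlib
import Pool.Agent.H361R2.Chain

/-! Ratios of shifted primes: `(p - c) / (q - c)` takes, infinitely often, some value among
finitely many multiples of every given integer. -/

namespace Pool.Agent.H361R2

open Finset

/-- there are infinitely many primes `q` such that `p - c = d (q - c)` for a prime `p` -/
def RatioGood (c : ℤ) (d : ℕ) : Prop :=
  {q : ℕ | q.Prime ∧ ∃ p : ℕ, p.Prime ∧ (p : ℤ) - c = d * (q - c)}.Infinite

theorem coprime_natAbs_succ (c : ℤ) : IsCoprime ((c.natAbs + 1 : ℕ) : ℤ) c := by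
  rcases abs_choice c with h | h
  · refine ⟨1, -1, ?_⟩
    push_cast
    rw [h]; ring
  · refine ⟨1, 1, ?_⟩
    push_cast
    rw [h]; ring

theorem ratio_chain {c : ℤ} (hc : c ≠ 0) (k : ℕ)
    (H : ∀ F : Finset ℕ, F.card < k → (∀ f ∈ F, 2 ≤ f) → ∃ d : ℕ, 0 < d ∧ IsCoprime (d : ℤ) c ∧
      ∀ f ∈ F, ¬ RatioGood c (f * d)) (m : ℕ) (hm : m + 1 ≤ k) :
    ∃ A : ℕ → ℕ, (∀ i ≤ m, 0 < A i ∧ IsCoprime (A i : ℤ) c) ∧
      (∀ i j, i < j → j ≤ m → A i < A j) ∧
      (∀ i j, i < j → j ≤ m → ∃ D : ℕ, A j = D * A i ∧ ¬ RatioGood c D) := by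
  classical
  induction m with
  | zero =>
    refine ⟨fun _ => 1, ?_, ?_, ?_⟩
    · intro i _; exact ⟨Nat.one_pos, by simpa using isCoprime_one_left⟩
    · intro i j h1 h2; omega
    · intro i j h1 h2; omega
  | succ m ih =>
    obtain ⟨A, hpos, hmono, hrel⟩ := ih (by omega)
    have hrel' : ∀ i, i ≤ m → ∃ D : ℕ, A m = D * A i := by
      intro i hi
      rcases Nat.lt_or_ge i m with h | h
      · obtain ⟨D, h1, _⟩ := hrel i m h le_rfl
        exact ⟨D, h1⟩
      · have : i = m := le_antisymm hi h
        subst this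
        exact ⟨1, by ring⟩
    choose! V hV using hrel'
    have hVpos : ∀ i ≤ m, 0 < V i := by
      intro i hi
      rcases Nat.eq_zero_or_pos (V i) with h | h
      · have h1 := hV i hi
        rw [h, zero_mul] at h1
        exact absurd h1 (hpos m le_rfl).1.ne'
      · exact h
    set e : ℕ := c.natAbs + 1 with he
    have he2 : 2 ≤ e := by
      have := Int.natAbs_pos.2 hc
      omega
    set F : Finset ℕ := (range (m + 1)).image (fun i => e * V i) with hF
    obtain ⟨d, hd, hcop, hbad⟩ := H F (lt_of_le_of_lt card_image_le (by rw [card_range]; omega)) (by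
      intro f hf
      rw [hF, mem_image] at hf
      obtain ⟨i, hi, rfl⟩ := hf
      have := hVpos i (by have := mem_range.1 hi; omega)
      nlinarith)
    refine ⟨fun i => if i ≤ m then A i else e * d * A m, ?_, ?_, ?_⟩
    · intro i _
      by_cases h : i ≤ m
      · simp only [h, if_true]; exact hpos i h
      · simp only [h, if_false]
        refine ⟨Nat.mul_pos (Nat.mul_pos (by omega) hd) (hpos m le_rfl).1, ?_⟩
        push_cast
        exact IsCoprime.mul_left (IsCoprime.mul_left (by
          have := coprime_natAbs_succ c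
          rw [← he] at this
          exact this) hcop) (hpos m le_rfl).2
    · intro i j hij hj
      have hi : i ≤ m := by omega
      by_cases h : j ≤ m
      · simp only [hi, h, if_true]; exact hmono i j hij h
      · simp only [hi, h, if_true, if_false]
        have h1 : A i ≤ A m := by
          rcases Nat.lt_or_ge i m with h' | h'
          · exact (hmono i m h' le_rfl).le
          · have : i = m := le_antisymm hi h'
            rw [this]
        have h2 : A m < e * d * A m := by
          have h3 : 2 ≤ e * d := le_trans he2 (Nat.le_mul_of_pos_right _ hd)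
          have h4 := (hpos m le_rfl).1
          nlinarith
        omega
    · intro i j hij hj
      have hi : i ≤ m := by omega
      by_cases h : j ≤ m
      · simp only [hi, h, if_true]; exact hrel i j hij h
      · simp only [hi, h, if_true, if_false]
        refine ⟨e * V i * d, ?_, ?_⟩
        · rw [hV i hi]; ring
        · exact hbad _ (by rw [hF, mem_image]; exact ⟨i, mem_range.2 (by omega), rfl⟩)

/-- From Maynard-Tao: for every nonzero shift `c` there is a set `F` of fewer than `k` integers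
`≥ 2` such that every positive integer `d` prime to `c` has a multiple `f * d`, `f ∈ F`, of the form
`(p - c) / (q - c)` for infinitely many pairs of primes. -/
theorem ratio_syndetic (k : ℕ) (hk : MaynardTao k) {c : ℤ} (hc : c ≠ 0) :
    ∃ F : Finset ℕ, F.card < k ∧ (∀ f ∈ F, 2 ≤ f) ∧ ∀ d : ℕ, 0 < d → IsCoprime (d : ℤ) c →
      ∃ f ∈ F, RatioGood c (f * d) := by
  by_contra hcon
  push Not at hcon
  have hk1 : 1 ≤ k := by
    by_contra h0
    have h0' : k = 0 := by omega
    subst h0'
    obtain ⟨i, _⟩ := hk (fun i => i.elim0) (fun i => i.elim0) (fun i => i.elim0)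
      (fun i => i.elim0) (fun p _ => ⟨0, fun i => i.elim0⟩)
    exact i.elim0
  obtain ⟨A, hpos, hmono, hrel⟩ := ratio_chain hc k hcon (k - 1) (by omega)
  obtain ⟨i, j, hij, hinf⟩ := hk (fun i => A i) (fun _ => c)
    (fun i => (hpos i (by omega)).1) (by
      intro x y hxy
      simp only [Prod.mk.injEq] at hxy
      by_contra hne
      have hne' : (x : ℕ) ≠ y := fun h => hne (Fin.ext h)
      rcases Nat.lt_or_gt_of_ne hne' with h | h
      · exact (hmono x y h (by omega)).ne hxy.1
      · exact (hmono y x h (by omega)).ne' hxy.1) (by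
      intro p hp
      have hpI : Prime (p : ℤ) := Nat.prime_iff_prime_int.1 hp
      by_cases hpc : (p : ℤ) ∣ c
      · refine ⟨1, fun i h => ?_⟩
        rw [mul_one] at h
        have h1 : (p : ℤ) ∣ A i := (dvd_add_left hpc).1 h
        exact hpI.not_isUnit ((hpos i (by omega)).2.isUnit_of_dvd' h1 hpc)
      · refine ⟨0, fun i h => ?_⟩
        rw [mul_zero, zero_add] at h
        exact hpc h)
  have key : ∀ i j : Fin k, (i : ℕ) < j →
      {n : ℕ | (∃ p : ℕ, p.Prime ∧ ((A i : ℕ) * n + c : ℤ) = p) ∧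
        (∃ q : ℕ, q.Prime ∧ ((A j : ℕ) * n + c : ℤ) = q)}.Infinite → False := by
    intro i j hlt hI
    obtain ⟨D, h1, h2⟩ := hrel i j hlt (by omega)
    apply h2
    have hinj : Set.InjOn (fun n : ℕ => ((A i : ℕ) * n + c : ℤ).toNat)
        {n : ℕ | (∃ p : ℕ, p.Prime ∧ ((A i : ℕ) * n + c : ℤ) = p) ∧
        (∃ q : ℕ, q.Prime ∧ ((A j : ℕ) * n + c : ℤ) = q)} := by
      rintro x ⟨⟨p, hp, hpx⟩, _⟩ y ⟨⟨q, hq, hqy⟩, _⟩ hxy
      simp only at hxy
      rw [hpx, hqy] at hxy
      simp only [Int.toNat_natCast] at hxy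
      rw [hxy, ← hqy] at hpx
      have h3 : (A i : ℤ) * x = A i * y := by linarith
      have h4 : (A i : ℤ) ≠ 0 := by exact_mod_cast (hpos i (by omega)).1.ne'
      exact_mod_cast mul_left_cancel₀ h4 h3
    apply (hI.image hinj).mono
    rintro q ⟨n, ⟨⟨p, hp, hpn⟩, ⟨r, hr, hrn⟩⟩, rfl⟩
    simp only [Set.mem_ofPred_eq]
    rw [hpn, Int.toNat_natCast]
    refine ⟨hp, r, hr, ?_⟩
    rw [← hrn, ← hpn, h1]
    push_cast
    ring
  have hij' : (i : ℕ) ≠ j := fun h => hij (Fin.ext h)
  rcases Nat.lt_or_gt_of_ne hij' with h | h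
  · exact key i j h hinf
  · refine key j i h (hinf.mono ?_)
    rintro n ⟨h4, h5⟩
    exact ⟨h5, h4⟩

end Pool.Agent.H361R2
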